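import Mathlib

namespace Pool.Agent.Lib.FL.H64

open Finset

variable {ι : Type} [DecidableEq ι]

/-- the rank axioms of a matroid -/
structure IsRk (rk : Finset ι → ℕ) : Prop where
  empty : rk ∅ = 0
  mono : ∀ A B, A ⊆ B → rk A ≤ rk B
  ins : ∀ A e, rk (insert e A) ≤ rk A + 1
  sub : ∀ A B, rk (A ∪ B) + rk (A ∩ B) ≤ rk A + rk B

/-- closure inside the ground set `E` -/
def cl (rk : Finset ι → ℕ) (E A : Finset ι) : Finset ι :=
  E.filter fun e => rk (insert e A) = rk A

/-- flats -/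
def Flat (rk : Finset ι → ℕ) (E F : Finset ι) : Prop :=
  F ⊆ E ∧ ∀ e ∈ E, rk (insert e F) = rk F → e ∈ F

/-- covering relation of flats -/
def Cov (rk : Finset ι → ℕ) (E K P : Finset ι) : Prop :=
  Flat rk E K ∧ Flat rk E P ∧ K ⊆ P ∧ rk P = rk K + 1

open Classical in
/-- the finite set of flats -/
noncomputable def Fl (rk : Finset ι → ℕ) (E : Finset ι) : Finset (Finset ι) :=
  E.powerset.filter (Flat rk E)

variable {rk : Finset ι → ℕ} {E : Finset ι}

theorem mem_Fl {F : Finset ι} : F ∈ Fl rk E ↔ Flat rk E F := by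
  classical
  simp only [Fl, mem_filter, mem_powerset]
  exact ⟨fun h => h.2, fun h => ⟨h.1, h⟩⟩

theorem mem_cl {A : Finset ι} {e : ι} : e ∈ cl rk E A ↔ e ∈ E ∧ rk (insert e A) = rk A :=
  mem_filter

theorem cl_subset (A : Finset ι) : cl rk E A ⊆ E := filter_subset _ _

theorem subset_cl {A : Finset ι} (hA : A ⊆ E) : A ⊆ cl rk E A := fun e he =>
  mem_cl.2 ⟨hA he, by rw [insert_eq_of_mem he]⟩

theorem flat_top : Flat rk E E := ⟨Subset.rfl, fun _ h _ => h⟩

theorem Cov.card_lt {K P : Finset ι} (h : Cov rk E K P) : K.card < P.card :=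
  card_lt_card ⟨h.2.2.1, fun h' => by
    have := Subset.antisymm h.2.2.1 h'
    have h2 := h.2.2.2
    rw [this] at h2
    omega⟩

namespace IsRk

variable (h : IsRk rk)
include h

theorem le_card (A : Finset ι) : rk A ≤ A.card := by
  induction A using Finset.induction_on with
  | empty => rw [h.empty]; exact Nat.zero_le _
  | insert e A he ih => rw [card_insert_of_notMem he]; linarith [h.ins A e]

theorem le_ins (A : Finset ι) (e : ι) : rk A ≤ rk (insert e A) := h.mono _ _ (subset_insert _ _)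

theorem ins_of_sub {A B : Finset ι} (hAB : A ⊆ B) {e : ι} (he : rk (insert e A) = rk A) :
    rk (insert e B) = rk B := by
  have h1 := h.sub (insert e A) B
  have h2 : insert e A ∪ B = insert e B := by rw [insert_union, union_eq_right.2 hAB]
  have h3 := h.mono A (insert e A ∩ B) (subset_inter (subset_insert _ _) hAB)
  have h4 := h.le_ins B e
  rw [h2] at h1
  omega

theorem union_span {A : Finset ι} (B : Finset ι) (hB : ∀ e ∈ B, rk (insert e A) = rk A) :
    rk (A ∪ B) = rk A := by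
  induction B using Finset.induction_on with
  | empty => rw [union_empty]
  | insert e B he ih =>
    rw [union_insert, h.ins_of_sub subset_union_left (hB e (mem_insert_self _ _)),
      ih fun f hf => hB f (mem_insert_of_mem hf)]

theorem rk_cl {A : Finset ι} (hA : A ⊆ E) : rk (cl rk E A) = rk A := by
  have := h.union_span (A := A) (cl rk E A) fun e he => (mem_cl.1 he).2
  rwa [union_eq_right.2 (subset_cl hA)] at this

theorem flat_cl {A : Finset ι} (hA : A ⊆ E) : Flat rk E (cl rk E A) := by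
  refine ⟨cl_subset _, fun e he h1 => mem_cl.2 ⟨he, ?_⟩⟩
  have h2 := h.mono _ _ (insert_subset_insert e (subset_cl (rk := rk) hA))
  have h3 := h.rk_cl hA
  have h4 := h.le_ins A e
  omega

theorem cl_min {A F : Finset ι} (hF : Flat rk E F) (hA : A ⊆ F) : cl rk E A ⊆ F := fun e he =>
  hF.2 e (mem_cl.1 he).1 (h.ins_of_sub hA (mem_cl.1 he).2)

theorem cl_eq {A F : Finset ι} (hF : Flat rk E F) (hA : A ⊆ F) (hr : rk F ≤ rk A) :
    cl rk E A = F := by
  refine Subset.antisymm (h.cl_min hF hA) fun e he => mem_cl.2 ⟨hF.1 he, ?_⟩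
  have h1 := h.mono _ _ (insert_subset he hA)
  have h2 := h.le_ins A e
  omega

theorem flat_eq {K P : Finset ι} (hK : Flat rk E K) (hP : Flat rk E P) (hs : K ⊆ P)
    (hr : rk P ≤ rk K) : K = P := by
  rw [← h.cl_eq hP hs hr, h.cl_eq hK Subset.rfl le_rfl]

theorem rk_ins_flat {K : Finset ι} (hK : Flat rk E K) {e : ι} (he : e ∈ E) (heK : e ∉ K) :
    rk (insert e K) = rk K + 1 := by
  have h1 := h.ins K e
  have h2 := h.le_ins K e
  have h3 : rk (insert e K) ≠ rk K := fun h' => heK (hK.2 e he h')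
  omega

theorem cov_cl {K : Finset ι} (hK : Flat rk E K) {e : ι} (he : e ∈ E) (heK : e ∉ K) :
    Cov rk E K (cl rk E (insert e K)) := by
  have hs : insert e K ⊆ E := insert_subset he hK.1
  exact ⟨hK, h.flat_cl hs, (subset_insert _ _).trans (subset_cl hs), by
    rw [h.rk_cl hs, h.rk_ins_flat hK he heK]⟩

theorem cov_eq {K P : Finset ι} (hc : Cov rk E K P) {e : ι} (he : e ∈ P) (heK : e ∉ K) :
    cl rk E (insert e K) = P :=
  h.cl_eq hc.2.1 (insert_subset he hc.2.2.1)
    (by rw [h.rk_ins_flat hc.1 (hc.2.1.1 he) heK, hc.2.2.2])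

/-- the covers of `K` below `T` partition `T \ K` -/
theorem sum_cov {K T : Finset ι} (hK : Flat rk E K) (hT : Flat rk E T) (hs : K ⊆ T)
    (S : Finset (Finset ι)) (hS : ∀ P, P ∈ S ↔ Cov rk E K P ∧ P ⊆ T) :
    ∑ P ∈ S, ((P.card : ℝ) - K.card) = T.card - K.card := by
  have h1 : (T \ K).card = ∑ P ∈ S, ((T \ K).filter fun e => cl rk E (insert e K) = P).card :=
    card_eq_sum_card_fiberwise fun e he => by
      have he' := mem_sdiff.1 (mem_coe.1 he)
      exact mem_coe.2 ((hS _).2 ⟨h.cov_cl hK (hT.1 he'.1) he'.2,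
        h.cl_min hT (insert_subset he'.1 hs)⟩)
  have h2 : ∀ P ∈ S, ((T \ K).filter fun e => cl rk E (insert e K) = P) = P \ K := by
    intro P hP
    obtain ⟨hc, hPT⟩ := (hS P).1 hP
    ext e
    simp only [mem_filter, mem_sdiff]
    constructor
    · rintro ⟨⟨a, b⟩, rfl⟩
      exact ⟨subset_cl (insert_subset (hT.1 a) hK.1) (mem_insert_self _ _), b⟩
    · rintro ⟨a, b⟩
      exact ⟨⟨hPT a, b⟩, h.cov_eq hc a b⟩
  rw [← cast_card_sdiff hs, h1, Nat.cast_sum]
  refine sum_congr rfl fun P hP => ?_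
  rw [h2 P hP, cast_card_sdiff ((hS P).1 hP).1.2.2.1]

/-- rank two partition -/
theorem sum_mid {K P Q : Finset ι} (h1 : Cov rk E K P) (h2 : Cov rk E P Q)
    (S : Finset (Finset ι)) (hS : ∀ P', P' ∈ S ↔ Cov rk E K P' ∧ Cov rk E P' Q) :
    ∑ P' ∈ S, ((P'.card : ℝ) - K.card) = Q.card - K.card := by
  refine h.sum_cov h1.1 h2.2.1 (h1.2.2.1.trans h2.2.2.1) S fun P' => ?_
  rw [hS]
  refine and_congr_right fun hc => ⟨fun a => a.2.2.1, fun a => ⟨hc.2.1, h2.2.1, a, ?_⟩⟩
  rw [h2.2.2.2, h1.2.2.2, hc.2.2.2]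

theorem rk_union_cov {K P P' : Finset ι} (h1 : Cov rk E K P) (h2 : Cov rk E K P') (hne : P ≠ P') :
    rk (P ∪ P') = rk K + 2 := by
  have a1 := h.sub P P'
  have a2 := h.mono K (P ∩ P') (subset_inter h1.2.2.1 h2.2.2.1)
  have a3 := h1.2.2.2
  have a4 := h2.2.2.2
  have a5 : ¬ P' ⊆ P := fun hs => hne (h.flat_eq h2.2.1 h1.2.1 hs (by omega)).symm
  obtain ⟨e, he, heP⟩ := not_subset.1 a5
  have a6 := h.rk_ins_flat h1.2.1 (h2.2.1.1 he) heP
  have a7 := h.mono (insert e P) (P ∪ P')
    (insert_subset (mem_union_right _ he) subset_union_left)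
  omega

/-- two different covers of `K` have the common cover `cl (P ∪ P')` -/
theorem cov_join {K P P' : Finset ι} (h1 : Cov rk E K P) (h2 : Cov rk E K P') (hne : P ≠ P') :
    Cov rk E P (cl rk E (P ∪ P')) ∧ Cov rk E P' (cl rk E (P ∪ P')) := by
  have hs : P ∪ P' ⊆ E := union_subset h1.2.1.1 h2.2.1.1
  have hr := h.rk_union_cov h1 h2 hne
  exact ⟨⟨h1.2.1, h.flat_cl hs, subset_union_left.trans (subset_cl hs), by
      rw [h.rk_cl hs, hr, h1.2.2.2]⟩,
    ⟨h2.2.1, h.flat_cl hs, subset_union_right.trans (subset_cl hs), by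
      rw [h.rk_cl hs, hr, h2.2.2.2]⟩⟩

theorem join_eq {K P P' Z : Finset ι} (h1 : Cov rk E K P) (h2 : Cov rk E K P') (hne : P ≠ P')
    (h3 : Cov rk E P Z) (h4 : Cov rk E P' Z) : cl rk E (P ∪ P') = Z :=
  h.cl_eq h3.2.1 (union_subset h3.2.2.1 h4.2.2.1)
    (by rw [h.rk_union_cov h1 h2 hne, h3.2.2.2, h1.2.2.2])

theorem join_unique {K P P' Z Z' : Finset ι} (h1 : Cov rk E K P) (h2 : Cov rk E K P')
    (hne : P ≠ P') (h3 : Cov rk E P Z) (h4 : Cov rk E P' Z) (h5 : Cov rk E P Z')
    (h6 : Cov rk E P' Z') : Z = Z' := by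
  rw [← h.join_eq h1 h2 hne h3 h4, h.join_eq h1 h2 hne h5 h6]

theorem join_le {P P' T : Finset ι} (hT : Flat rk E T) (h1 : P ⊆ T) (h2 : P' ⊆ T) :
    cl rk E (P ∪ P') ⊆ T := h.cl_min hT (union_subset h1 h2)

/-- a flat strictly below `T` has a cover below `T` -/
theorem exists_cov {K T : Finset ι} (hK : Flat rk E K) (hT : Flat rk E T) (hs : K ⊆ T)
    (hne : K ≠ T) : ∃ P, Cov rk E K P ∧ P ⊆ T := by
  obtain ⟨e, he, heK⟩ := exists_of_ssubset (ssubset_of_subset_of_ne hs hne)
  exact ⟨_, h.cov_cl hK (hT.1 he) heK, h.cl_min hT (insert_subset he hs)⟩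

/-- chains of covers from `K` to `T` -/
theorem exists_chain (n : ℕ) : ∀ {K T : Finset ι}, Flat rk E K → Flat rk E T → K ⊆ T →
    rk T = rk K + n → ∃ C : ℕ → Finset ι, C 0 = K ∧ (∀ i, n ≤ i → C i = T) ∧
      ∀ i < n, Cov rk E (C i) (C (i + 1)) := by
  induction n with
  | zero =>
    intro K T hK hT hs hr
    exact ⟨fun _ => K, rfl, fun _ _ => h.flat_eq hK hT hs hr.le, fun _ hi => by omega⟩
  | succ n ih =>
    intro K T hK hT hs hr
    obtain ⟨P, hP, hPT⟩ := h.exists_cov hK hT hs (by rintro rfl; omega)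
    obtain ⟨C, h0, h1, h2⟩ := ih hP.2.1 hT hPT (by rw [hP.2.2.2]; omega)
    refine ⟨fun i => Nat.casesOn i K C, rfl, ?_, ?_⟩
    · rintro (_ | i) hi
      · omega
      · exact h1 i (by omega)
    · rintro (_ | i) hi
      · simpa [h0] using hP
      · exact h2 i (by omega)

end IsRk

theorem chain_rk {C : ℕ → Finset ι} {n : ℕ} (hC : ∀ i < n, Cov rk E (C i) (C (i + 1))) :
    ∀ i ≤ n, C 0 ⊆ C i ∧ rk (C i) = rk (C 0) + i := by
  intro i
  induction i with
  | zero => exact fun _ => ⟨Subset.rfl, rfl⟩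
  | succ i ih =>
    intro hi
    have h1 := ih (by omega)
    have h2 := hC i (by omega)
    exact ⟨h1.1.trans h2.2.2.1, by rw [h2.2.2.2, h1.2]; rfl⟩

/-! ### constructions -/

/-- dual rank -/
def dual (rk : Finset ι → ℕ) (E A : Finset ι) : ℕ := (A ∩ E).card + rk (E \ A) - rk E

theorem IsRk.union_le (h : IsRk rk) (A B : Finset ι) : rk (A ∪ B) ≤ rk A + B.card := by
  have := h.sub A B
  have := h.le_card B
  omega

theorem IsRk.dual_add (h : IsRk rk) (E A : Finset ι) :
    dual rk E A + rk E = (A ∩ E).card + rk (E \ A) := by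
  have h1 := h.union_le (E \ A) (A ∩ E)
  have h2 : E \ A ∪ A ∩ E = E := by rw [inter_comm, sdiff_union_inter]
  rw [h2] at h1
  unfold dual
  omega

theorem IsRk.isRk_dual (h : IsRk rk) (E : Finset ι) : IsRk (dual rk E) := by
  refine ⟨by simp [dual], fun A B hAB => ?_, fun A e => ?_, fun A B => ?_⟩
  · have a1 := h.dual_add E A
    have a2 := h.dual_add E B
    have a3 := h.union_le (E \ B) ((B ∩ E) \ (A ∩ E))
    have a4 := h.mono (E \ A) (E \ B ∪ (B ∩ E) \ (A ∩ E)) (by
      intro x; simp only [mem_sdiff, mem_union, mem_inter]; tauto)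
    have a5 := card_sdiff_add_card_eq_card (inter_subset_inter_right hAB : A ∩ E ⊆ B ∩ E)
    omega
  · have a1 := h.dual_add E A
    have a2 := h.dual_add E (insert e A)
    have a3 := h.mono (E \ insert e A) (E \ A) (sdiff_subset_sdiff Subset.rfl (subset_insert _ _))
    have a4 : (insert e A ∩ E).card ≤ (A ∩ E).card + 1 :=
      (card_le_card (by intro x; simp only [mem_inter, mem_insert]; tauto)).trans
        (card_insert_le e (A ∩ E))
    omega
  · have a1 := h.dual_add E A
    have a2 := h.dual_add E B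
    have a3 := h.dual_add E (A ∪ B)
    have a4 := h.dual_add E (A ∩ B)
    have a5 := h.sub (E \ A) (E \ B)
    have a6 := card_union_add_card_inter (A ∩ E) (B ∩ E)
    have e1 : E \ A ∪ E \ B = E \ (A ∩ B) := by
      ext x; simp only [mem_sdiff, mem_union, mem_inter]; tauto
    have e2 : E \ A ∩ (E \ B) = E \ (A ∪ B) := by
      ext x; simp only [mem_sdiff, mem_union, mem_inter]; tauto
    have e3 : A ∩ E ∪ B ∩ E = (A ∪ B) ∩ E := by
      ext x; simp only [mem_union, mem_inter]; tauto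
    have e4 : A ∩ E ∩ (B ∩ E) = A ∩ B ∩ E := by
      ext x; simp only [mem_inter]; tauto
    rw [e1, e2] at a5
    rw [e3, e4] at a6
    omega

/-- direct sum: `r1` on `D`, `r2` off `D` -/
def dsum (r1 r2 : Finset ι → ℕ) (D A : Finset ι) : ℕ := r1 (A ∩ D) + r2 (A \ D)

theorem IsRk.isRk_dsum {r1 r2 : Finset ι → ℕ} (h1 : IsRk r1) (h2 : IsRk r2) (D : Finset ι) :
    IsRk (dsum r1 r2 D) := by
  refine ⟨by simp [dsum, h1.empty, h2.empty], fun A B hAB => ?_, fun A e => ?_, fun A B => ?_⟩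
  · exact add_le_add (h1.mono _ _ (inter_subset_inter_right hAB))
      (h2.mono _ _ (sdiff_subset_sdiff hAB Subset.rfl))
  · unfold dsum
    by_cases he : e ∈ D
    · rw [insert_inter_of_mem he, insert_sdiff_of_mem _ he]
      linarith [h1.ins (A ∩ D) e]
    · rw [insert_inter_of_notMem he, insert_sdiff_of_notMem _ he]
      linarith [h2.ins (A \ D) e]
  · unfold dsum
    have a1 := h1.sub (A ∩ D) (B ∩ D)
    have a2 := h2.sub (A \ D) (B \ D)
    have e1 : A ∩ D ∪ B ∩ D = (A ∪ B) ∩ D := by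
      ext x; simp only [mem_union, mem_inter]; tauto
    have e2 : A ∩ D ∩ (B ∩ D) = A ∩ B ∩ D := by
      ext x; simp only [mem_inter]; tauto
    have e3 : A \ D ∪ B \ D = (A ∪ B) \ D := by
      ext x; simp only [mem_sdiff, mem_union]; tauto
    have e4 : A \ D ∩ (B \ D) = (A ∩ B) \ D := by
      ext x; simp only [mem_sdiff, mem_inter]; tauto
    rw [e1, e2] at a1
    rw [e3, e4] at a2
    omega

theorem isRk_card : IsRk (fun A : Finset ι => A.card) :=
  ⟨rfl, fun _ _ h => card_le_card h, fun A e => card_insert_le e A,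
    fun A B => (card_union_add_card_inter A B).le⟩

theorem isRk_min : IsRk (fun A : Finset ι => min 1 A.card) := by
  refine ⟨rfl, fun _ _ h => min_le_min_left _ (card_le_card h), fun A e => by omega,
    fun A B => ?_⟩
  have a1 := card_union_add_card_inter A B
  have a2 := card_le_card (inter_subset_left : A ∩ B ⊆ A)
  have a3 := card_le_card (inter_subset_right : A ∩ B ⊆ B)
  omega

/-- contraction of an element -/
def con (rk : Finset ι → ℕ) (e : ι) (A : Finset ι) : ℕ := rk (insert e A) - rk {e}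

theorem IsRk.con_add (h : IsRk rk) (e : ι) (A : Finset ι) :
    con rk e A + rk {e} = rk (insert e A) := by
  have := h.mono {e} (insert e A) (singleton_subset_iff.2 (mem_insert_self _ _))
  unfold con
  omega

theorem IsRk.isRk_con (h : IsRk rk) (e : ι) : IsRk (con rk e) := by
  refine ⟨by simp [con], fun A B hAB => ?_, fun A f => ?_, fun A B => ?_⟩
  · have a1 := h.con_add e A
    have a2 := h.con_add e B
    have a3 := h.mono _ _ (insert_subset_insert e hAB)
    omega
  · have a1 := h.con_add e A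
    have a2 := h.con_add e (insert f A)
    have a3 := h.ins (insert e A) f
    rw [insert_comm] at a3
    omega
  · have a1 := h.con_add e A
    have a2 := h.con_add e B
    have a3 := h.con_add e (A ∪ B)
    have a4 := h.con_add e (A ∩ B)
    have a5 := h.sub (insert e A) (insert e B)
    rw [← insert_union_distrib, ← insert_inter_distrib] at a5
    omega

end Pool.Agent.Lib.FL.H64
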