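import Pool.Agent.Lib.FL.Prod28
import Pool.Agent.Lib.FL.Mat64
import Pool.Agent.Lib.MP_dec383_lc.UN

/-! Blueprint of the approximation scheme for `T(1,0)` of a matroid given by a rank oracle. -/

namespace Pool.Agent.Lib.FL.A80

open Finset Pool.Agent.Lib.helper82 Pool.Agent.Lib.MP_b67cc8_lc Pool.Agent.FL.Mix28
open Pool.Agent.Lib.MP_dec383_lc (UN)
open Pool.Agent.Lib.FL.H64 (IsRk cl Flat Cov)

/-- the Tutte polynomial -/
def tut (m : ℕ) (ρ : Finset ℕ → ℕ) (x y : ℚ) : ℚ :=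
  ∑ A ∈ (range m).powerset, (x - 1) ^ (ρ (range m) - ρ A) * (y - 1) ^ (A.card - ρ A)

/-- maximal chains of flats, constant from the rank on -/
structure IsCh (m : ℕ) (ρ : Finset ℕ → ℕ) (C : ℕ → Finset ℕ) : Prop where
  bot : C 0 = cl ρ (range m) ∅
  top : ∀ i, ρ (range m) ≤ i → C i = range m
  cov : ∀ i < ρ (range m), Cov ρ (range m) (C i) (C (i + 1))

theorem IsCh.sub {m : ℕ} {ρ : Finset ℕ → ℕ} {C : ℕ → Finset ℕ} (h : IsCh m ρ C) (i : ℕ) :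
    C i ⊆ range m := by
  rcases lt_or_ge i (ρ (range m)) with hi | hi
  · exact (h.cov i hi).1.1
  · rw [h.top i hi]

open Classical in
noncomputable def Ch (m : ℕ) (ρ : Finset ℕ → ℕ) : Finset (ℕ → Finset ℕ) :=
  ((Fintype.piFinset fun _ : Fin (ρ (range m)) => (range m).powerset).image
    fun f i => if h : i < ρ (range m) then f ⟨i, h⟩ else range m).filter (IsCh m ρ)

theorem mem_Ch {m : ℕ} {ρ : Finset ℕ → ℕ} {C : ℕ → Finset ℕ} : C ∈ Ch m ρ ↔ IsCh m ρ C := by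
  classical
  unfold Ch
  rw [mem_filter]
  refine ⟨fun h => h.2, fun h => ⟨mem_image.2 ⟨fun i => C i,
    Fintype.mem_piFinset.2 fun i => mem_powerset.2 (h.sub i), funext fun i => ?_⟩, h⟩⟩
  split_ifs with hi
  · rfl
  · exact (h.top i (not_lt.1 hi)).symm

/-- `Λ (i + 1)` -/
noncomputable def La (C : ℕ → Finset ℕ) (i : ℕ) : ℝ := ((C (i + 1)).card : ℝ) - (C i).card

/-- the weight of a chain -/
noncomputable def wt (r : ℕ) (G : ℕ → ℝ) (C : ℕ → Finset ℕ) : ℝ :=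
  (∏ i ∈ range r, La C i) / ∏ i ∈ Ico 1 r, G (C i).card

noncomputable def Z (m : ℕ) (ρ : Finset ℕ → ℕ) (G : ℕ → ℝ) : ℝ :=
  ∑ C ∈ Ch m ρ, wt (ρ (range m)) G C

open Classical in
/-- the Dirichlet form of the resampling dynamics; level `j + 1` is resampled -/
noncomputable def DirL (m : ℕ) (ρ : Finset ℕ → ℕ) (G : ℕ → ℝ) (u : (ℕ → Finset ℕ) → ℝ) : ℝ :=
  ∑ j ∈ range (ρ (range m) - 1), ∑ C ∈ Ch m ρ,
    wt (ρ (range m)) G C * G (C (j + 1)).card / (La C j * La C (j + 1)) *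
      ∑ P ∈ (range m).powerset.filter fun P => Function.update C (j + 1) P ∈ Ch m ρ,
        (u C - u (Function.update C (j + 1) P)) ^ 2

/-- one move of the walk, reading `2 b + B` bits -/
def stepM (m : ℕ) (ρ : Finset ℕ → ℕ) (G : ℕ → ℕ) (b : ℕ) (C : ℕ → Finset ℕ) (x : List Bool) :
    ℕ → Finset ℕ :=
  if ofB (x.take b) + 2 ≤ ρ (range m) ∧ ofB ((x.drop b).take b) ∈ C (ofB (x.take b) + 2) ∧
      ofB ((x.drop b).take b) ∉ C (ofB (x.take b)) ∧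
      ofB ((x.drop b).drop b) + G (C (ofB (x.take b) + 1)).card *
          (cl ρ (range m) (insert (ofB ((x.drop b).take b)) (C (ofB (x.take b))))).card <
        G (C (ofB (x.take b) + 1)).card * (C (ofB (x.take b) + 2)).card then
    Function.update C (ofB (x.take b) + 1)
      (cl ρ (range m) (insert (ofB ((x.drop b).take b)) (C (ofB (x.take b)))))
  else C

/-- the greedy chain -/
def initM (m : ℕ) (ρ : Finset ℕ → ℕ) (i : ℕ) : Finset ℕ :=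
  if ρ (range m) ≤ i then range m else (range m).filter fun e =>
    ((range (m + 1)).filter fun j => ρ (range j) = i ∧ ρ (insert e (range j)) = i).Nonempty

/-- the annealing schedule -/
def GG (m n t s : ℕ) : ℕ := (n - t) * (m - s) + t * s + s * (m - s)

/-- size parameter, number of stages, bits per number, bits per move, length of a walk -/
def NN (m k : ℕ) : ℕ := m + k + 64
def nn (m k : ℕ) : ℕ := NN m k ^ 8
def bb (m k : ℕ) : ℕ := (NN m k).size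
def mvB (m k : ℕ) : ℕ := 2 * bb m k + 11 * bb m k
def TT (m k : ℕ) : ℕ := NN m k ^ 20
def bitsN (m k : ℕ) : ℕ := (mvB m k + 1) * TT m k * nn m k

/-- the sample of stage `t` -/
def smpM (m : ℕ) (ρ : Finset ℕ → ℕ) (k t : ℕ) (x : List Bool) : ℕ → Finset ℕ :=
  rit (mvB m k + 1) (lz (stepM m ρ (GG m (nn m k) t) (bb m k))) (TT m k) (initM m ρ) x

def prG (m : ℕ) (ρ : Finset ℕ → ℕ) (k t : ℕ) (C : ℕ → Finset ℕ) : ℕ :=
  ∏ i ∈ Ico 1 (ρ (range m)), GG m (nn m k) t (C i).card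

def stageM (m : ℕ) (ρ : Finset ℕ → ℕ) (k : ℕ) : ℕ × ℕ × ℕ → List Bool → ℕ × ℕ × ℕ :=
  pst (fun t x => prG m ρ k t (smpM m ρ k t x)) fun t x => prG m ρ k (t + 1) (smpM m ρ k t x)

/-- the estimator (numerator, denominator) -/
def estM (m : ℕ) (ρ : Finset ℕ → ℕ) (k : ℕ) (x : List Bool) : ℕ × ℕ :=
  if ∃ e ∈ range m, ρ {e} = 0 then (0, 1)
  else (rit ((mvB m k + 1) * TT m k) (stageM m ρ k) (nn m k) (0, 1, 1) x).2

/-- `O` is an oracle for `ρ` -/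
def Orc (m : ℕ) (ρ : Finset ℕ → ℕ) (O : List ℕ → ℕ) : Prop :=
  ∀ L : List ℕ, (∀ e ∈ L, e < m) → O L = ρ L.toFinset

/-- spectral gap -/
def St_GAP : Prop := ∀ (m : ℕ) (ρ : Finset ℕ → ℕ), IsRk ρ → ∀ G : ℕ → ℝ,
  (∀ s ≤ m, 0 ≤ G s) → (∀ s, 0 < s → s < m → 0 < G s) →
  (∀ s a b : ℕ, 0 < a → 0 < b → s + a + b ≤ m →
    (a : ℝ) * b * (a + b) ≤ (a + b) * G (s + a) - b * G s - a * G (s + a + b)) →
  ∀ u : (ℕ → Finset ℕ) → ℝ, ∑ C ∈ Ch m ρ, wt (ρ (range m)) G C * u C = 0 →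
    ∑ C ∈ Ch m ρ, wt (ρ (range m)) G C * u C ^ 2 ≤ DirL m ρ G u

/-- partition functions at the two ends -/
def St_Z : Prop := ∀ (m : ℕ) (ρ : Finset ℕ → ℕ), IsRk ρ →
  ((∃ e ∈ range m, ρ {e} = 0) → tut m ρ 1 0 = 0) ∧
  ((¬∃ e ∈ range m, ρ {e} = 0) →
    Z m ρ (fun s => s) = (tut m ρ 1 0 : ℚ) * Z m ρ (fun s => m - s) ∧
      Z m ρ (fun s => m - s) ≤ m + 1)

/-- elementary facts on chains -/
def St_CH : Prop := ∀ (m : ℕ) (ρ : Finset ℕ → ℕ), IsRk ρ → initM m ρ ∈ Ch m ρ ∧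
  ∀ C ∈ Ch m ρ, (∀ i < ρ (range m), (C i).card < (C (i + 1)).card) ∧
    ∀ i, 0 < i → i < ρ (range m) → 0 < (C i).card ∧ (C i).card < m

/-- the walk is reversible and dominates the resampling dynamics -/
def St_STEP : Prop := ∀ (m : ℕ) (ρ : Finset ℕ → ℕ), IsRk ρ → ∀ (G : ℕ → ℕ) (b B : ℕ),
  (∀ C ∈ Ch m ρ, ∀ x, stepM m ρ G b C x ∈ Ch m ρ) ∧
  (m ≤ 2 ^ b → (∀ s ≤ m, G s * m ≤ 2 ^ B) → (∀ s, 0 < s → s < m → 0 < G s) →
    Rev (Ch m ρ) (wt (ρ (range m)) fun s => G s) (2 * b + B) (stepM m ρ G b) ∧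
    ∀ u, DirL m ρ (fun s => G s) u ≤
      2 ^ (2 * b + B) * Dir (Ch m ρ) (wt (ρ (range m)) fun s => G s) (2 * b + B) (stepM m ρ G b) u)

/-- the samples are close to stationarity -/
def St_MIX : Prop := ∀ (m : ℕ) (ρ : Finset ℕ → ℕ), IsRk ρ → (¬∃ e ∈ range m, ρ {e} = 0) →
  ∀ k t, t ≤ nn m k → (∀ x, smpM m ρ k t x ∈ Ch m ρ) ∧
    ∀ f : (ℕ → Finset ℕ) → ℝ, (∀ C ∈ Ch m ρ, 0 ≤ f C) → (∀ C ∈ Ch m ρ, f C ≤ 1) →
      |Ex ((mvB m k + 1) * TT m k) (fun x => f (smpM m ρ k t x)) -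
        (∑ C ∈ Ch m ρ, wt (ρ (range m)) (fun s => GG m (nn m k) t s) C * f C) /
          Z m ρ fun s => GG m (nn m k) t s| ≤ 1 / (NN m k : ℝ) ^ 12

/-- the estimator has small mean square error -/
def St_EST : Prop := ∀ (m : ℕ) (ρ : Finset ℕ → ℕ), IsRk ρ → ∀ k l, 0 < k → bitsN m k ≤ l →
  (∀ x, 0 < (estM m ρ k x).2) ∧
    Ex l (fun x => (((estM m ρ k x).1 : ℝ) / (estM m ρ k x).2 - (tut m ρ 1 0 : ℚ)) ^ 2) ≤
      ((tut m ρ 1 0 : ℚ) : ℝ) ^ 2 / (4 * k ^ 2)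

/-- the estimator is computed in polynomial time from the oracle -/
def St_PT : Prop := ∀ (α : Type) [Enc α] (m k : α → ℕ) (O : α → List ℕ → ℕ), UN m → UN k →
  (PT fun p : α × List ℕ => O p.1 p.2) → ∃ A : α → List Bool → ℕ × ℕ,
    (PT fun p : α × List Bool => A p.1 p.2) ∧
      ∀ a ρ, IsRk ρ → Orc (m a) ρ (O a) → ∀ x, A a x = estM (m a) ρ (k a) x

/-- the oracle theorem -/
def St_ORC : Prop := ∀ (α : Type) [Enc α] (m k : α → ℕ) (O : α → List ℕ → ℕ), UN m → UN k →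
  (PT fun p : α × List ℕ => O p.1 p.2) → ∃ (A : α → List Bool → ℕ × ℕ) (L : α → ℕ),
    (PT fun p : α × List Bool => A p.1 p.2) ∧ UN L ∧
      ∀ a ρ, IsRk ρ → Orc (m a) ρ (O a) → 0 < k a → ∀ l, L a ≤ l → (∀ x, 0 < (A a x).2) ∧
        Ex l (fun x => (((A a x).1 : ℝ) / (A a x).2 - (tut (m a) ρ 1 0 : ℚ)) ^ 2) ≤
          ((tut (m a) ρ 1 0 : ℚ) : ℝ) ^ 2 / (4 * k a ^ 2)

end Pool.Agent.Lib.FL.A80
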