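import Mathlib

/-! Matroid rank functions, the Tutte sum, truncation, duality, parallel and series extension. -/

namespace Pool.Agent.Lib.FL.H5
open Finset

variable {α β : Type} [DecidableEq α] [DecidableEq β]

/-- a matroid rank function on the finite subsets of `α` -/
structure IsRk (ρ : Finset α → ℕ) : Prop where
  emp : ρ ∅ = 0
  mono : ∀ A B, A ⊆ B → ρ A ≤ ρ B
  ins : ∀ A e, ρ (insert e A) ≤ ρ A + 1
  dim : ∀ A B e, A ⊆ B → ρ (insert e B) + ρ A ≤ ρ (insert e A) + ρ B

/-- the Tutte sum of the rank function `ρ` on the ground set `E` -/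
def tut (E : Finset α) (ρ : Finset α → ℕ) (x y : ℚ) : ℚ :=
  ∑ A ∈ E.powerset, (x - 1) ^ (ρ E - ρ A) * (y - 1) ^ (A.card - ρ A)

/-- the weighted sum over spanning sets -/
def Zs (E : Finset α) (ρ : Finset α → ℕ) (v : α → ℚ) : ℚ :=
  ∑ A ∈ E.powerset, if ρ A = ρ E then ∏ e ∈ A, v e else 0

/-- the Moebius invariant -/
def mu (E : Finset α) (ρ : Finset α → ℕ) : ℚ := (-1) ^ ρ E * Zs E ρ fun _ => -1

/-- truncation -/
def trunc (k : ℕ) (ρ : Finset α → ℕ) (A : Finset α) : ℕ := min (ρ A) k

/-- the dual rank function -/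
def dual (E : Finset α) (ρ : Finset α → ℕ) (A : Finset α) : ℕ := A.card + ρ (E \ A) - ρ E

/-- parallel extension along `f` -/
def par (f : β → α) (ρ : Finset α → ℕ) (A : Finset β) : ℕ := ρ (A.image f)

/-- the part of `A` over `e` -/
def fib (f : β → α) (A : Finset β) (e : α) : Finset β := A.filter fun x => f x = e

/-- series extension along `f`, the class of `e` having `k e` elements -/
def ser (E : Finset α) (f : β → α) (k : α → ℕ) (ρ : Finset α → ℕ) (A : Finset β) : ℕ :=
  ∑ e ∈ E, min (fib f A e).card (k e - 1) + ρ (E.filter fun e => k e ≤ (fib f A e).card)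

namespace IsRk
variable {ρ : Finset α → ℕ}

lemma union_le (h : IsRk ρ) (A B : Finset α) : ρ (A ∪ B) ≤ ρ A + B.card := by
  induction B using Finset.induction_on with
  | empty => simp
  | insert e B he ih =>
    rw [union_insert, card_insert_of_notMem he]
    have := h.ins (A ∪ B) e
    omega

lemma le_card (h : IsRk ρ) (A : Finset α) : ρ A ≤ A.card := by
  simpa [h.emp] using h.union_le ∅ A

lemma le_ins (h : IsRk ρ) (A : Finset α) (e : α) : ρ A ≤ ρ (insert e A) :=
  h.mono _ _ (subset_insert _ _)

lemma trunc (h : IsRk ρ) (k : ℕ) : IsRk (trunc k ρ) where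
  emp := by simp [H5.trunc, h.emp]
  mono A B hAB := by have := h.mono A B hAB; simp only [H5.trunc]; omega
  ins A e := by have := h.ins A e; simp only [H5.trunc]; omega
  dim A B e hAB := by
    have := h.mono A B hAB; have := h.dim A B e hAB; have := h.ins B e; have := h.le_ins A e
    have := h.le_ins B e
    simp only [H5.trunc]; omega

lemma dual_le (h : IsRk ρ) (E A : Finset α) : ρ E ≤ A.card + ρ (E \ A) := by
  have h1 := h.union_le (E \ A) A
  have h2 := h.mono E (E \ A ∪ A) (by intro x hx; by_cases hA : x ∈ A <;> simp [hx, hA])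
  omega

lemma dual_step (h : IsRk ρ) (E A : Finset α) {e : α} :
    ρ (E \ insert e A) ≤ ρ (E \ A) ∧ ρ (E \ A) ≤ ρ (E \ insert e A) + 1 := by
  refine ⟨h.mono _ _ (sdiff_subset_sdiff subset_rfl (subset_insert _ _)), ?_⟩
  refine le_trans (h.mono _ (insert e (E \ insert e A)) fun x hx => ?_) (h.ins _ _)
  by_cases hx' : x = e <;> simp_all

lemma dual (h : IsRk ρ) (E : Finset α) : IsRk (dual E ρ) := by
  have hmono : ∀ A B, A ⊆ B → H5.dual E ρ A ≤ H5.dual E ρ B := fun A B hAB => by
    have h1 := h.union_le (E \ B) (B \ A)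
    have h2 := h.mono (E \ A) (E \ B ∪ B \ A) (by
      intro x hx; by_cases hB : x ∈ B <;> simp_all)
    have h3 := card_sdiff_add_card_eq_card hAB
    simp only [H5.dual]; omega
  refine ⟨by simp [H5.dual], hmono, fun A e => ?_, fun A B e hAB => ?_⟩
  · have := (h.dual_step E A (e := e)).1
    have := card_insert_le e A
    simp only [H5.dual]; omega
  · by_cases hB : e ∈ B
    · rw [insert_eq_of_mem hB]
      have := hmono A _ (subset_insert e A)
      omega
    · have hA : e ∉ A := fun h' => hB (hAB h')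
      have h1 := h.dual_le E A
      have h2 := h.dual_le E B
      have h3 := h.dual_le E (insert e A)
      have h4 := h.dual_le E (insert e B)
      have key : ρ (E \ insert e B) + ρ (E \ A) ≤ ρ (E \ insert e A) + ρ (E \ B) := by
        by_cases hE : e ∈ E
        · have h5 := h.dim (E \ insert e B) (E \ insert e A) e
            (sdiff_subset_sdiff subset_rfl (insert_subset_insert _ hAB))
          have e1 : insert e (E \ insert e A) = E \ A := by
            ext x; by_cases hx : x = e <;> simp_all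
          have e2 : insert e (E \ insert e B) = E \ B := by
            ext x; by_cases hx : x = e <;> simp_all
          rw [e1, e2] at h5
          omega
        · rw [sdiff_insert_of_notMem hE, sdiff_insert_of_notMem hE]; omega
      simp only [H5.dual, card_insert_of_notMem hA, card_insert_of_notMem hB] at *
      omega

lemma par (h : IsRk ρ) (f : β → α) : IsRk (par f ρ) where
  emp := by simp [H5.par, h.emp]
  mono A B hAB := h.mono _ _ (image_subset_image hAB)
  ins A e := by simp only [H5.par, image_insert]; exact h.ins _ _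
  dim A B e hAB := by simp only [H5.par, image_insert]; exact h.dim _ _ _ (image_subset_image hAB)

end IsRk

omit [DecidableEq β] in
lemma fib_mono (f : β → α) {A B : Finset β} (h : A ⊆ B) (e : α) :
    (fib f A e).card ≤ (fib f B e).card := card_le_card (filter_subset_filter _ h)

lemma fib_ins (f : β → α) {A : Finset β} {x : β} (h : x ∉ A) (e : α) :
    (fib f (insert x A) e).card = (fib f A e).card + if f x = e then 1 else 0 := by
  unfold fib
  rw [filter_insert]
  split_ifs
  · rw [card_insert_of_notMem (by simp [h])]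
  · rfl

lemma ser_ins (E : Finset α) (f : β → α) (k : α → ℕ) (ρ : Finset α → ℕ) {A : Finset β} {x : β}
    (h : x ∉ A) : ser E f k ρ (insert x A) + ρ (E.filter fun e => k e ≤ (fib f A e).card) =
      ser E f k ρ A + (if f x ∈ E ∧ (fib f A (f x)).card + 1 < k (f x) then 1 else 0) +
      ρ (if f x ∈ E ∧ (fib f A (f x)).card + 1 = k (f x) then
        insert (f x) (E.filter fun e => k e ≤ (fib f A e).card)
        else E.filter fun e => k e ≤ (fib f A e).card) := by
  have e1 : ∑ e ∈ E, min (fib f (insert x A) e).card (k e - 1) =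
      ∑ e ∈ E, min (fib f A e).card (k e - 1) +
        if f x ∈ E ∧ (fib f A (f x)).card + 1 < k (f x) then 1 else 0 := by
    have : (if f x ∈ E ∧ (fib f A (f x)).card + 1 < k (f x) then 1 else 0) =
        ∑ e ∈ E, if f x = e then (if (fib f A e).card + 1 < k e then 1 else 0) else 0 := by
      rw [sum_ite_eq]
      by_cases h1 : f x ∈ E <;> simp [h1]
    rw [this, ← sum_add_distrib]
    refine sum_congr rfl fun e _ => ?_
    rw [fib_ins f h]
    split_ifs <;> omega
  have e2 : (E.filter fun e => k e ≤ (fib f (insert x A) e).card) =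
      if f x ∈ E ∧ (fib f A (f x)).card + 1 = k (f x) then
        insert (f x) (E.filter fun e => k e ≤ (fib f A e).card)
        else E.filter fun e => k e ≤ (fib f A e).card := by
    ext e
    by_cases h1 : f x = e
    · subst h1
      split_ifs with h2
      · simp [fib_ins f h, h2.1]; omega
      · simp only [mem_filter, fib_ins f h, if_true, and_congr_right_iff]
        intro h3
        simp only [h3, true_and] at h2
        omega
    · split_ifs with h2
      · simp [fib_ins f h, h1, Ne.symm h1]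
      · simp [fib_ins f h, h1]
  unfold ser
  rw [e1, e2]
  omega

lemma IsRk.ser {ρ : Finset α → ℕ} (h : IsRk ρ) (E : Finset α) (f : β → α) {k : α → ℕ}
    (hk : ∀ e ∈ E, 0 < k e) : IsRk (ser E f k ρ) := by
  have hS : ∀ A B : Finset β, A ⊆ B → (E.filter fun e => k e ≤ (fib f A e).card) ⊆
      E.filter fun e => k e ≤ (fib f B e).card := fun A B hAB e he => by
    rw [mem_filter] at he ⊢
    exact ⟨he.1, he.2.trans (fib_mono f hAB e)⟩
  have hmono : ∀ A B, A ⊆ B → H5.ser E f k ρ A ≤ H5.ser E f k ρ B := fun A B hAB =>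
    add_le_add (sum_le_sum fun e _ => min_le_min_right _ (fib_mono f hAB e)) (h.mono _ _ (hS A B hAB))
  refine ⟨?_, hmono, fun A x => ?_, fun A B x hAB => ?_⟩
  · have : (E.filter fun e => k e ≤ (fib f ∅ e).card) = ∅ :=
      filter_eq_empty_iff.2 fun e he => by have := hk e he; simp [fib]; omega
    rw [H5.ser, this, h.emp]
    simp [fib]
  · by_cases hx : x ∈ A
    · rw [insert_eq_of_mem hx]; omega
    · have h1 := ser_ins E f k ρ hx
      have h2 := h.ins (E.filter fun e => k e ≤ (fib f A e).card) (f x)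
      split_ifs at h1 <;> omega
  · by_cases hB : x ∈ B
    · rw [insert_eq_of_mem hB]
      have := hmono A _ (subset_insert x A)
      omega
    · have hA : x ∉ A := fun h' => hB (hAB h')
      have h1 := ser_ins E f k ρ hA
      have h2 := ser_ins E f k ρ hB
      have h3 := h.ins (E.filter fun e => k e ≤ (fib f B e).card) (f x)
      have h4 := h.dim _ _ (f x) (hS A B hAB)
      have h5 := fib_mono f hAB (f x)
      have h6 := h.le_ins (E.filter fun e => k e ≤ (fib f A e).card) (f x)
      by_cases hE : f x ∈ E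
      · simp only [hE, true_and] at h1 h2
        split_ifs at h1 h2 <;> omega
      · simp only [hE, false_and, if_false] at h1 h2
        omega

/-! ### Identities for the Tutte sum -/

lemma Zs_const {ρ : Finset α → ℕ} (h : IsRk ρ) (E : Finset α) (v : ℚ) :
    Zs E ρ (fun _ => v) = v ^ ρ E * tut E ρ 1 (1 + v) := by
  rw [Zs, tut, mul_sum]
  refine sum_congr rfl fun A hA => ?_
  have h1 := h.mono A E (mem_powerset.1 hA)
  have h2 := h.le_card A
  split_ifs with h3
  · rw [← h3, prod_const, Nat.sub_self, pow_zero, one_mul, add_sub_cancel_left, ← pow_add]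
    congr 1; omega
  · rw [sub_self, zero_pow (by omega)]; simp

lemma mu_eq {ρ : Finset α → ℕ} (h : IsRk ρ) (E : Finset α) : mu E ρ = tut E ρ 1 0 := by
  rw [mu, Zs_const h, ← mul_assoc, ← mul_pow]; simp

lemma tut_dual {ρ : Finset α → ℕ} (h : IsRk ρ) (E : Finset α) (x y : ℚ) :
    tut E (dual E ρ) x y = tut E ρ y x := by
  unfold tut
  refine sum_bij' (fun A _ => E \ A) (fun A _ => E \ A) (fun A _ => by simp) (fun A _ => by simp)
    (fun A hA => Finset.sdiff_sdiff_eq_self (mem_powerset.1 hA))
    (fun A hA => Finset.sdiff_sdiff_eq_self (mem_powerset.1 hA)) fun A hA => ?_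
  have h1 := card_sdiff_add_card_eq_card (mem_powerset.1 hA)
  have h2 := h.dual_le E A
  have h3 := h.le_card (E \ A)
  have h4 := h.mono (E \ A) E sdiff_subset
  rw [mul_comm]
  simp only [dual, sdiff_self, bot_eq_empty, h.emp]
  congr 2 <;> omega

/-- the value at `(1, y)` of the truncation to rank `k` -/
def tau (E : Finset α) (ρ : Finset α → ℕ) (y : ℚ) (k : ℕ) : ℚ :=
  if k ≤ ρ E then tut E (trunc k ρ) 1 y else 0

lemma tau_eq {ρ : Finset α → ℕ} (h : IsRk ρ) (E : Finset α) (y : ℚ) (k : ℕ) :
    tau E ρ y k = ∑ A ∈ E.powerset, if k ≤ ρ A then (y - 1) ^ (A.card - k) else 0 := by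
  unfold tau
  split_ifs with hk
  · refine sum_congr rfl fun A _ => ?_
    simp only [trunc, min_eq_right hk]
    split_ifs with h1
    · simp [min_eq_right h1]
    · rw [sub_self, zero_pow (by omega)]; simp
  · refine (sum_eq_zero fun A hA => if_neg ?_).symm
    have := h.mono A E (mem_powerset.1 hA)
    omega

theorem tut_trunc {ρ : Finset α → ℕ} (h : IsRk ρ) (E : Finset α) (x y : ℚ) :
    tut E ρ x y = ∑ k ∈ range (ρ E + 1),
      (x - 1) ^ (ρ E - k) * (tau E ρ y k + (1 - y) * tau E ρ y (k + 1)) := by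
  simp only [tau_eq h, mul_sum, ← sum_add_distrib]
  rw [sum_comm]
  refine sum_congr rfl fun A hA => ?_
  have h1 := h.mono A E (mem_powerset.1 hA)
  have h2 := h.le_card A
  rw [sum_eq_single (ρ A)]
  · simp
  · intro k _ hk
    by_cases h3 : k ≤ ρ A
    · rw [if_pos h3, if_pos (by omega), show A.card - k = A.card - (k + 1) + 1 by omega]
      ring
    · rw [if_neg h3, if_neg (by omega)]; simp
  · intro h3; simp at h3; omega

lemma sum_pow_union {s t : Finset β} (h : Disjoint s t) (F : Finset β → ℚ) :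
    ∑ A ∈ (s ∪ t).powerset, F A = ∑ B ∈ s.powerset, ∑ C ∈ t.powerset, F (B ∪ C) := by
  induction s using Finset.induction_on generalizing F with
  | empty => simp
  | insert a s ha ih =>
    rw [disjoint_insert_left] at h
    rw [insert_union, sum_powerset_insert (by simp [ha, h.1]), sum_powerset_insert ha, ih h.2,
      ih h.2]
    simp only [insert_union]

lemma sum_fib (f : β → α) (w : α → Finset β → ℚ) (E : Finset α) : ∀ E' : Finset β,
    (∀ x ∈ E', f x ∈ E) → ∑ A ∈ E'.powerset, ∏ e ∈ E, w e (fib f A e) =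
      ∏ e ∈ E, ∑ B ∈ (fib f E' e).powerset, w e B := by
  induction E using Finset.induction_on with
  | empty =>
    intro E' h
    obtain rfl : E' = ∅ := eq_empty_of_forall_notMem fun x hx => by simpa using h x hx
    simp
  | insert a E ha ih =>
    intro E' h
    have h1 : E' = fib f E' a ∪ E'.filter fun x => ¬f x = a := (filter_union_filter_not_eq _ _).symm
    have h2 := ih (E'.filter fun x => ¬f x = a) fun x hx => by
      rw [mem_filter] at hx
      exact (mem_insert.1 (h x hx.1)).resolve_left hx.2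
    have h3 : ∀ e ∈ E, fib f (E'.filter fun x => ¬f x = a) e = fib f E' e := fun e he => by
      ext x
      simp only [fib, mem_filter]
      exact ⟨fun hx => ⟨hx.1.1, hx.2⟩, fun hx => ⟨⟨hx.1, fun h4 => ha (h4 ▸ hx.2 ▸ he)⟩, hx.2⟩⟩
    rw [prod_insert ha, ← prod_congr rfl fun e he => by rw [← h3 e he], ← h2, sum_mul_sum]
    conv_lhs => rw [h1]
    rw [sum_pow_union (s := fib f E' a) (disjoint_filter_filter_not _ _ _)]
    refine sum_congr rfl fun B hB => sum_congr rfl fun C hC => ?_
    have hB' : ∀ x ∈ B, f x = a := fun x hx => (mem_filter.1 (mem_powerset.1 hB hx)).2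
    have hC' : ∀ x ∈ C, ¬f x = a := fun x hx => (mem_filter.1 (mem_powerset.1 hC hx)).2
    rw [prod_insert ha]
    congr 1
    · congr 1
      ext x
      simp only [fib, mem_filter, mem_union]
      exact ⟨fun hx => hx.1.resolve_right fun h4 => hC' x h4 hx.2, fun hx => ⟨Or.inl hx, hB' x hx⟩⟩
    · refine prod_congr rfl fun e he => ?_
      congr 1
      ext x
      simp only [fib, mem_filter, mem_union]
      exact ⟨fun hx => ⟨hx.1.resolve_left fun h4 => ha (hB' x h4 ▸ hx.2 ▸ he), hx.2⟩,
        fun hx => ⟨Or.inr hx.1, hx.2⟩⟩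

/-- grouping a sum over subsets of `E'` by the set of fibres with the property `P` -/
lemma sum_group (f : β → α) (w : α → Finset β → ℚ) (P : α → Finset β → Prop)
    [∀ e B, Decidable (P e B)] (Φ : Finset α → ℚ) (E : Finset α) (E' : Finset β)
    (h : ∀ x ∈ E', f x ∈ E) :
    ∑ A ∈ E'.powerset, Φ (E.filter fun e => P e (fib f A e)) * ∏ e ∈ E, w e (fib f A e) =
      ∑ S ∈ E.powerset, Φ S * ∏ e ∈ E, ∑ B ∈ (fib f E' e).powerset,
        if (P e B ↔ e ∈ S) then w e B else 0 := by
  simp only [← sum_fib f (fun e B => if (P e B ↔ e ∈ _) then w e B else 0) E E' h, mul_sum]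
  rw [sum_comm]
  refine sum_congr rfl fun A _ => ?_
  rw [sum_eq_single (E.filter fun e => P e (fib f A e))]
  · congr 1
    exact prod_congr rfl fun e he => (if_pos (by simp [he])).symm
  · intro S hS hne
    have : ∃ e ∈ E, ¬(P e (fib f A e) ↔ e ∈ S) := by
      by_contra hc
      simp only [not_exists, not_and, not_not] at hc
      refine hne (ext fun e => ?_)
      rw [mem_filter]
      exact ⟨fun h1 => ⟨mem_powerset.1 hS h1, (hc e (mem_powerset.1 hS h1)).2 h1⟩,
        fun h1 => (hc e h1.1).1 h1.2⟩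
    obtain ⟨e, he, h1⟩ := this
    rw [prod_eq_zero he (if_neg h1), mul_zero]
  · intro h1; simp at h1

omit [DecidableEq β] in
lemma prod_fib (f : β → α) {E : Finset α} {A : Finset β} (h : ∀ x ∈ A, f x ∈ E) (v : β → ℚ) :
    ∏ x ∈ A, v x = ∏ e ∈ E, ∏ x ∈ fib f A e, v x := (prod_fiberwise_of_maps_to h v).symm

theorem Zs_par (f : β → α) (ρ : Finset α → ℕ) (v : β → ℚ) (E' : Finset β) :
    Zs E' (par f ρ) v = Zs (E'.image f) ρ fun e => ∏ x ∈ fib f E' e, (1 + v x) - 1 := by
  have h : ∀ x ∈ E', f x ∈ E'.image f := fun x hx => mem_image_of_mem f hx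
  have h1 := sum_group f (fun _ B => ∏ x ∈ B, v x) (fun _ B => B.Nonempty)
    (fun S => if ρ S = ρ (E'.image f) then 1 else 0) _ E' h
  unfold Zs
  refine Eq.trans (sum_congr rfl fun A hA => ?_) (h1.trans (sum_congr rfl fun S hS => ?_))
  · have hA' := mem_powerset.1 hA
    have e1 : ((E'.image f).filter fun e => (fib f A e).Nonempty) = A.image f := by
      ext e
      simp only [mem_filter, mem_image, fib, Finset.Nonempty]
      exact ⟨fun h2 => h2.2, fun ⟨x, h2, h3⟩ => ⟨⟨x, hA' h2, h3⟩, x, h2, h3⟩⟩
    rw [e1, ← prod_fib f fun x hx => h x (hA' hx)]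
    simp [par]
  · have e1 : ∀ e ∈ E'.image f, (∑ B ∈ (fib f E' e).powerset,
        if (B.Nonempty ↔ e ∈ S) then ∏ x ∈ B, v x else 0) =
        if e ∈ S then ∏ x ∈ fib f E' e, (1 + v x) - 1 else 1 := fun e _ => by
      have e2 : ∀ B : Finset β, (if B.Nonempty then ∏ x ∈ B, v x else 0) =
          ∏ x ∈ B, v x - if B = ∅ then 1 else 0 := fun B => by
        rcases B.eq_empty_or_nonempty with rfl | hB
        · simp
        · simp [hB, hB.ne_empty]
      by_cases he : e ∈ S
      · simp only [he, iff_true, if_true, e2, sum_sub_distrib, prod_one_add]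
        simp
      · simp only [he, iff_false, if_false, not_nonempty_iff_eq_empty]
        rw [sum_ite_eq']; simp
    rw [prod_congr rfl e1, prod_ite_mem, inter_eq_right.2 (mem_powerset.1 hS)]
    simp

theorem Zs_ser {ρ : Finset α → ℕ} (hρ : IsRk ρ) (f : β → α) (k : α → ℕ) (E : Finset α)
    (E' : Finset β) (h : ∀ x ∈ E', f x ∈ E) (hk : ∀ e ∈ E, 0 < k e)
    (hc : ∀ e ∈ E, (fib f E' e).card = k e) :
    ser E f k ρ E' = ∑ e ∈ E, (k e - 1) + ρ E ∧ Zs E' (ser E f k ρ) (fun _ => -1) =
      (∏ e ∈ E, (k e : ℚ) * (-1) ^ (k e - 1)) * Zs E ρ fun e => -1 / k e := by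
  have h0 : ser E f k ρ E' = ∑ e ∈ E, (k e - 1) + ρ E := by
    rw [ser, filter_true_of_mem fun e he => (hc e he).ge]
    congr 1
    exact sum_congr rfl fun e he => by rw [hc e he]; omega
  refine ⟨h0, ?_⟩
  have h1 := sum_group f (fun e B => if k e - 1 ≤ B.card then (-1) ^ B.card else 0)
    (fun e B => k e ≤ B.card) (fun S => if ρ S = ρ E then 1 else 0) E E' h
  unfold Zs
  rw [mul_sum]
  refine Eq.trans (sum_congr rfl fun A hA => ?_) (h1.trans (sum_congr rfl fun S hS => ?_))
  · have hA' := mem_powerset.1 hA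
    have e1 := hρ.mono _ _ (filter_subset (fun e => k e ≤ (fib f A e).card) E)
    have e2 : ∑ e ∈ E, min (fib f A e).card (k e - 1) ≤ ∑ e ∈ E, (k e - 1) :=
      sum_le_sum fun e _ => min_le_right _ _
    rw [h0, ser]
    by_cases e3 : ∀ e ∈ E, k e - 1 ≤ (fib f A e).card
    · rw [sum_congr rfl fun e he => min_eq_right (e3 e he), prod_congr rfl fun e he => if_pos (e3 e he),
        prod_fib f fun x hx => h x (hA' hx)]
      simp
    · have e4 : ∑ e ∈ E, min (fib f A e).card (k e - 1) ≠ ∑ e ∈ E, (k e - 1) := fun e4 =>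
        e3 fun e he => by
          have := (sum_eq_sum_iff_of_le fun e _ => min_le_right (fib f A e).card (k e - 1)).1 e4 e he
          omega
      simp only [not_forall] at e3
      obtain ⟨e, he, e3⟩ := e3
      rw [if_neg (by omega), prod_eq_zero he (if_neg e3), mul_zero]
  · have e1 : ∀ e ∈ E, (∑ B ∈ (fib f E' e).powerset, if (k e ≤ B.card ↔ e ∈ S) then
        (if k e - 1 ≤ B.card then (-1 : ℚ) ^ B.card else 0) else 0) =
        ((k e : ℚ) * (-1) ^ (k e - 1)) * if e ∈ S then -1 / (k e : ℚ) else 1 := fun e he => by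
      have e2 := hk e he
      have e3 : (k e : ℚ) ≠ 0 := by exact_mod_cast e2.ne'
      rw [sum_powerset_apply_card (fun j => if (k e ≤ j ↔ e ∈ S) then
        (if k e - 1 ≤ j then (-1 : ℚ) ^ j else 0) else 0), hc e he]
      obtain ⟨j, hj⟩ : ∃ j, k e = j + 1 := ⟨k e - 1, by omega⟩
      rw [hj] at e3 ⊢
      rw [sum_range_succ, sum_range_succ, sum_eq_zero fun i hi => by
        rw [mem_range] at hi
        rw [if_neg (show ¬j + 1 - 1 ≤ i by omega)]; simp]
      by_cases he : e ∈ S
      · simp [he, pow_succ]; field_simp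
      · simp [he]
    rw [prod_congr rfl e1, prod_mul_distrib, prod_ite_mem, inter_eq_right.2 (mem_powerset.1 hS)]
    split_ifs <;> simp

/-- the Tutte sum is nonnegative at `(1, 0)`, in the form of the deletion-contraction sign rule -/
lemma sign_Zs (E : Finset α) {v : ℚ} (h0 : -1 ≤ v) (h1 : v ≤ 0) : ∀ {ρ : Finset α → ℕ}, IsRk ρ →
    ∀ K : Finset α, 0 ≤ (-1 : ℚ) ^ (ρ (K ∪ E) - ρ K) *
      ∑ A ∈ E.powerset, if ρ (K ∪ A) = ρ (K ∪ E) then v ^ A.card else 0 := by
  induction E using Finset.induction_on with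
  | empty => intro ρ _ K; simp
  | insert e E he ih =>
    intro ρ h K
    have a1 := ih h K
    have a2 := ih h (insert e K)
    have b1 := h.ins (K ∪ E) e
    have b2 := h.le_ins (K ∪ E) e
    have b3 := h.ins K e
    have b4 := h.le_ins K e
    have b5 := h.dim K (K ∪ E) e subset_union_left
    have b6 := h.mono K (K ∪ E) subset_union_left
    have b7 := h.mono (insert e K) (insert e (K ∪ E)) (insert_subset_insert _ subset_union_left)
    rw [sum_powerset_insert he]
    have c1 : ∑ A ∈ E.powerset, (if ρ (K ∪ insert e A) = ρ (K ∪ insert e E) then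
        v ^ (insert e A).card else 0) =
        v * ∑ A ∈ E.powerset, if ρ (insert e K ∪ A) = ρ (insert e K ∪ E) then v ^ A.card else 0 := by
      rw [mul_sum]
      refine sum_congr rfl fun A hA => ?_
      rw [card_insert_of_notMem fun h' => he (mem_powerset.1 hA h'), union_insert, union_insert,
        insert_union, insert_union]
      split_ifs
      · ring
      · simp
    rw [c1, union_insert]
    rw [insert_union] at a2 ⊢
    by_cases d1 : ρ (insert e K) = ρ K
    · have d2 : ρ (insert e (K ∪ E)) = ρ (K ∪ E) := by omega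
      have d3 : ∑ A ∈ E.powerset, (if ρ (insert e K ∪ A) = ρ (insert e (K ∪ E)) then
          v ^ A.card else 0) = ∑ A ∈ E.powerset, if ρ (K ∪ A) = ρ (K ∪ E) then v ^ A.card else 0 :=
        sum_congr rfl fun A _ => by
          have := h.dim K (K ∪ A) e subset_union_left
          have := h.le_ins (K ∪ A) e
          rw [d2, insert_union, show ρ (insert e (K ∪ A)) = ρ (K ∪ A) by omega]
      rw [d3, d2]
      nlinarith [mul_nonneg (show 0 ≤ 1 + v by linarith) a1]
    · have d3 : ρ (insert e (K ∪ E)) - ρ K = ρ (insert e (K ∪ E)) - ρ (insert e K) + 1 := by omega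
      have d4 := mul_nonneg (neg_nonneg.2 h1) a2
      by_cases d2 : ρ (insert e (K ∪ E)) = ρ (K ∪ E)
      · rw [d2] at d3 d4 ⊢
        rw [mul_add]
        refine add_nonneg a1 ?_
        rw [d3, pow_succ]
        linarith
      · rw [sum_eq_zero fun A hA => if_neg (by
          have := h.mono (K ∪ A) (K ∪ E) (union_subset_union_right (mem_powerset.1 hA))
          omega), d3, pow_succ]
        linarith

theorem tut_one_nonneg {ρ : Finset α → ℕ} (h : IsRk ρ) (E : Finset α) {y : ℚ} (h0 : 0 ≤ y)
    (h1 : y < 1) : 0 ≤ tut E ρ 1 y := by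
  have h2 := sign_Zs E (v := y - 1) (by linarith) (by linarith) h ∅
  have h3 := Zs_const h E (y - 1)
  simp only [Zs, prod_const] at h3
  simp only [empty_union, h.emp, Nat.sub_zero, h3] at h2
  rw [← mul_assoc, ← mul_pow, add_sub_cancel] at h2
  exact nonneg_of_mul_nonneg_right h2 (pow_pos (by linarith) _)

lemma mu_nonneg {ρ : Finset α → ℕ} (h : IsRk ρ) (E : Finset α) : 0 ≤ mu E ρ := by
  rw [mu_eq h]; exact tut_one_nonneg h E le_rfl one_pos

end Pool.Agent.Lib.FL.H5
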