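import Pool.Agent.Lib.FL.A80
import Pool.Agent.Lib.FL.Rk5

/-! Approximation in the mean and its closure properties. -/

namespace Pool.Agent.Lib.FL.H79

open Finset Pool.Agent.Lib.helper82 Pool.Agent.Lib.MP_b67cc8_lc Pool.Agent.FL.Mix28
open Pool.Agent.Lib.MP_dec383_lc (UN)

variable {α β : Type} [Enc α] [Enc β]

/-- approximation in the mean with relative error one over the length of `q` -/
def Apx (f : α → ℝ) : Prop :=
  ∃ (A : α × List Bool → List Bool → ℕ × ℕ) (B : α × List Bool → ℕ),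
    (PT fun p : (α × List Bool) × List Bool => A p.1 p.2) ∧ UN B ∧
    ∀ a (q : List Bool) R, q ≠ [] → B (a, q) ≤ R → (∀ x, 0 < (A (a, q) x).2) ∧
      (Ex R fun x => |((A (a, q) x).1 : ℝ) / (A (a, q) x).2 - f a|) ≤ f a / q.length

theorem Apx.congr {f g : α → ℝ} (h : Apx f) (e : ∀ a, f a = g a) : Apx g :=
  (funext e : f = g) ▸ h

theorem Apx.comp {f : α → ℝ} (h : Apx f) {g : β → α} (hg : PT g) : Apx fun b => f (g b) := by
  obtain ⟨A, B, h1, h2, h3⟩ := h
  have h4 : PT fun p : β × List Bool => (g p.1, p.2) := PT.pair (PT.comp hg PT.fst') PT.snd'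
  exact ⟨fun p => A (g p.1, p.2), fun p => B (g p.1, p.2),
    PT.comp h1 (PT.pair (PT.comp h4 PT.fst') PT.snd'), h2.comp h4, fun a q R => h3 (g a) q R⟩

theorem Apx.scale {f : α → ℝ} (h : Apx f) {u v : α → ℕ} (hu : PT u) (hv : PT v)
    (h0 : ∀ a, 0 < v a) : Apx fun a => (u a : ℝ) / v a * f a := by
  obtain ⟨A, B, h1, h2, h3⟩ := h
  refine ⟨fun p x => (u p.1 * (A p x).1, v p.1 * (A p x).2), B,
    PT.pair (PT.mul (PT.comp hu (PT.fst PT.fst')) (PT.fst h1))
      (PT.mul (PT.comp hv (PT.fst PT.fst')) (PT.snd h1)), h2, fun a q R hq hR => ?_⟩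
  obtain ⟨h4, h5⟩ := h3 a q R hq hR
  refine ⟨fun x => Nat.mul_pos (h0 a) (h4 x), ?_⟩
  have c0 : (0 : ℝ) ≤ (u a : ℝ) / v a := by positivity
  rw [mul_div_assoc]
  refine le_trans (le_of_eq ?_) (mul_le_mul_of_nonneg_left h5 c0)
  rw [← Ex_mul]
  refine Ex_congr fun x _ => ?_
  rw [← abs_of_nonneg c0, ← abs_mul, mul_sub, div_mul_div_comm]
  push_cast
  rfl

/-- adding a fraction -/
def addF (s b : ℕ × ℕ) : ℕ × ℕ := (s.1 * b.2 + b.1 * s.2, s.2 * b.2)

lemma addF_val (l : List (ℕ × ℕ)) : ∀ s : ℕ × ℕ, 0 < s.2 → (∀ b ∈ l, 0 < b.2) →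
    0 < (l.foldl addF s).2 ∧ ((l.foldl addF s).1 : ℝ) / (l.foldl addF s).2 =
      s.1 / s.2 + (l.map fun b => (b.1 : ℝ) / b.2).sum := by
  induction l with
  | nil => intro s h _; exact ⟨h, by simp⟩
  | cons b l ih =>
    intro s h hl
    obtain ⟨h1, h2⟩ := List.forall_mem_cons.1 hl
    obtain ⟨h3, h4⟩ := ih (addF s b) (Nat.mul_pos h h1) h2
    refine ⟨h3, ?_⟩
    have a1 : (s.2 : ℝ) ≠ 0 := by exact_mod_cast h.ne'
    have a2 : (b.2 : ℝ) ≠ 0 := by exact_mod_cast h1.ne'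
    rw [List.foldl_cons, h4, List.map_cons, List.sum_cons, ← add_assoc, div_add_div _ _ a1 a2]
    simp only [addF]
    push_cast
    ring

lemma sz_mul_le' (a b : ℕ) : sz (a * b) ≤ sz a + sz b := by
  rw [sz_nat_le, pow_add]
  exact Nat.mul_lt_mul'' (lt_two_pow_sz a) (lt_two_pow_sz b)

lemma addF_sz (D : ℕ) (l : List (ℕ × ℕ)) : ∀ (s : ℕ × ℕ) (c : ℕ), sz s.1 ≤ c → sz s.2 ≤ c →
    (∀ b ∈ l, sz b ≤ D) → sz (l.foldl addF s).1 ≤ c + l.length * (D + 1) ∧
      sz (l.foldl addF s).2 ≤ c + l.length * (D + 1) := by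
  induction l with
  | nil => intro s c h1 h2 _; simpa using ⟨h1, h2⟩
  | cons b l ih =>
    intro s c h1 h2 hl
    obtain ⟨h3, h4⟩ := List.forall_mem_cons.1 hl
    rw [← Prod.mk.eta (p := b), sz_prod] at h3
    have a1 := sz_mul_le' s.1 b.2
    have a2 := sz_mul_le' b.1 s.2
    have a3 := sz_mul_le' s.2 b.2
    have a4 : sz (s.1 * b.2 + b.1 * s.2) ≤ c + D + 1 := by
      have b1 : s.1 * b.2 < 2 ^ (c + D) := sz_nat_le.1 (by omega)
      have b2 : b.1 * s.2 < 2 ^ (c + D) := sz_nat_le.1 (by omega)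
      rw [sz_nat_le, pow_succ]
      omega
    have := ih (addF s b) (c + D + 1) a4 (by simp only [addF]; omega) h4
    rw [List.foldl_cons, List.length_cons, add_mul]
    omega

lemma sumF_pt {l : α → List (ℕ × ℕ)} (hl : PT l) : PT fun a => (l a).foldl addF (0, 1) := by
  refine PT.foldl (h := fun _ s b => addF s b) hl (PT.const _)
    (PT.pair (PT.add (PT.mul (PT.fst (PT.fst PT.snd')) (PT.snd (PT.snd PT.snd')))
      (PT.mul (PT.fst (PT.snd PT.snd')) (PT.snd (PT.fst PT.snd'))))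
      (PT.mul (PT.snd (PT.fst PT.snd')) (PT.snd (PT.snd PT.snd'))))
    (fun a => 3 * (1 + sz (l a) * (sz (l a) + 1)) + 1)
    (((Bd.const 3).mul ((Bd.const 1).add (hl.sz_bd.mul (hl.sz_bd.add (Bd.const 1))))).add
      (Bd.const 1)) fun a k => ?_
  have h := addF_sz (sz (l a)) ((l a).take k) (0, 1) 1 (sz_nat_le.2 (by norm_num))
    (sz_nat_le.2 (by norm_num)) fun b hb => sz_le_of_mem (List.mem_of_mem_take hb)
  have h1 : ((l a).take k).length * (sz (l a) + 1) ≤ sz (l a) * (sz (l a) + 1) :=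
    Nat.mul_le_mul_right _ ((List.length_take_le' _ _).trans (length_le_sz _))
  change sz (List.foldl addF _ _) ≤ _
  rw [← Prod.mk.eta (p := List.foldl _ _ _), sz_prod]
  omega

theorem Apx.sum {f : α × ℕ → ℝ} (h : Apx f) {t : α → ℕ} (ht : UN t) :
    Apx fun a => ∑ j ∈ range (t a), f (a, j) := by
  obtain ⟨A, B, h1, h2, h3⟩ := h
  refine ⟨fun p x => ((List.range (t p.1)).map fun j => A ((p.1, j), p.2) x).foldl addF (0, 1),
    fun p => ((List.range (t p.1)).map fun j => B ((p.1, j), p.2)).sum,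
    sumF_pt (PT.map (F := fun (p : (α × List Bool) × List Bool) j => A ((p.1.1, j), p.1.2) p.2)
      (ht.comp (PT.fst PT.fst')).range (PT.comp h1 (PT.pair (PT.pair (PT.pair
        (PT.fst (PT.fst PT.fst')) PT.snd') (PT.snd (PT.fst PT.fst'))) (PT.snd PT.fst')))),
    MP_dec383_lc.UN.sum (f := fun (p : α × List Bool) j => B ((p.1, j), p.2)) (ht.comp PT.fst').range
      (h2.comp (PT.pair (PT.pair (PT.fst PT.fst') PT.snd') (PT.snd PT.fst'))),
    fun a q R hq hR => ?_⟩
  have h4 : ∀ j ∈ range (t a), B ((a, j), q) ≤ R := fun j hj =>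
    (List.single_le_sum (fun _ _ => Nat.zero_le _) _
      (List.mem_map.2 ⟨j, List.mem_range.2 (mem_range.1 hj), rfl⟩)).trans hR
  have h5 := fun x => addF_val ((List.range (t a)).map fun j => A ((a, j), q) x) (0, 1) one_pos
    fun b hb => by
      obtain ⟨j, hj, rfl⟩ := List.mem_map.1 hb
      exact (h3 (a, j) q R hq (h4 j (mem_range.2 (List.mem_range.1 hj)))).1 x
  refine ⟨fun x => (h5 x).1, ?_⟩
  rw [sum_div]
  refine le_trans ?_ (sum_le_sum fun j hj => (h3 (a, j) q R hq (h4 j hj)).2)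
  rw [← Ex_finsum]
  refine Ex_mono fun x _ => le_trans (le_of_eq ?_) (abs_sum_le_sum_abs _ _)
  rw [(h5 x).2, sum_sub_distrib, List.map_map, ← List.sum_toFinset _ List.nodup_range,
    List.toFinset_range]
  simp

/-- the body of the definition in the final statement -/
def FPR (f : ℕ → List (ℕ × ℕ) → ℚ) : Prop :=
  ∃ (M : ((ℕ × List (ℕ × ℕ)) × List Bool) × List Bool → ℤ × ℕ) (p : Polynomial ℕ),
    N68a2faeb.IsPolyTime M ∧ ∀ (n : ℕ) (E : List (ℕ × ℕ)), (∀ e ∈ E, e.1 < n ∧ e.2 < n) →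
      ∀ k : ℕ, 0 < k → ∀ l : ℕ,
        l = p.eval (N487b59b3.bitEncode ((n, E), List.replicate k true)).length →
        (3 : ℚ) / 4 ≤ ((Finset.univ.filter fun r : Fin l → Bool =>
          0 < (M (((n, E), List.replicate k true), List.ofFn r)).2 ∧
          |((M (((n, E), List.replicate k true), List.ofFn r)).1 : ℚ) /
            (M (((n, E), List.replicate k true), List.ofFn r)).2 - f n E| ≤
              |f n E| / k).card : ℚ) / 2 ^ l

lemma markov {R : ℕ} {g : List Bool → ℝ} (h0 : ∀ x, 0 ≤ g x) {c : ℝ} (h : Ex R g ≤ c / 4)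
    (P : List Bool → Prop) [DecidablePred P] (hP : ∀ x, g x ≤ c → P x) :
    (3 : ℝ) / 4 ≤ Ex R fun x => if P x then 1 else 0 := by
  have c0 : 0 ≤ c := by linarith [Ex_nonneg (n := R) fun r _ => h0 r]
  rcases c0.eq_or_lt with rfl | c1
  · have h1 : ∀ r : Fin R → Bool, g (List.ofFn r) = 0 := fun r => by
      rw [Ex_sum, zero_div, div_nonpos_iff] at h
      have h2 : ∑ r : Fin R → Bool, g (List.ofFn r) = 0 := by
        rcases h with h | h
        · exact absurd h.2 (not_le.2 (by positivity))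
        · exact le_antisymm h.1 (sum_nonneg fun _ _ => h0 _)
      exact (sum_eq_zero_iff_of_nonneg fun _ _ => h0 _).1 h2 r (mem_univ _)
    have h3 : (Ex R fun x => if P x then (1 : ℝ) else 0) = Ex R fun _ => 1 := by
      rw [Ex_sum, Ex_sum]
      congr 1
      exact sum_congr rfl fun r _ => if_pos (hP _ (h1 r).le)
    rw [h3, Ex_const]
    norm_num
  · refine le_trans ?_ (Ex_mono (f := fun x => 1 + -(1 / c) * g x) fun x _ => ?_)
    · rw [Ex_add, Ex_const, Ex_mul]
      have : 1 / c * Ex R g ≤ 1 / c * (c / 4) := mul_le_mul_of_nonneg_left h (by positivity)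
      rw [show 1 / c * (c / 4) = 1 / 4 by field_simp] at this
      linarith
    · have h1 : 0 ≤ 1 / c * g x := mul_nonneg (by positivity) (h0 x)
      split_ifs with h2
      · linarith
      · have h3 : c < g x := not_le.1 fun e => h2 (hP x e)
        have h4 : 1 / c * c ≤ 1 / c * g x := mul_le_mul_of_nonneg_left h3.le (by positivity)
        rw [one_div_mul_cancel c1.ne'] at h4
        linarith

theorem Apx.fpr {F : ℕ × List (ℕ × ℕ) → ℝ} (h : Apx F) {f : ℕ → List (ℕ × ℕ) → ℚ}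
    (e : ∀ n E, (∀ z ∈ E, z.1 < n ∧ z.2 < n) → F (n, E) = f n E) : FPR f := by
  obtain ⟨A, B, h1, h2, h3⟩ := h
  have h4 : PT fun p : (ℕ × List (ℕ × ℕ)) × List Bool => (p.1, p.2 ++ p.2 ++ p.2 ++ p.2) :=
    PT.pair PT.fst' (PT.append (PT.append (PT.append PT.snd' PT.snd') PT.snd') PT.snd')
  obtain ⟨p, hp⟩ := PT.sz_bd (h2.comp h4)
  have h5 := PT.comp h1 (PT.pair (PT.comp h4 (PT.fst' (β := List Bool))) PT.snd')
  refine ⟨_, p, (PT.pair (PT.natCastInt (PT.fst h5)) (PT.snd h5)).isPolyTime,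
    fun n E hE k hk l hl => ?_⟩
  set q := List.replicate k true ++ List.replicate k true ++ List.replicate k true ++
    List.replicate k true with hq
  have l1 : q.length = 4 * k := by simp [hq]; omega
  have h6 := hp ((n, E), List.replicate k true)
  simp only [PT.sz_listBool, List.length_replicate] at h6
  obtain ⟨h7, h8⟩ := h3 (n, E) q l (List.ne_nil_of_length_pos (by omega))
    (by rw [hl]; exact le_trans (Nat.le_mul_of_pos_left _ (by norm_num)) h6)
  have k0 : (0 : ℝ) < k := by exact_mod_cast hk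
  have h9 := markov (R := l) (fun _ => abs_nonneg _) (c := F (n, E) / k)
    (h8.trans (le_of_eq (by rw [l1]; push_cast; field_simp)))
    (fun x => 0 < (A ((n, E), q) x).2 ∧
      |((A ((n, E), q) x).1 : ℚ) / (A ((n, E), q) x).2 - f n E| ≤ |f n E| / k) fun x hx => by
      refine ⟨h7 x, ?_⟩
      rw [← Rat.cast_le (K := ℝ)]
      push_cast
      rw [← e n E hE]
      exact hx.trans (div_le_div_of_nonneg_right (le_abs_self _) k0.le)
  rw [Ex_sum, ← Finset.sum_filter] at h9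
  simp only [Int.cast_natCast]
  rw [← Rat.cast_le (K := ℝ)]
  simpa [hq] using h9

lemma isRk_of {ρ : Finset ℕ → ℕ} (h : H5.IsRk ρ) : H64.IsRk ρ := by
  refine ⟨h.emp, h.mono, h.ins, fun A B => ?_⟩
  have key : ∀ D : Finset ℕ, ρ (A ∪ D) + ρ (A ∩ B) ≤ ρ A + ρ (A ∩ B ∪ D) := fun D => by
    induction D using Finset.induction_on with
    | empty => simp
    | insert e D _ ih =>
      have := h.dim (A ∩ B ∪ D) (A ∪ D) e (union_subset_union inter_subset_left subset_rfl)
      rw [union_insert, union_insert]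
      omega
  have := key B
  rwa [union_eq_right.2 inter_subset_right] at this

/-- the value at `(1, 0)` of a family of matroids with a polynomial time rank function -/
theorem apx_mu (hO : A80.St_ORC) {ρ : α → Finset ℕ → ℕ} {m : α → ℕ} (h1 : ∀ a, H5.IsRk (ρ a))
    (h2 : UN m) (h3 : PT fun p : α × List ℕ => ρ p.1 p.2.toFinset) :
    Apx fun a => (H5.mu (range (m a)) (ρ a) : ℝ) := by
  obtain ⟨A, L, a1, a2, a3⟩ := hO (α × List Bool) (fun p => m p.1) (fun p => p.2.length)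
    (fun p l => ρ p.1 l.toFinset) (h2.comp PT.fst') (MP_dec383_lc.UN.length PT.snd')
    (PT.comp h3 (PT.pair (PT.fst PT.fst') PT.snd'))
  refine ⟨A, L, a1, a2, fun a q R hq hR => ?_⟩
  have q0 := List.length_pos_iff.2 hq
  obtain ⟨b1, b2⟩ := a3 (a, q) (ρ a) (isRk_of (h1 a)) (fun _ _ => rfl) q0 R hR
  refine ⟨b1, ?_⟩
  have e : A80.tut (m a) (ρ a) 1 0 = H5.mu (range (m a)) (ρ a) := (H5.mu_eq (h1 a) _).symm
  have m0 : (0 : ℝ) ≤ H5.mu (range (m a)) (ρ a) := by exact_mod_cast H5.mu_nonneg (h1 a) _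
  have q1 : (0 : ℝ) < q.length := by exact_mod_cast q0
  simp only [e] at b2
  refine (abs_le_of_sq_le_sq' ((Ex_sq_le _ _).trans ?_) (by positivity)).2
  simp only [sq_abs]
  refine b2.trans ?_
  rw [div_pow]
  exact div_le_div_of_nonneg_left (sq_nonneg _) (by positivity) (by nlinarith)

end Pool.Agent.Lib.FL.H79
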