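import Pool.Agent.Lib.FL.A80

/-! Elementary facts on maximal chains of flats. -/

namespace Pool.Agent.Lib.FL.A80

open Finset
open Pool.Agent.Lib.FL.H64 (IsRk cl Flat Cov)

namespace CH

variable {m : ℕ} {ρ : Finset ℕ → ℕ}

theorem rng {a b : ℕ} (h : a ≤ b) : range a ⊆ range b := fun _ hx =>
  mem_range.2 (lt_of_lt_of_le (mem_range.1 hx) h)

theorem ivt (h : IsRk ρ) (n : ℕ) : ∀ i, i ≤ ρ (range n) → ∃ j, j ≤ n ∧ ρ (range j) = i := by
  induction n with
  | zero => exact fun i hi => ⟨0, le_rfl, by rw [range_zero, h.empty] at hi ⊢; omega⟩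
  | succ n ih =>
    intro i hi
    rcases le_or_gt i (ρ (range n)) with h1 | h1
    · obtain ⟨j, hj, e⟩ := ih i h1
      exact ⟨j, Nat.le_succ_of_le hj, e⟩
    · have h2 := h.ins (range n) n
      rw [← range_add_one] at h2
      exact ⟨n + 1, le_rfl, by omega⟩

theorem init_eq (h : IsRk ρ) {i j : ℕ} (hj : j ≤ m) (e : ρ (range j) = i) :
    initM m ρ i = cl ρ (range m) (range j) := by
  unfold initM
  split_ifs with hi
  · exact (h.cl_eq H64.flat_top (rng hj) (e ▸ hi)).symm
  · ext x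
    rw [mem_filter, H64.mem_cl]
    refine and_congr_right fun _ => ⟨fun ⟨k, hk⟩ => ?_, fun hx => ⟨j, ?_⟩⟩
    · obtain ⟨-, h1, h2⟩ := mem_filter.1 hk
      rcases le_total k j with h3 | h3
      · exact h.ins_of_sub (rng h3) (h2.trans h1.symm)
      · have h4 := h.mono _ _ (insert_subset_insert x (rng h3))
        have h5 := h.le_ins (range j) x
        omega
    · exact mem_filter.2 ⟨mem_range.2 (Nat.lt_succ_of_le hj), e, hx.trans e⟩

theorem init_ch (h : IsRk ρ) : IsCh m ρ (initM m ρ) := by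
  refine ⟨?_, fun i hi => if_pos hi, fun i hi => ?_⟩
  · have := init_eq (m := m) (i := 0) (j := 0) h (Nat.zero_le _) (by rw [range_zero, h.empty])
    rwa [range_zero] at this
  · obtain ⟨a, ha, ea⟩ := ivt h m i hi.le
    obtain ⟨b, hb, eb⟩ := ivt h m (i + 1) hi
    have hab : a ≤ b := by
      by_contra hc
      have := h.mono _ _ (rng (not_le.1 hc).le)
      omega
    rw [init_eq h ha ea, init_eq h hb eb]
    exact ⟨h.flat_cl (rng ha), h.flat_cl (rng hb),
      h.cl_min (h.flat_cl (rng hb)) ((rng hab).trans (H64.subset_cl (rng hb))),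
      by rw [h.rk_cl (rng ha), h.rk_cl (rng hb), ea, eb]⟩

end CH

theorem st_CH : St_CH := by
  intro m ρ h
  refine ⟨mem_Ch.2 (CH.init_ch h), fun C hC => ?_⟩
  have hC' := mem_Ch.1 hC
  have h1 : ∀ i < ρ (range m), (C i).card < (C (i + 1)).card := fun i hi => (hC'.cov i hi).card_lt
  refine ⟨h1, fun i h0 hi => ?_⟩
  obtain ⟨k, rfl⟩ : ∃ k, i = k + 1 := ⟨i - 1, by omega⟩
  have h2 := h1 k (by omega)
  have h3 := h1 (k + 1) hi
  have h4 := card_le_card (hC'.sub (k + 1 + 1))
  rw [card_range] at h4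
  omega

end Pool.Agent.Lib.FL.A80
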