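import Pool.Agent.Lib.FL.A80

/-! The annealing estimator has small mean square error. -/

namespace Pool.Agent.Lib.FL.A80

open Finset Pool.Agent.Lib.helper82 Pool.Agent.Lib.MP_b67cc8_lc Pool.Agent.FL.Mix28
open Pool.Agent.Lib.FL.H64 (IsRk cl Flat Cov)

namespace EST

theorem rit_pos (K n : ℕ) (u v : ℕ → List Bool → ℕ) (hv : ∀ i < n, ∀ x, 0 < v i x) (t : ℕ) :
    ∀ (j a b : ℕ) (r : List Bool), 0 < b → j + t ≤ n →
      0 < (rit K (pst u v) t (j, a, b) r).2.2 := by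
  induction t with
  | zero => intro j a b r hb _; exact hb
  | succ t ih =>
    intro j a b r hb hj
    simp only [rit, Function.iterate_succ_apply, rst, pst]
    exact ih _ _ _ _ (Nat.mul_pos hb (hv j (by omega) _)) (by omega)

/-- mean square error of the product estimator -/
theorem ms {K N R : ℕ} (hR : K * N ≤ R) (u v : ℕ → List Bool → ℕ)
    (ν : ℕ → ℝ) {η δ : ℝ} (δ0 : 0 ≤ δ) (hν : ∀ j, j < N → 0 < ν j)
    (h1 : ∀ j, j < N → |Ex K (fun x => (u j x : ℝ) / v j x) - ν j| ≤ δ * ν j)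
    (h2 : ∀ j, j < N → ∀ x : List Bool, |(u j x : ℝ) / v j x - ν j| ≤ η * ν j)
    (q1 : (N : ℝ) * (η ^ 2 + 3 * δ) ≤ 1 / 8) :
    Ex R (fun r => (((rit K (pst u v) N (0, 1, 1) r).2.1 : ℝ) /
        (rit K (pst u v) N (0, 1, 1) r).2.2 - ∏ j ∈ range N, ν j) ^ 2) ≤
      2 * (N * (η ^ 2 + 3 * δ)) * (∏ j ∈ range N, ν j) ^ 2 := by
  have m1 := pst_mom K u v 1 N 0 1 1
  have m2 := pst_mom K u v 2 N 0 1 1
  rw [← Ex_rit _ _ _ _ R _ hR] at m1 m2
  simp only [pow_one, Nat.cast_one, div_one, one_mul, zero_add, one_pow] at m1 m2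
  set T := ∏ j ∈ range N, ν j with hT
  have T0 : 0 < T := prod_pos fun j hj => hν j (mem_range.1 hj)
  have N0 : (0 : ℝ) ≤ N := Nat.cast_nonneg N
  have a1 : (1 - N * δ) * T ≤ ∏ i ∈ range N, Ex K fun x => (u i x : ℝ) / v i x := by
    rcases Nat.eq_zero_or_pos N with rfl | hN
    · simp [hT]
    have N1 : (1 : ℝ) ≤ N := by exact_mod_cast hN
    have δ1 : δ ≤ 1 := by nlinarith [sq_nonneg η]
    calc (1 - N * δ) * T ≤ (1 - δ) ^ N * T := by
          refine mul_le_mul_of_nonneg_right ?_ T0.le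
          have := one_add_mul_le_pow (show (-2 : ℝ) ≤ -δ by linarith) N
          simpa [sub_eq_add_neg] using this
      _ = ∏ i ∈ range N, ((1 - δ) * ν i) := by rw [prod_mul_distrib, prod_const, card_range]
      _ ≤ _ := prod_le_prod (fun i hi => mul_nonneg (by linarith) (hν i (mem_range.1 hi)).le)
          fun i hi => by linarith [(abs_le.1 (h1 i (mem_range.1 hi))).1]
  have a2 : (∏ i ∈ range N, Ex K fun x => ((u i x : ℝ) / v i x) ^ 2) ≤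
      (1 + 2 * (N * (η ^ 2 + 2 * δ))) * T ^ 2 := by
    calc _ ≤ ∏ i ∈ range N, ((1 + (η ^ 2 + 2 * δ)) * ν i ^ 2) := by
          refine prod_le_prod (fun i _ => Ex_nonneg fun _ _ => sq_nonneg _) fun i hi => ?_
          have hi' := mem_range.1 hi
          have b1 : (Ex K fun x => ((u i x : ℝ) / v i x) ^ 2) ≤
              Ex K fun x => (η * ν i) ^ 2 - ν i ^ 2 + 2 * ν i * ((u i x : ℝ) / v i x) :=
            Ex_mono fun x _ => by
              have := sq_le_sq' (abs_le.1 (h2 i hi' x)).1 (abs_le.1 (h2 i hi' x)).2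
              nlinarith
          rw [Ex_add, Ex_const, Ex_mul] at b1
          nlinarith [mul_le_mul_of_nonneg_left (abs_le.1 (h1 i hi')).2 (hν i hi').le]
      _ = (1 + (η ^ 2 + 2 * δ)) ^ N * T ^ 2 := by
          rw [prod_mul_distrib, prod_const, card_range, prod_pow]
      _ ≤ _ := by
          refine mul_le_mul_of_nonneg_right ?_ (sq_nonneg _)
          have b1 : (1 + (η ^ 2 + 2 * δ)) ^ N ≤ Real.exp (N * (η ^ 2 + 2 * δ)) := by
            rw [Real.exp_nat_mul]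
            refine pow_le_pow_left₀ (by positivity) ?_ N
            linarith [Real.add_one_le_exp (η ^ 2 + 2 * δ)]
          have b0 : 0 ≤ (N : ℝ) * (η ^ 2 + 2 * δ) := by positivity
          have b2 := (abs_le.1 (Real.abs_exp_sub_one_le (x := N * (η ^ 2 + 2 * δ)) (by
            rw [abs_of_nonneg b0]; nlinarith))).2
          rw [abs_of_nonneg b0] at b2
          linarith
  rw [← m1] at a1
  rw [← m2] at a2
  generalize rit K (pst u v) N (0, 1, 1) = S at *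
  have e : Ex R (fun r => (((S r).2.1 : ℝ) / (S r).2.2 - T) ^ 2) =
      Ex R fun r => T ^ 2 + (-(2 * T) * (((S r).2.1 : ℝ) / (S r).2.2) +
        (((S r).2.1 : ℝ) / (S r).2.2) ^ 2) := Ex_congr fun r _ => by ring
  rw [e, Ex_add, Ex_add, Ex_const, Ex_mul]
  nlinarith [mul_le_mul_of_nonneg_left a1 T0.le]

theorem prod_le_pow {S : Finset ℕ} {m : ℕ} (hS : S.card ≤ m) {a b : ℕ → ℝ} {c : ℝ} (c0 : 0 ≤ c)
    (ha : ∀ i ∈ S, 0 ≤ a i) (hb : ∀ i ∈ S, 0 ≤ b i) (h : ∀ i ∈ S, a i ≤ (1 + c) * b i) :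
    ∏ i ∈ S, a i ≤ (1 + c) ^ m * ∏ i ∈ S, b i := by
  calc ∏ i ∈ S, a i ≤ ∏ i ∈ S, ((1 + c) * b i) := prod_le_prod ha h
    _ = (1 + c) ^ S.card * ∏ i ∈ S, b i := by rw [prod_mul_distrib, prod_const]
    _ ≤ _ := mul_le_mul_of_nonneg_right (pow_le_pow_right₀ (by linarith) hS) (prod_nonneg hb)

theorem NN_ge (m k : ℕ) : (64 : ℝ) ≤ NN m k ∧ (m : ℝ) ≤ NN m k ∧ (k : ℝ) ≤ NN m k := by
  have h1 : (0 : ℝ) ≤ m := Nat.cast_nonneg m
  have h2 : (0 : ℝ) ≤ k := Nat.cast_nonneg k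
  simp only [NN]
  push_cast
  refine ⟨?_, ?_, ?_⟩ <;> linarith

theorem theta (m k : ℕ) : (1 + (m : ℝ) / nn m k) ^ m ≤ 1 + 2 / (NN m k : ℝ) ^ 6 := by
  obtain ⟨h1, h2, -⟩ := NN_ge m k
  have m0 : (0 : ℝ) ≤ m := Nat.cast_nonneg m
  have e : (nn m k : ℝ) = (NN m k : ℝ) ^ 8 := by simp [nn]
  rw [e]
  generalize (NN m k : ℝ) = N at *
  have N0 : 0 < N := by linarith
  have b0 : 0 ≤ (m : ℝ) * (m / N ^ 8) := by positivity
  have b1 : (m : ℝ) * (m / N ^ 8) ≤ 1 / N ^ 6 := by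
    rw [← mul_div_assoc, div_le_div_iff₀ (by positivity) (by positivity)]
    have : (m : ℝ) * m ≤ N * N := mul_le_mul h2 h2 m0 N0.le
    calc (m : ℝ) * m * N ^ 6 ≤ N * N * N ^ 6 := by gcongr
      _ = 1 * N ^ 8 := by ring
  have b2 : 1 / N ^ 6 ≤ 1 := by
    rw [div_le_one (by positivity)]
    exact one_le_pow₀ (by linarith)
  have b3 : (1 + (m : ℝ) / N ^ 8) ^ m ≤ Real.exp (m * (m / N ^ 8)) := by
    rw [Real.exp_nat_mul]
    refine pow_le_pow_left₀ (by positivity) ?_ m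
    linarith [Real.add_one_le_exp ((m : ℝ) / N ^ 8)]
  have b4 := (abs_le.1 (Real.abs_exp_sub_one_le (x := m * (m / N ^ 8)) (by
    rw [abs_of_nonneg b0]; linarith))).2
  rw [abs_of_nonneg b0] at b4
  have : 2 / N ^ 6 = 2 * (1 / N ^ 6) := by ring
  linarith

theorem GG_ge {m n t s : ℕ} (ht : t ≤ n) (h0 : 0 < s) (h1 : s < m) : n ≤ GG m n t s := by
  unfold GG
  have a1 : n - t ≤ (n - t) * (m - s) := Nat.le_mul_of_pos_right _ (by omega)
  have a2 : t ≤ t * s := Nat.le_mul_of_pos_right _ h0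
  omega

theorem GG_step {m n t s : ℕ} (ht : t < n) (h1 : s < m) :
    GG m n t s ≤ GG m n (t + 1) s + m ∧ GG m n (t + 1) s ≤ GG m n t s + m := by
  unfold GG
  obtain ⟨d, rfl⟩ := Nat.exists_eq_add_of_lt ht
  have e1 : t + d + 1 - t = d + 1 := by omega
  have e2 : t + d + 1 - (t + 1) = d := by omega
  rw [e1, e2, add_mul d 1, add_mul t 1, one_mul, one_mul]
  omega

theorem le_rel {a b m n : ℕ} (n0 : 0 < n) (hb : n ≤ b) (h : a ≤ b + m) :
    (a : ℝ) ≤ (1 + (m : ℝ) / n) * b := by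
  have n1 : (0 : ℝ) < n := by exact_mod_cast n0
  have b1 : (n : ℝ) ≤ b := by exact_mod_cast hb
  have h1 : (a : ℝ) ≤ b + m := by exact_mod_cast h
  have : (m : ℝ) ≤ m / n * b := by
    rw [div_mul_eq_mul_div, le_div_iff₀ n1]
    exact mul_le_mul_of_nonneg_left b1 (Nat.cast_nonneg m)
  linarith

theorem abs_of_two {a b η : ℝ} (b0 : 0 < b) (η0 : 0 ≤ η) (h1 : a ≤ (1 + η) * b)
    (h2 : b ≤ (1 + η) * a) : |a / b - 1| ≤ η := by
  rw [abs_le, le_sub_iff_add_le, sub_le_iff_le_add, le_div_iff₀ b0, div_le_iff₀ b0]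
  refine ⟨?_, by linarith⟩
  rcases le_total a b with h | h
  · nlinarith
  · nlinarith

/-- comparison of two partition functions -/
theorem Z_le {m : ℕ} {ρ : Finset ℕ → ℕ} {G H : ℕ → ℝ} {c : ℝ}
    (hL : ∀ C ∈ Ch m ρ, 0 < ∏ i ∈ range (ρ (range m)), La C i)
    (hG : ∀ C ∈ Ch m ρ, 0 < ∏ i ∈ Ico 1 (ρ (range m)), G (C i).card)
    (hH : ∀ C ∈ Ch m ρ, 0 < ∏ i ∈ Ico 1 (ρ (range m)), H (C i).card) {p q : ℝ}
    (h : ∀ C ∈ Ch m ρ, p * ∏ i ∈ Ico 1 (ρ (range m)), H (C i).card ≤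
      c * (q * ∏ i ∈ Ico 1 (ρ (range m)), G (C i).card)) :
    p * Z m ρ G ≤ c * (q * Z m ρ H) := by
  unfold Z
  rw [mul_sum, mul_sum, mul_sum]
  refine sum_le_sum fun C hC => ?_
  unfold wt
  have a1 := hL C hC
  have a2 := hG C hC
  have a3 := hH C hC
  have a4 := h C hC
  generalize ∏ i ∈ range (ρ (range m)), La C i = L at *
  generalize ∏ i ∈ Ico 1 (ρ (range m)), G (C i).card = g at *
  generalize ∏ i ∈ Ico 1 (ρ (range m)), H (C i).card = h' at *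
  rw [← mul_div_assoc, ← mul_div_assoc, ← mul_div_assoc, div_le_div_iff₀ a2 a3]
  nlinarith [mul_le_mul_of_nonneg_left a4 a1.le]

theorem tel {W : ℕ → ℝ} {N : ℕ} (W0 : ∀ t ≤ N, 0 < W t) :
    ∀ n ≤ N, ∏ j ∈ range n, W (j + 1) / W j = W n / W 0 := by
  intro n hn
  induction n with
  | zero => rw [prod_range_zero, div_self (W0 0 hn).ne']
  | succ n ih =>
    rw [prod_range_succ, ih (by omega)]
    have := (W0 n (by omega)).ne'
    field_simp

theorem fin {l : ℕ} {X : List Bool → ℝ} {N k η P a b A μ : ℝ} (N1 : 64 ≤ N) (k1 : 1 ≤ k)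
    (N4 : 4096 * k ^ 2 ≤ N ^ 4) (hη : η = 2 / N ^ 6) (η1 : η ≤ 1 / 32) (P0 : 0 < P) (w0 : 0 < a)
    (w1 : 0 < b) (z1 : P * a ≤ 1 * (1 * A)) (z2 : 1 * A ≤ (1 + η) * (P * a))
    (z3 : P * b ≤ 1 * (1 * (μ * A))) (z4 : 1 * (μ * A) ≤ (1 + η) * (P * b))
    (key : Ex l (fun r => (X r - b / a) ^ 2) ≤ 2 * (76 / N ^ 4) * (b / a) ^ 2) :
    Ex l (fun r => (X r - μ) ^ 2) ≤ μ ^ 2 / (4 * k ^ 2) := by
  simp only [one_mul] at z1 z2 z3 z4
  have N0 : 0 < N := by linarith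
  have η0 : 0 ≤ η := by rw [hη]; positivity
  have pw0 := mul_pos P0 w0
  have pw1 := mul_pos P0 w1
  have A1 : 0 < A := by linarith
  have μ0 : 0 < μ := by
    by_contra c
    nlinarith [mul_nonneg (neg_nonneg.2 (not_lt.1 c)) A1.le]
  have eT : b / a = P * b / (P * a) := by field_simp
  have t1 : b / a ≤ (1 + η) * μ := by
    rw [eT, div_le_iff₀ pw0]
    nlinarith [mul_le_mul_of_nonneg_left z2 μ0.le]
  have t2 : μ ≤ (1 + η) * (b / a) := by
    rw [eT, ← mul_div_assoc, le_div_iff₀ pw0]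
    nlinarith [mul_le_mul_of_nonneg_left z1 μ0.le]
  have T0 : 0 < b / a := div_pos w1 w0
  clear eT z1 z2 z3 z4
  generalize b / a = T at *
  have t3 : (T - μ) ^ 2 ≤ (η * μ) ^ 2 := by
    refine sq_le_sq' ?_ (by linarith)
    rcases le_total T μ with h | h
    · nlinarith
    · nlinarith
  have t4 : T ^ 2 ≤ 2 * μ ^ 2 := by
    have : T ≤ 33 / 32 * μ := by nlinarith
    nlinarith
  have t5 : η ^ 2 ≤ 1 / N ^ 4 := by
    rw [hη, div_pow, div_le_div_iff₀ (by positivity) (by positivity)]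
    have a1 : (4 : ℝ) ≤ N ^ 8 := by
      linarith [N1.trans (le_self_pow₀ (a := N) (n := 8) (by linarith) (by norm_num))]
    calc (2 : ℝ) ^ 2 * N ^ 4 = 4 * N ^ 4 := by norm_num
      _ ≤ N ^ 8 * N ^ 4 := by gcongr
      _ = 1 * (N ^ 6) ^ 2 := by ring
  have t6 : 1 / N ^ 4 ≤ 1 / 1024 * (1 / (4 * k ^ 2)) := by
    rw [div_mul_div_comm, div_le_div_iff₀ (by positivity) (by positivity)]
    linarith
  refine (Ex_mono (g := fun r => 2 * (T - μ) ^ 2 + 2 * (X r - T) ^ 2) fun r _ => ?_).trans ?_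
  · nlinarith [sq_nonneg (X r - T - (T - μ))]
  · rw [Ex_add, Ex_const, Ex_mul]
    have e1 : 76 / N ^ 4 = 76 * (1 / N ^ 4) := by ring
    have e2 : μ ^ 2 / (4 * k ^ 2) = μ ^ 2 * (1 / (4 * k ^ 2)) := by ring
    have y0 : 0 < 1 / N ^ 4 := by positivity
    rw [e1] at key
    rw [e2]
    generalize 1 / N ^ 4 = y at *
    generalize 1 / (4 * k ^ 2) = z at *
    have m2 := sq_nonneg μ
    have u1 : y * T ^ 2 ≤ y * (2 * μ ^ 2) := mul_le_mul_of_nonneg_left t4 y0.le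
    have u2 : η ^ 2 * μ ^ 2 ≤ y * μ ^ 2 := mul_le_mul_of_nonneg_right t5 m2
    have u3 : y * μ ^ 2 ≤ 1 / 1024 * z * μ ^ 2 := mul_le_mul_of_nonneg_right t6 m2
    have u4 : 0 ≤ y * μ ^ 2 := mul_nonneg y0.le m2
    rw [mul_pow] at t3
    linarith

theorem r1 {w f η : ℝ} (hw : 0 < w) (h : |f - 1| ≤ η) :
    (-η + 1) * w ≤ w * f ∧ w * f ≤ (η + 1) * w := by
  constructor <;> nlinarith [(abs_le.1 h).1, (abs_le.1 h).2]

theorem r2 {a ν η N : ℝ} (N0 : 0 < N) (η1 : η ≤ 1 / 32) (h : |ν - 1| ≤ η)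
    (ha : 1 / 2 * a ≤ 1 / N ^ 12) : a ≤ 4 / N ^ 12 * ν := by
  have a5 : 4 / N ^ 12 = 4 * (1 / N ^ 12) := by ring
  have a6 : 0 < 1 / N ^ 12 := by positivity
  rw [a5]
  nlinarith [(abs_le.1 h).1]

theorem r3 {f ν η : ℝ} (η1 : η ≤ 1 / 32) (h1 : |f - 1| ≤ η) (h2 : |ν - 1| ≤ η) :
    |f - ν| ≤ 4 * η * ν := by
  have a1 := abs_le.1 h1
  have a2 := abs_le.1 h2
  rw [abs_le]
  constructor <;> nlinarith [a1.1, a1.2, a2.1, a2.2]

theorem r4 {f η : ℝ} (η1 : η ≤ 1 / 32) (h1 : |f - 1| ≤ η) : 1 / 2 * f ≤ 1 := by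
  linarith [(abs_le.1 h1).2]

theorem r5 {n a b m : ℝ} (n1 : 0 < n) (ha : 0 < a) (hb : 0 < b) (hm : a ≤ m) :
    0 ≤ n * b ∧ n * b ≤ (n + a) * b ∧ (n + a) * b ≤ (1 + m / n) * (n * b) := by
  have em : (1 + m / n) * n = n + m := by field_simp
  rw [← mul_assoc, em]
  refine ⟨by positivity, ?_, ?_⟩ <;> nlinarith

theorem r6 {N k : ℝ} (N1 : 64 ≤ N) (k1 : 1 ≤ k) (N3 : k ≤ N) :
    4096 * k ^ 2 ≤ N ^ 4 ∧ 76 / N ^ 4 ≤ 1 / 8 ∧ 2 / N ^ 6 ≤ 1 / 32 ∧
      N ^ 8 * ((4 * (2 / N ^ 6)) ^ 2 + 3 * (4 / N ^ 12)) = 76 / N ^ 4 := by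
  have N0 : 0 < N := by linarith
  have N4 : 4096 * k ^ 2 ≤ N ^ 4 := by
    have a1 : k ^ 2 ≤ N ^ 2 := pow_le_pow_left₀ (by linarith) N3 2
    have a2 : (64 : ℝ) ^ 2 ≤ N ^ 2 := pow_le_pow_left₀ (by norm_num) N1 2
    calc 4096 * k ^ 2 = 64 ^ 2 * k ^ 2 := by norm_num
      _ ≤ N ^ 2 * N ^ 2 := by gcongr
      _ = N ^ 4 := by ring
  have k2 : (1 : ℝ) ≤ k ^ 2 := one_le_pow₀ k1
  have N6 : (64 : ℝ) ≤ N ^ 6 := N1.trans (le_self_pow₀ (by linarith) (by norm_num))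
  refine ⟨N4, ?_, ?_, ?_⟩
  · rw [div_le_div_iff₀ (by positivity) (by positivity)]
    linarith
  · rw [div_le_div_iff₀ (by positivity) (by positivity)]
    linarith
  · field_simp
    norm_num

end EST

open Pool.Agent.Lib.FL.A80.EST in
theorem st_EST (hZ : St_Z) (hCH : St_CH) (hMIX : St_MIX) : St_EST := by
  intro m ρ hρ k l k0 hl
  by_cases hloop : ∃ e ∈ range m, ρ {e} = 0
  · have e : ∀ x, estM m ρ k x = (0, 1) := fun x => by unfold estM; rw [if_pos hloop]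
    simp only [e, (hZ m ρ hρ).1 hloop]
    simp [Ex_const]
  have e : ∀ x, estM m ρ k x =
      (rit ((mvB m k + 1) * TT m k) (stageM m ρ k) (nn m k) (0, 1, 1) x).2 := fun x => by
    unfold estM; rw [if_neg hloop]
  simp only [e, stageM]
  unfold bitsN at hl
  obtain ⟨hZ1, -⟩ := (hZ m ρ hρ).2 hloop
  obtain ⟨hinit, hch⟩ := hCH m ρ hρ
  have hmix := hMIX m ρ hρ hloop k
  obtain ⟨N1, N2, N3⟩ := NN_ge m k
  have hθ := theta m k
  have hn : (nn m k : ℝ) = (NN m k : ℝ) ^ 8 := by simp [nn]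
  have n0 : 0 < nn m k := pow_pos (by unfold NN; omega) 8
  have hr : (Ico 1 (ρ (range m))).card ≤ m := by
    have := hρ.le_card (range m)
    rw [card_range] at this
    rw [Nat.card_Ico]
    omega
  have hs : ∀ C ∈ Ch m ρ, ∀ i ∈ Ico 1 (ρ (range m)), 0 < (C i).card ∧ (C i).card < m :=
    fun C hC i hi => (hch C hC).2 i (mem_Ico.1 hi).1 (mem_Ico.1 hi).2
  have hL : ∀ C ∈ Ch m ρ, 0 < ∏ i ∈ range (ρ (range m)), La C i := fun C hC =>
    prod_pos fun i hi => by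
      have : ((C i).card : ℝ) < (C (i + 1)).card := by
        exact_mod_cast (hch C hC).1 i (mem_range.1 hi)
      unfold La
      linarith
  have hp : ∀ t ≤ nn m k, ∀ C ∈ Ch m ρ, 0 < prG m ρ k t C := fun t ht C hC =>
    prod_pos fun i hi => n0.trans_le (GG_ge ht (hs C hC i hi).1 (hs C hC i hi).2)
  have hpc : ∀ t C, (prG m ρ k t C : ℝ) =
      ∏ i ∈ Ico 1 (ρ (range m)), (GG m (nn m k) t (C i).card : ℝ) := fun t C => by
    simp [prG]
  have hpr : ∀ t ≤ nn m k, ∀ C ∈ Ch m ρ,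
      0 < ∏ i ∈ Ico 1 (ρ (range m)), (GG m (nn m k) t (C i).card : ℝ) := fun t ht C hC => by
    rw [← hpc]
    exact_mod_cast hp t ht C hC
  refine ⟨fun x => rit_pos _ (nn m k) _ _
    (fun i hi x => hp (i + 1) hi _ ((hmix i hi.le).1 x)) _ 0 1 1 x one_pos (by omega), ?_⟩
  generalize ((NN m k : ℕ) : ℝ) = N at hmix N1 N2 N3 hθ hn
  have N0 : 0 < N := lt_of_lt_of_le (by norm_num) N1
  have k1 : (1 : ℝ) ≤ k := by exact_mod_cast k0
  obtain ⟨N4, q1, η1, q⟩ := r6 N1 k1 N3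
  obtain ⟨η, hη⟩ : ∃ η : ℝ, η = 2 / N ^ 6 := ⟨_, rfl⟩
  rw [← hη] at hθ η1 q
  rw [← hn] at q
  have η0 : 0 ≤ η := by rw [hη]; positivity
  have c0 : (0 : ℝ) ≤ (m : ℝ) / nn m k := by positivity
  have cmp : ∀ a b : ℕ → ℝ, (∀ i ∈ Ico 1 (ρ (range m)), 0 ≤ a i) →
      (∀ i ∈ Ico 1 (ρ (range m)), 0 ≤ b i) →
      (∀ i ∈ Ico 1 (ρ (range m)), a i ≤ (1 + (m : ℝ) / nn m k) * b i) →
      ∏ i ∈ Ico 1 (ρ (range m)), a i ≤ (1 + η) * ∏ i ∈ Ico 1 (ρ (range m)), b i :=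
    fun a b ha hb h => (prod_le_pow hr c0 ha hb h).trans
      (mul_le_mul_of_nonneg_right hθ (prod_nonneg hb))
  have hf : ∀ t < nn m k, ∀ C ∈ Ch m ρ,
      |(prG m ρ k t C : ℝ) / prG m ρ k (t + 1) C - 1| ≤ η := fun t ht C hC => by
    rw [hpc, hpc]
    refine abs_of_two (hpr (t + 1) ht C hC) η0 ?_ ?_
    · exact cmp _ _ (fun _ _ => Nat.cast_nonneg _) (fun _ _ => Nat.cast_nonneg _) fun i hi =>
        le_rel n0 (GG_ge ht (hs C hC i hi).1 (hs C hC i hi).2) (GG_step ht (hs C hC i hi).2).1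
    · exact cmp _ _ (fun _ _ => Nat.cast_nonneg _) (fun _ _ => Nat.cast_nonneg _) fun i hi =>
        le_rel n0 (GG_ge ht.le (hs C hC i hi).1 (hs C hC i hi).2) (GG_step ht (hs C hC i hi).2).2
  obtain ⟨W, hW⟩ : ∃ W : ℕ → ℝ, ∀ t, W t = Z m ρ fun s => GG m (nn m k) t s :=
    ⟨_, fun _ => rfl⟩
  have hw : ∀ t ≤ nn m k, ∀ C ∈ Ch m ρ,
      0 < wt (ρ (range m)) (fun s => GG m (nn m k) t s) C := fun t ht C hC =>
    div_pos (hL C hC) (hpr t ht C hC)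
  have W0 : ∀ t ≤ nn m k, 0 < W t := fun t ht => by
    rw [hW]
    exact sum_pos (hw t ht) ⟨_, hinit⟩
  have hUV : ∀ t < nn m k, ∀ C ∈ Ch m ρ, wt (ρ (range m)) (fun s => GG m (nn m k) (t + 1) s) C =
      wt (ρ (range m)) (fun s => GG m (nn m k) t s) C *
        ((prG m ρ k t C : ℝ) / prG m ρ k (t + 1) C) := fun t ht C hC => by
    rw [hpc, hpc]
    unfold wt
    have := (hpr t ht.le C hC).ne'
    have := (hpr (t + 1) ht C hC).ne'
    field_simp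
  have hν : ∀ t < nn m k, |W (t + 1) / W t - 1| ≤ η := fun t ht => by
    have Z0 := W0 t ht.le
    rw [abs_le, le_sub_iff_add_le, sub_le_iff_le_add, le_div_iff₀ Z0, div_le_iff₀ Z0]
    simp only [hW, Z]
    rw [mul_sum, mul_sum]
    constructor <;> refine sum_le_sum fun C hC => ?_
    · rw [hUV t ht C hC]
      exact (r1 (hw t ht.le C hC) (hf t ht C hC)).1
    · rw [hUV t ht C hC]
      exact (r1 (hw t ht.le C hC) (hf t ht C hC)).2
  have key := ms (K := (mvB m k + 1) * TT m k) (N := nn m k) (R := l) hl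
    (fun t x => prG m ρ k t (smpM m ρ k t x)) (fun t x => prG m ρ k (t + 1) (smpM m ρ k t x))
    (fun j => W (j + 1) / W j) (η := 4 * η) (δ := 4 / N ^ 12) (by positivity)
    (fun j hj => div_pos (W0 _ hj) (W0 _ hj.le)) (fun j hj => ?_) (fun j hj x => ?_) ?_
  rotate_left
  · have a := (hmix j hj.le).2 (fun C => 1 / 2 * ((prG m ρ k j C : ℝ) / prG m ρ k (j + 1) C))
      (fun C _ => by positivity) fun C hC => r4 η1 (hf j hj C hC)
    have e : ∑ C ∈ Ch m ρ, wt (ρ (range m)) (fun s => GG m (nn m k) j s) C *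
        (1 / 2 * ((prG m ρ k j C : ℝ) / prG m ρ k (j + 1) C)) = 1 / 2 * W (j + 1) := by
      simp only [hW, Z]
      rw [mul_sum]
      exact sum_congr rfl fun C hC => by rw [hUV j hj C hC]; ring
    rw [Ex_mul, e, ← hW, mul_div_assoc, ← mul_sub, abs_mul, abs_of_pos (by norm_num)] at a
    exact r2 N0 η1 (hν j hj) a
  · exact r3 η1 (hf j hj _ ((hmix j hj.le).1 x)) (hν j hj)
  · rw [q]
    exact q1
  rw [tel W0 _ le_rfl, q] at key
  -- the two ends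
  have n1 : (0 : ℝ) < nn m k := by exact_mod_cast n0
  have G0 : ∀ s < m, (GG m (nn m k) 0 s : ℝ) = (nn m k + s) * ((m : ℝ) - s) := fun s h => by
    unfold GG
    push_cast [Nat.cast_sub h.le, Nat.sub_zero]
    ring
  have G1 : ∀ s < m, (GG m (nn m k) (nn m k) s : ℝ) = (nn m k + ((m : ℝ) - s)) * s :=
    fun s h => by
      unfold GG
      push_cast [Nat.cast_sub h.le, Nat.sub_self]
      ring
  have hrs : ∀ C ∈ Ch m ρ, ∀ i ∈ Ico 1 (ρ (range m)),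
      (0 : ℝ) < (C i).card ∧ ((C i).card : ℝ) < m := fun C hC i hi =>
    ⟨by exact_mod_cast (hs C hC i hi).1, by exact_mod_cast (hs C hC i hi).2⟩
  obtain ⟨P, hP⟩ : ∃ P : ℝ, P = ((nn m k : ℕ) : ℝ) ^ (Ico 1 (ρ (range m))).card := ⟨_, rfl⟩
  have P0 : 0 < P := hP ▸ pow_pos n1 _
  have hPm : ∀ g : ℕ → ℝ, P * ∏ i ∈ Ico 1 (ρ (range m)), g i =
      ∏ i ∈ Ico 1 (ρ (range m)), ((nn m k : ℝ) * g i) := fun g => by
    rw [prod_mul_distrib, prod_const, hP]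
  have A0 : ∀ C ∈ Ch m ρ, 0 < ∏ i ∈ Ico 1 (ρ (range m)), ((m : ℝ) - (C i).card) := fun C hC =>
    prod_pos fun i hi => sub_pos.2 (hrs C hC i hi).2
  have B0 : ∀ C ∈ Ch m ρ, 0 < ∏ i ∈ Ico 1 (ρ (range m)), ((C i).card : ℝ) := fun C hC =>
    prod_pos fun i hi => (hrs C hC i hi).1
  have ra := fun C hC i hi =>
    r5 n1 (hrs C hC i hi).1 (sub_pos.2 (hrs C hC i hi).2) (hrs C hC i hi).2.le
  have rb := fun C hC i hi => r5 n1 (sub_pos.2 (hrs C hC i hi).2) (hrs C hC i hi).1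
    (sub_le_self (m : ℝ) (hrs C hC i hi).1.le)
  have z1 : P * W 0 ≤ 1 * (1 * Z m ρ fun s => (m : ℝ) - s) := by
    rw [hW]
    exact Z_le hL (hpr 0 n0.le) A0 fun C hC => by
      rw [one_mul, one_mul, hPm]
      refine prod_le_prod (fun i hi => (ra C hC i hi).1) fun i hi => ?_
      rw [G0 _ (hs C hC i hi).2]
      exact (ra C hC i hi).2.1
  have z2 : 1 * (Z m ρ fun s => (m : ℝ) - s) ≤ (1 + η) * (P * W 0) := by
    rw [hW]
    exact Z_le hL A0 (hpr 0 n0.le) fun C hC => by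
      rw [one_mul, hPm]
      refine cmp _ _ (fun _ _ => Nat.cast_nonneg _) (fun i hi => (ra C hC i hi).1) fun i hi => ?_
      rw [G0 _ (hs C hC i hi).2]
      exact (ra C hC i hi).2.2
  have z3 : P * W (nn m k) ≤ 1 * (1 * Z m ρ fun s => (s : ℝ)) := by
    rw [hW]
    exact Z_le hL (hpr _ le_rfl) B0 fun C hC => by
      rw [one_mul, one_mul, hPm]
      refine prod_le_prod (fun i hi => (rb C hC i hi).1) fun i hi => ?_
      rw [G1 _ (hs C hC i hi).2]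
      exact (rb C hC i hi).2.1
  have z4 : 1 * (Z m ρ fun s => (s : ℝ)) ≤ (1 + η) * (P * W (nn m k)) := by
    rw [hW]
    exact Z_le hL B0 (hpr _ le_rfl) fun C hC => by
      rw [one_mul, hPm]
      refine cmp _ _ (fun _ _ => Nat.cast_nonneg _) (fun i hi => (rb C hC i hi).1) fun i hi => ?_
      rw [G1 _ (hs C hC i hi).2]
      exact (rb C hC i hi).2.2
  rw [hZ1] at z3 z4
  exact fin N1 k1 N4 hη η1 P0 (W0 0 n0.le) (W0 _ le_rfl) z1 z2 z3 z4 key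

end Pool.Agent.Lib.FL.A80
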