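import Pool.Agent.Lib.FL.R3_89

set_option autoImplicit false

open Finset Function

noncomputable section

namespace Pool.Agent.Lib.FL.H89

variable {X : Type}

/-- there is a chain of `n` covers from `x` to `T` -/
def Up (cov : X → X → Prop) (n : ℕ) (x T : X) : Prop :=
  ∃ c : ℕ → X, c 0 = x ∧ c n = T ∧ ∀ i < n, cov (c i) (c (i + 1))

open Classical in
/-- what the proof uses of a geometric lattice with weighted atoms -/
structure Geo (Fl : Finset X) (cov : X → X → Prop) (l : X → ℝ) : Prop where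
  mem : ∀ x y, cov x y → x ∈ Fl ∧ y ∈ Fl
  lt : ∀ x y, cov x y → l x < l y
  part : ∀ K P Q, cov K P → cov P Q →
    ∑ P' ∈ Fl with cov K P' ∧ cov P' Q, (l P' - l K) = l Q - l K
  uniq : ∀ K P P' Z Z', cov K P → cov K P' → P ≠ P' → cov P Z → cov P' Z → cov P Z' →
    cov P' Z' → Z = Z'
  join : ∀ n K P P' T, cov K P → cov K P' → P ≠ P' → Up cov (n + 1) P T → Up cov (n + 1) P' T →
    ∃ Z, cov P Z ∧ cov P' Z ∧ Up cov n Z T

/-- the concavity condition on the denominators -/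
structure Conc (cov : X → X → Prop) (l G : X → ℝ) (ρ : ℝ) : Prop where
  nn : ∀ x y, cov x y → 0 ≤ G x ∧ 0 ≤ G y
  pos : ∀ K P Q, cov K P → cov P Q → 0 < G P
  conc : ∀ K P Q, cov K P → cov P Q → ρ * ((l P - l K) * (l Q - l P) * (l Q - l K)) ≤
    (l Q - l K) * G P - (l Q - l P) * G K - (l P - l K) * G Q

/-- maximal chains from `K0` to `T0` -/
def IsCh (cov : X → X → Prop) (K0 T0 : X) (r : ℕ) (C : ℕ → X) : Prop :=
  C 0 = K0 ∧ (∀ i, r ≤ i → C i = T0) ∧ ∀ i < r, cov (C i) (C (i + 1))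

/-- one factor of the weight -/
def ph (l G : X → ℝ) (C : ℕ → X) (i : ℕ) : ℝ :=
  (l (C (i + 1)) - l (C i)) / if i = 0 then 1 else G (C i)

/-- the weight of a chain -/
def wt (l G : X → ℝ) (r : ℕ) (C : ℕ → X) : ℝ := ∏ i ∈ range r, ph l G C i

/-- the part of the weight that depends on the position `j + 1` -/
def lw (l G : X → ℝ) (j : ℕ) (C : ℕ → X) : ℝ :=
  (l (C (j + 1)) - l (C j)) * (l (C (j + 2)) - l (C (j + 1))) / G (C (j + 1))

open Classical in
/-- the possible values at the position `j + 1` -/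
def Nb (Fl : Finset X) (cov : X → X → Prop) (j : ℕ) (C : ℕ → X) : Finset X :=
  Fl.filter fun P => cov (C j) P ∧ cov P (C (j + 2))

/-- the uniform mean over the position `j + 1` -/
def Mn (Fl : Finset X) (cov : X → X → Prop) (j : ℕ) (u : (ℕ → X) → ℝ) (C : ℕ → X) : ℝ :=
  (∑ P ∈ Nb Fl cov j C, u (update C (j + 1) P)) / (Nb Fl cov j C).card

def Pr (l G : X → ℝ) (r : ℕ) (J : Finset ℕ) (C : ℕ → X) : ℝ := ∏ i ∈ range r \ J, ph l G C i

def gh (G : X → ℝ) (j : ℕ) (C : ℕ → X) : ℝ := if j = 0 then 1 else G (C j)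

theorem tri_sum (T : ℕ → ℕ → ℝ) (e A B : ℕ → ℝ) (s : ℕ) (hs : ∀ i j, T i j = T j i)
    (hA : ∀ j < s, 0 ≤ A j) (hB : ∀ j < s, 0 ≤ B j) (hd : ∀ j < s, e j + A j + B j ≤ T j j)
    (hf : ∀ i j, i + 2 ≤ j → j < s → 0 ≤ T i j)
    (ha : ∀ j, j + 1 < s → 0 ≤ B j + A (j + 1) + 2 * T j (j + 1)) :
    ∑ j ∈ range s, e j ≤ ∑ i ∈ range s, ∑ j ∈ range s, T i j := by
  have key : ∀ t, t < s → ∑ j ∈ range (t + 1), e j + B t ≤
      ∑ i ∈ range (t + 1), ∑ j ∈ range (t + 1), T i j := by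
    intro t
    induction t with
    | zero =>
      intro h
      have := hd 0 h
      have := hA 0 h
      simp only [zero_add, range_one, sum_singleton]
      linarith
    | succ t ih =>
      intro h
      have h1 := ih (by omega)
      have h2 := hd _ h
      have h3 := ha t h
      have h4 : 0 ≤ ∑ i ∈ range t, T i (t + 1) :=
        sum_nonneg fun i hi => hf i _ (by have := mem_range.1 hi; omega) h
      have h5 : ∑ i ∈ range (t + 1 + 1), ∑ j ∈ range (t + 1 + 1), T i j =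
          ∑ i ∈ range (t + 1), ∑ j ∈ range (t + 1), T i j +
            2 * (∑ i ∈ range t, T i (t + 1) + T t (t + 1)) + T (t + 1) (t + 1) := by
        rw [sum_range_succ, sum_range_succ (fun j => T (t + 1) j)]
        simp only [sum_range_succ _ (t + 1), sum_add_distrib]
        rw [sum_congr rfl fun j _ => hs (t + 1) j, sum_range_succ (fun i => T i (t + 1)) t]
        ring
      rw [h5, sum_range_succ e (t + 1)]
      linarith
  cases s with
  | zero => simp
  | succ t => linarith [key t (Nat.lt_succ_self t), hB t (Nat.lt_succ_self t)]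

open Classical in
theorem fiber_nonneg (Ch : Finset (ℕ → X)) (J : ℕ → Prop) (f : (ℕ → X) → ℝ)
    (h : ∀ C0 ∈ Ch, 0 ≤ ∑ C ∈ Ch with ∀ i, ¬ J i → C i = C0 i, f C) : 0 ≤ ∑ C ∈ Ch, f C := by
  let key : (ℕ → X) → ℕ → Option X := fun C i => if J i then none else some (C i)
  rw [← sum_fiberwise_of_maps_to (s := Ch) (t := Ch.image key) (g := key)
    (fun C hC => mem_image_of_mem _ hC)]
  refine sum_nonneg fun y hy => ?_
  obtain ⟨C0, hC0, rfl⟩ := mem_image.1 hy
  refine (h C0 hC0).trans_eq (sum_congr (filter_congr fun C _ => ?_) fun _ _ => rfl)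
  rw [funext_iff]
  refine forall_congr' fun i => ?_
  by_cases hi : J i <;> simp [key, hi]

section
variable {Fl : Finset X} {cov : X → X → Prop} {l G : X → ℝ} {ρ : ℝ} {K0 T0 : X} {r : ℕ}

theorem isCh_update {C : ℕ → X} (hC : IsCh cov K0 T0 r C) {j : ℕ} (hj : j + 2 ≤ r) {P : X}
    (h1 : cov (C j) P) (h2 : cov P (C (j + 2))) : IsCh cov K0 T0 r (update C (j + 1) P) := by
  refine ⟨by rw [update_of_ne (by omega)]; exact hC.1, fun i hi => ?_, fun i hi => ?_⟩
  · rw [update_of_ne (by omega)]; exact hC.2.1 i hi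
  · by_cases e1 : i = j
    · subst e1
      rw [update_of_ne (by omega), update_self]; exact h1
    · by_cases e2 : i = j + 1
      · subst e2
        rw [update_self, update_of_ne (by omega)]; exact h2
      · rw [update_of_ne e2, update_of_ne (by omega)]; exact hC.2.2 i hi

theorem isCh_update2 {C : ℕ → X} (hC : IsCh cov K0 T0 r C) {j : ℕ} (hj : j + 3 ≤ r) {P Q : X}
    (h1 : cov (C j) P) (h2 : cov P Q) (h3 : cov Q (C (j + 3))) :
    IsCh cov K0 T0 r (update (update C (j + 1) P) (j + 2) Q) := by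
  refine ⟨by rw [update_of_ne (by omega), update_of_ne (by omega)]; exact hC.1,
    fun i hi => ?_, fun i hi => ?_⟩
  · rw [update_of_ne (by omega), update_of_ne (by omega)]; exact hC.2.1 i hi
  · by_cases e1 : i = j
    · subst e1
      rw [update_of_ne (by omega), update_of_ne (by omega), update_of_ne (by omega), update_self]
      exact h1
    · by_cases e2 : i = j + 1
      · subst e2
        rw [update_of_ne (by omega), update_self, update_self]; exact h2
      · by_cases e3 : i = j + 2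
        · subst e3
          rw [update_self, update_of_ne (by omega), update_of_ne (by omega)]; exact h3
        · rw [update_of_ne e3, update_of_ne e2, update_of_ne (by omega), update_of_ne (by omega)]
          exact hC.2.2 i hi

theorem mem_Nb (hg : Geo Fl cov l) {j : ℕ} {C : ℕ → X} {P : X} :
    P ∈ Nb Fl cov j C ↔ cov (C j) P ∧ cov P (C (j + 2)) := by
  classical
  unfold Nb
  simp only [mem_filter]
  exact ⟨fun h => h.2, fun h => ⟨(hg.mem _ _ h.1).2, h⟩⟩

theorem self_mem_Nb (hg : Geo Fl cov l) {C : ℕ → X} (hC : IsCh cov K0 T0 r C) {j : ℕ}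
    (hj : j + 2 ≤ r) : C (j + 1) ∈ Nb Fl cov j C :=
  (mem_Nb hg).2 ⟨hC.2.2 j (by omega), hC.2.2 (j + 1) (by omega)⟩

theorem Nb_update {j k : ℕ} (C : ℕ → X) (P : X) (h1 : j ≠ k) (h2 : j + 2 ≠ k) :
    Nb Fl cov j (update C k P) = Nb Fl cov j C := by
  unfold Nb
  rw [update_of_ne h1, update_of_ne h2]

theorem Mn_update (j : ℕ) (u : (ℕ → X) → ℝ) (C : ℕ → X) (P : X) :
    Mn Fl cov j u (update C (j + 1) P) = Mn Fl cov j u C := by
  unfold Mn
  rw [Nb_update C P (by omega) (by omega)]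
  simp only [update_idem]

theorem sum_dev (j : ℕ) (u : (ℕ → X) → ℝ) (C : ℕ → X) :
    ∑ P ∈ Nb Fl cov j C, (u (update C (j + 1) P) - Mn Fl cov j u C) = 0 := by
  rcases (Nb Fl cov j C).eq_empty_or_nonempty with h | h
  · rw [h, sum_empty]
  · have hc : ((Nb Fl cov j C).card : ℝ) ≠ 0 := by exact_mod_cast h.card_pos.ne'
    rw [sum_sub_distrib, sum_const, nsmul_eq_mul, Mn, mul_div_cancel₀ _ hc, sub_self]

theorem Pr_update {J : Finset ℕ} {j : ℕ} (h1 : j ∈ J) (h2 : j + 1 ∈ J) (C : ℕ → X) (P : X) :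
    Pr l G r J (update C (j + 1) P) = Pr l G r J C := by
  refine prod_congr rfl fun i hi => ?_
  have h3 := (mem_sdiff.1 hi).2
  have e1 : i ≠ j + 1 := fun e => h3 (e ▸ h2)
  have e2 : i + 1 ≠ j + 1 := fun e => h3 ((Nat.succ_injective e) ▸ h1)
  unfold ph
  rw [update_of_ne e1, update_of_ne e2]

theorem wt_eq {J : Finset ℕ} (hJ : ∀ i ∈ J, i < r) (C : ℕ → X) :
    wt l G r C = Pr l G r J C * ∏ i ∈ J, ph l G C i :=
  (prod_sdiff fun i hi => mem_range.2 (hJ i hi)).symm

theorem gh_pos (hc : Conc cov l G ρ) {C : ℕ → X} (hC : IsCh cov K0 T0 r C) {i : ℕ} (hi : i < r) :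
    0 < gh G i C := by
  unfold gh
  cases i with
  | zero => simp
  | succ i =>
    rw [if_neg (Nat.succ_ne_zero i)]
    exact hc.pos _ _ _ (hC.2.2 i (by omega)) (hC.2.2 (i + 1) hi)

theorem ph_pos (hg : Geo Fl cov l) (hc : Conc cov l G ρ) {C : ℕ → X} (hC : IsCh cov K0 T0 r C)
    {i : ℕ} (hi : i < r) : 0 < ph l G C i :=
  div_pos (sub_pos.2 (hg.lt _ _ (hC.2.2 i hi))) (gh_pos hc hC hi)

theorem wt_pos (hg : Geo Fl cov l) (hc : Conc cov l G ρ) {C : ℕ → X} (hC : IsCh cov K0 T0 r C) :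
    0 < wt l G r C := prod_pos fun _ hi => ph_pos hg hc hC (mem_range.1 hi)

theorem Pr_pos (hg : Geo Fl cov l) (hc : Conc cov l G ρ) {C : ℕ → X} (hC : IsCh cov K0 T0 r C)
    (J : Finset ℕ) : 0 < Pr l G r J C :=
  prod_pos fun _ hi => ph_pos hg hc hC (mem_range.1 (mem_sdiff.1 hi).1)

theorem lw_pos (hg : Geo Fl cov l) (hc : Conc cov l G ρ) {C : ℕ → X} (hC : IsCh cov K0 T0 r C)
    {j : ℕ} (hj : j + 2 ≤ r) : 0 < lw l G j C :=
  div_pos (mul_pos (sub_pos.2 (hg.lt _ _ (hC.2.2 j (by omega))))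
    (sub_pos.2 (hg.lt _ _ (hC.2.2 (j + 1) (by omega)))))
    (hc.pos _ _ _ (hC.2.2 j (by omega)) (hC.2.2 (j + 1) (by omega)))

theorem ph_mul (j : ℕ) (C : ℕ → X) :
    ph l G C j * ph l G C (j + 1) = lw l G j C / gh G j C := by
  unfold ph lw gh
  rw [if_neg (Nat.succ_ne_zero j)]
  ring

/-- the rest of the weight -/
def Rs (l G : X → ℝ) (r j : ℕ) (C : ℕ → X) : ℝ := Pr l G r {j, j + 1} C / gh G j C

theorem wt_eq_Rs {j : ℕ} (hj : j + 2 ≤ r) (C : ℕ → X) :
    wt l G r C = Rs l G r j C * lw l G j C := by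
  rw [wt_eq (J := {j, j + 1}) (by simp; omega), prod_pair (by omega), ph_mul, Rs]
  ring

theorem gh_update {j k : ℕ} (h : j ≠ k) (C : ℕ → X) (P : X) :
    gh G j (update C k P) = gh G j C := by
  unfold gh
  rw [update_of_ne h]

theorem Rs_update (j : ℕ) (C : ℕ → X) (P : X) :
    Rs l G r j (update C (j + 1) P) = Rs l G r j C := by
  unfold Rs
  rw [Pr_update (by simp) (by simp), gh_update (by omega)]

theorem Rs_pos (hg : Geo Fl cov l) (hc : Conc cov l G ρ) {C : ℕ → X} (hC : IsCh cov K0 T0 r C)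
    {j : ℕ} (hj : j + 2 ≤ r) : 0 < Rs l G r j C :=
  div_pos (Pr_pos hg hc hC _) (gh_pos hc hC (by omega))

variable {Ch : Finset (ℕ → X)}

open Classical in
theorem fib1 (hg : Geo Fl cov l) (hCh : ∀ C, C ∈ Ch ↔ IsCh cov K0 T0 r C) {j : ℕ}
    (hj : j + 2 ≤ r) {C0 : ℕ → X} (h0 : C0 ∈ Ch) (f : (ℕ → X) → ℝ) :
    ∑ C ∈ Ch with ∀ i, ¬ i = j + 1 → C i = C0 i, f C =
      ∑ P ∈ Nb Fl cov j C0, f (update C0 (j + 1) P) := by
  have hre : ∀ C : ℕ → X, (∀ i, ¬ i = j + 1 → C i = C0 i) → update C0 (j + 1) (C (j + 1)) = C :=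
    fun C h => by
      funext i
      by_cases e : i = j + 1
      · subst e; rw [update_self]
      · rw [update_of_ne e, h i e]
  refine sum_nbij' (fun C => C (j + 1)) (fun P => update C0 (j + 1) P) ?_ ?_ ?_ ?_ ?_
  · intro C hC
    obtain ⟨h1, h2⟩ := mem_filter.1 hC
    rw [mem_Nb hg, ← h2 j (by omega), ← h2 (j + 2) (by omega)]
    exact (mem_Nb hg).1 (self_mem_Nb hg ((hCh C).1 h1) hj)
  · intro P hP
    obtain ⟨h1, h2⟩ := (mem_Nb hg).1 hP
    exact mem_filter.2 ⟨(hCh _).2 (isCh_update ((hCh _).1 h0) hj h1 h2),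
      fun i e => update_of_ne e _ _⟩
  · intro C hC
    exact hre C (mem_filter.1 hC).2
  · intro P _
    exact update_self _ _ _
  · intro C hC
    rw [hre C (mem_filter.1 hC).2]

open Classical in
theorem fib2 {j k : ℕ} (hjk : j ≠ k) (C0 : ℕ → X) (S T : Finset X) (I : X → X → Prop)
    (h1 : ∀ C ∈ Ch, (∀ i, ¬ (i = j ∨ i = k) → C i = C0 i) → C j ∈ S ∧ C k ∈ T ∧ I (C j) (C k))
    (h2 : ∀ P ∈ S, ∀ Q ∈ T, I P Q → update (update C0 j P) k Q ∈ Ch) (f : (ℕ → X) → ℝ) :
    ∑ C ∈ Ch with ∀ i, ¬ (i = j ∨ i = k) → C i = C0 i, f C =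
      ∑ P ∈ S, ∑ Q ∈ T with I P Q, f (update (update C0 j P) k Q) := by
  have hre : ∀ C : ℕ → X, (∀ i, ¬ (i = j ∨ i = k) → C i = C0 i) →
      update (update C0 j (C j)) k (C k) = C := fun C h => by
    funext i
    by_cases e : i = k
    · subst e; rw [update_self]
    · rw [update_of_ne e]
      by_cases e' : i = j
      · subst e'; rw [update_self]
      · rw [update_of_ne e', h i (by tauto)]
  rw [sum_sigma']
  refine sum_nbij' (fun C => ⟨C j, C k⟩) (fun p => update (update C0 j p.1) k p.2) ?_ ?_ ?_ ?_ ?_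
  · intro C hC
    obtain ⟨a1, a2⟩ := mem_filter.1 hC
    obtain ⟨b1, b2, b3⟩ := h1 C a1 a2
    exact mem_sigma.2 ⟨b1, mem_filter.2 ⟨b2, b3⟩⟩
  · intro p hp
    obtain ⟨a1, a2⟩ := mem_sigma.1 hp
    obtain ⟨a3, a4⟩ := mem_filter.1 a2
    refine mem_filter.2 ⟨h2 _ a1 _ a3 a4, fun i e => ?_⟩
    rw [update_of_ne (by tauto), update_of_ne (by tauto)]
  · intro C hC
    exact hre C (mem_filter.1 hC).2
  · rintro ⟨P, Q⟩ _
    simp only [update_self, update_of_ne hjk]
  · intro C hC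
    rw [hre C (mem_filter.1 hC).2]

/-- the deviation from the local mean -/
def dv (Fl : Finset X) (cov : X → X → Prop) (j : ℕ) (u : (ℕ → X) → ℝ) (C : ℕ → X) : ℝ :=
  u C - Mn Fl cov j u C

theorem sum_inv_dv (hg : Geo Fl cov l) (hCh : ∀ C, C ∈ Ch ↔ IsCh cov K0 T0 r C) {j : ℕ}
    (hj : j + 2 ≤ r) (h u : (ℕ → X) → ℝ) (hh : ∀ C P, h (update C (j + 1) P) = h C) :
    ∑ C ∈ Ch, h C * dv Fl cov j u C = 0 := by
  have key : ∀ h : (ℕ → X) → ℝ, (∀ C P, h (update C (j + 1) P) = h C) →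
      0 ≤ ∑ C ∈ Ch, h C * dv Fl cov j u C := fun h hh => by
    refine fiber_nonneg Ch (fun i => i = j + 1) _ fun C0 h0 => ?_
    have := fib1 hg hCh hj h0 fun C => h C * dv Fl cov j u C
    simp only [hh, dv, Mn_update] at this
    rw [← mul_sum, sum_dev, mul_zero] at this
    exact this.ge
  have h1 := key h hh
  have h2 := key (fun C => -h C) fun C P => by rw [hh]
  simp only [neg_mul, sum_neg_distrib] at h2
  linarith

theorem form_eq (hg : Geo Fl cov l) (hc : Conc cov l G ρ)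
    (hCh : ∀ C, C ∈ Ch ↔ IsCh cov K0 T0 r C) {j : ℕ} (hj : j + 2 ≤ r) (u v : (ℕ → X) → ℝ) :
    ∑ C ∈ Ch, wt l G r C * (u C * (dv Fl cov j v C / lw l G j C)) =
      ∑ C ∈ Ch, Rs l G r j C * (dv Fl cov j u C * dv Fl cov j v C) := by
  have h := sum_inv_dv hg hCh hj (fun C => Rs l G r j C * Mn Fl cov j u C) v fun C P => by
    rw [Rs_update, Mn_update]
  rw [← sub_zero (∑ C ∈ Ch, wt l G r C * _), ← h, ← sum_sub_distrib]
  refine sum_congr rfl fun C hC => ?_
  have := (lw_pos hg hc ((hCh C).1 hC) hj).ne'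
  rw [wt_eq_Rs hj, dv.eq_1 Fl cov j u]
  field_simp

theorem far_nonneg (hg : Geo Fl cov l) (hc : Conc cov l G ρ)
    (hCh : ∀ C, C ∈ Ch ↔ IsCh cov K0 T0 r C) {j k : ℕ} (hjk : j + 2 ≤ k) (hk : k + 2 ≤ r)
    (u : (ℕ → X) → ℝ) :
    0 ≤ ∑ C ∈ Ch, wt l G r C * (dv Fl cov j u C / lw l G j C * (dv Fl cov k u C / lw l G k C)) := by
  classical
  let R : (ℕ → X) → ℝ := fun C => Pr l G r {j, j + 1, k, k + 1} C / (gh G j C * gh G k C)
  have hw : ∀ C, wt l G r C = R C * (lw l G j C * lw l G k C) := fun C => by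
    rw [wt_eq (J := {j, j + 1, k, k + 1}) (by simp; omega), prod_insert (by simp; omega),
      prod_insert (by simp; omega), prod_pair (by omega), ← mul_assoc (ph l G C j), ph_mul, ph_mul]
    simp only [R]
    ring
  have e : ∑ C ∈ Ch, wt l G r C * (dv Fl cov j u C / lw l G j C * (dv Fl cov k u C / lw l G k C)) =
      ∑ C ∈ Ch, R C * (dv Fl cov j u C * dv Fl cov k u C) := by
    refine sum_congr rfl fun C hC => ?_
    have := (lw_pos hg hc ((hCh C).1 hC) (j := j) (by omega)).ne'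
    have := (lw_pos hg hc ((hCh C).1 hC) hk).ne'
    rw [hw]
    field_simp
  rw [e]
  refine fiber_nonneg Ch (fun i => i = j + 1 ∨ i = k + 1) _ fun C0 h0 => ?_
  have hC0 := (hCh _).1 h0
  have hf := fib2 (Ch := Ch) (j := j + 1) (k := k + 1) (by omega) C0 (Nb Fl cov j C0)
    (Nb Fl cov k C0) (fun _ _ => True) (fun C hC h => by
      have a1 := (mem_Nb hg).1 (self_mem_Nb hg ((hCh C).1 hC) (j := j) (by omega))
      have a2 := (mem_Nb hg).1 (self_mem_Nb hg ((hCh C).1 hC) hk)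
      rw [h j (by omega), h (j + 2) (by omega)] at a1
      rw [h k (by omega), h (k + 2) (by omega)] at a2
      exact ⟨(mem_Nb hg).2 a1, (mem_Nb hg).2 a2, trivial⟩)
    (fun P hP Q hQ _ => by
      obtain ⟨a1, a2⟩ := (mem_Nb hg).1 hP
      rw [← Nb_update C0 P (k := j + 1) (by omega) (by omega)] at hQ
      obtain ⟨a3, a4⟩ := (mem_Nb hg).1 hQ
      exact (hCh _).2 (isCh_update (isCh_update hC0 (by omega) a1 a2) hk a3 a4))
    fun C => R C * (dv Fl cov j u C * dv Fl cov k u C)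
  refine le_of_le_of_eq ?_ hf.symm
  have hR : ∀ P Q, R (update (update C0 (j + 1) P) (k + 1) Q) = R C0 := fun P Q => by
    simp only [R]
    rw [Pr_update (by simp) (by simp), Pr_update (by simp) (by simp), gh_update (by omega),
      gh_update (by omega), gh_update (by omega), gh_update (by omega)]
  have hR0 : 0 ≤ R C0 :=
    (div_pos (Pr_pos hg hc hC0 _) (mul_pos (gh_pos hc hC0 (by omega)) (gh_pos hc hC0 (by omega)))).le
  have hcm : ∀ P Q, update (update C0 (j + 1) P) (k + 1) Q =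
      update (update C0 (k + 1) Q) (j + 1) P := fun P Q => update_comm (by omega) _ _ _
  have hM : ∀ P Q, Mn Fl cov j u (update (update C0 (j + 1) P) (k + 1) Q) =
      Mn Fl cov j u (update C0 (k + 1) Q) := fun P Q => by rw [hcm, Mn_update]
  simp only [filter_true, hR, dv, hM, Mn_update, ← mul_sum]
  refine mul_nonneg hR0 (prod2 _ _ (fun P Q => u (update (update C0 (j + 1) P) (k + 1) Q)) _ _
    (fun Q _ => ?_) fun P _ => ?_)
  · simp only [hcm]
    rw [← Nb_update C0 Q (k := k + 1) (by omega) (by omega)]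
    exact sum_dev j u _
  · rw [← Nb_update C0 P (k := j + 1) (by omega) (by omega)]
    exact sum_dev k u _

/-- the share of the diagonal term given to the lower neighbour -/
def cA (l G : X → ℝ) (j : ℕ) (C : ℕ → X) : ℝ :=
  (l (C (j + 2)) - l (C (j + 1))) * G (C j) / ((l (C (j + 2)) - l (C j)) * G (C (j + 1)))

/-- the share of the diagonal term given to the upper neighbour -/
def cB (l G : X → ℝ) (j : ℕ) (C : ℕ → X) : ℝ :=
  (l (C (j + 1)) - l (C j)) * G (C (j + 2)) / ((l (C (j + 2)) - l (C j)) * G (C (j + 1)))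

theorem cA_nonneg (hg : Geo Fl cov l) (hc : Conc cov l G ρ) {C : ℕ → X} (hC : IsCh cov K0 T0 r C)
    {j : ℕ} (hj : j + 2 ≤ r) : 0 ≤ cA l G j C ∧ 0 ≤ cB l G j C := by
  have c1 := hC.2.2 j (by omega)
  have c2 := hC.2.2 (j + 1) (by omega)
  have a1 := hg.lt _ _ c1
  have a2 := hg.lt _ _ c2
  have a3 := hc.pos _ _ _ c1 c2
  exact ⟨div_nonneg (mul_nonneg (by linarith) (hc.nn _ _ c1).1) (mul_nonneg (by linarith) a3.le),
    div_nonneg (mul_nonneg (by linarith) (hc.nn _ _ c2).2) (mul_nonneg (by linarith) a3.le)⟩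

theorem slack (hg : Geo Fl cov l) (hc : Conc cov l G ρ) {C : ℕ → X} (hC : IsCh cov K0 T0 r C)
    {j : ℕ} (hj : j + 2 ≤ r) : ρ * lw l G j C + cA l G j C + cB l G j C ≤ 1 := by
  have c1 := hC.2.2 j (by omega)
  have c2 := hC.2.2 (j + 1) (by omega)
  have a1 := hg.lt _ _ c1
  have a2 := hg.lt _ _ c2
  have a3 := hc.pos _ _ _ c1 c2
  have a4 := hc.conc _ _ _ c1 c2
  have a5 : 0 < l (C (j + 2)) - l (C j) := by linarith
  have e : ρ * lw l G j C + cA l G j C + cB l G j C =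
      (ρ * ((l (C (j + 1)) - l (C j)) * (l (C (j + 2)) - l (C (j + 1))) * (l (C (j + 2)) - l (C j))) +
        (l (C (j + 2)) - l (C (j + 1))) * G (C j) + (l (C (j + 1)) - l (C j)) * G (C (j + 2))) /
        ((l (C (j + 2)) - l (C j)) * G (C (j + 1))) := by
    unfold lw cA cB
    field_simp
  rw [e, div_le_one (mul_pos a5 a3)]
  linarith

theorem adj_nonneg (hg : Geo Fl cov l) (hc : Conc cov l G ρ)
    (hCh : ∀ C, C ∈ Ch ↔ IsCh cov K0 T0 r C) {j : ℕ} (hj : j + 3 ≤ r) (u : (ℕ → X) → ℝ) :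
    0 ≤ ∑ C ∈ Ch, (wt l G r C * (cB l G j C * (dv Fl cov j u C / lw l G j C) ^ 2) +
      wt l G r C * (cA l G (j + 1) C * (dv Fl cov (j + 1) u C / lw l G (j + 1) C) ^ 2) +
      2 * (wt l G r C * (dv Fl cov j u C / lw l G j C *
        (dv Fl cov (j + 1) u C / lw l G (j + 1) C)))) := by
  classical
  let R : (ℕ → X) → ℝ := fun C => Pr l G r {j, j + 1, j + 2} C / gh G j C
  let F : (ℕ → X) → ℝ := fun C => R C *
    (((l (C (j + 3)) - l (C j) - (l (C (j + 2)) - l (C j))) * dv Fl cov j u C ^ 2 /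
      (l (C (j + 2)) - l (C j)) + (l (C (j + 1)) - l (C j)) * dv Fl cov (j + 1) u C ^ 2 /
      (l (C (j + 3)) - l (C j) - (l (C (j + 1)) - l (C j))) +
      2 * (dv Fl cov j u C * dv Fl cov (j + 1) u C)) /
      (l (C (j + 2)) - l (C j) - (l (C (j + 1)) - l (C j))))
  refine le_of_le_of_eq ?_ (sum_congr rfl fun C hC => ?_ : ∑ C ∈ Ch, F C = _)
  swap
  · have hC := (hCh C).1 hC
    have c1 := hC.2.2 j (by omega)
    have c2 := hC.2.2 (j + 1) (by omega)
    have c3 := hC.2.2 (j + 2) (by omega)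
    have hw : wt l G r C = R C * (lw l G j C * ((l (C (j + 3)) - l (C (j + 2))) / G (C (j + 2)))) := by
      rw [wt_eq (J := {j, j + 1, j + 2}) (by simp; omega), prod_insert (by simp),
        prod_pair (by omega), ← mul_assoc (ph l G C j), ph_mul]
      simp only [R, ph, if_neg (Nat.succ_ne_zero (j + 1))]
      ring
    have g1 := (hc.pos _ _ _ c1 c2).ne'
    have g2 := (hc.pos _ _ _ c2 c3).ne'
    obtain ⟨a, ha⟩ : ∃ a, l (C (j + 1)) = l (C j) + a := ⟨_, (add_sub_cancel _ _).symm⟩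
    obtain ⟨b, hb⟩ : ∃ b, l (C (j + 2)) = l (C j) + a + b := ⟨_, (add_sub_cancel _ _).symm⟩
    obtain ⟨c, hc'⟩ : ∃ c, l (C (j + 3)) = l (C j) + a + b + c := ⟨_, (add_sub_cancel _ _).symm⟩
    have a1 : 0 < a := by linarith [hg.lt _ _ c1]
    have a2 : 0 < b := by linarith [hg.lt _ _ c2]
    have a3 : 0 < c := by linarith [hg.lt _ _ c3]
    have e1 : l (C (j + 1)) - l (C j) = a := by linarith
    have e2 : l (C (j + 2)) - l (C (j + 1)) = b := by linarith
    have e3 : l (C (j + 3)) - l (C (j + 2)) = c := by linarith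
    have e4 : l (C (j + 2)) - l (C j) = a + b := by linarith
    have e5 : l (C (j + 3)) - l (C (j + 1)) = b + c := by linarith
    have e6 : l (C (j + 3)) - l (C j) = a + b + c := by linarith
    have e7 : a + b + c - (a + b) = c := by ring
    have e8 : a + b + c - a = b + c := by ring
    have e9 : a + b - a = b := by ring
    simp only [F, hw, lw, cA, cB, show j + 1 + 1 = j + 2 from rfl, show j + 1 + 2 = j + 3 from rfl,
      e1, e2, e3, e4, e5, e6, e7, e8, e9]
    field_simp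
  refine fiber_nonneg Ch (fun i => i = j + 1 ∨ i = j + 2) _ fun C0 h0 => ?_
  have hC0 := (hCh _).1 h0
  set K := C0 j with hK
  set L := C0 (j + 3) with hL
  let S : Finset X := Fl.filter fun P => cov K P ∧ ∃ Q, cov P Q ∧ cov Q L
  let T : Finset X := Fl.filter fun Q => cov Q L ∧ ∃ P, cov K P ∧ cov P Q
  have hS : ∀ P, P ∈ S ↔ cov K P ∧ ∃ Q, cov P Q ∧ cov Q L := fun P =>
    ⟨fun h => (mem_filter.1 h).2, fun h => mem_filter.2 ⟨(hg.mem _ _ h.1).2, h⟩⟩
  have hT : ∀ Q, Q ∈ T ↔ cov Q L ∧ ∃ P, cov K P ∧ cov P Q := fun Q =>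
    ⟨fun h => (mem_filter.1 h).2, fun h => mem_filter.2 ⟨(hg.mem _ _ h.1).1, h⟩⟩
  have hf := fib2 (Ch := Ch) (j := j + 1) (k := j + 2) (by omega) C0 S T cov
    (fun C hC h => by
      have hC := (hCh C).1 hC
      have c1 := hC.2.2 j (by omega)
      have c2 := hC.2.2 (j + 1) (by omega)
      have c3 := hC.2.2 (j + 2) (by omega)
      rw [h j (by omega)] at c1
      rw [h (j + 2 + 1) (by omega)] at c3
      exact ⟨(hS _).2 ⟨c1, _, c2, c3⟩, (hT _).2 ⟨c3, _, c1, c2⟩, c2⟩)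
    (fun P hP Q hQ h => (hCh _).2 (isCh_update2 hC0 hj ((hS _).1 hP).1 h ((hT _).1 hQ).1)) F
  refine le_of_le_of_eq ?_ hf.symm
  have hR : ∀ P Q, R (update (update C0 (j + 1) P) (j + 2) Q) = R C0 := fun P Q => by
    simp only [R]
    rw [Pr_update (j := j + 1) (by simp) (by simp), Pr_update (by simp) (by simp),
      gh_update (by omega), gh_update (by omega)]
  have hR0 : 0 ≤ R C0 := (div_pos (Pr_pos hg hc hC0 _) (gh_pos hc hC0 (by omega))).le
  have hcm : ∀ P Q, update (update C0 (j + 1) P) (j + 2) Q =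
      update (update C0 (j + 2) Q) (j + 1) P := fun P Q => update_comm (by omega) _ _ _
  have hM : ∀ P Q, Mn Fl cov j u (update (update C0 (j + 1) P) (j + 2) Q) =
      Mn Fl cov j u (update C0 (j + 2) Q) := fun P Q => by rw [hcm, Mn_update]
  have hM' : ∀ P Q, Mn Fl cov (j + 1) u (update (update C0 (j + 1) P) (j + 2) Q) =
      Mn Fl cov (j + 1) u (update C0 (j + 1) P) := fun P Q => Mn_update (j + 1) u _ Q
  have v0 : ∀ P Q, update (update C0 (j + 1) P) (j + 2) Q j = K := fun P Q => by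
    rw [update_of_ne (by omega), update_of_ne (by omega)]
  have v1 : ∀ P Q, update (update C0 (j + 1) P) (j + 2) Q (j + 1) = P := fun P Q => by
    rw [update_of_ne (by omega), update_self]
  have v3 : ∀ P Q, update (update C0 (j + 1) P) (j + 2) Q (j + 3) = L := fun P Q => by
    rw [update_of_ne (by omega), update_of_ne (by omega)]
  have n1 : ∀ Q ∈ T, S.filter (fun P => cov P Q) = Nb Fl cov j (update C0 (j + 2) Q) := by
    intro Q hQ
    ext P
    rw [mem_filter, hS, mem_Nb hg, update_of_ne (by omega), update_self]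
    exact ⟨fun h => ⟨h.1.1, h.2⟩, fun h => ⟨⟨h.1, Q, h.2, ((hT _).1 hQ).1⟩, h.2⟩⟩
  have n2 : ∀ P ∈ S, T.filter (fun Q => cov P Q) = Nb Fl cov (j + 1) (update C0 (j + 1) P) := by
    intro P hP
    ext Q
    rw [mem_filter, hT, mem_Nb hg, update_self, update_of_ne (by omega)]
    exact ⟨fun h => ⟨h.2, h.1.1⟩, fun h => ⟨⟨h.2, P, ((hS _).1 hP).1, h.1⟩, h.1⟩⟩
  simp only [F, hR, dv, hM, hM', v0, v1, v3, update_self, ← mul_sum]
  refine mul_nonneg hR0 (rank3 S T cov (fun P => l P - l K) (fun Q => l Q - l K) (l L - l K)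
    (fun P hP Q hQ h => ?_) (fun P hP => ?_) (fun Q hQ => ?_) (fun Q hQ => ?_) (fun P hP => ?_)
    (fun P hP P' hP' hne => ?_) (fun P Q => u (update (update C0 (j + 1) P) (j + 2) Q)) _ _
    (fun Q hQ => ?_) fun P hP => ?_)
  · have := hg.lt _ _ ((hS _).1 hP).1
    have := hg.lt _ _ h
    have := hg.lt _ _ ((hT _).1 hQ).1
    exact ⟨by linarith, by linarith, by linarith⟩
  · obtain ⟨-, Q, h1, h2⟩ := (hS _).1 hP
    linarith [hg.lt _ _ h1, hg.lt _ _ h2]
  · obtain ⟨-, P, h1, h2⟩ := (hT _).1 hQ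
    linarith [hg.lt _ _ h1, hg.lt _ _ h2]
  · obtain ⟨-, P, h1, h2⟩ := (hT _).1 hQ
    rw [n1 Q hQ, ← hg.part K P Q h1 h2]
    unfold Nb
    rw [update_of_ne (by omega), update_self]
  · obtain ⟨-, Q, h1, h2⟩ := (hS _).1 hP
    simp only [sub_sub_sub_cancel_right]
    rw [n2 P hP, ← hg.part P Q L h1 h2]
    unfold Nb
    rw [update_self, update_of_ne (by omega)]
  · obtain ⟨c1, Q, h1, h2⟩ := (hS _).1 hP
    obtain ⟨c2, Q', h3, h4⟩ := (hS _).1 hP'
    have up : ∀ P Q, cov P Q → cov Q L → Up cov (1 + 1) P L := fun P Q a b =>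
      ⟨fun i => if i = 0 then P else if i = 1 then Q else L, by simp, by simp, fun i hi => by
        have : i = 0 ∨ i = 1 := by omega
        rcases this with rfl | rfl <;> simpa⟩
    obtain ⟨Z, z1, z2, c, z3, z4, z5⟩ := hg.join 1 K P P' L c1 c2 hne (up _ _ h1 h2) (up _ _ h3 h4)
    have z6 : cov Z L := by simpa [z3, z4] using z5 0 (by omega)
    rw [card_eq_one]
    refine ⟨Z, eq_singleton_iff_unique_mem.2 ⟨mem_filter.2 ⟨(hT _).2 ⟨z6, P, c1, z1⟩, z1, z2⟩,
      fun Z' hZ' => ?_⟩⟩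
    exact hg.uniq K P P' Z' Z c1 c2 hne (mem_filter.1 hZ').2.1 (mem_filter.1 hZ').2.2 z1 z2
  · simp only [hcm]
    rw [n1 Q hQ]
    exact sum_dev j u _
  · rw [n2 P hP]
    exact sum_dev (j + 1) u _

/-- the moves connect all chains -/
theorem conn (hg : Geo Fl cov l) (u : (ℕ → X) → ℝ)
    (hu : ∀ C, IsCh cov K0 T0 r C → ∀ j, j + 2 ≤ r → ∀ P, cov (C j) P → cov P (C (j + 2)) →
      u (update C (j + 1) P) = u C) {C D : ℕ → X} (hC : IsCh cov K0 T0 r C)
    (hD : IsCh cov K0 T0 r D) : u C = u D := by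
  have key : ∀ m k, r ≤ k + m + 1 → ∀ C D, IsCh cov K0 T0 r C → IsCh cov K0 T0 r D →
      (∀ i ≤ k, C i = D i) → u C = u D := by
    intro m
    induction m with
    | zero =>
      intro k hk C D hC hD h
      congr 1
      funext i
      by_cases hi : i ≤ k
      · exact h i hi
      · rw [hC.2.1 i (by omega), hD.2.1 i (by omega)]
    | succ m ih =>
      intro k hk C D hC hD h
      by_cases hr : r ≤ k + m + 1
      · exact ih k hr C D hC hD h
      by_cases e : C (k + 1) = D (k + 1)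
      · refine ih (k + 1) (by omega) C D hC hD fun i hi => ?_
        by_cases hi' : i ≤ k
        · exact h i hi'
        · rw [show i = k + 1 by omega]; exact e
      have up : ∀ C, IsCh cov K0 T0 r C → Up cov (m + 1) (C (k + 1)) T0 := fun C hC =>
        ⟨fun i => C (k + 1 + i), rfl, hC.2.1 _ (by omega), fun i hi => hC.2.2 _ (by omega)⟩
      have c1 := hC.2.2 k (by omega)
      have c2 := hD.2.2 k (by omega)
      rw [← h k le_rfl] at c2
      obtain ⟨Z, z1, z2, z, z3, z4, z5⟩ := hg.join m _ _ _ T0 c1 c2 e (up C hC) (up D hD)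
      let E : ℕ → X := fun i => if i ≤ k + 1 then C i else if i ≤ r then z (i - (k + 2)) else T0
      have E1 : ∀ i ≤ k + 1, E i = C i := fun i hi => if_pos hi
      have E2 : ∀ i, k + 2 ≤ i → i ≤ r → E i = z (i - (k + 2)) := fun i h1 h2 => by
        simp only [E]
        rw [if_neg (by omega), if_pos h2]
      have E3 : E (k + 2) = Z := by rw [E2 _ le_rfl (by omega), Nat.sub_self, z3]
      have hE : IsCh cov K0 T0 r E := by
        refine ⟨by rw [E1 0 (by omega)]; exact hC.1, fun i hi => ?_, fun i hi => ?_⟩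
        · by_cases h2 : i ≤ r
          · rw [E2 i (by omega) h2, show i - (k + 2) = m by omega, z4]
          · simp only [E]
            rw [if_neg (by omega), if_neg h2]
        · by_cases h1 : i ≤ k
          · rw [E1 i (by omega), E1 (i + 1) (by omega)]; exact hC.2.2 i hi
          · by_cases h2 : i = k + 1
            · subst h2
              rw [E1 _ le_rfl, E3]; exact z1
            · rw [E2 i (by omega) (by omega), E2 (i + 1) (by omega) (by omega),
                show i + 1 - (k + 2) = i - (k + 2) + 1 by omega]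
              exact z5 _ (by omega)
      have d1 : cov (E k) (D (k + 1)) := by rw [E1 k (by omega)]; exact c2
      have d2 : cov (D (k + 1)) (E (k + 2)) := by rw [E3]; exact z2
      rw [ih (k + 1) (by omega) C E hC hE fun i hi => (E1 i hi).symm,
        ← hu E hE k (by omega) _ d1 d2]
      refine ih (k + 1) (by omega) _ D (isCh_update hE (by omega) d1 d2) hD fun i hi => ?_
      by_cases h1 : i = k + 1
      · subst h1; rw [update_self]
      · rw [update_of_ne h1, E1 i hi, h i (by omega)]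
  refine key r 0 (by omega) C D hC hD fun i hi => ?_
  rw [Nat.le_zero.1 hi, hC.1, hD.1]

/-- the generator -/
def gen (Fl : Finset X) (cov : X → X → Prop) (l G : X → ℝ) (r : ℕ) :
    ((ℕ → X) → ℝ) →ₗ[ℝ] ((ℕ → X) → ℝ) where
  toFun u C := ∑ j ∈ range (r - 1), dv Fl cov j u C / lw l G j C
  map_add' u v := by
    funext C
    simp only [dv, Mn, Pi.add_apply, sum_add_distrib.symm]
    refine sum_congr rfl fun j _ => ?_
    rw [sum_add_distrib]
    ring
  map_smul' c u := by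
    funext C
    simp only [dv, Mn, Pi.smul_apply, smul_eq_mul, RingHom.id_apply, mul_sum]
    refine sum_congr rfl fun j _ => ?_
    rw [← mul_sum]
    ring

theorem gen_form (hg : Geo Fl cov l) (hc : Conc cov l G ρ)
    (hCh : ∀ C, C ∈ Ch ↔ IsCh cov K0 T0 r C) (u v : (ℕ → X) → ℝ) :
    ∑ C ∈ Ch, wt l G r C * (u C * gen Fl cov l G r v C) =
      ∑ j ∈ range (r - 1), ∑ C ∈ Ch, Rs l G r j C * (dv Fl cov j u C * dv Fl cov j v C) := by
  rw [← sum_congr rfl fun j hj => form_eq hg hc hCh (by have := mem_range.1 hj; omega) u v,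
    sum_comm]
  refine sum_congr rfl fun C _ => ?_
  show wt l G r C * (u C * ∑ j ∈ range (r - 1), dv Fl cov j v C / lw l G j C) = _
  rw [mul_sum, mul_sum]

theorem bochner (hg : Geo Fl cov l) (hc : Conc cov l G ρ)
    (hCh : ∀ C, C ∈ Ch ↔ IsCh cov K0 T0 r C) (u : (ℕ → X) → ℝ) :
    ρ * ∑ C ∈ Ch, wt l G r C * (u C * gen Fl cov l G r u C) ≤
      ∑ C ∈ Ch, wt l G r C * gen Fl cov l G r u C ^ 2 := by
  have e : ∑ C ∈ Ch, wt l G r C * gen Fl cov l G r u C ^ 2 =
      ∑ i ∈ range (r - 1), ∑ j ∈ range (r - 1), ∑ C ∈ Ch,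
        wt l G r C * (dv Fl cov i u C / lw l G i C * (dv Fl cov j u C / lw l G j C)) := by
    refine Eq.trans (sum_congr rfl fun C _ => ?_) (sum_comm.trans (sum_congr rfl fun i _ => sum_comm))
    show wt l G r C * (∑ j ∈ range (r - 1), dv Fl cov j u C / lw l G j C) ^ 2 = _
    rw [sq, sum_mul_sum, mul_sum]
    exact sum_congr rfl fun i _ => mul_sum _ _ _
  rw [e, gen_form hg hc hCh, mul_sum]
  refine tri_sum _ _
    (fun j => ∑ C ∈ Ch, wt l G r C * (cA l G j C * (dv Fl cov j u C / lw l G j C) ^ 2))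
    (fun j => ∑ C ∈ Ch, wt l G r C * (cB l G j C * (dv Fl cov j u C / lw l G j C) ^ 2)) _
    (fun i j => sum_congr rfl fun C _ => by ring)
    (fun j hj => sum_nonneg fun C hC => mul_nonneg (wt_pos hg hc ((hCh C).1 hC)).le
      (mul_nonneg (cA_nonneg hg hc ((hCh C).1 hC) (by omega)).1 (sq_nonneg _)))
    (fun j hj => sum_nonneg fun C hC => mul_nonneg (wt_pos hg hc ((hCh C).1 hC)).le
      (mul_nonneg (cA_nonneg hg hc ((hCh C).1 hC) (by omega)).2 (sq_nonneg _)))
    (fun j hj => ?_) (fun i j h1 h2 => far_nonneg hg hc hCh h1 (by omega) u) fun j hj => ?_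
  · rw [mul_sum, ← sum_add_distrib, ← sum_add_distrib]
    refine sum_le_sum fun C hC => ?_
    have hC := (hCh C).1 hC
    have h1 := slack hg hc hC (j := j) (by omega)
    have h2 := lw_pos hg hc hC (j := j) (by omega)
    have h3 := wt_pos hg hc hC
    have h4 : Rs l G r j C * (dv Fl cov j u C * dv Fl cov j u C) =
        wt l G r C * (lw l G j C * (dv Fl cov j u C / lw l G j C) ^ 2) := by
      rw [wt_eq_Rs (j := j) (by omega)]
      field_simp
    rw [h4, ← sq]
    nlinarith [mul_le_mul_of_nonneg_right h1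
      (mul_nonneg h3.le (sq_nonneg (dv Fl cov j u C / lw l G j C)))]
  · rw [mul_sum, ← sum_add_distrib, ← sum_add_distrib]
    exact adj_nonneg hg hc hCh (by omega) u

/-- the gap theorem, with the local variances on the right -/
theorem gap_var (hg : Geo Fl cov l) (hc : Conc cov l G ρ) (hρ : 0 ≤ ρ)
    (hCh : ∀ C, C ∈ Ch ↔ IsCh cov K0 T0 r C) (u : (ℕ → X) → ℝ) :
    ρ * ∑ C ∈ Ch, wt l G r C *
        (u C - (∑ D ∈ Ch, wt l G r D * u D) / ∑ D ∈ Ch, wt l G r D) ^ 2 ≤
      ∑ j ∈ range (r - 1), ∑ C ∈ Ch, Rs l G r j C * dv Fl cov j u C ^ 2 := by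
  have hnn : ∀ (v : (ℕ → X) → ℝ), ∀ j ∈ range (r - 1), ∀ C ∈ Ch,
      0 ≤ Rs l G r j C * (dv Fl cov j v C * dv Fl cov j v C) := fun v j hj C hC =>
    mul_nonneg (Rs_pos hg hc ((hCh C).1 hC) (by have := mem_range.1 hj; omega)).le
      (mul_self_nonneg _)
  have h := poincare_of_bochner Ch (wt l G r) (fun C hC => wt_pos hg hc ((hCh C).1 hC))
    (gen Fl cov l G r) ρ hρ
    (fun u v => by
      rw [gen_form hg hc hCh, gen_form hg hc hCh]
      exact sum_congr rfl fun j _ => sum_congr rfl fun C _ => by ring)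
    (fun C hC => by
      show ∑ j ∈ range (r - 1), dv Fl cov j (fun _ => 1) C / lw l G j C = 0
      refine sum_eq_zero fun j hj => ?_
      have hne : ((Nb Fl cov j C).card : ℝ) ≠ 0 := by
        exact_mod_cast (card_pos.2 ⟨_, self_mem_Nb hg ((hCh C).1 hC)
          (by have := mem_range.1 hj; omega)⟩).ne'
      simp [dv, Mn, hne])
    (fun u => by
      rw [gen_form hg hc hCh]
      exact sum_nonneg fun j hj => sum_nonneg (hnn u j hj))
    (fun v hv C hC D hD => by
      have h0 := gen_form hg hc hCh v v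
      rw [sum_eq_zero fun C hC => by rw [hv C hC, mul_zero, mul_zero]] at h0
      have h1 : ∀ C, IsCh cov K0 T0 r C → ∀ j, j + 2 ≤ r → v C = Mn Fl cov j v C := by
        intro C hC j hj
        have hj' : j ∈ range (r - 1) := mem_range.2 (by omega)
        have h2 := (sum_eq_zero_iff_of_nonneg fun j hj => sum_nonneg (hnn v j hj)).1 h0.symm j hj'
        have h3 := (sum_eq_zero_iff_of_nonneg (hnn v j hj')).1 h2 C ((hCh C).2 hC)
        have h4 := (mul_eq_zero.1 h3).resolve_left (Rs_pos hg hc hC hj).ne'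
        exact sub_eq_zero.1 (mul_self_eq_zero.1 h4)
      refine conn hg v (fun C hC j hj P a b => ?_) ((hCh C).1 hC) ((hCh D).1 hD)
      rw [h1 _ (isCh_update hC hj a b) j hj, Mn_update, ← h1 C hC j hj])
    (bochner hg hc hCh) u
  rw [gen_form hg hc hCh] at h
  simpa only [sq] using h

/-- the gap theorem, with the pairwise differences on the right -/
theorem gap (hg : Geo Fl cov l) (hc : Conc cov l G ρ) (hρ : 0 ≤ ρ)
    (hCh : ∀ C, C ∈ Ch ↔ IsCh cov K0 T0 r C) (u : (ℕ → X) → ℝ) :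
    ρ * ∑ C ∈ Ch, wt l G r C *
        (u C - (∑ D ∈ Ch, wt l G r D * u D) / ∑ D ∈ Ch, wt l G r D) ^ 2 ≤
      ∑ j ∈ range (r - 1), ∑ C ∈ Ch, wt l G r C / lw l G j C *
        ∑ P ∈ Nb Fl cov j C, (u C - u (update C (j + 1) P)) ^ 2 := by
  refine (gap_var hg hc hρ hCh u).trans (sum_le_sum fun j hj => sum_le_sum fun C hC => ?_)
  have hj : j + 2 ≤ r := by have := mem_range.1 hj; omega
  have hC := (hCh C).1 hC
  rw [wt_eq_Rs hj, mul_div_cancel_right₀ _ (lw_pos hg hc hC hj).ne']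
  refine mul_le_mul_of_nonneg_left ?_ (Rs_pos hg hc hC hj).le
  have hn : (1 : ℝ) ≤ (Nb Fl cov j C).card := by
    exact_mod_cast card_pos.2 ⟨_, self_mem_Nb hg hC hj⟩
  have e : dv Fl cov j u C =
      (∑ P ∈ Nb Fl cov j C, (u C - u (update C (j + 1) P))) / (Nb Fl cov j C).card := by
    rw [sum_sub_distrib, sum_const, nsmul_eq_mul, dv, Mn]
    field_simp
  have h1 := sq_sum_le_card_mul_sum_sq (s := Nb Fl cov j C)
    (f := fun P => u C - u (update C (j + 1) P))
  have h2 : 0 ≤ ∑ P ∈ Nb Fl cov j C, (u C - u (update C (j + 1) P)) ^ 2 :=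
    sum_nonneg fun _ _ => sq_nonneg _
  rw [e, div_pow, div_le_iff₀ (by positivity)]
  nlinarith [mul_nonneg h2 (mul_nonneg (sub_nonneg.2 hn) (zero_le_one.trans hn))]

end

end Pool.Agent.Lib.FL.H89
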