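import Pool.Agent.Lib.FL.A80
import Pool.Agent.Lib.FL.Gap89

namespace Pool.Agent.Lib.FL.A80

open Finset Function
open Pool.Agent.Lib.FL.H64 (IsRk cl Flat Cov)

namespace GAP

theorem geo {ρ : Finset ℕ → ℕ} (h : IsRk ρ) (E : Finset ℕ) :
    H89.Geo (H64.Fl ρ E) (Cov ρ E) fun A => (A.card : ℝ) where
  mem _ _ hc := ⟨H64.mem_Fl.2 hc.1, H64.mem_Fl.2 hc.2.1⟩
  lt _ _ hc := by exact_mod_cast hc.card_lt
  part K P Q h1 h2 := h.sum_mid h1 h2 _ fun P' => by
    simp only [mem_filter, H64.mem_Fl]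
    exact ⟨fun a => a.2, fun a => ⟨a.1.2.1, a⟩⟩
  uniq _ _ _ _ _ := h.join_unique
  join n K P P' T h1 h2 hne u1 u2 := by
    obtain ⟨c, c0, cT, hc⟩ := u1
    obtain ⟨d, d0, dT, hd⟩ := u2
    have a1 := H64.chain_rk hc (n + 1) le_rfl
    have a2 := H64.chain_rk hd (n + 1) le_rfl
    have hT : Flat ρ E T := cT ▸ (hc n (Nat.lt_succ_self n)).2.1
    rw [c0, cT] at a1
    rw [d0, dT] at a2
    obtain ⟨b1, b2⟩ := h.cov_join h1 h2 hne
    obtain ⟨C, e0, e1, e2⟩ := h.exists_chain n b1.2.1 hT (h.join_le hT a1.1 a2.1)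
      (by rw [b1.2.2.2, a1.2]; omega)
    exact ⟨_, b1, b2, C, e0, e1 n le_rfl, e2⟩

theorem card_le {ρ : Finset ℕ → ℕ} {m : ℕ} {A : Finset ℕ} (h : Flat ρ (range m) A) :
    A.card ≤ m := by simpa using card_le_card h.1

theorem conc {ρ : Finset ℕ → ℕ} {m : ℕ} {G : ℕ → ℝ} (h0 : ∀ s ≤ m, 0 ≤ G s)
    (h1 : ∀ s, 0 < s → s < m → 0 < G s)
    (h2 : ∀ s a b : ℕ, 0 < a → 0 < b → s + a + b ≤ m →
      (a : ℝ) * b * (a + b) ≤ (a + b) * G (s + a) - b * G s - a * G (s + a + b)) :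
    H89.Conc (Cov ρ (range m)) (fun A => (A.card : ℝ)) (fun A => G A.card) 1 where
  nn _ _ hc := ⟨h0 _ (card_le hc.1), h0 _ (card_le hc.2.1)⟩
  pos K P Q a b := h1 _ ((Nat.zero_le _).trans_lt a.card_lt) (b.card_lt.trans_le (card_le b.2.1))
  conc K P Q a b := by
    have a1 := a.card_lt
    have a2 := b.card_lt
    have a3 := card_le b.2.1
    obtain ⟨x, hx⟩ := Nat.exists_eq_add_of_le a1.le
    obtain ⟨y, hy⟩ := Nat.exists_eq_add_of_le a2.le
    have := h2 K.card x y (by omega) (by omega) (by omega)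
    simp only [hy, hx]
    push_cast
    linarith

theorem wt_eq (r : ℕ) (G : ℕ → ℝ) (C : ℕ → Finset ℕ) :
    H89.wt (fun A : Finset ℕ => (A.card : ℝ)) (fun A => G A.card) r C = wt r G C := by
  unfold H89.wt H89.ph wt La
  rw [prod_div_distrib]
  congr 1
  rcases r with _ | r
  · simp
  · rw [prod_range_succ', prod_Ico_eq_prod_range]
    simp [add_comm]

end GAP

theorem st_GAP : St_GAP := by
  classical
  intro m ρ h G h0 h1 h2 u hu
  have hg := GAP.geo h (range m)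
  have hCh : ∀ C, C ∈ Ch m ρ ↔
      H89.IsCh (Cov ρ (range m)) (cl ρ (range m) ∅) (range m) (ρ (range m)) C := fun C => by
    rw [mem_Ch]
    exact ⟨fun a => ⟨a.1, a.2, a.3⟩, fun a => ⟨a.1, a.2.1, a.2.2⟩⟩
  have key := H89.gap hg (GAP.conc h0 h1 h2) zero_le_one hCh u
  simp only [GAP.wt_eq, hu, zero_div, sub_zero, one_mul] at key
  refine key.trans_eq (sum_congr rfl fun j hj => sum_congr rfl fun C hC => ?_)
  have hj : j + 2 ≤ ρ (range m) := by have := mem_range.1 hj; omega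
  have e : H89.Nb (H64.Fl ρ (range m)) (Cov ρ (range m)) j C =
      (range m).powerset.filter fun P => update C (j + 1) P ∈ Ch m ρ := by
    ext P
    rw [H89.mem_Nb hg, mem_filter, mem_powerset, hCh]
    refine ⟨fun a => ⟨a.1.2.1.1, H89.isCh_update ((hCh C).1 hC) hj a.1 a.2⟩, fun a => ?_⟩
    have b1 := a.2.2.2 j (by omega)
    have b2 := a.2.2.2 (j + 1) (by omega)
    rw [update_of_ne (by omega), update_self] at b1
    rw [update_self, update_of_ne (by omega)] at b2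
    exact ⟨b1, b2⟩
  rw [e, H89.lw, div_div_eq_mul_div]
  rfl

end Pool.Agent.Lib.FL.A80
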