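import Pool.Agent.Lib.FL.A80

/-! The samples of the annealing scheme are close to stationarity. -/

namespace Pool.Agent.Lib.FL.A80

open Finset Pool.Agent.Lib.helper82 Pool.Agent.Lib.MP_b67cc8_lc Pool.Agent.FL.Mix28
open Pool.Agent.Lib.FL.H64 (IsRk cl Flat Cov)

namespace MIX

theorem GG_cast {m n t s : ℕ} (ht : t ≤ n) (hs : s ≤ m) :
    (GG m n t s : ℝ) = ((n : ℝ) - t) * (m - s) + t * s + s * (m - s) := by
  simp only [GG]
  push_cast [Nat.cast_sub ht, Nat.cast_sub hs]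
  ring

theorem GG_le {m n t s : ℕ} (ht : t ≤ n) (hs : s ≤ m) : GG m n t s ≤ n * m + m * m := by
  have h1 : (n - t) * (m - s) ≤ (n - t) * m := Nat.mul_le_mul_left _ (Nat.sub_le _ _)
  have h2 : t * s ≤ t * m := Nat.mul_le_mul_left _ hs
  have h3 : s * (m - s) ≤ m * m := Nat.mul_le_mul hs (Nat.sub_le _ _)
  have h4 : (n - t) * m + t * m = n * m := by rw [← add_mul, Nat.sub_add_cancel ht]
  unfold GG
  omega

theorem le_GG {m n t s : ℕ} (h0 : 0 < s) : m - s ≤ GG m n t s :=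
  (Nat.le_mul_of_pos_left _ h0).trans (Nat.le_add_left _ _)

theorem GG_le_pow {m k t s : ℕ} (ht : t ≤ nn m k) (hs : s ≤ m) :
    GG m (nn m k) t s ≤ NN m k ^ 10 := by
  have hm : m ≤ NN m k := by unfold NN; omega
  have h2 : 2 ≤ NN m k := by unfold NN; omega
  refine (GG_le ht hs).trans ?_
  unfold nn
  generalize NN m k = N at *
  have a1 : N ^ 8 * m ≤ N ^ 9 := by rw [pow_succ N 8]; exact Nat.mul_le_mul_left _ hm
  have a2 : m * m ≤ N ^ 9 := (Nat.mul_le_mul hm hm).trans (by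
    rw [← sq]; exact Nat.pow_le_pow_right (by omega) (by norm_num))
  have a3 : N ^ 9 * 2 ≤ N ^ 10 := by rw [pow_succ N 9]; exact Nat.mul_le_mul_left _ h2
  omega

theorem two_pow_bb (m k : ℕ) : NN m k ≤ 2 ^ bb m k ∧ 2 ^ bb m k ≤ 2 * NN m k := by
  have h0 : 0 < NN m k := by unfold NN; omega
  refine ⟨(Nat.lt_size_self _).le, ?_⟩
  have h1 : 0 < bb m k := Nat.size_pos.2 h0
  have h2 : 2 ^ (bb m k - 1) ≤ NN m k := Nat.lt_size.1 (by unfold bb at *; omega)
  obtain ⟨c, hc⟩ : ∃ c, bb m k = c + 1 := ⟨bb m k - 1, by omega⟩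
  rw [hc] at h2 ⊢
  rw [pow_succ]
  simp only [Nat.add_sub_cancel] at h2
  omega

theorem num {N : ℕ} (h : 64 ≤ N) : N ^ 24 * N * (N ^ 10) ^ N ≤ 2 ^ N ^ 4 := by
  have h1 : N ≤ 2 ^ N := Nat.lt_two_pow_self.le
  calc N ^ 24 * N * (N ^ 10) ^ N = N ^ (25 + 10 * N) := by rw [← pow_mul, ← pow_succ, ← pow_add]
    _ ≤ (2 ^ N) ^ (25 + 10 * N) := Nat.pow_le_pow_left h1 _
    _ = 2 ^ (N * (25 + 10 * N)) := by rw [← pow_mul]
    _ ≤ 2 ^ N ^ 4 := Nat.pow_le_pow_right two_pos (by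
      have a : 25 + 10 * N ≤ N * N := by nlinarith
      calc N * (25 + 10 * N) ≤ N * (N * N) := Nat.mul_le_mul_left _ a
        _ = N ^ 3 := by ring
        _ ≤ N ^ 4 := Nat.pow_le_pow_right (by omega) (by norm_num))

end MIX

open MIX in
theorem st_MIX (hGAP : St_GAP) (hZ : St_Z) (hCH : St_CH) (hSTEP : St_STEP) : St_MIX := by
  intro m ρ hρ hl k t ht
  obtain ⟨hI, hC⟩ := hCH m ρ hρ
  obtain ⟨hS1, hS2⟩ := hSTEP m ρ hρ (GG m (nn m k) t) (bb m k) (11 * bb m k)
  refine ⟨fun x => rit_mem hS1 _ _ hI x, fun f f0 f1 => ?_⟩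
  have hm : m + 1 ≤ NN m k := by unfold NN; omega
  have h64 : 64 ≤ NN m k := by unfold NN; omega
  obtain ⟨b1, b2⟩ := two_pow_bb m k
  have Gpos : ∀ s, 0 < s → s < m → 0 < GG m (nn m k) t s := fun s h0 h1 =>
    lt_of_lt_of_le (by omega) (le_GG h0)
  obtain ⟨hR, hD⟩ := hS2 (by omega) (fun s hs => by
    calc GG m (nn m k) t s * m ≤ NN m k ^ 10 * NN m k :=
          Nat.mul_le_mul (GG_le_pow ht hs) (by omega)
      _ = NN m k ^ 11 := by ring
      _ ≤ (2 ^ bb m k) ^ 11 := Nat.pow_le_pow_left b1 _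
      _ = 2 ^ (11 * bb m k) := by rw [← pow_mul, mul_comm]) Gpos
  have hG := hGAP m ρ hρ (fun s => GG m (nn m k) t s) (fun s _ => Nat.cast_nonneg _)
    (fun s h0 h1 => by exact_mod_cast Gpos s h0 h1) (fun s a b _ _ h => by
      rw [GG_cast ht (show s + a ≤ m by omega), GG_cast ht (show s ≤ m by omega),
        GG_cast ht (show s + a + b ≤ m by omega)]
      push_cast
      exact le_of_eq (by ring))
  have hLa : ∀ C ∈ Ch m ρ, (1 : ℝ) ≤ ∏ i ∈ range (ρ (range m)), La C i := fun C h =>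
    Finset.one_le_prod fun i hi => by
      have : (C i).card + 1 ≤ (C (i + 1)).card := (hC C h).1 i (mem_range.1 hi)
      have : (((C i).card + 1 : ℕ) : ℝ) ≤ (C (i + 1)).card := by exact_mod_cast this
      push_cast at this
      unfold La
      linarith
  have hGp : ∀ C ∈ Ch m ρ, ∀ i ∈ Ico 1 (ρ (range m)), (0 : ℝ) < GG m (nn m k) t (C i).card :=
    fun C h i hi => by
      have := (hC C h).2 i (mem_Ico.1 hi).1 (mem_Ico.1 hi).2
      exact_mod_cast Gpos _ this.1 this.2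
  have hw : ∀ C ∈ Ch m ρ, 0 < wt (ρ (range m)) (fun s => GG m (nn m k) t s) C := fun C h =>
    div_pos (lt_of_lt_of_le one_pos (hLa C h)) (prod_pos (hGp C h))
  have p0 : (0 : ℝ) < 2 ^ mvB m k := by positivity
  have p1 : (1 : ℝ) ≤ 2 ^ mvB m k := one_le_pow₀ one_le_two
  have γ4 : (1 : ℝ) / 2 ^ mvB m k ≤ 4 := ((div_le_one p0).2 p1).trans (by norm_num)
  have key := mix hw hR γ4 (fun u hu => by
    rw [one_div, inv_mul_le_iff₀ p0]
    exact (hG u hu).trans (hD u)) f0 f1 (TT m k) le_rfl hI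
  have hhalf : (1 - 1 / (2 : ℝ) ^ mvB m k / 4) ^ TT m k ≤ (1 / 2) ^ NN m k ^ 4 := by
    have e : TT m k = NN m k ^ 16 * NN m k ^ 4 := by unfold TT; ring
    rw [e]
    refine pow_le_half γ4 ?_ _
    rw [one_div, ← div_eq_inv_mul, le_div_iff₀ p0]
    have a : 4 * 2 ^ mvB m k ≤ NN m k ^ 16 := by
      have e2 : 2 ^ mvB m k = (2 ^ bb m k) ^ 13 := by
        rw [← pow_mul]; unfold mvB; exact congrArg _ (by ring)
      have a3 : 64 ^ 3 ≤ NN m k ^ 3 := Nat.pow_le_pow_left h64 _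
      calc 4 * 2 ^ mvB m k ≤ 4 * (2 * NN m k) ^ 13 := by
            rw [e2]; exact Nat.mul_le_mul_left _ (Nat.pow_le_pow_left b2 _)
        _ = 2 ^ 15 * NN m k ^ 13 := by ring
        _ ≤ NN m k ^ 3 * NN m k ^ 13 := Nat.mul_le_mul_right _ (le_trans (by norm_num) a3)
        _ = NN m k ^ 16 := by ring
    exact_mod_cast a
  have hZle : Z m ρ (fun s => GG m (nn m k) t s) ≤ NN m k := by
    refine le_trans ?_ (((hZ m ρ hρ).2 hl).2.trans (by exact_mod_cast hm))
    refine sum_le_sum fun C h => div_le_div_of_nonneg_left (zero_le_one.trans (hLa C h))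
      (prod_pos fun i hi => ?_) (prod_le_prod (fun i hi => ?_) fun i hi => ?_)
    all_goals have := (hC C h).2 i (mem_Ico.1 hi).1 (mem_Ico.1 hi).2
    · exact sub_pos.2 (by exact_mod_cast this.2)
    · exact sub_nonneg.2 (by exact_mod_cast this.2.le)
    · beta_reduce
      rw [← Nat.cast_sub this.2.le]
      exact_mod_cast le_GG this.1
  have N0 : (0 : ℝ) < NN m k := by exact_mod_cast (show 0 < NN m k by omega)
  have N1 : (1 : ℝ) ≤ NN m k := by exact_mod_cast (show 1 ≤ NN m k by omega)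
  have hw0 : 1 / ((NN m k : ℝ) ^ 10) ^ NN m k ≤
      wt (ρ (range m)) (fun s => GG m (nn m k) t s) (initM m ρ) := by
    refine div_le_div₀ (zero_le_one.trans (hLa _ hI)) (hLa _ hI) (prod_pos (hGp _ hI)) ?_
    refine (prod_le_prod (fun i hi => (hGp _ hI i hi).le) (g := fun _ => (NN m k : ℝ) ^ 10)
      fun i hi => ?_).trans ?_
    · have := (hC _ hI).2 i (mem_Ico.1 hi).1 (mem_Ico.1 hi).2
      exact_mod_cast GG_le_pow ht this.2.le
    · rw [prod_const, Nat.card_Ico]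
      have := hρ.le_card (range m)
      rw [card_range] at this
      exact pow_le_pow_right₀ (one_le_pow₀ N1) (by omega)
  have hnum : (NN m k : ℝ) ^ 24 * NN m k * ((NN m k : ℝ) ^ 10) ^ NN m k ≤ 2 ^ NN m k ^ 4 := by
    exact_mod_cast num h64
  refine abs_le_of_sq_le_sq' ?_ (by positivity) |> abs_le.2
  have k2 := (mul_le_mul_of_nonneg_right hw0 (sq_nonneg _)).trans (key.trans
    (mul_le_mul hhalf hZle (sum_nonneg fun C h => (hw C h).le) (by positivity)))
  rw [one_div, inv_mul_le_iff₀ (by positivity)] at k2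
  refine k2.trans ?_
  rw [div_pow, div_pow, one_pow, one_pow, ← pow_mul (NN m k : ℝ) 12 2, le_div_iff₀ (by positivity),
    one_div, ← mul_assoc, mul_assoc _ _ (_ ^ (12 * 2)), mul_right_comm, ← div_eq_mul_inv,
    div_le_one (by positivity)]
  refine le_trans (le_of_eq ?_) hnum
  ring

end Pool.Agent.Lib.FL.A80
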