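import Pool.Agent.Lib.FL.A80

/-! The estimator is computed in polynomial time from the rank oracle. -/

namespace Pool.Agent.Lib.FL.A80

open Pool.Agent.Lib.helper82 Pool.Agent.Lib.MP_b67cc8_lc Pool.Agent.FL.Mix28
open Pool.Agent.Lib.MP_dec383_lc (UN)
open Pool.Agent.Lib.FL.H64 (IsRk cl Flat Cov)

namespace PTc

abbrev St := List (ℕ × ℕ)

/-- the flat of level `i` -/
def fl (R : List ℕ) (r : ℕ) (s : St) (i : ℕ) : List ℕ :=
  R.filter fun e => decide (r ≤ i) || decide ((i, e) ∈ s)

def dec (m r : ℕ) (s : St) (i : ℕ) : Finset ℕ := (fl (List.range m) r s i).toFinset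

def allP (R : List ℕ) : St := R.flatMap fun i => R.map fun e => (i, e)

def clL (R : List ℕ) (O : List ℕ → ℕ) (L : List ℕ) : List ℕ :=
  R.filter fun e => decide (O (e :: L) = O L)

def upd (R : List ℕ) (s : St) (k : ℕ) (P : List ℕ) : St :=
  (allP R).filter fun q => bif decide (q.1 = k) then decide (q.2 ∈ P) else decide (q ∈ s)

def mvC (R : List ℕ) (r : ℕ) (O : List ℕ → ℕ) (G : ℕ → ℕ) (s : St) (j e U : ℕ) : St :=
  bif decide (j + 2 ≤ r) && (decide (e ∈ fl R r s (j + 2)) && ((!decide (e ∈ fl R r s j)) &&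
      decide (U + G (fl R r s (j + 1)).length * (clL R O (e :: fl R r s j)).length <
        G (fl R r s (j + 1)).length * (fl R r s (j + 2)).length))) then
    upd R s (j + 1) (clL R O (e :: fl R r s j))
  else s

def stepC (R : List ℕ) (r : ℕ) (O : List ℕ → ℕ) (G : ℕ → ℕ) (b : ℕ) (s : St) (x : List Bool) : St :=
  mvC R r O G s (ofB (x.take b)) (ofB ((x.drop b).take b)) (ofB ((x.drop b).drop b))

def pre (R : List ℕ) (j : ℕ) : List ℕ := R.filter fun e => decide (e < j)

def initC (R R' : List ℕ) (O : List ℕ → ℕ) : St :=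
  (allP R).filter fun q => R'.any fun j =>
    decide (O (pre R j) = q.1) && decide (O (q.2 :: pre R j) = q.1)

def smpC (m : ℕ) (O : List ℕ → ℕ) (k t : ℕ) (x : List Bool) : St :=
  rit (mvB m k + 1) (lz (stepC (List.range m) (O (List.range m)) O (GG m (nn m k) t) (bb m k)))
    (TT m k) (initC (List.range m) (List.range (m + 1)) O) x

def prC (R : List ℕ) (r : ℕ) (G : ℕ → ℕ) (s : St) : ℕ :=
  ((R.filter fun i => decide (1 ≤ i) && decide (i < r)).map fun i => G (fl R r s i).length).prod

def uC (m : ℕ) (O : List ℕ → ℕ) (k c t : ℕ) (x : List Bool) : ℕ :=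
  prC (List.range m) (O (List.range m)) (GG m (nn m k) (t + c)) (smpC m O k t x)

def estC (m : ℕ) (O : List ℕ → ℕ) (k : ℕ) (x : List Bool) : ℕ × ℕ :=
  bif (List.range m).any fun e => decide (O [e] = 0) then (0, 1)
  else (rit ((mvB m k + 1) * TT m k) (pst (uC m O k 0) (uC m O k 1)) (nn m k) (0, 1, 1) x).2

section sim
variable {m r : ℕ} {ρ : Finset ℕ → ℕ} {O : List ℕ → ℕ}

theorem mem_fl {s : St} {i e : ℕ} :
    e ∈ fl (List.range m) r s i ↔ e < m ∧ (r ≤ i ∨ (i, e) ∈ s) := by simp [fl]

theorem mem_dec {s : St} {i e : ℕ} : e ∈ dec m r s i ↔ e ∈ fl (List.range m) r s i :=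
  List.mem_toFinset

theorem card_dec (s : St) (i : ℕ) : (dec m r s i).card = (fl (List.range m) r s i).length :=
  List.toFinset_card_of_nodup (List.nodup_range.filter _)

theorem mem_allP {q : ℕ × ℕ} : q ∈ allP (List.range m) ↔ q.1 < m ∧ q.2 < m := by
  obtain ⟨i, e⟩ := q
  simp only [allP, List.mem_flatMap, List.mem_map, List.mem_range, Prod.mk.injEq]
  constructor
  · rintro ⟨a, ha, b, hb, rfl, rfl⟩; exact ⟨ha, hb⟩
  · rintro ⟨h1, h2⟩; exact ⟨i, h1, e, h2, rfl, rfl⟩

theorem clL_eq (hO : Orc m ρ O) {L : List ℕ} (hL : ∀ e ∈ L, e < m) :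
    (clL (List.range m) O L).toFinset = cl ρ (Finset.range m) L.toFinset := by
  ext e
  simp only [clL, List.mem_toFinset, List.mem_filter, List.mem_range, decide_eq_true_eq,
    H64.mem_cl, Finset.mem_range]
  refine and_congr_right fun he => ?_
  rw [hO L hL, hO (e :: L) (List.forall_mem_cons.2 ⟨he, hL⟩), List.toFinset_cons]

theorem dec_upd (hr : r ≤ m) (s : St) {k : ℕ} (hk : k < r) {P : List ℕ} (hP : ∀ e ∈ P, e < m) :
    dec m r (upd (List.range m) s k P) = Function.update (dec m r s) k P.toFinset := by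
  funext i
  ext e
  rw [mem_dec, mem_fl, upd, List.mem_filter, mem_allP]
  by_cases hi : i = k
  · subst hi
    rw [Function.update_self, List.mem_toFinset]
    simp only [decide_true, cond_true, decide_eq_true_eq]
    exact ⟨fun h => (h.2.resolve_left (by omega)).2, fun h =>
      ⟨hP e h, Or.inr ⟨⟨by omega, hP e h⟩, h⟩⟩⟩
  · rw [Function.update_of_ne hi, mem_dec, mem_fl]
    simp only [hi, decide_false, cond_false, decide_eq_true_eq]
    refine and_congr_right fun he => ⟨fun h => h.imp_right fun h => h.2, fun h => ?_⟩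
    rcases lt_or_ge i r with h1 | h1
    · exact Or.inr ⟨⟨by omega, he⟩, h.resolve_left (by omega)⟩
    · exact Or.inl h1

theorem dec_step (hO : Orc m ρ O) (hr : ρ (Finset.range m) ≤ m) (G : ℕ → ℕ) (b : ℕ) (s : St)
    (x : List Bool) : dec m (ρ (Finset.range m)) (stepC (List.range m) (ρ (Finset.range m)) O G b s x) =
      stepM m ρ G b (dec m (ρ (Finset.range m)) s) x := by
  unfold stepC stepM mvC
  generalize ofB (x.take b) = j
  generalize ofB ((x.drop b).take b) = e
  generalize ofB ((x.drop b).drop b) = U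
  by_cases h2 : e ∈ fl (List.range m) (ρ (Finset.range m)) s (j + 2)
  · have hL : ∀ a ∈ e :: fl (List.range m) (ρ (Finset.range m)) s j, a < m :=
      List.forall_mem_cons.2 ⟨(mem_fl.1 h2).1, fun a ha => (mem_fl.1 ha).1⟩
    have h3 := clL_eq hO hL
    rw [List.toFinset_cons] at h3
    have h4 : (clL (List.range m) O (e :: fl (List.range m) (ρ (Finset.range m)) s j)).length =
        (cl ρ (Finset.range m) (insert e (dec m (ρ (Finset.range m)) s j))).card := by
      rw [dec, ← h3]
      exact (List.toFinset_card_of_nodup (List.nodup_range.filter _)).symm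
    rw [Bool.cond_eq_ite]
    simp only [Bool.and_eq_true, decide_eq_true_eq, Bool.not_eq_true', decide_eq_false_iff_not,
      mem_dec, card_dec, h4]
    split_ifs with h5
    · rw [dec_upd hr s (k := j + 1) (P := clL _ O _) (by omega)
        fun a ha => List.mem_range.1 (List.mem_filter.1 ha).1, h3, dec]
    · rfl
  · rw [if_neg fun h => h2 (mem_dec.1 h.2.1)]
    simp [h2]

theorem pre_eq {j : ℕ} (hj : j ≤ m) : (pre (List.range m) j).toFinset = Finset.range j := by
  ext e
  simp only [pre, List.mem_toFinset, List.mem_filter, List.mem_range, decide_eq_true_eq,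
    Finset.mem_range]
  omega

theorem dec_init (hO : Orc m ρ O) (hr : ρ (Finset.range m) ≤ m) :
    dec m (ρ (Finset.range m)) (initC (List.range m) (List.range (m + 1)) O) = initM m ρ := by
  funext i
  ext e
  have hp : ∀ j, ∀ a ∈ pre (List.range m) j, a < m := fun j a ha =>
    List.mem_range.1 (List.mem_filter.1 ha).1
  rw [mem_dec, mem_fl, initM]
  split_ifs with hi
  · simp [hi]
  · simp only [hi, false_or, initC, List.mem_filter, mem_allP, List.any_eq_true, List.mem_range,
      Bool.and_eq_true, decide_eq_true_eq, Finset.mem_filter, Finset.mem_range, Finset.Nonempty]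
    refine and_congr_right fun he => ?_
    have e1 : ∀ j, j < m + 1 → (O (pre (List.range m) j) = i ∧ O (e :: pre (List.range m) j) = i ↔
        ρ (Finset.range j) = i ∧ ρ (insert e (Finset.range j)) = i) := fun j hj => by
      rw [hO _ (hp j), hO _ (List.forall_mem_cons.2 ⟨he, hp j⟩), List.toFinset_cons,
        pre_eq (by omega)]
    constructor
    · rintro ⟨-, j, hj, h⟩; exact ⟨j, hj, (e1 j hj).1 h⟩
    · rintro ⟨j, hj, h⟩; exact ⟨⟨by omega, he⟩, j, hj, (e1 j hj).2 h⟩

theorem rit_sim {σ τ : Type} (φ : σ → τ) {h : σ → List Bool → σ} {h' : τ → List Bool → τ}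
    (H : ∀ s x, φ (h s x) = h' (φ s) x) (k t : ℕ) : ∀ s x,
      φ (rit k (lz h) t s x) = rit k (lz h') t (φ s) x := by
  induction t with
  | zero => intro s x; rfl
  | succ t ih =>
    intro s x
    have e : φ (lz h s (x.take k)) = lz h' (φ s) (x.take k) := by
      unfold lz
      split_ifs
      exacts [H _ _, rfl]
    have := ih (lz h s (x.take k)) (x.drop k)
    simp only [rit, Function.iterate_succ_apply, rst] at this ⊢
    rw [this, e]

theorem O_range (hO : Orc m ρ O) : O (List.range m) = ρ (Finset.range m) := by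
  rw [hO _ fun e he => List.mem_range.1 he, List.toFinset_range]

theorem dec_smp (hO : Orc m ρ O) (hr : ρ (Finset.range m) ≤ m) (k t : ℕ) (x : List Bool) :
    dec m (ρ (Finset.range m)) (smpC m O k t x) = smpM m ρ k t x := by
  unfold smpC smpM
  rw [O_range hO, rit_sim _ (dec_step hO hr _ _), dec_init hO hr]

theorem prC_eq (hr : r ≤ m) (G : ℕ → ℕ) (s : St) :
    prC (List.range m) r G s = ∏ i ∈ Finset.Ico 1 r, G (dec m r s i).card := by
  unfold prC
  rw [← List.prod_toFinset _ (List.nodup_range.filter _)]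
  refine Finset.prod_congr ?_ fun i _ => by rw [card_dec]
  ext i
  simp only [List.mem_toFinset, List.mem_filter, List.mem_range, Bool.and_eq_true,
    decide_eq_true_eq, Finset.mem_Ico]
  omega

theorem estC_eq (hρ : IsRk ρ) (hO : Orc m ρ O) (k : ℕ) (x : List Bool) :
    estC m O k x = estM m ρ k x := by
  have hr : ρ (Finset.range m) ≤ m := by simpa using hρ.le_card (Finset.range m)
  have e1 : ∀ c, uC m O k c = fun t x => prG m ρ k (t + c) (smpM m ρ k t x) := fun c => by
    funext t x
    rw [uC, O_range hO, prC_eq hr, dec_smp hO hr, prG]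
  have e2 : ((List.range m).any fun e => decide (O [e] = 0)) = true ↔
      ∃ e ∈ Finset.range m, ρ {e} = 0 := by
    simp only [List.any_eq_true, List.mem_range, decide_eq_true_eq, Finset.mem_range]
    refine exists_congr fun e => and_congr_right fun he => ?_
    rw [hO [e] (by simpa using he)]
    simp
  unfold estC estM stageM
  rw [Bool.cond_eq_ite, e1, e1]
  exact if_congr e2 rfl rfl

end sim

section pt
open PT

attribute [fun_prop] PT PT.id PT.const PT.comp PT.pair PT.fst PT.snd PT.cons PT.append PT.tail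
  PT.headD PT.isEmpty PT.cond PT.and PT.or PT.not PT.flatMap PT.map PT.filter PT.any PT.all
  PT.add PT.mul PT.length PT.ofB_pt PT.eq PT.mem PT.iteEq PT.le PT.lt

variable {α β σ : Type} [Enc α] [Enc β] [Enc σ] {k : α → ℕ}

theorem un_bd (h : UN k) : Bd sz k := (sz_bd h).of_le fun a => by rw [sz_listBool]; simp; omega

theorem un_size (h : UN k) : UN fun a => (k a).size := by
  simpa only [Nat.size_eq_bits_len] using UN.length (bits h.pt)

theorem un_iter {t : α → ℕ} (ht : UN t) {g : α → σ} {h : α → σ → σ} (hg : PT g)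
    (hh : PT fun p : α × σ => h p.1 p.2) {B : α → ℕ} (hB : Bd sz B)
    (hb : ∀ a i, i ≤ t a → sz ((h a)^[i] (g a)) ≤ B a) : PT fun a => (h a)^[t a] (g a) :=
  (foldl (h := fun a s (_ : Bool) => h a s) ht hg (PT.comp hh (pair fst' (fst snd'))) B hB
    fun a i => by rw [List.foldl_const]; exact hb a _ (by simp)).congr fun a => by
      rw [List.foldl_const, List.length_replicate]

theorem un_inv {t : α → ℕ} (ht : UN t) {g : α → σ} {h : α → σ → σ} (hg : PT g)
    (hh : PT fun p : α × σ => h p.1 p.2) {B : α → ℕ} (hB : Bd sz B) (I : α → ℕ → σ → Prop)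
    (h0 : ∀ a, I a 0 (g a)) (h1 : ∀ a i s, I a i s → I a (i + 1) (h a s))
    (hb : ∀ a i s, i ≤ t a → I a i s → sz s ≤ B a) : PT fun a => (h a)^[t a] (g a) :=
  un_iter ht hg hh hB fun a i hi => hb a i _ hi (by
    clear hi
    induction i with
    | zero => exact h0 a
    | succ i ih => rw [Function.iterate_succ_apply']; exact h1 a i _ ih)

theorem un_split (h : UN k) {r : α → List Bool} (hr : PT r) :
    PT fun a => ((r a).take (k a), (r a).drop (k a)) := by
  have key : ∀ (r : List Bool) (i : ℕ), (fun s : List Bool × List Bool =>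
      (s.1 ++ bif s.2.isEmpty then [] else [s.2.headD false], s.2.tail))^[i] ([], r) =
      (r.take i, r.drop i) := fun r i => by
    induction i with
    | zero => rfl
    | succ i ih =>
      rw [Function.iterate_succ_apply', ih, List.take_add_one, ← List.head?_drop, List.tail_drop]
      cases r.drop i <;> rfl
  refine (un_iter h (g := fun a => (([] : List Bool), r a)) (h := fun _ s =>
    (s.1 ++ bif s.2.isEmpty then [] else [s.2.headD false], s.2.tail)) (by fun_prop) (by fun_prop)
    (((Bd.const 3).mul hr.sz_bd).add (Bd.const 1)) fun a i _ => ?_).congr fun a => key _ _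
  rw [key, sz_prod]
  simp only [sz_listBool, List.length_take, List.length_drop]
  omega

theorem un_rit {t : α → ℕ} (hk : UN k) (ht : UN t) {g : α → σ} {h : α → σ → List Bool → σ}
    {r : α → List Bool} (hg : PT g) (hr : PT r)
    (hh : PT fun p : α × σ × List Bool => h p.1 p.2.1 p.2.2) {B : α → ℕ} (hB : Bd sz B)
    (I : α → ℕ → σ → Prop) (h0 : ∀ a, I a 0 (g a)) (h1 : ∀ a i s x, I a i s → I a (i + 1) (h a s x))
    (hb : ∀ a i s, i ≤ t a → I a i s → sz s ≤ B a) :
    PT fun a => rit (k a) (h a) (t a) (g a) (r a) := by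
  have h2 := un_split (hk.comp (fst' (β := σ × List Bool))) (snd snd')
  refine fst (un_inv ht (h := fun a => rst (k a) (h a)) (pair hg hr)
    (pair (PT.comp hh (pair fst' (pair (fst snd') (fst h2)))) (snd h2))
    ((((Bd.const 2).mul hB).add (Bd.const 1)).add hr.sz_bd)
    (fun a i s => I a i s.1 ∧ sz s.2 ≤ sz (r a)) (fun a => ⟨h0 a, le_rfl⟩)
    (fun a i s hs => ⟨h1 a i _ _ hs.1, (sz_drop_le _ _).trans hs.2⟩) fun a i s hi hs => ?_)
  have := hb a i _ hi hs.1
  have := hs.2
  rw [← Prod.mk.eta (p := s), sz_prod]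
  omega

theorem sz_filter_le (P : β → Bool) (l : List β) : sz (l.filter P) ≤ sz l := by
  induction l with
  | nil => rfl
  | cons b l ih =>
    rw [List.filter_cons]
    split_ifs <;> simp only [sz_cons] <;> omega

theorem sz_mul_le (a b : ℕ) : sz (a * b) ≤ sz a + sz b := by
  rw [sz_nat_le, pow_add]
  exact Nat.mul_lt_mul'' (lt_two_pow_sz a) (lt_two_pow_sz b)

theorem prod_pt {f : α → List ℕ} (hf : PT f) : PT fun a => (f a).prod :=
  (foldl_add (h := fun _ (s b : ℕ) => s * b) hf (const 1) (by fun_prop) (fun a => sz (f a))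
    hf.sz_bd fun a s b hb => by
      have := sz_mul_le s b
      have := sz_le_of_mem hb
      omega).congr fun a => List.prod_eq_foldl.symm

variable {R R' L : α → List ℕ} {r i j e U : α → ℕ} {s : α → St} {O : α → List ℕ → ℕ}
  {G : α → ℕ → ℕ} {x : α → List Bool}

theorem app2 {γ : Type} [Enc γ] {F : α → β → γ} (hF : PT fun p : α × β => F p.1 p.2)
    {g : σ → α} {y : σ → β} (hg : PT g) (hy : PT y) : PT fun p => F (g p) (y p) :=
  PT.comp hF (pair hg hy)

theorem memP {q : α → ℕ × ℕ} (hq : PT q) (hs : PT s) : PT fun a => decide (q a ∈ s a) :=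
  (mem hq hs).congr fun _ => decide_eq_decide.2 Iff.rfl

@[fun_prop] theorem fl_pt (hR : PT R) (hr : PT r) (hs : PT s) (hi : PT i) :
    PT fun a => fl (R a) (r a) (s a) (i a) :=
  filter hR (or (le (PT.comp hr fst') (PT.comp hi fst'))
    (memP (pair (PT.comp hi fst') snd') (PT.comp hs fst')))

@[fun_prop] theorem allP_pt (hR : PT R) : PT fun a => allP (R a) := by unfold allP; fun_prop

@[fun_prop] theorem pre_pt (hR : PT R) (hi : PT i) : PT fun a => pre (R a) (i a) := by
  unfold pre; fun_prop

@[fun_prop] theorem upd_pt (hR : PT R) (hs : PT s) (hi : PT i) (hL : PT L) :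
    PT fun a => upd (R a) (s a) (i a) (L a) :=
  filter (allP_pt hR) (cond (eq (fst snd') (PT.comp hi fst'))
    (mem (snd snd') (PT.comp hL fst')) (memP snd' (PT.comp hs fst')))

theorem clL_pt (hR : PT R) (hO : PT fun p : α × List ℕ => O p.1 p.2) (hL : PT L) :
    PT fun a => clL (R a) (O a) (L a) :=
  filter hR (eq (app2 hO fst' (by fun_prop)) (app2 hO fst' (by fun_prop)))

theorem mvC_pt (hR : PT R) (hr : PT r) (hO : PT fun p : α × List ℕ => O p.1 p.2)
    (hG : PT fun p : α × ℕ => G p.1 p.2) (hs : PT s) (hj : PT j) (he : PT e) (hU : PT U) :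
    PT fun a => mvC (R a) (r a) (O a) (G a) (s a) (j a) (e a) (U a) := by
  have h1 : PT fun a => clL (R a) (O a) (e a :: fl (R a) (r a) (s a) (j a)) :=
    clL_pt hR hO (by fun_prop)
  have h2 : PT fun a => G a (fl (R a) (r a) (s a) (j a + 1)).length :=
    app2 hG PT.id (by fun_prop)
  have h3 : PT fun a => fl (R a) (r a) (s a) (j a + 2) := by fun_prop
  have h4 : PT fun a => fl (R a) (r a) (s a) (j a) := by fun_prop
  exact cond (and (le (add hj (const 2)) hr) (and (mem he h3) (and (not (mem he h4))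
    (lt (add hU (mul h2 (length h1))) (mul h2 (length h3))))))
    (upd_pt hR hs (add hj (const 1)) h1) hs

theorem stepC_pt (hR : PT R) (hr : PT r) (hO : PT fun p : α × List ℕ => O p.1 p.2)
    (hG : PT fun p : α × ℕ => G p.1 p.2) (hb : UN i) (hs : PT s) (hx : PT x) :
    PT fun a => stepC (R a) (r a) (O a) (G a) (i a) (s a) (x a) := by
  have h1 := un_split hb hx
  have h2 := un_split hb (snd h1)
  exact mvC_pt hR hr hO hG hs (ofB_pt (fst h1)) (ofB_pt (fst h2)) (ofB_pt (snd h2))

theorem initC_pt (hR : PT R) (hR' : PT R') (hO : PT fun p : α × List ℕ => O p.1 p.2) :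
    PT fun a => initC (R a) (R' a) (O a) :=
  filter (allP_pt hR) (any (PT.comp hR' fst') (and
    (eq (app2 hO (fst fst') (by fun_prop)) (by fun_prop))
    (eq (app2 hO (fst fst') (by fun_prop)) (by fun_prop))))

theorem prC_pt (hR : PT R) (hr : PT r) (hG : PT fun p : α × ℕ => G p.1 p.2) (hs : PT s) :
    PT fun a => prC (R a) (r a) (G a) (s a) :=
  prod_pt (map (by fun_prop) (app2 hG fst' (by fun_prop)))

variable {m t : α → ℕ}

theorem NN_un (hm : UN m) (hk : UN k) : UN fun a => NN (m a) (k a) := (hm.add hk).add (UN.const 64)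
theorem nn_un (hm : UN m) (hk : UN k) : UN fun a => nn (m a) (k a) := (NN_un hm hk).pow 8
theorem bb_un (hm : UN m) (hk : UN k) : UN fun a => bb (m a) (k a) := un_size (NN_un hm hk)
theorem TT_un (hm : UN m) (hk : UN k) : UN fun a => TT (m a) (k a) := (NN_un hm hk).pow 20
theorem mvB_un (hm : UN m) (hk : UN k) : UN fun a => mvB (m a) (k a) + 1 :=
  (((UN.const 2).mul (bb_un hm hk)).add ((UN.const 11).mul (bb_un hm hk))).add (UN.const 1)

theorem GG_pt {n : α → ℕ} (hm : UN m) (hn : UN n) (ht : PT t) :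
    PT fun p : α × ℕ => GG (m p.1) (n p.1) (t p.1) p.2 := by
  have h1 := ((hm.comp (fst' (β := ℕ))).sub snd').pt
  have h2 := ((hn.comp (fst' (β := ℕ))).sub (PT.comp ht fst')).pt
  exact add (add (mul h2 h1) (mul (PT.comp ht fst') snd')) (mul snd' h1)

theorem smpC_pt (hm : UN m) (hO : PT fun p : α × List ℕ => O p.1 p.2) (hk : UN k) (ht : PT t)
    (hx : PT x) : PT fun a => smpC (m a) (O a) (k a) (t a) (x a) := by
  have hR := hm.range
  have hr : PT fun a => O a (List.range (m a)) := app2 hO PT.id hR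
  have hG := GG_pt hm (nn_un hm hk) ht
  refine un_rit (mvB_un hm hk) (TT_un hm hk) (initC_pt hR (hm.add (UN.const 1)).range hO) hx
    (iteEq (headD (snd snd') false) (const true) (stepC_pt (hm.comp fst').range
      (PT.comp (G := fun a => O a (List.range (m a))) hr fst')
      (O := fun p : α × St × List Bool => O p.1) (app2 hO (fst fst') snd')
      (G := fun p : α × St × List Bool => GG (m p.1) (nn (m p.1) (k p.1)) (t p.1))
      (app2 (F := fun a => GG (m a) (nn (m a) (k a)) (t a)) hG (fst fst') snd')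
      ((bb_un hm hk).comp fst') (fst snd') (tail (snd snd'))) (fst snd'))
    (allP_pt hR).sz_bd (fun a _ s => sz s ≤ sz (allP (List.range (m a))))
    (fun a => sz_filter_le _ _) (fun a _ s x h => ?_) fun _ _ _ _ h => h
  unfold lz stepC mvC
  split_ifs
  · rw [Bool.cond_eq_ite]
    split_ifs
    exacts [sz_filter_le _ _, h]
  · exact h

theorem uC_pt (c : ℕ) (hm : UN m) (hO : PT fun p : α × List ℕ => O p.1 p.2) (hk : UN k)
    (ht : PT t) (hx : PT x) : PT fun a => uC (m a) (O a) (k a) c (t a) (x a) := by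
  have hr : PT fun a => O a (List.range (m a)) := app2 hO PT.id hm.range
  have hG := GG_pt hm (nn_un hm hk) (add ht (const c))
  unfold uC
  exact prC_pt (G := fun a => GG (m a) (nn (m a) (k a)) (t a + c)) hm.range hr hG
    (smpC_pt hm hO hk ht hx)

theorem sz_prod_le (c : ℕ) (l : List ℕ) (h : ∀ y ∈ l, y ≤ c) : sz l.prod ≤ 1 + l.length * c := by
  induction l with
  | nil => simpa using sz_nat_le_self 1
  | cons y l ih =>
    obtain ⟨h1, h2⟩ := List.forall_mem_cons.1 h
    have := ih h2
    have := sz_mul_le y l.prod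
    have := sz_nat_le_self y
    rw [List.prod_cons, List.length_cons, add_mul]
    omega

theorem sz_uC (m : ℕ) (O : List ℕ → ℕ) (k c t : ℕ) (x : List Bool) :
    sz (uC m O k c t x) ≤ 1 + m * (m * (nn m k + (t + c) + m)) := by
  refine (sz_prod_le (m * (nn m k + (t + c) + m)) _ fun y hy => ?_).trans ?_
  · obtain ⟨i, -, rfl⟩ := List.mem_map.1 hy
    have h1 : (fl (List.range m) (O (List.range m)) (smpC m O k t x) i).length ≤ m :=
      (List.length_filter_le _ _).trans (by simp)
    generalize (fl (List.range m) (O (List.range m)) (smpC m O k t x) i).length = s at h1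
    have h2 := Nat.mul_le_mul (Nat.sub_le (nn m k) (t + c)) (Nat.sub_le m s)
    have h3 := Nat.mul_le_mul_left (t + c) h1
    have h4 := Nat.mul_le_mul h1 (Nat.sub_le m s)
    unfold GG
    nlinarith
  · rw [List.length_map]
    have h1 : ((List.range m).filter fun i =>
        decide (1 ≤ i) && decide (i < O (List.range m))).length ≤ m :=
      (List.length_filter_le _ _).trans (by simp)
    gcongr

theorem estC_pt (hm : UN m) (hO : PT fun p : α × List ℕ => O p.1 p.2) (hk : UN k) (hx : PT x) :
    PT fun a => estC (m a) (O a) (k a) (x a) := by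
  have hn := nn_un hm hk
  have hu := fun c => uC_pt (α := α × (ℕ × ℕ × ℕ) × List Bool) (O := fun p => O p.1) c
    (hm.comp fst') (app2 hO (fst fst') snd') (hk.comp fst') (fst (fst snd')) (snd snd')
  have hD : UN fun a => 1 + nn (m a) (k a) *
      (1 + m a * (m a * (nn (m a) (k a) + (nn (m a) (k a) + 1) + m a))) :=
    (UN.const 1).add (hn.mul ((UN.const 1).add (hm.mul (hm.mul
      ((hn.add (hn.add (UN.const 1))).add hm)))))
  refine cond (any hm.range (eq (app2 hO fst' (by fun_prop)) (const 0))) (const _)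
    (snd (un_rit ((mvB_un hm hk).mul (TT_un hm hk)) hn
      (h := fun a => pst (uC (m a) (O a) (k a) 0) (uC (m a) (O a) (k a) 1)) (const _) hx
      (pair (by fun_prop) (pair (mul (by fun_prop) (hu 0)) (mul (by fun_prop) (hu 1))))
      (un_bd ((((UN.const 2).mul hn).add (UN.const 2)).add ((UN.const 3).mul hD)))
      (fun a i s => s.1 = i ∧
        sz s.2.1 ≤ 1 + i * (1 + m a * (m a * (nn (m a) (k a) + (i + 1) + m a))) ∧
        sz s.2.2 ≤ 1 + i * (1 + m a * (m a * (nn (m a) (k a) + (i + 1) + m a))))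
      (fun a => ⟨rfl, by simpa using sz_nat_le_self 1, by simpa using sz_nat_le_self 1⟩)
      (fun a i s y h => ?_) fun a i s hi h => ?_))
  · obtain ⟨c, p, q⟩ := s
    obtain ⟨rfl, h1, h2⟩ := h
    simp only at h1 h2
    have a1 := sz_uC (m a) (O a) (k a) 0 c y
    have a2 := sz_uC (m a) (O a) (k a) 1 c y
    have a3 := sz_mul_le p (uC (m a) (O a) (k a) 0 c y)
    have a4 := sz_mul_le q (uC (m a) (O a) (k a) 1 c y)
    have b1 : m a * (m a * (nn (m a) (k a) + (c + 0) + m a)) ≤
        m a * (m a * (nn (m a) (k a) + (c + 1 + 1) + m a)) := by gcongr <;> omega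
    have b2 : m a * (m a * (nn (m a) (k a) + (c + 1) + m a)) ≤
        m a * (m a * (nn (m a) (k a) + (c + 1 + 1) + m a)) := by gcongr; omega
    have b3 := Nat.mul_le_mul_left c (Nat.add_le_add_left b2 1)
    refine ⟨rfl, ?_, ?_⟩ <;> simp only [pst] <;> rw [add_mul c 1, one_mul] <;> omega
  · obtain ⟨c, p, q⟩ := s
    obtain ⟨rfl, h1, h2⟩ := h
    simp only at h1 h2 hi
    have a1 := sz_nat_le_self c
    have b1 : c * (1 + m a * (m a * (nn (m a) (k a) + (c + 1) + m a))) ≤ nn (m a) (k a) *
        (1 + m a * (m a * (nn (m a) (k a) + (nn (m a) (k a) + 1) + m a))) := by gcongr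
    rw [sz_prod, sz_prod]
    omega

theorem bits_un (hm : UN m) (hk : UN k) : UN fun a => bitsN (m a) (k a) :=
  ((mvB_un hm hk).mul (TT_un hm hk)).mul (nn_un hm hk)

end pt

end PTc

theorem st_PT : St_PT := by
  intro α _ m k O hm hk hO
  exact ⟨fun a x => PTc.estC (m a) (O a) (k a) x,
    PTc.estC_pt (α := α × List Bool) (O := fun p => O p.1) (hm.comp PT.fst')
      (PTc.app2 hO (PT.fst PT.fst') PT.snd') (hk.comp PT.fst') PT.snd',
    fun a ρ hρ hO x => PTc.estC_eq hρ hO _ x⟩

theorem st_ORC (hE : St_EST) (hP : St_PT) : St_ORC := by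
  intro α _ m k O hm hk hO
  obtain ⟨A, h1, h2⟩ := hP α m k O hm hk hO
  refine ⟨A, fun a => bitsN (m a) (k a), h1, PTc.bits_un hm hk, fun a ρ hρ ho k0 l hl => ?_⟩
  simp only [h2 a ρ hρ ho]
  exact hE (m a) ρ hρ (k a) l k0 hl

end Pool.Agent.Lib.FL.A80
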