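import Pool.Agent.Lib.FL.A80

/-! The walk on chains of flats is reversible and dominates the resampling dynamics. -/

namespace Pool.Agent.Lib.FL.A80

open Finset Pool.Agent.Lib.helper82 Pool.Agent.Lib.MP_b67cc8_lc Pool.Agent.FL.Mix28
open Pool.Agent.Lib.FL.H64 (IsRk cl Flat Cov)

namespace STEP

theorem Ex3 (b B : ℕ) (F : ℕ → ℕ → ℕ → ℝ) :
    Ex (2 * b + B) (fun x => F (ofB (x.take b)) (ofB ((x.drop b).take b))
      (ofB ((x.drop b).drop b))) =
    (∑ j ∈ range (2 ^ b), ∑ e ∈ range (2 ^ b), ∑ U ∈ range (2 ^ B), F j e U) / 2 ^ (2 * b + B) := by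
  have e0 : 2 * b + B = b + (b + B) := by ring
  have h1 : Ex (2 * b + B) (fun x => F (ofB (x.take b)) (ofB ((x.drop b).take b))
      (ofB ((x.drop b).drop b))) =
      Ex b fun x => Ex b fun y => Ex B fun z => F (ofB x) (ofB y) (ofB z) := by
    rw [e0, Ex_append]
    refine Ex_congr fun x hx => ?_
    rw [Ex_append]
    refine Ex_congr fun y hy => Ex_congr fun z _ => ?_
    rw [List.take_left' hx, List.drop_left' hx, List.take_left' hy, List.drop_left' hy]
  rw [h1, Ex_ofB b fun j => Ex b fun y => Ex B fun z => F j (ofB y) (ofB z)]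
  have h2 : ∀ j, (Ex b fun y => Ex B fun z => F j (ofB y) (ofB z)) =
      (∑ e ∈ range (2 ^ b), (∑ U ∈ range (2 ^ B), F j e U) / 2 ^ B) / 2 ^ b := fun j => by
    rw [Ex_ofB b fun e => Ex B fun z => F j e (ofB z)]
    simp only [fun e => Ex_ofB B (F j e)]
  simp only [h2, ← sum_div]
  rw [e0, pow_add, pow_add]
  field_simp

variable {m : ℕ} {ρ : Finset ℕ → ℕ}

/-- the move for given numbers -/
def mv (m : ℕ) (ρ : Finset ℕ → ℕ) (G : ℕ → ℕ) (C : ℕ → Finset ℕ) (j e U : ℕ) : ℕ → Finset ℕ :=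
  if j + 2 ≤ ρ (range m) ∧ e ∈ C (j + 2) ∧ e ∉ C j ∧
      U + G (C (j + 1)).card * (cl ρ (range m) (insert e (C j))).card <
        G (C (j + 1)).card * (C (j + 2)).card then
    Function.update C (j + 1) (cl ρ (range m) (insert e (C j)))
  else C

theorem upd_iff {C : ℕ → Finset ℕ} (hC : C ∈ Ch m ρ) {j : ℕ} (hj : j + 2 ≤ ρ (range m))
    (P : Finset ℕ) : Function.update C (j + 1) P ∈ Ch m ρ ↔
      Cov ρ (range m) (C j) P ∧ Cov ρ (range m) P (C (j + 2)) := by
  rw [mem_Ch] at hC ⊢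
  constructor
  · intro h
    have a := h.cov j (by omega)
    have b := h.cov (j + 1) (by omega)
    rw [Function.update_of_ne (by omega), Function.update_self] at a
    rw [Function.update_self, Function.update_of_ne (by omega)] at b
    exact ⟨a, b⟩
  · rintro ⟨a, b⟩
    refine ⟨by rw [Function.update_of_ne (by omega)]; exact hC.bot, fun i hi => by
      rw [Function.update_of_ne (by omega)]; exact hC.top i hi, fun i hi => ?_⟩
    by_cases e1 : i = j
    · subst e1
      rwa [Function.update_of_ne (by omega), Function.update_self]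
    by_cases e2 : i = j + 1
    · subst e2
      rwa [Function.update_self, Function.update_of_ne (by omega)]
    · rw [Function.update_of_ne e2, Function.update_of_ne (by omega)]
      exact hC.cov i hi

theorem cov_new (h : IsRk ρ) {C : ℕ → Finset ℕ} (hC : C ∈ Ch m ρ) {j : ℕ}
    (hj : j + 2 ≤ ρ (range m)) {e : ℕ} (he : e ∈ C (j + 2)) (he' : e ∉ C j) :
    Cov ρ (range m) (C j) (cl ρ (range m) (insert e (C j))) ∧
      Cov ρ (range m) (cl ρ (range m) (insert e (C j))) (C (j + 2)) := by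
  have a := (mem_Ch.1 hC).cov j (by omega)
  have b := (mem_Ch.1 hC).cov (j + 1) (by omega)
  have c := h.cov_cl a.1 (b.2.1.1 he) he'
  refine ⟨c, c.2.1, b.2.1, h.cl_min b.2.1 (insert_subset he (a.2.2.1.trans b.2.2.1)), ?_⟩
  rw [b.2.2.2, a.2.2.2, c.2.2.2]

theorem mv_mem (h : IsRk ρ) (G : ℕ → ℕ) {C : ℕ → Finset ℕ} (hC : C ∈ Ch m ρ) (j e U : ℕ) :
    mv m ρ G C j e U ∈ Ch m ρ := by
  unfold mv
  split_ifs with c
  · exact (upd_iff hC c.1 _).2 (cov_new h hC c.1 c.2.1 c.2.2.1)
  · exact hC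

open Classical in
/-- the possible new values at level `j + 1` -/
noncomputable def Nb (m : ℕ) (ρ : Finset ℕ → ℕ) (C : ℕ → Finset ℕ) (j : ℕ) : Finset (Finset ℕ) :=
  (range m).powerset.filter fun P => Function.update C (j + 1) P ∈ Ch m ρ

theorem mem_Nb {C : ℕ → Finset ℕ} {j : ℕ} {P : Finset ℕ} :
    P ∈ Nb m ρ C j ↔ Function.update C (j + 1) P ∈ Ch m ρ := by
  classical
  unfold Nb
  rw [mem_filter, mem_powerset]
  refine ⟨fun h => h.2, fun h => ⟨?_, h⟩⟩
  have := (mem_Ch.1 h).sub (j + 1)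
  rwa [Function.update_self] at this

/-- number of triples producing a given move -/
noncomputable def rate (G : ℕ → ℕ) (C : ℕ → Finset ℕ) (j : ℕ) (P : Finset ℕ) : ℝ :=
  ((P.card : ℝ) - (C j).card) * (G (C (j + 1)).card * (((C (j + 2)).card : ℝ) - P.card))

theorem sum_lt (M c d : ℕ) (hd : d ≤ M) (hc : c ≤ d) (x : ℝ) :
    ∑ U ∈ range M, (if U + c < d then x else 0) = ((d : ℝ) - c) * x := by
  rw [← sum_filter]
  have : (range M).filter (fun U => U + c < d) = range (d - c) := by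
    ext U
    simp only [mem_filter, mem_range]
    omega
  rw [this, sum_const, card_range, nsmul_eq_mul, Nat.cast_sub hc]

theorem sum_level (h : IsRk ρ) {G : ℕ → ℕ} {b B : ℕ} (hb : m ≤ 2 ^ b)
    (hB : ∀ s ≤ m, G s * m ≤ 2 ^ B) {C : ℕ → Finset ℕ} (hC : C ∈ Ch m ρ) {j : ℕ}
    (hj : j + 2 ≤ ρ (range m)) (F : (ℕ → Finset ℕ) → ℝ) (h0 : F C = 0) :
    ∑ e ∈ range (2 ^ b), ∑ U ∈ range (2 ^ B), F (mv m ρ G C j e U) =
      ∑ P ∈ Nb m ρ C j, rate G C j P * F (Function.update C (j + 1) P) := by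
  have cm : ∀ i, (C i).card ≤ m := fun i => by
    simpa using card_le_card ((mem_Ch.1 hC).sub i)
  set φ : Finset ℕ → ℝ := fun P => (G (C (j + 1)).card * (((C (j + 2)).card : ℝ) - P.card)) *
    F (Function.update C (j + 1) P) with hφ
  have h1 : ∀ e, ∑ U ∈ range (2 ^ B), F (mv m ρ G C j e U) =
      if e ∈ C (j + 2) \ C j then φ (cl ρ (range m) (insert e (C j))) else 0 := fun e => by
    split_ifs with he
    · obtain ⟨e1, e2⟩ := mem_sdiff.1 he
      have hc := card_le_card (cov_new h hC hj e1 e2).2.2.2.1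
      have := sum_lt (2 ^ B) (G (C (j + 1)).card * (cl ρ (range m) (insert e (C j))).card)
        (G (C (j + 1)).card * (C (j + 2)).card)
        ((Nat.mul_le_mul_left _ (cm _)).trans (hB _ (cm _))) (Nat.mul_le_mul_left _ hc)
        (F (Function.update C (j + 1) (cl ρ (range m) (insert e (C j)))))
      refine Eq.trans (sum_congr rfl fun U _ => ?_) (this.trans ?_)
      · unfold mv
        simp only [hj, e1, e2, not_false_eq_true, true_and]
        split_ifs
        exacts [rfl, h0]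
      · rw [hφ]; push_cast; ring
    · refine sum_eq_zero fun U _ => ?_
      unfold mv
      rw [if_neg (fun c => he (mem_sdiff.2 ⟨c.2.1, c.2.2.1⟩)), h0]
  simp only [h1]
  have h2 : (range (2 ^ b)).filter (fun e => e ∈ C (j + 2) \ C j) = C (j + 2) \ C j := by
    ext e
    rw [mem_filter]
    refine ⟨fun a => a.2, fun a => ⟨mem_range.2 ?_, a⟩⟩
    have := mem_range.1 ((mem_Ch.1 hC).sub _ (mem_sdiff.1 a).1)
    omega
  rw [← sum_filter, h2, ← sum_fiberwise_of_maps_to (t := Nb m ρ C j)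
    (g := fun e => cl ρ (range m) (insert e (C j))) fun e he =>
      mem_Nb.2 ((upd_iff hC hj _).2 (cov_new h hC hj (mem_sdiff.1 he).1 (mem_sdiff.1 he).2))]
  refine sum_congr rfl fun P hP => ?_
  obtain ⟨c1, c2⟩ := (upd_iff hC hj P).1 (mem_Nb.1 hP)
  have h3 : (C (j + 2) \ C j).filter (fun e => cl ρ (range m) (insert e (C j)) = P) = P \ C j := by
    ext e
    simp only [mem_filter, mem_sdiff]
    constructor
    · rintro ⟨⟨a, b⟩, rfl⟩
      exact ⟨H64.subset_cl (insert_subset (c2.2.1.1 a) c1.1.1) (mem_insert_self _ _), b⟩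
    · rintro ⟨a, b⟩
      exact ⟨⟨c2.2.2.1 a, b⟩, h.cov_eq c1 a b⟩
  rw [sum_congr rfl (g := fun _ => φ P) fun e he => by rw [(mem_filter.1 he).2], h3, sum_const,
    nsmul_eq_mul, cast_card_sdiff c1.2.2.1, hφ, rate]
  ring

theorem Ex_step (h : IsRk ρ) {G : ℕ → ℕ} {b B : ℕ} (hb : m ≤ 2 ^ b)
    (hB : ∀ s ≤ m, G s * m ≤ 2 ^ B) {C : ℕ → Finset ℕ} (hC : C ∈ Ch m ρ)
    (F : (ℕ → Finset ℕ) → ℝ) (h0 : F C = 0) :
    Ex (2 * b + B) (fun x => F (stepM m ρ G b C x)) =
      (∑ j ∈ range (ρ (range m) - 1), ∑ P ∈ Nb m ρ C j,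
        rate G C j P * F (Function.update C (j + 1) P)) / 2 ^ (2 * b + B) := by
  have hr : ρ (range m) ≤ m := by simpa using h.le_card (range m)
  refine (Ex3 b B fun j e U => F (mv m ρ G C j e U)).trans ?_
  congr 1
  rw [← sum_subset (s₁ := range (ρ (range m) - 1)) (range_subset_range.2 (by omega))]
  · exact sum_congr rfl fun j hj => sum_level h hb hB hC (by have := mem_range.1 hj; omega) F h0
  · intro j _ hj
    refine sum_eq_zero fun e _ => sum_eq_zero fun U _ => ?_
    unfold mv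
    rw [if_neg (fun c => hj (mem_range.2 (by omega))), h0]

/-- the part of the weight that does not see level `j + 1` -/
noncomputable def Rs (r : ℕ) (G : ℕ → ℝ) (j : ℕ) (C : ℕ → Finset ℕ) : ℝ :=
  (∏ i ∈ ((range r).erase j).erase (j + 1), La C i) / ∏ i ∈ (Ico 1 r).erase (j + 1), G (C i).card

theorem wt_eq {r j : ℕ} (hj : j + 2 ≤ r) (G : ℕ → ℝ) (C : ℕ → Finset ℕ) :
    wt r G C = Rs r G j C * (La C j * La C (j + 1) / G (C (j + 1)).card) := by
  unfold wt Rs
  rw [← mul_prod_erase (range r) (La C) (a := j) (mem_range.2 (by omega)),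
    ← mul_prod_erase ((range r).erase j) (La C) (a := j + 1)
      (mem_erase.2 ⟨by omega, mem_range.2 (by omega)⟩),
    ← mul_prod_erase (Ico 1 r) (fun i => G (C i).card) (a := j + 1) (mem_Ico.2 (by omega)),
    div_mul_div_comm]
  congr 1 <;> ring

theorem Rs_upd (r : ℕ) (G : ℕ → ℝ) (j : ℕ) (C : ℕ → Finset ℕ) (P : Finset ℕ) :
    Rs r G j (Function.update C (j + 1) P) = Rs r G j C := by
  unfold Rs
  congr 1
  · refine prod_congr rfl fun i hi => ?_
    have h1 := (mem_erase.1 hi).1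
    have h2 := (mem_erase.1 (mem_erase.1 hi).2).1
    unfold La
    rw [Function.update_of_ne h1, Function.update_of_ne (by omega)]
  · exact prod_congr rfl fun i hi => by rw [Function.update_of_ne (mem_erase.1 hi).1]

theorem La_ge {C : ℕ → Finset ℕ} (hC : C ∈ Ch m ρ) {i : ℕ} (hi : i < ρ (range m)) : 1 ≤ La C i := by
  have h1 : (C i).card + 1 ≤ (C (i + 1)).card := ((mem_Ch.1 hC).cov i hi).card_lt
  have h2 : ((C i).card : ℝ) + 1 ≤ (C (i + 1)).card := by exact_mod_cast h1
  unfold La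
  linarith

theorem G_pos {G : ℕ → ℕ} (hG : ∀ s, 0 < s → s < m → 0 < G s) {C : ℕ → Finset ℕ}
    (hC : C ∈ Ch m ρ) {i : ℕ} (hi : i + 2 ≤ ρ (range m)) : (0 : ℝ) < G (C (i + 1)).card := by
  have h1 := ((mem_Ch.1 hC).cov i (by omega)).card_lt
  have h2 := ((mem_Ch.1 hC).cov (i + 1) (by omega)).card_lt
  have h3 : (C (i + 1 + 1)).card ≤ m := by simpa using card_le_card ((mem_Ch.1 hC).sub _)
  exact_mod_cast hG _ (by omega) (by omega)

theorem Rs_nonneg {G : ℕ → ℕ} {C : ℕ → Finset ℕ} (hC : C ∈ Ch m ρ) (j : ℕ) :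
    0 ≤ Rs (ρ (range m)) (fun s => G s) j C :=
  div_nonneg (prod_nonneg fun i hi => zero_le_one.trans
    (La_ge hC (mem_range.1 (mem_erase.1 (mem_erase.1 hi).2).2)))
    (prod_nonneg fun _ _ => Nat.cast_nonneg _)

theorem flow {G : ℕ → ℕ} (hG : ∀ s, 0 < s → s < m → 0 < G s) {C : ℕ → Finset ℕ}
    (hC : C ∈ Ch m ρ) {j : ℕ} (hj : j + 2 ≤ ρ (range m)) (P : Finset ℕ) :
    wt (ρ (range m)) (fun s => G s) C * rate G C j P =
      Rs (ρ (range m)) (fun s => G s) j C * ((La C j * La C (j + 1)) *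
        (La (Function.update C (j + 1) P) j * La (Function.update C (j + 1) P) (j + 1))) := by
  have g := (G_pos hG hC hj).ne'
  rw [wt_eq hj]
  unfold rate La
  rw [Function.update_self, Function.update_of_ne (show j ≠ j + 1 by omega),
    Function.update_of_ne (show j + 1 + 1 ≠ j + 1 by omega)]
  field_simp

theorem swap (j : ℕ) (H : (ℕ → Finset ℕ) → (ℕ → Finset ℕ) → ℝ) :
    ∑ C ∈ Ch m ρ, ∑ P ∈ Nb m ρ C j, H C (Function.update C (j + 1) P) =
      ∑ C ∈ Ch m ρ, ∑ P ∈ Nb m ρ C j, H (Function.update C (j + 1) P) C := by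
  rw [sum_sigma', sum_sigma']
  refine sum_nbij' (fun p => ⟨Function.update p.1 (j + 1) p.2, p.1 (j + 1)⟩)
    (fun p => ⟨Function.update p.1 (j + 1) p.2, p.1 (j + 1)⟩) ?_ ?_ ?_ ?_ ?_
  · rintro ⟨C, P⟩ hp
    obtain ⟨a, b⟩ := mem_sigma.1 hp
    exact mem_sigma.2 ⟨mem_Nb.1 b, mem_Nb.2 (by simpa using a)⟩
  · rintro ⟨C, P⟩ hp
    obtain ⟨a, b⟩ := mem_sigma.1 hp
    exact mem_sigma.2 ⟨mem_Nb.1 b, mem_Nb.2 (by simpa using a)⟩
  · rintro ⟨C, P⟩ _
    simp
  · rintro ⟨C, P⟩ _
    simp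
  · rintro ⟨C, P⟩ _
    simp

end STEP

open STEP in
theorem st_STEP : St_STEP := by
  intro m ρ h G b B
  refine ⟨fun C hC x => mv_mem h G hC _ _ _, fun hb hB hG => ⟨fun F => ?_, fun u => ?_⟩⟩
  · set D : (ℕ → Finset ℕ) → (ℕ → Finset ℕ) → ℝ := fun x y => F x y - F y x with hD
    have h1 : ∀ j ∈ range (ρ (range m) - 1), ∑ C ∈ Ch m ρ, ∑ P ∈ Nb m ρ C j,
        wt (ρ (range m)) (fun s => G s) C * (rate G C j P * D C (Function.update C (j + 1) P)) =
          0 := fun j hj => by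
      have hj' : j + 2 ≤ ρ (range m) := by have := mem_range.1 hj; omega
      have a := swap (m := m) (ρ := ρ) j fun x y => Rs (ρ (range m)) (fun s => G s) j x *
        ((La x j * La x (j + 1)) * (La y j * La y (j + 1))) * D x y
      have e1 : ∑ C ∈ Ch m ρ, ∑ P ∈ Nb m ρ C j, wt (ρ (range m)) (fun s => G s) C *
          (rate G C j P * D C (Function.update C (j + 1) P)) = _ :=
        Eq.trans (sum_congr rfl fun C hC => sum_congr rfl fun P _ => by
          rw [← mul_assoc, flow hG hC hj']) a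
      have e2 : ∑ C ∈ Ch m ρ, ∑ P ∈ Nb m ρ C j, wt (ρ (range m)) (fun s => G s) C *
          (rate G C j P * D C (Function.update C (j + 1) P)) =
          -∑ C ∈ Ch m ρ, ∑ P ∈ Nb m ρ C j, wt (ρ (range m)) (fun s => G s) C *
          (rate G C j P * D C (Function.update C (j + 1) P)) := by
        refine e1.trans ?_
        simp only [← sum_neg_distrib]
        refine sum_congr rfl fun C hC => sum_congr rfl fun P _ => ?_
        rw [← mul_assoc (wt _ _ _), flow hG hC hj', Rs_upd, hD]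
        ring
      linarith
    have h2 : ∑ C ∈ Ch m ρ, wt (ρ (range m)) (fun s => G s) C *
        Ex (2 * b + B) (fun x => D C (stepM m ρ G b C x)) = 0 := by
      rw [sum_congr rfl fun C hC => by rw [Ex_step h hb hB hC (D C) (sub_self _)]]
      simp only [← mul_div_assoc, ← sum_div, mul_sum]
      rw [sum_comm, sum_eq_zero h1, zero_div]
    rw [← sub_eq_zero, ← sum_sub_distrib, ← h2]
    refine sum_congr rfl fun C _ => ?_
    have e : (fun x => D C (stepM m ρ G b C x)) =
        fun x => F C (stepM m ρ G b C x) + -1 * F (stepM m ρ G b C x) C :=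
      funext fun x => by rw [hD]; ring
    rw [e, Ex_add, Ex_mul]
    ring
  · unfold Dir DirL
    rw [sum_congr rfl (g := fun C => wt (ρ (range m)) (fun s => G s) C *
      ((∑ j ∈ range (ρ (range m) - 1), ∑ P ∈ Nb m ρ C j,
        rate G C j P * (u C - u (Function.update C (j + 1) P)) ^ 2) / 2 ^ (2 * b + B)))
      fun C hC => by rw [Ex_step h hb hB hC (fun y => (u C - u y) ^ 2) (by simp)]]
    simp only [← mul_div_assoc, ← sum_div]
    rw [mul_div_cancel_left₀ _ (by positivity)]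
    simp only [mul_sum]
    rw [sum_comm (s := Ch m ρ)]
    refine sum_le_sum fun j hj => sum_le_sum fun C hC => sum_le_sum fun P hP => ?_
    have hj' : j + 2 ≤ ρ (range m) := by have := mem_range.1 hj; omega
    have hP' := mem_Nb.1 hP
    have a1 := La_ge hC (show j < ρ (range m) by omega)
    have a2 := La_ge hC (show j + 1 < ρ (range m) by omega)
    have a3 := La_ge hP' (show j < ρ (range m) by omega)
    have a4 := La_ge hP' (show j + 1 < ρ (range m) by omega)
    have g := (G_pos hG hC hj').ne'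
    rw [← mul_assoc, flow hG hC hj']
    refine mul_le_mul_of_nonneg_right ?_ (sq_nonneg _)
    have e : wt (ρ (range m)) (fun s => G s) C * G (C (j + 1)).card / (La C j * La C (j + 1)) =
        Rs (ρ (range m)) (fun s => G s) j C := by
      have b1 : La C j ≠ 0 := by linarith
      have b2 : La C (j + 1) ≠ 0 := by linarith
      rw [wt_eq hj']
      field_simp
    rw [e]
    exact le_mul_of_one_le_right (Rs_nonneg hC j) (one_le_mul_of_one_le_of_one_le
      (one_le_mul_of_one_le_of_one_le a1 a2) (one_le_mul_of_one_le_of_one_le a3 a4))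

end Pool.Agent.Lib.FL.A80
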