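import Pool.Agent.Lib.FL.Mat64

namespace Pool.Agent.Lib.FL.H64

open Finset

section Transfer
variable {X : Type} (S : Finset X) (cov : X → X → Prop) (f : X → X → ℝ)

open Classical in
/-- sum over chains of `n` covers of the product of the edge weights -/
noncomputable def tm : ℕ → X → X → ℝ
  | 0, K, T => if K = T then 1 else 0
  | n + 1, K, T => ∑ P ∈ S with cov K P, f K P * tm n P T

variable {S cov}

open Classical in
theorem tm_succ' (hm : ∀ x y, cov x y → x ∈ S ∧ y ∈ S) (n : ℕ) : ∀ K T,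
    tm S cov f (n + 1) K T = ∑ H ∈ S with cov H T, tm S cov f n K H * f H T := by
  induction n with
  | zero =>
    intro K T
    simp only [tm, mul_ite, mul_one, mul_zero, ite_mul, one_mul, zero_mul, sum_ite_eq',
      sum_ite_eq, mem_filter]
    exact if_congr ⟨fun h => ⟨(hm _ _ h.2).1, h.2⟩, fun h => ⟨(hm _ _ h.2).2, h.2⟩⟩ rfl rfl
  | succ n ih =>
    intro K T
    have e : ∀ m K T, tm S cov f (m + 1) K T = ∑ P ∈ S with cov K P, f K P * tm S cov f m P T :=
      fun _ _ _ => rfl
    rw [e, sum_congr rfl (fun P _ => by rw [ih, mul_sum]), sum_comm]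
    refine sum_congr rfl fun H _ => ?_
    rw [e, sum_mul]
    exact sum_congr rfl fun P _ => by ring

theorem sum_chain (hm : ∀ x y, cov x y → x ∈ S ∧ y ∈ S) (n : ℕ) : ∀ (K T : X)
    (Ch : Finset (ℕ → X)), (∀ C, C ∈ Ch ↔ C 0 = K ∧ (∀ i, n ≤ i → C i = T) ∧
      ∀ i < n, cov (C i) (C (i + 1))) →
    ∑ C ∈ Ch, ∏ i ∈ range n, f (C i) (C (i + 1)) = tm S cov f n K T := by
  classical
  induction n with
  | zero =>
    intro K T Ch h
    simp only [range_zero, prod_empty, sum_const, nsmul_eq_mul, mul_one, tm]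
    split_ifs with e
    · have : Ch = {fun _ => K} := by
        ext C
        rw [h, mem_singleton]
        constructor
        · rintro ⟨_, a, _⟩
          exact funext fun i => (a i (Nat.zero_le _)).trans e.symm
        · rintro rfl
          exact ⟨rfl, fun _ _ => e, fun _ hi => by omega⟩
      rw [this, card_singleton, Nat.cast_one]
    · have : Ch = ∅ := eq_empty_of_forall_notMem fun C hC =>
        e (((h C).1 hC).1.symm.trans (((h C).1 hC).2.1 0 le_rfl))
      rw [this, card_empty, Nat.cast_zero]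
  | succ n ih =>
    intro K T Ch h
    rw [tm, ← sum_fiberwise_of_maps_to (s := Ch) (t := S.filter (cov K)) (g := fun C => C 1)
      (fun C hC => by
        obtain ⟨a, _, c⟩ := (h C).1 hC
        have := c 0 (by omega)
        rw [a] at this
        exact mem_filter.2 ⟨(hm _ _ this).2, this⟩)]
    refine sum_congr (by congr) fun P hP => ?_
    have hP' := (mem_filter.1 hP).2
    rw [← ih P T ((Ch.filter fun C => C 1 = P).image fun C i => C (i + 1)), sum_image, mul_sum]
    · refine sum_congr rfl fun C hC => ?_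
      obtain ⟨hC, e⟩ := mem_filter.1 hC
      rw [prod_range_succ', ((h C).1 hC).1, zero_add, e, mul_comm]
    · intro C hC D hD e
      funext i
      cases i with
      | zero => rw [((h C).1 (mem_filter.1 hC).1).1, ((h D).1 (mem_filter.1 hD).1).1]
      | succ i => exact congrFun e i
    · intro D
      rw [mem_image]
      constructor
      · rintro ⟨C, hC, rfl⟩
        obtain ⟨hC, e⟩ := mem_filter.1 hC
        obtain ⟨_, b, c⟩ := (h C).1 hC
        exact ⟨e, fun i hi => b _ (by omega), fun i hi => c _ (by omega)⟩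
      · rintro ⟨a, b, c⟩
        refine ⟨fun i => Nat.casesOn i K D, mem_filter.2 ⟨(h _).2 ⟨rfl, ?_, ?_⟩, a⟩, rfl⟩
        · rintro (_ | i) hi
          · omega
          · exact b i (by omega)
        · rintro (_ | i) hi
          · simpa [a] using hP'
          · exact c i (by omega)

end Transfer

variable {ι : Type} [DecidableEq ι] {rk : Finset ι → ℕ} {E : Finset ι}

theorem cov_mem (x y : Finset ι) (h : Cov rk E x y) : x ∈ Fl rk E ∧ y ∈ Fl rk E :=
  ⟨mem_Fl.2 h.1, mem_Fl.2 h.2.1⟩

/-- the greedy chain of a random order: the forward weights sum to one -/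
theorem IsRk.tm_fwd (h : IsRk rk) (n : ℕ) : ∀ K, Flat rk E K → rk E = rk K + n →
    tm (Fl rk E) (Cov rk E) (fun K P => ((P.card : ℝ) - K.card) / (E.card - K.card)) n K E
      = 1 := by
  classical
  induction n with
  | zero => intro K hK hr; rw [tm, if_pos (h.flat_eq hK flat_top hK.1 hr.le)]
  | succ n ih =>
    intro K hK hr
    have hne : K ≠ E := by rintro rfl; omega
    have hlt : (K.card : ℝ) < E.card := by
      exact_mod_cast card_lt_card (ssubset_of_subset_of_ne hK.1 hne)
    rw [tm, sum_congr rfl (g := fun P => ((P.card : ℝ) - K.card) / (E.card - K.card))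
      (fun P hP => by
        have hc := (mem_filter.1 hP).2
        rw [ih P hc.2.1 (by rw [hc.2.2.2]; omega), mul_one]), ← sum_div,
      h.sum_cov hK flat_top hK.1 _ (fun P => by
        rw [mem_filter]
        exact ⟨fun a => ⟨a.2, a.2.2.1.1⟩, fun a => ⟨mem_Fl.2 a.1.2.1, a.1⟩⟩),
      div_self (by linarith)]

/-- signed count of the spanning subsets of `F`, i.e. `T_F(1,0)` -/
noncomputable def mu (rk : Finset ι → ℕ) (F : Finset ι) : ℝ :=
  ∑ A ∈ F.powerset, if rk A = rk F then (-1 : ℝ) ^ (A.card + rk F) else 0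

theorem sum_erase_pairs (T : Finset ι) (g : Finset ι → ι → ℝ) :
    ∑ A ∈ T.powerset, ∑ e ∈ A, g (A.erase e) e = ∑ B ∈ T.powerset, ∑ e ∈ T \ B, g B e := by
  rw [sum_sigma', sum_sigma']
  refine sum_bij' (fun p _ => ⟨p.1.erase p.2, p.2⟩) (fun p _ => ⟨insert p.2 p.1, p.2⟩)
    ?_ ?_ ?_ ?_ (fun _ _ => rfl)
  · rintro ⟨A, e⟩ hp
    simp only [mem_sigma, mem_powerset, mem_sdiff] at hp ⊢
    exact ⟨(erase_subset _ _).trans hp.1, hp.1 hp.2, notMem_erase _ _⟩
  · rintro ⟨B, e⟩ hp
    simp only [mem_sigma, mem_powerset, mem_sdiff] at hp ⊢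
    exact ⟨insert_subset hp.2.1 hp.1, mem_insert_self _ _⟩
  · rintro ⟨A, e⟩ hp
    simp only [mem_sigma, mem_powerset] at hp
    simp only [insert_erase hp.2]
  · rintro ⟨B, e⟩ hp
    simp only [mem_sigma, mem_powerset, mem_sdiff] at hp
    simp only [erase_insert hp.2.2]

open Classical in
/-- Weisner's theorem, averaged over the elements -/
theorem IsRk.weisner (h : IsRk rk) {T : Finset ι} (hT : Flat rk E T) :
    T.card * mu rk T = ∑ H ∈ Fl rk E with Cov rk E H T, mu rk H * (T.card - H.card) := by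
  have h1 : ∑ A ∈ T.powerset, (A.card : ℝ) * (if rk A = rk T then (-1 : ℝ) ^ (A.card + rk T) else 0)
      = ∑ B ∈ T.powerset, ∑ e ∈ T \ B,
        if rk (insert e B) = rk T then -(-1 : ℝ) ^ (B.card + rk T) else 0 := by
    rw [← sum_erase_pairs]
    refine sum_congr rfl fun A _ => ?_
    rw [← nsmul_eq_mul, ← sum_const]
    refine sum_congr rfl fun e he => ?_
    rw [insert_erase he, ← card_erase_add_one he]
    refine if_congr Iff.rfl (by ring) rfl
  have h2 : ∀ B ∈ T.powerset, ((T.card : ℝ) - B.card) *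
      (if rk B = rk T then (-1 : ℝ) ^ (B.card + rk T) else 0) = ∑ e ∈ T \ B,
        if rk B = rk T then (-1 : ℝ) ^ (B.card + rk T) else 0 := fun B hB => by
    rw [sum_const, nsmul_eq_mul, cast_card_sdiff (mem_powerset.1 hB)]
  have h3 : T.card * mu rk T = ∑ B ∈ T.powerset, ∑ e ∈ T \ B,
      if rk B + 1 = rk T ∧ e ∉ cl rk E B then -(-1 : ℝ) ^ (B.card + rk T) else 0 := by
    have : T.card * mu rk T = ∑ A ∈ T.powerset, (A.card : ℝ) *
        (if rk A = rk T then (-1 : ℝ) ^ (A.card + rk T) else 0) + ∑ B ∈ T.powerset,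
        ((T.card : ℝ) - B.card) * (if rk B = rk T then (-1 : ℝ) ^ (B.card + rk T) else 0) := by
      rw [mu, mul_sum, ← sum_add_distrib]
      exact sum_congr rfl fun A _ => by ring
    rw [this, h1, sum_congr rfl h2, ← sum_add_distrib]
    refine sum_congr rfl fun B hB => ?_
    rw [← sum_add_distrib]
    refine sum_congr rfl fun e he => ?_
    have hB' := mem_powerset.1 hB
    have he' := mem_sdiff.1 he
    have a1 := h.ins B e
    have a2 := h.le_ins B e
    have a3 := h.mono _ _ (insert_subset he'.1 hB')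
    have a4 : e ∈ cl rk E B ↔ rk (insert e B) = rk B := by
      rw [mem_cl]; exact and_iff_right (hT.1 he'.1)
    simp only [a4]
    split_ifs <;> first | omega | ring
  have h4 : ∀ H ∈ (Fl rk E).filter (fun H => Cov rk E H T), mu rk H * (T.card - H.card) =
      ∑ B ∈ T.powerset, if rk B + 1 = rk T ∧ cl rk E B = H then
        -(-1 : ℝ) ^ (B.card + rk T) * (T.card - H.card) else 0 := by
    intro H hH
    have hc := (mem_filter.1 hH).2
    rw [mu, sum_mul, ← sum_subset (powerset_mono.2 hc.2.2.1)]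
    · refine sum_congr rfl fun B hB => ?_
      have hB' := mem_powerset.1 hB
      rw [ite_mul, zero_mul, hc.2.2.2]
      refine if_congr ⟨fun a => ⟨by omega, h.cl_eq hc.1 hB' a.ge⟩, fun a => by omega⟩
        (by ring) rfl
    · intro B hB hB'
      rw [if_neg]
      rintro ⟨_, rfl⟩
      exact hB' (mem_powerset.2 (subset_cl ((mem_powerset.1 hB).trans hT.1)))
  rw [h3, sum_congr rfl h4, sum_comm]
  refine sum_congr rfl fun B hB => ?_
  have hB' := mem_powerset.1 hB
  have hBE := hB'.trans hT.1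
  by_cases hb : rk B + 1 = rk T
  · have hc : Cov rk E (cl rk E B) T :=
      ⟨h.flat_cl hBE, hT, h.cl_min hT hB', by rw [h.rk_cl hBE, hb]⟩
    simp only [hb, true_and]
    rw [sum_ite_eq, if_pos (mem_filter.2 ⟨mem_Fl.2 hc.1, hc⟩), ← sum_filter, sum_const,
      nsmul_eq_mul, mul_comm, ← cast_card_sdiff hc.2.2.1]
    congr 3
    ext e
    simp only [mem_filter, mem_sdiff]
    exact ⟨fun a => ⟨a.1.1, a.2⟩, fun a => ⟨⟨a.1, fun b => a.2 (subset_cl hBE b)⟩, a.2⟩⟩
  · simp [hb]

omit [DecidableEq ι] in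
theorem mu_empty : mu rk ∅ = (-1) ^ rk ∅ := by simp [mu]

/-- the backward weights sum to the Möbius invariant -/
theorem IsRk.tm_bwd (h : IsRk rk) (h0 : Flat rk E ∅) (n : ℕ) : ∀ T, Flat rk E T → rk T = n →
    tm (Fl rk E) (Cov rk E) (fun K P => ((P.card : ℝ) - K.card) / P.card) n ∅ T = mu rk T := by
  classical
  induction n with
  | zero =>
    intro T hT hr
    have e : ∅ = T := h.flat_eq h0 hT (empty_subset _) (by omega)
    rw [tm, if_pos e, ← e, mu_empty, h.empty, pow_zero]
  | succ n ih =>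
    intro T hT hr
    have hc : (0 : ℝ) < T.card := by
      have := h.le_card T
      exact_mod_cast (by omega : 0 < T.card)
    rw [tm_succ' _ cov_mem, eq_comm, ← mul_right_inj' hc.ne', h.weisner hT, mul_sum]
    refine sum_congr (by congr) fun H hH => ?_
    have hH' := (mem_filter.1 hH).2
    rw [ih H hH'.1 (by have := hH'.2.2.2; omega)]
    field_simp

/-- chains of flats from `∅` to `E` -/
def IsChain (rk : Finset ι → ℕ) (E : Finset ι) (C : ℕ → Finset ι) : Prop :=
  C 0 = ∅ ∧ (∀ i, rk E ≤ i → C i = E) ∧ ∀ i < rk E, Cov rk E (C i) (C (i + 1))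

theorem IsRk.chain_fwd (h : IsRk rk) (h0 : Flat rk E ∅) (Ch : Finset (ℕ → Finset ι))
    (hCh : ∀ C, C ∈ Ch ↔ IsChain rk E C) :
    ∑ C ∈ Ch, ∏ i ∈ range (rk E),
      (((C (i + 1)).card : ℝ) - (C i).card) / (E.card - (C i).card) = 1 := by
  rw [sum_chain (fun K P : Finset ι => ((P.card : ℝ) - K.card) / (E.card - K.card)) cov_mem
    _ _ _ Ch hCh, h.tm_fwd _ _ h0 (by rw [h.empty, zero_add])]

theorem IsRk.chain_bwd (h : IsRk rk) (h0 : Flat rk E ∅) (Ch : Finset (ℕ → Finset ι))
    (hCh : ∀ C, C ∈ Ch ↔ IsChain rk E C) :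
    ∑ C ∈ Ch, ∏ i ∈ range (rk E),
      (((C (i + 1)).card : ℝ) - (C i).card) / (C (i + 1)).card = mu rk E := by
  rw [sum_chain (fun K P : Finset ι => ((P.card : ℝ) - K.card) / P.card) cov_mem
    _ _ _ Ch hCh, h.tm_bwd h0 _ _ flat_top rfl]

/-- with a loop the Möbius invariant vanishes -/
theorem IsRk.mu_loop (h : IsRk rk) {e : ι} (he : e ∈ E) (hl : rk {e} = 0) : mu rk E = 0 := by
  rw [mu, ← insert_erase he, sum_powerset_insert (notMem_erase _ _), ← sum_add_distrib]
  refine sum_eq_zero fun A hA => ?_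
  have h1 : rk (insert e A) = rk A := h.ins_of_sub (empty_subset A) (by
    rw [h.empty]; exact hl)
  have h2 : e ∉ A := fun a => notMem_erase e E (mem_powerset.1 hA a)
  rw [h1, card_insert_of_notMem h2]
  split_ifs <;> ring

theorem IsRk.flat_empty (h : IsRk rk) (hl : ∀ e ∈ E, rk {e} ≠ 0) : Flat rk E ∅ :=
  ⟨empty_subset _, fun e he a => (hl e he (by rw [h.empty] at a; exact a)).elim⟩

/-- `mu` is the Tutte polynomial at `(1, 0)` -/
theorem IsRk.mu_eq (h : IsRk rk) (E : Finset ι) : mu rk E =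
    ∑ A ∈ E.powerset, ((1 : ℝ) - 1) ^ (rk E - rk A) * ((0 : ℝ) - 1) ^ (A.card - rk A) := by
  refine sum_congr rfl fun A hA => ?_
  have h1 := h.mono _ _ (mem_powerset.1 hA)
  have h2 := h.le_card A
  split_ifs with e
  · rw [e, Nat.sub_self, pow_zero, one_mul, zero_sub, ← e]
    obtain ⟨c, hc⟩ := Nat.exists_eq_add_of_le h2
    rw [hc, Nat.add_sub_cancel_left, show rk A + c + rk A = 2 * rk A + c by ring, pow_add,
      pow_mul]
    norm_num
  · rw [sub_self, zero_pow (by omega), zero_mul]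

end Pool.Agent.Lib.FL.H64
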