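import Pool.Agent.Lib.FL.A80
import Pool.Agent.Lib.FL.Zid64

namespace Pool.Agent.Lib.FL.A80

open Finset
open Pool.Agent.Lib.FL.H64

theorem tut_eq_mu {m : ℕ} {ρ : Finset ℕ → ℕ} (h : IsRk ρ) :
    ((tut m ρ 1 0 : ℚ) : ℝ) = mu ρ (range m) := by
  rw [h.mu_eq, tut]
  push_cast
  rfl

theorem mem_Ch_iff {m : ℕ} {ρ : Finset ℕ → ℕ} (h : IsRk ρ) (h0 : Flat ρ (range m) ∅)
    (C : ℕ → Finset ℕ) : C ∈ Ch m ρ ↔ IsChain ρ (range m) C := by
  have e : cl ρ (range m) ∅ = ∅ := h.cl_eq h0 Subset.rfl le_rfl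
  rw [mem_Ch]
  exact ⟨fun a => ⟨a.bot.trans e, a.top, a.cov⟩, fun a => ⟨a.1.trans e.symm, a.2.1, a.2.2⟩⟩

/-- both partition functions explicitly -/
theorem Z_ends {m : ℕ} {ρ : Finset ℕ → ℕ} (h : IsRk ρ) (hl : ¬∃ e ∈ range m, ρ {e} = 0) :
    Z m ρ (fun s => s) = (if ρ (range m) = 0 then (1 : ℝ) else m) * mu ρ (range m) ∧
      Z m ρ (fun s => m - s) = if ρ (range m) = 0 then (1 : ℝ) else m := by
  have h0 : Flat ρ (range m) ∅ := h.flat_empty fun e he a => hl ⟨e, he, a⟩
  have h1 := h.chain_fwd h0 _ (mem_Ch_iff h h0)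
  have h2 := h.chain_bwd h0 _ (mem_Ch_iff h h0)
  constructor
  · rw [← h2, mul_sum, Z]
    refine sum_congr rfl fun C hC => ?_
    have ht := ((mem_Ch_iff h h0 C).1 hC).2.1 _ le_rfl
    have hm := h.le_card (range m)
    rw [card_range] at hm
    rw [wt, prod_div_distrib]
    rcases hr : ρ (range m) with _ | n
    · simp
    · rw [hr] at ht hm
      have hm' : (m : ℝ) ≠ 0 := by exact_mod_cast (by omega : m ≠ 0)
      rw [if_neg (by omega), prod_range_succ (fun i => ((C (i + 1)).card : ℝ)), ht, card_range,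
        prod_Ico_eq_prod_range, Nat.add_sub_cancel]
      simp only [La, add_comm 1]
      rw [mul_comm _ (m : ℝ), ← mul_div_assoc, mul_div_mul_left _ _ hm']
  · refine Eq.trans ?_ ((congrArg ((if ρ (range m) = 0 then (1 : ℝ) else m) * ·) h1).trans
      (mul_one _))
    rw [mul_sum, Z]
    refine sum_congr rfl fun C hC => ?_
    have hb := ((mem_Ch_iff h h0 C).1 hC).1
    have hm := h.le_card (range m)
    rw [card_range] at hm
    rw [wt, prod_div_distrib, card_range]
    rcases hr : ρ (range m) with _ | n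
    · simp
    · rw [hr] at hm
      have hm' : (m : ℝ) ≠ 0 := by exact_mod_cast (by omega : m ≠ 0)
      rw [if_neg (by omega), prod_range_succ' (fun i => (m : ℝ) - (C i).card), hb, card_empty,
        prod_Ico_eq_prod_range, Nat.add_sub_cancel]
      simp only [La, add_comm 1, Nat.cast_zero, sub_zero]
      rw [mul_comm _ (m : ℝ), ← mul_div_assoc, mul_div_mul_left _ _ hm']

theorem st_Z : St_Z := by
  intro m ρ h
  refine ⟨fun ⟨e, he, hl⟩ => ?_, fun hl => ?_⟩
  · have := tut_eq_mu (m := m) h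
    rw [h.mu_loop he hl] at this
    exact_mod_cast this
  · obtain ⟨h1, h2⟩ := Z_ends h hl
    rw [h1, h2, tut_eq_mu h]
    refine ⟨mul_comm _ _, ?_⟩
    split_ifs
    · linarith [(Nat.cast_nonneg m : (0 : ℝ) ≤ m)]
    · linarith

theorem exists_range64 {ρ : Finset ℕ → ℕ} (h : IsRk ρ) (i : ℕ) (m : ℕ) :
    i ≤ ρ (range m) → ∃ j ≤ m, ρ (range j) = i := by
  induction m with
  | zero => intro hi; exact ⟨0, le_rfl, by rw [range_zero, h.empty] at hi ⊢; omega⟩
  | succ m ih =>
    intro hi
    by_cases hm : i ≤ ρ (range m)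
    · obtain ⟨j, hj, e⟩ := ih hm
      exact ⟨j, by omega, e⟩
    · have := h.ins (range m) m
      rw [← range_add_one] at this
      exact ⟨m + 1, le_rfl, by omega⟩

theorem initM_eq64 {m : ℕ} {ρ : Finset ℕ → ℕ} (h : IsRk ρ) {j : ℕ} (hj : j ≤ m) :
    initM m ρ (ρ (range j)) = cl ρ (range m) (range j) := by
  have hs : range j ⊆ range m := range_subset_range.2 hj
  unfold initM
  split_ifs with hr
  · exact (h.cl_eq flat_top hs hr).symm
  · ext e
    simp only [mem_filter, mem_cl, filter_nonempty_iff]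
    refine and_congr_right fun he => ⟨?_, fun a => ⟨j, mem_range.2 (by omega), rfl, a⟩⟩
    rintro ⟨j', hj', a, b⟩
    have hs' : range j' ⊆ range m := range_subset_range.2 (by have := mem_range.1 hj'; omega)
    rcases le_total j' j with c | c
    · exact h.ins_of_sub (range_subset_range.2 c) (b.trans a.symm)
    · have := h.mono _ _ (insert_subset_insert e (range_subset_range.2 c))
      have := h.le_ins (range j) e
      omega

theorem st_CH64 : St_CH := by
  intro m ρ h
  refine ⟨mem_Ch.2 ⟨?_, fun i hi => if_pos hi, fun i hi => ?_⟩, fun C hC => ?_⟩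
  · have := initM_eq64 (m := m) h (Nat.zero_le m)
    rwa [range_zero, h.empty] at this
  · obtain ⟨j, hj, e⟩ := exists_range64 h i m hi.le
    obtain ⟨j', hj', e'⟩ := exists_range64 h (i + 1) m hi
    have hs : range j ⊆ range m := range_subset_range.2 hj
    have hs' : range j' ⊆ range m := range_subset_range.2 hj'
    have hjj : j ≤ j' := by
      by_contra c
      have := h.mono _ _ (range_subset_range.2 (not_le.1 c).le)
      omega
    have a := initM_eq64 h hj
    have a' := initM_eq64 h hj'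
    rw [e] at a
    rw [e'] at a'
    rw [a, a']
    exact ⟨h.flat_cl hs, h.flat_cl hs', h.cl_min (h.flat_cl hs')
      ((range_subset_range.2 hjj).trans (subset_cl hs')), by rw [h.rk_cl hs, h.rk_cl hs', e, e']⟩
  · have hC := mem_Ch.1 hC
    refine ⟨fun i hi => (hC.cov i hi).card_lt, fun i h0 hi => ⟨?_, ?_⟩⟩
    · obtain ⟨k, rfl⟩ : ∃ k, i = k + 1 := ⟨i - 1, by omega⟩
      have := (hC.cov k (by omega)).card_lt
      omega
    · have h1 := (hC.cov i hi).card_lt
      have h2 := card_le_card (hC.sub (i + 1))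
      rw [card_range] at h2
      omega

end Pool.Agent.Lib.FL.A80
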