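import Pool.Agent.Lib.FL.Defs

/-! Chains of flats: the statements of the mathematical rows. -/

namespace Pool.Agent.Lib.FL

open Finset

/-- GEO: the lattice facts follow from the rank axioms -/
def St_GEO : Prop := ∀ (ρ : Finset ℕ → ℕ) (E : Finset ℕ), IsRk ρ → Geo ρ E

/-- WIN: the inequality in a weighted linear space (points, lines, incidence `I`) -/
def St_WIN : Prop := ∀ (Pt Ln : Finset (Finset ℕ)) (I : Finset ℕ → Finset ℕ → Prop)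
  [DecidableRel I] (a s : Finset ℕ → ℝ) (Λ : ℝ) (u x y : Finset ℕ → Finset ℕ → ℝ),
  (∀ P ∈ Pt, ∀ Q ∈ Ln, I P Q → 0 < a P ∧ a P < s Q ∧ s Q < Λ) →
  (∀ Q ∈ Ln, ∑ P ∈ Pt.filter (I · Q), a P = s Q) →
  (∀ P ∈ Pt, ∑ Q ∈ Ln.filter (I P ·), (s Q - a P) = Λ - a P) →
  (∀ P ∈ Pt, ∀ P' ∈ Pt, P ≠ P' → (Ln.filter fun Q => I P Q ∧ I P' Q).card = 1) →
  (∀ P Q, x P Q = u P Q - (∑ P' ∈ Pt.filter (I · Q), u P' Q) / (Pt.filter (I · Q)).card) →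
  (∀ P Q, y P Q = u P Q - (∑ Q' ∈ Ln.filter (I P ·), u P Q') / (Ln.filter (I P ·)).card) →
  0 ≤ ∑ P ∈ Pt, ∑ Q ∈ Ln.filter (I P ·), 1 / (s Q - a P) *
    ((Λ - s Q) / s Q * x P Q ^ 2 + a P / (Λ - a P) * y P Q ^ 2 + 2 * x P Q * y P Q)

/-- the elementary properties of the generator -/
structure LFacts (ρ : Finset ℕ → ℕ) (E : Finset ℕ) (g : ℕ → ℝ) : Prop where
  add : ∀ C K (u v : Ch → ℝ), Lop ρ E g C K (fun D => u D + v D) = Lop ρ E g C K u + Lop ρ E g C K v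
  mul : ∀ C K (c : ℝ) (u : Ch → ℝ), Lop ρ E g C K (fun D => c * u D) = c * Lop ρ E g C K u
  loc : ∀ n K (u v : Ch → ℝ), (∀ D ∈ Om ρ E n K, u D = v D) → ∀ C ∈ Om ρ E n K,
    Lop ρ E g C K u = Lop ρ E g C K v
  const : ∀ n K (c : ℝ), ∀ C ∈ Om ρ E n K, Lop ρ E g C K (fun _ => c) = 0
  symm : ∀ n K (u v : Ch → ℝ), S ρ E g n K (fun C => v C * Lop ρ E g C K u) =
    S ρ E g n K (fun C => u C * Lop ρ E g C K v)
  psd : ∀ n K (u : Ch → ℝ), 0 ≤ S ρ E g n K (fun C => u C * Lop ρ E g C K u)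
  cmp : ∀ n K (u : Ch → ℝ), 2 * S ρ E g n K (fun C => u C * Lop ρ E g C K u) ≤
    S ρ E g n K (fun C => Nop ρ E g C K fun D => (u D - u C) ^ 2)

/-- LSYM -/
def St_LSYM : Prop := ∀ (ρ : Finset ℕ → ℕ) (E : Finset ℕ) (g : ℕ → ℝ), Geo ρ E →
  (∀ s, 0 < s → s ≤ E.card → 0 < g s) → LFacts ρ E g

/-- the elementary properties of the moves of the simulated walk -/
structure NFacts (ρ : Finset ℕ → ℕ) (E : Finset ℕ) (g : ℕ → ℝ) : Prop where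
  add : ∀ C K (u v : Ch → ℝ), Nop ρ E g C K (fun D => u D + v D) = Nop ρ E g C K u + Nop ρ E g C K v
  mul : ∀ C K (c : ℝ) (u : Ch → ℝ), Nop ρ E g C K (fun D => c * u D) = c * Nop ρ E g C K u
  pos : ∀ n K (u : Ch → ℝ), (∀ D ∈ Om ρ E n K, 0 ≤ u D) → ∀ C ∈ Om ρ E n K, 0 ≤ Nop ρ E g C K u
  symm : ∀ n K (F : Ch → Ch → ℝ), S ρ E g n K (fun C => Nop ρ E g C K (F C)) =
    S ρ E g n K (fun C => Nop ρ E g C K fun D => F D C)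
  bd : ∀ n K (b : ℝ), Flat ρ E K → 0 ≤ b → (∀ s, s ≤ E.card → g s ≤ b) → ∀ C ∈ Om ρ E n K,
    Nop ρ E g C K (fun _ => 1) ≤ n * (b * E.card ^ 2)

/-- NOP -/
def St_NOP : Prop := ∀ (ρ : Finset ℕ → ℕ) (E : Finset ℕ) (g : ℕ → ℝ), Geo ρ E →
  (∀ s, 0 < s → s ≤ E.card → 0 < g s) → NFacts ρ E g

/-- BOCH: the Bochner inequality -/
def St_BOCH : Prop := ∀ (ρ : Finset ℕ → ℕ) (E : Finset ℕ) (g : ℕ → ℝ) (γ : ℝ), Geo ρ E →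
  Conc g E.card γ → ∀ n K (u : Ch → ℝ), Flat ρ E K →
    γ * S ρ E g n K (fun C => u C * Lop ρ E g C K u) ≤ S ρ E g n K (fun C => Lop ρ E g C K u ^ 2)

/-- CONN: functions of zero energy are constant -/
def St_CONN : Prop := ∀ (ρ : Finset ℕ → ℕ) (E : Finset ℕ) (g : ℕ → ℝ), Geo ρ E →
  (∀ s, 0 < s → s ≤ E.card → 0 < g s) → ∀ n K (u : Ch → ℝ), Flat ρ E K → ρ K + n = ρ E →
    S ρ E g n K (fun C => u C * Lop ρ E g C K u) = 0 →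
      ∀ C ∈ Om ρ E n K, ∀ D ∈ Om ρ E n K, u C = u D

/-- GAP: the Poincaré inequality -/
def St_GAP : Prop := ∀ (ρ : Finset ℕ → ℕ) (E : Finset ℕ) (g : ℕ → ℝ) (γ : ℝ), Geo ρ E →
  Conc g E.card γ → 0 ≤ γ → ∀ n K (u : Ch → ℝ), Flat ρ E K → ρ K + n = ρ E → S ρ E g n K u = 0 →
    2 * γ * S ρ E g n K (fun C => u C ^ 2) ≤
      S ρ E g n K (fun C => Nop ρ E g C K fun D => (u D - u C) ^ 2)

/-- MIX: mixing of a lazy reversible walk from a Poincaré inequality -/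
def St_MIX : Prop := ∀ (X : Type) (Ω : Finset X) (w : X → ℝ) (N : X → (X → ℝ) → ℝ) (γ : ℝ)
  (P : (X → ℝ) → X → ℝ), (∀ x ∈ Ω, 0 < w x) →
  (∀ x (u v : X → ℝ), N x (fun z => u z + v z) = N x u + N x v) →
  (∀ x (c : ℝ) (u : X → ℝ), N x (fun z => c * u z) = c * N x u) →
  (∀ u : X → ℝ, (∀ z ∈ Ω, 0 ≤ u z) → ∀ x ∈ Ω, 0 ≤ N x u) →
  (∀ F : X → X → ℝ, ∑ x ∈ Ω, w x * N x (F x) = ∑ x ∈ Ω, w x * N x fun z => F z x) →
  (∀ x ∈ Ω, N x (fun _ => 1) ≤ 1 / 2) → γ ≤ 1 →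
  (∀ u : X → ℝ, ∑ x ∈ Ω, w x * u x = 0 →
    2 * γ * ∑ x ∈ Ω, w x * u x ^ 2 ≤ ∑ x ∈ Ω, w x * N x fun z => (u z - u x) ^ 2) →
  (∀ (f : X → ℝ) x, P f x = f x + N x fun z => f z - f x) →
  ∀ (f : X → ℝ) (μ : ℝ), ∑ x ∈ Ω, w x * (f x - μ) = 0 → ∀ t, ∀ x ∈ Ω,
    w x * (P^[t] f x - μ) ^ 2 ≤ (1 - γ) ^ t * ∑ z ∈ Ω, w z * (f z - μ) ^ 2

/-- REC: the recurrence of the signed sums, and their sign -/
def St_REC : Prop := (∀ (ρ : Finset ℕ → ℕ) (E : Finset ℕ) (k : ℕ) (L : Finset ℕ), Geo ρ E →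
  Flat ρ E L → ((k : ℝ) + L.card) * phi ρ k L =
    ∑ H ∈ E.powerset.filter fun H => Flat ρ E H ∧ L ∈ cov ρ E H,
      ((L.card : ℝ) - H.card) * phi ρ k H + if ρ L = 0 then (k : ℝ) else 0) ∧
  ∀ (ρ : Finset ℕ → ℕ) (A : Finset ℕ), Geo ρ A → 0 ≤ phi ρ 0 A

/-- ZID: the two chain sums with known value -/
def St_ZID : Prop := ∀ (ρ : Finset ℕ → ℕ) (M : ℕ), Geo ρ (range M) → 0 < ρ (range M) →
  S ρ (range M) (gA M) (ρ (range M)) (cl ρ (range M) ∅) (fun _ => 1) =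
    (M : ℝ) - (cl ρ (range M) ∅).card ∧
  ∀ k : ℕ, ((k : ℝ) + M) * phi ρ k (range M) =
    (if k + (cl ρ (range M) ∅).card = 0 then 1 else (k : ℝ) / (k + (cl ρ (range M) ∅).card)) *
      ZB ρ M k

/-- WB: crude bounds on weights and change of the weight function -/
def St_WB : Prop := ∀ (ρ : Finset ℕ → ℕ) (E : Finset ℕ), Geo ρ E → ∀ (n : ℕ) (K : Finset ℕ),
  Flat ρ E K →
  (∀ C ∈ Om ρ E n K, ∀ P ∈ C, 0 < P.card ∧ P.card ≤ E.card) ∧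
  (∀ g : ℕ → ℝ, (∀ s, 0 < s → s ≤ E.card → 1 ≤ g s) →
    S ρ E g n K (fun _ => 1) ≤ (E.card : ℝ) ^ n) ∧
  (∀ (g : ℕ → ℝ) (b : ℝ), (∀ s, 0 < s → s ≤ E.card → 0 < g s ∧ g s ≤ b) →
    ∀ C ∈ Om ρ E n K, 1 ≤ wt g K C * b ^ n) ∧
  (∀ g g' : ℕ → ℝ, (∀ s, 0 < s → s ≤ E.card → 0 < g s) → ∀ C ∈ Om ρ E n K,
    wt g' K C = wt g K C * ((C.map fun P => g P.card).prod / (C.map fun P => g' P.card).prod)) ∧
  (∀ (g g' : ℕ → ℝ) (θ : ℝ), 0 ≤ θ → n * θ ≤ 1 / 2 →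
    (∀ s, 0 < s → s ≤ E.card → 0 < g' s ∧ |g s - g' s| ≤ θ * g' s) → ∀ C ∈ Om ρ E n K,
    |(C.map fun P => g P.card).prod / (C.map fun P => g' P.card).prod - 1| ≤ 2 * (n * θ)) ∧
  (∀ (g g' : ℕ → ℝ) (c : ℝ), ρ K + n = ρ E → 0 < n → c ≠ 0 → g' E.card = g E.card →
    (∀ s, s < E.card → g' s = c * g s) →
    c ^ (n - 1) * S ρ E g' n K (fun _ => 1) = S ρ E g n K (fun _ => 1))

/-- THIN: the signed sum of the extended truncation approximates the Tutte polynomial at `(1, y)` -/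
def St_THIN : Prop := ∀ (ρ : Finset ℕ → ℕ) (m j a b J : ℕ), IsRk ρ → j ≤ ρ (range m) → 0 < a →
  0 < J → ∀ c : ℝ, c = ((b * J).factorial * (a * J).factorial * (b * J + a * J) ^ m : ℕ) /
      ((b * J + a * J + m).factorial : ℕ) * ((a : ℝ) / (a + b)) ^ j →
  0 ≤ T1 ρ m j ((b : ℝ) / (a + b)) ∧
  c * T1 ρ m j ((b : ℝ) / (a + b)) ≤ phi (ext ρ m j (a * J)) (b * J) (range (m + a * J)) ∧
  phi (ext ρ m j (a * J)) (b * J) (range (m + a * J)) ≤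
    (1 + (m : ℝ) / J) ^ m * (c * T1 ρ m j ((b : ℝ) / (a + b)))

/-- TUT: the constructions are rank functions; truncation and duality formulas -/
def St_TUT : Prop := ∀ (ρ : Finset ℕ → ℕ) (m : ℕ), IsRk ρ →
  (∀ j N, IsRk (ext ρ m j N)) ∧ IsRk (dual ρ m) ∧
  ∀ x y : ℝ, Tut (dual ρ m) m y x = Tut ρ m x y ∧
    Tut ρ m x y = ∑ j ∈ range (ρ (range m) + 1), (x - 1) ^ (ρ (range m) - j) *
      (1 + if j = 0 then 0 else (1 - y) * (x - 1)) * T1 ρ m j y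

end Pool.Agent.Lib.FL
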