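import Pool.Agent.Lib.FL.Blue
import Pool.Agent.Lib.MP_b67cc8_lc.Alg
import Pool.Agent.Lib.MP_dec383_lc.UN

/-! Chains of flats: the algorithm and the statements of the algorithmic rows. -/

namespace Pool.Agent.Lib.FL

open Finset Pool.Agent.Lib.helper82 Pool.Agent.Lib.MP_b67cc8_lc

section
variable (r : List ℕ → ℕ) (M : ℕ)

/-- the size of the closure of a list -/
def szL (l : List ℕ) : ℕ := ((List.range M).filter fun e => decide (r (e :: l) = r l)).length

/-- one attempted move at position `k` with new element `e` and coin `u` -/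
def mvB (G : ℕ → ℕ) (b : List ℕ) (k e u : ℕ) : List ℕ :=
  if k + 1 < b.length ∧ e < M ∧ r (e :: b.take (k + 1)) ≠ r (b.take (k + 1)) ∧
      r (e :: b.take (k + 2)) = r (b.take (k + 2)) ∧
      u + G (szL r M (b.take (k + 1))) * szL r M (e :: b.take k) <
        G (szL r M (b.take (k + 1))) * szL r M (b.take (k + 2)) then
    b.take k ++ e :: b.getD k 0 :: b.drop (k + 2) else b

/-- one step of the walk, reading `3 w` bits -/
def cst (w : ℕ) (G : ℕ → ℕ) (b : List ℕ) (x : List Bool) : List ℕ :=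
  mvB r M G b (ofB (x.take w)) (ofB ((x.drop w).take w)) (ofB ((x.drop w).drop w))

/-- the greedy ordered basis -/
def ini : List ℕ := (List.range M).foldl (fun b e => if r (e :: b) = r b then b else b ++ [e]) []

/-- the product of the weight function over the chain of an ordered basis -/
def pr (G : ℕ → ℕ) (b : List ℕ) : ℕ :=
  ((List.range b.length).map fun i => G (szL r M (b.take (i + 1)))).prod

/-- the weight function at time `t` of the interpolation -/
def gT (T k t s : ℕ) : ℕ := if s = M then 1 else (T - t) * (M - s) + t * (k + s) + s * (M - s)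

/-- a sample at time `t` -/
def smpB (n k t : ℕ) (x : List Bool) : List ℕ :=
  rit (3 * (n ^ 11).size) (cst r M (n ^ 11).size (gT M (n ^ 8) k t)) (n ^ 37) (ini r M) x

end

/-- the product estimator: `T` independent fractions `U t x / V t x`, each from `c` bits -/
def prodE (c : ℕ) (U V : ℕ → List Bool → ℕ) (T : ℕ) (x : List Bool) : ℕ × ℕ :=
  (rit c (fun (s : ℕ × ℕ × ℕ) z => (s.1 + 1, s.2.1 * U s.1 z, s.2.2 * V s.1 z)) T (0, 1, 1) x).2

/-- the estimate of the ratio of the last and the first chain sum -/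
def core (r : List ℕ → ℕ) (M n k : ℕ) (x : List Bool) : ℕ × ℕ :=
  prodE (3 * (n ^ 11).size * n ^ 37)
    (fun t z => pr r M (gT M (n ^ 8) k t) (smpB r M n k t z))
    (fun t z => pr r M (gT M (n ^ 8) k (t + 1)) (smpB r M n k t z)) (n ^ 8) x

/-- ordered bases -/
def Val (ρ : Finset ℕ → ℕ) (M : ℕ) (b : List ℕ) : Prop := (∀ e ∈ b, e < M) ∧
  chn ρ (range M) b ∅ ∈ Om ρ (range M) (ρ (range M)) (cl ρ (range M) ∅)

/-- INI: the start is an ordered basis; the product over the chain -/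
def St_INI : Prop := ∀ (ρ : Finset ℕ → ℕ) (M : ℕ), Geo ρ (range M) →
  (∀ l : List ℕ, szL (fun l => ρ l.toFinset) M l = (cl ρ (range M) l.toFinset).card) ∧
  Val ρ M (ini (fun l => ρ l.toFinset) M) ∧
  ∀ (G : ℕ → ℕ) (b : List ℕ), (pr (fun l => ρ l.toFinset) M G b : ℝ) =
    ((chn ρ (range M) b ∅).map fun P => (G P.card : ℝ)).prod

/-- STEP: the step on ordered bases simulates the walk on chains -/
def St_STEP : Prop := ∀ (ρ : Finset ℕ → ℕ) (M w : ℕ) (G : ℕ → ℕ), Geo ρ (range M) → M ≤ 2 ^ w →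
  (∀ s, s ≤ M → G s * M ≤ 2 ^ w) → ∀ b, Val ρ M b →
  (∀ x, Val ρ M (cst (fun l => ρ l.toFinset) M w G b x)) ∧ ∀ f : Ch → ℝ,
    Ex (3 * w) (fun x => f (chn ρ (range M) (cst (fun l => ρ l.toFinset) M w G b x) ∅)) =
      f (chn ρ (range M) b ∅) + 1 / 2 ^ (3 * w) *
        Nop ρ (range M) (fun s => (G s : ℝ)) (chn ρ (range M) b ∅) (cl ρ (range M) ∅)
          fun D => f D - f (chn ρ (range M) b ∅)

/-- ANN: the mean absolute error of the product estimator -/
def St_ANN : Prop := ∀ (c T R : ℕ) (U V : ℕ → List Bool → ℕ) (μ : ℕ → ℝ) (δ η : ℝ), c * T ≤ R →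
  (∀ t < T, ∀ z, 0 < V t z) → (∀ t < T, 0 < μ t) → 0 ≤ δ → 0 < η → T * δ ≤ 1 → 4 * (T * δ) ≤ η ^ 2 →
  (∀ t < T, (1 - δ) * μ t ≤ Ex c fun z => (U t z : ℝ) / V t z) →
  (∀ t < T, (Ex c fun z => ((U t z : ℝ) / V t z) ^ 2) ≤ (1 + δ) * μ t ^ 2) →
  (∀ x, 0 < (prodE c U V T x).2) ∧
    (Ex R fun x => |((prodE c U V T x).1 : ℝ) / (prodE c U V T x).2 - ∏ t ∈ range T, μ t|) ≤
      η * ∏ t ∈ range T, μ t

/-- SMP: the sample is an ordered basis and bounded functions have almost the right mean -/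
def St_SMP : Prop := ∀ (ρ : Finset ℕ → ℕ) (M n k t : ℕ), Geo ρ (range M) → 64 ≤ n → M + k ≤ n →
  t ≤ n ^ 8 → (∀ x, Val ρ M (smpB (fun l => ρ l.toFinset) M n k t x)) ∧
  0 < S ρ (range M) (fun s => (gT M (n ^ 8) k t s : ℝ)) (ρ (range M)) (cl ρ (range M) ∅) (fun _ => 1) ∧
  ∀ (f : Ch → ℝ) (μ : ℝ),
    S ρ (range M) (fun s => (gT M (n ^ 8) k t s : ℝ)) (ρ (range M)) (cl ρ (range M) ∅)
      (fun C => f C - μ) = 0 →
    (∀ C ∈ Om ρ (range M) (ρ (range M)) (cl ρ (range M) ∅), |f C - μ| ≤ 1) →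
    |Ex (3 * (n ^ 11).size * n ^ 37)
      (fun x => f (chn ρ (range M) (smpB (fun l => ρ l.toFinset) M n k t x) ∅)) - μ| ≤ 1 / n ^ 12

/-- CORE: correctness of the estimate -/
def St_CORE : Prop := ∀ (ρ : Finset ℕ → ℕ) (M n k q R : ℕ), Geo ρ (range M) → 0 < ρ (range M) →
  64 ≤ n → M + k + q ≤ n → 0 < q → 3 * (n ^ 11).size * n ^ 37 * n ^ 8 ≤ R →
  (∀ x, 0 < (core (fun l => ρ l.toFinset) M n k x).2) ∧
  (Ex R fun x => |((M - (cl ρ (range M) ∅).card : ℕ) * (core (fun l => ρ l.toFinset) M n k x).1 : ℕ) /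
    ((core (fun l => ρ l.toFinset) M n k x).2 : ℝ) - ZB ρ M k|) ≤ ZB ρ M k / q

/-- a family of matroids with a polynomial time rank oracle -/
structure Orc {α : Type} [Enc α] (ρ : α → Finset ℕ → ℕ) (m : α → ℕ) : Prop where
  rk : ∀ a, IsRk (ρ a)
  pt : PT fun p : α × List ℕ => ρ p.1 p.2.toFinset
  un : UN m

/-- CPT: the estimate is computed in polynomial time -/
def St_CPT : Prop := ∀ (α : Type) [Enc α] (ρ : α → Finset ℕ → ℕ) (M n k : α → ℕ)
  (x : α → List Bool), Orc ρ M → UN n → UN k → PT x →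
  (PT fun p : α × List ℕ => szL (fun l => ρ p.1 l.toFinset) (M p.1) p.2) ∧
  PT fun a => core (fun l => ρ a l.toFinset) (M a) (n a) (k a) (x a)

/-- approximation in the mean with relative error `1 / q` -/
def Apx {α : Type} [Enc α] (f : α → ℝ) : Prop :=
  ∃ (A : α → ℕ → List Bool → ℕ × ℕ) (B : α → ℕ → ℕ),
    (PT fun p : (α × List Bool) × List Bool => A p.1.1 p.1.2.length p.2) ∧
    (UN fun p : α × List Bool => B p.1 p.2.length) ∧
    ∀ a q R, 0 < q → B a q ≤ R → (∀ x, 0 < (A a q x).2) ∧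
      (Ex R fun x => |((A a q x).1 : ℝ) / (A a q x).2 - f a|) ≤ f a / q

/-- the body of the definition in the final statement -/
def FPR (f : ℕ → List (ℕ × ℕ) → ℚ) : Prop :=
  ∃ (M : ((ℕ × List (ℕ × ℕ)) × List Bool) × List Bool → ℤ × ℕ) (p : Polynomial ℕ),
    N68a2faeb.IsPolyTime M ∧ ∀ (n : ℕ) (E : List (ℕ × ℕ)), (∀ e ∈ E, e.1 < n ∧ e.2 < n) →
      ∀ k : ℕ, 0 < k → ∀ l : ℕ,
        l = p.eval (N487b59b3.bitEncode ((n, E), List.replicate k true)).length →
        (3 : ℚ) / 4 ≤ ((Finset.univ.filter fun r : Fin l → Bool =>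
          0 < (M (((n, E), List.replicate k true), List.ofFn r)).2 ∧
          |((M (((n, E), List.replicate k true), List.ofFn r)).1 : ℚ) /
            (M (((n, E), List.replicate k true), List.ofFn r)).2 - f n E| ≤
              |f n E| / k).card : ℚ) / 2 ^ l

/-- APX: closure properties -/
def St_APX : Prop :=
  (∀ (α β : Type) [Enc α] [Enc β] (f : α → ℝ) (h : β → α), Apx f → PT h → Apx fun b => f (h b)) ∧
  (∀ (α : Type) [Enc α] (f : α → ℝ) (u v : α → ℕ), Apx f → PT u → PT v → (∀ a, 0 < v a) →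
    Apx fun a => (u a : ℝ) / v a * f a) ∧
  (∀ (α : Type) [Enc α] (F : α × List Bool → ℝ) (f : α → ℝ), Apx F →
    (∀ a l, l ≠ [] → |F (a, l) - f a| ≤ f a / l.length) → Apx f) ∧
  (∀ (F : ℕ × List (ℕ × ℕ) → ℝ) (f : ℕ → List (ℕ × ℕ) → ℚ), Apx F →
    (∀ n E, (∀ e ∈ E, e.1 < n ∧ e.2 < n) → F (n, E) = f n E) → FPR f)

/-- SUM: sums with polynomially many terms -/
def St_SUM : Prop := ∀ (α : Type) [Enc α] (f : α × ℕ → ℝ) (t : α → ℕ), Apx f → UN t →
  Apx fun a => ∑ j ∈ range (t a), f (a, j)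

/-- ORC: constructions of oracles, and some arithmetic in polynomial time -/
def St_ORC : Prop :=
  (∀ (α : Type) [Enc α] (ρ : α → Finset ℕ → ℕ) (m : α → ℕ), Orc ρ m →
    (UN fun a => ρ a (range (m a))) ∧ Orc (fun a => dual (ρ a) (m a)) m ∧
    (∀ j N : α → ℕ, PT j → UN N →
      Orc (fun a => ext (ρ a) (m a) (j a) (N a)) fun a => m a + N a) ∧
    ∀ (β : Type) [Enc β] (h : β → α), PT h → Orc (fun b => ρ (h b)) fun b => m (h b)) ∧
  ∀ (α : Type) [Enc α] (u v : α → ℕ), (UN u → PT fun a => (u a).factorial) ∧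
    (PT u → UN v → PT fun a => u a ^ v a) ∧ (UN u → PT v → UN fun a => u a - v a) ∧
    (UN u → PT v → UN fun a => min (u a) (v a))

/-- ZAP: the chain sum can be approximated -/
def St_ZAP : Prop := ∀ (α : Type) [Enc α] (ρ : α → Finset ℕ → ℕ) (M k : α → ℕ), Orc ρ M → UN k →
  (∀ a, 0 < ρ a (range (M a))) → Apx (fun a => phi (ρ a) (k a) (range (M a)))

/-- TAP: the values at `(1, y)` of the truncations can be approximated -/
def St_TAP : Prop := ∀ (α : Type) [Enc α] (ρ : α → Finset ℕ → ℕ) (m j : α → ℕ) (a b : ℕ),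
  Orc ρ m → UN j → (∀ z, j z ≤ ρ z (range (m z))) → 0 < a →
  Apx fun z => T1 (ρ z) (m z) (j z) ((b : ℝ) / (a + b))

/-- MAT: the Tutte polynomial of a family of matroids can be approximated -/
def St_MAT : Prop := ∀ (α : Type) [Enc α] (ρ : α → Finset ℕ → ℕ) (m : α → ℕ) (x y : ℚ),
  Orc ρ m → 0 ≤ min x y → min x y < 1 → 1 ≤ max x y → Apx fun z => Tut (ρ z) (m z) x y

/-- the rank function of a multigraph on the positions of its edge list -/
noncomputable def grk (E : List (ℕ × ℕ)) (A : Finset ℕ) : ℕ :=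
  rk id (A.toList.map fun i => E.getD i (0, 0))

/-- GRA: graphs -/
def St_GRA : Prop := (Orc (fun p : ℕ × List (ℕ × ℕ) => grk p.2) fun p => p.2.length) ∧
  ∀ (E : List (ℕ × ℕ)) (x y : ℚ), Tut (grk E) E.length x y =
    ((E.sublists.map fun A => (x - 1) ^ (rk id E - rk id A) * (y - 1) ^ (A.length - rk id A)).sum : ℚ)

end Pool.Agent.Lib.FL
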