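import Mathlib

/-! Chains of flats of a matroid given by its rank function: definitions. -/

namespace Pool.Agent.Lib.FL

open Finset

/-- rank function of a matroid on the natural numbers -/
structure IsRk (ρ : Finset ℕ → ℕ) : Prop where
  empty : ρ ∅ = 0
  le : ∀ A e, ρ A ≤ ρ (insert e A)
  ge : ∀ A e, ρ (insert e A) ≤ ρ A + 1
  cl : ∀ A B e, A ⊆ B → ρ (insert e A) = ρ A → ρ (insert e B) = ρ B

abbrev Ch := List (Finset ℕ)

section
variable (ρ : Finset ℕ → ℕ) (E : Finset ℕ)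

/-- closure inside the ground set `E` -/
def cl (A : Finset ℕ) : Finset ℕ := E.filter fun e => ρ (insert e A) = ρ A

/-- flats -/
abbrev Flat (F : Finset ℕ) : Prop := cl ρ E F = F

/-- the flats covering `K` -/
def cov (K : Finset ℕ) : Finset (Finset ℕ) :=
  E.powerset.filter fun P => Flat ρ E P ∧ K ⊆ P ∧ ρ P = ρ K + 1

/-- the flats strictly between `K` and `Q` in an interval of rank two -/
def mid (K Q : Finset ℕ) : Finset (Finset ℕ) := (cov ρ E K).filter fun P => Q ∈ cov ρ E P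

/-- the facts on flats that are used -/
structure Geo : Prop where
  rk : IsRk ρ
  mono : ∀ A B, A ⊆ B → ρ A ≤ ρ B
  le_card : ∀ A, ρ A ≤ A.card
  sub_cl : ∀ A, A ⊆ E → A ⊆ cl ρ E A
  rk_cl : ∀ A, A ⊆ E → ρ (cl ρ E A) = ρ A
  rk_ins : ∀ A e, A ⊆ E → ρ (insert e (cl ρ E A)) = ρ (insert e A)
  cl_ins : ∀ A e, A ⊆ E → cl ρ E (insert e (cl ρ E A)) = cl ρ E (insert e A)
  flat_cl : ∀ A, A ⊆ E → Flat ρ E (cl ρ E A)
  flat_top : Flat ρ E E
  cl_le : ∀ F A, Flat ρ E F → A ⊆ F → cl ρ E A ⊆ F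
  eq_of_rk : ∀ K P, Flat ρ E K → K ⊆ P → P ⊆ E → ρ P ≤ ρ K → P = K
  cov_mk : ∀ K e, Flat ρ E K → e ∈ E → e ∉ K → cl ρ E (insert e K) ∈ cov ρ E K
  cov_eq : ∀ K P e, Flat ρ E K → P ∈ cov ρ E K → e ∈ P → e ∉ K → cl ρ E (insert e K) = P
  cov_lt : ∀ K P, P ∈ cov ρ E K → K.card < P.card
  part : ∀ K L, Flat ρ E K → Flat ρ E L → K ⊆ L → ∀ φ : Finset ℕ → ℝ,
    ∑ e ∈ L \ K, φ (cl ρ E (insert e K)) =
      ∑ P ∈ (cov ρ E K).filter (· ⊆ L), ((P.card : ℝ) - K.card) * φ P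
  mid_eq : ∀ K Q, Flat ρ E Q → ρ Q = ρ K + 2 → mid ρ E K Q = (cov ρ E K).filter (· ⊆ Q)
  join : ∀ K P P', Flat ρ E K → P ∈ cov ρ E K → P' ∈ cov ρ E K → P ≠ P' →
    cl ρ E (P ∪ P') ∈ cov ρ E P ∧ cl ρ E (P ∪ P') ∈ cov ρ E P' ∧
      ∀ Q ∈ cov ρ E P, Q ∈ cov ρ E P' → Q = cl ρ E (P ∪ P')

/-- saturated chains of `n` flats above `K`, listed upwards -/
def Om : ℕ → Finset ℕ → Finset Ch
  | 0, _ => {[]}
  | n + 1, K => (cov ρ E K).biUnion fun P => (Om n P).image (P :: ·)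

end

/-- the weight of a chain above `K` -/
noncomputable def wt (g : ℕ → ℝ) : Finset ℕ → Ch → ℝ
  | _, [] => 1
  | K, P :: C => ((P.card : ℝ) - K.card) / g P.card * wt g P C

section
variable (ρ : Finset ℕ → ℕ) (E : Finset ℕ) (g : ℕ → ℝ)

/-- the weighted sum over chains -/
noncomputable def S (n : ℕ) (K : Finset ℕ) (φ : Ch → ℝ) : ℝ := ∑ C ∈ Om ρ E n K, wt g K C * φ C

/-- the generator of the heat bath walk (uniform mean over the middle flats) -/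
noncomputable def Lop : Ch → Finset ℕ → (Ch → ℝ) → ℝ
  | P :: Q :: R, K, u =>
    g P.card / (((P.card : ℝ) - K.card) * ((Q.card : ℝ) - P.card)) *
      (u (P :: Q :: R) - (∑ P' ∈ mid ρ E K Q, u (P' :: Q :: R)) / (mid ρ E K Q).card) +
      Lop (Q :: R) P fun C => u (P :: C)
  | _, _, _ => 0

/-- the sum of `f` over the moves of the simulated walk, weighted by their rates -/
noncomputable def Nop : Ch → Finset ℕ → (Ch → ℝ) → ℝ
  | P :: Q :: R, K, f =>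
    g P.card * (∑ P' ∈ mid ρ E K Q,
      ((P'.card : ℝ) - K.card) * ((Q.card : ℝ) - P'.card) * f (P' :: Q :: R)) +
      Nop (Q :: R) P fun C => f (P :: C)
  | _, _, _ => 0

end

/-- positivity and strong concavity of the weight function; the value at `M` is free -/
structure Conc (g : ℕ → ℝ) (M : ℕ) (γ : ℝ) : Prop where
  nn : ∀ s, 0 ≤ g s
  pos : ∀ s, 0 < s → s ≤ M → 0 < g s
  conc : ∀ s₀ s₁ s₂ : ℕ, s₀ < s₁ → s₁ < s₂ → s₂ ≤ M →
    ((s₂ : ℝ) - s₁) * g s₀ + ((s₁ : ℝ) - s₀) * (if s₂ < M then g s₂ else 0) +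
      γ * (((s₂ : ℝ) - s₀) * ((s₁ : ℝ) - s₀) * ((s₂ : ℝ) - s₁)) ≤ ((s₂ : ℝ) - s₀) * g s₁

/-- the start of the interpolation -/
noncomputable def gA (M : ℕ) (s : ℕ) : ℝ := if s = M then 1 else (M : ℝ) - s

/-- the end of the interpolation -/
noncomputable def gB (M k : ℕ) (s : ℕ) : ℝ := if s = M then 1 else (k : ℝ) + s

/-- the chain sum that is estimated -/
noncomputable def ZB (ρ : Finset ℕ → ℕ) (M k : ℕ) : ℝ :=
  S ρ (range M) (gB M k) (ρ (range M)) (cl ρ (range M) ∅) fun _ => 1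

/-- `1 / binomial (k + j, j)` -/
noncomputable def aa (k j : ℕ) : ℝ := ∏ i ∈ range j, ((i : ℝ) + 1) / (k + i + 1)

/-- signed sum over the spanning subsets of `L` -/
noncomputable def phi (ρ : Finset ℕ → ℕ) (k : ℕ) (L : Finset ℕ) : ℝ :=
  ∑ B ∈ L.powerset.filter fun B => ρ B = ρ L, (-1) ^ (B.card + ρ L) * aa k B.card

/-- truncation to rank `j` of the restriction to `range m`, plus `N` coloops -/
def ext (ρ : Finset ℕ → ℕ) (m j N : ℕ) (A : Finset ℕ) : ℕ :=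
  min (ρ (A ∩ range m)) j + (A ∩ Ico m (m + N)).card

/-- the dual rank function on `range m` -/
def dual (ρ : Finset ℕ → ℕ) (m : ℕ) (A : Finset ℕ) : ℕ :=
  (A ∩ range m).card + ρ (range m \ A) - ρ (range m)

/-- the Tutte polynomial at `(1, y)` of the truncation to rank `j` -/
noncomputable def T1 (ρ : Finset ℕ → ℕ) (m j : ℕ) (y : ℝ) : ℝ :=
  ∑ B ∈ (range m).powerset.filter fun B => j ≤ ρ B, (y - 1) ^ (B.card - j)

/-- the Tutte polynomial of the matroid on `range m` -/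
noncomputable def Tut (ρ : Finset ℕ → ℕ) (m : ℕ) (x y : ℝ) : ℝ :=
  ∑ B ∈ (range m).powerset, (x - 1) ^ (ρ (range m) - ρ B) * (y - 1) ^ (B.card - ρ B)

/-- the chain of closures of the initial segments of a list, above the set `p` -/
def chn (ρ : Finset ℕ → ℕ) (E : Finset ℕ) : List ℕ → Finset ℕ → Ch
  | [], _ => []
  | e :: b, p => cl ρ E (insert e p) :: chn ρ E b (insert e p)

/-! ### Basic unfolding -/

variable {ρ : Finset ℕ → ℕ} {E : Finset ℕ} {g : ℕ → ℝ}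

lemma cl_sub (A : Finset ℕ) : cl ρ E A ⊆ E := filter_subset _ _

lemma Flat.sub {F : Finset ℕ} (h : Flat ρ E F) : F ⊆ E := h ▸ cl_sub F

lemma mem_cov {K P : Finset ℕ} : P ∈ cov ρ E K ↔ Flat ρ E P ∧ K ⊆ P ∧ ρ P = ρ K + 1 := by
  rw [cov, mem_filter, mem_powerset]
  exact ⟨fun h => h.2, fun h => ⟨h.1.sub, h⟩⟩

lemma mem_mid {K P Q : Finset ℕ} : P ∈ mid ρ E K Q ↔ P ∈ cov ρ E K ∧ Q ∈ cov ρ E P := mem_filter

lemma mem_Om_zero {K : Finset ℕ} {C : Ch} : C ∈ Om ρ E 0 K ↔ C = [] := by simp [Om]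

lemma mem_Om_succ {n : ℕ} {K : Finset ℕ} {C : Ch} :
    C ∈ Om ρ E (n + 1) K ↔ ∃ P ∈ cov ρ E K, ∃ R ∈ Om ρ E n P, C = P :: R := by
  simp only [Om, mem_biUnion, mem_image]
  exact ⟨fun ⟨P, h, R, h1, h2⟩ => ⟨P, h, R, h1, h2.symm⟩, fun ⟨P, h, R, h1, h2⟩ => ⟨P, h, R, h1, h2.symm⟩⟩

lemma cons_mem_Om {n : ℕ} {K P : Finset ℕ} {R : Ch} :
    P :: R ∈ Om ρ E (n + 1) K ↔ P ∈ cov ρ E K ∧ R ∈ Om ρ E n P := by
  rw [mem_Om_succ]
  refine ⟨?_, fun h => ⟨P, h.1, R, h.2, rfl⟩⟩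
  rintro ⟨P', h, R', h1, h2⟩
  obtain ⟨rfl, rfl⟩ := List.cons.inj h2
  exact ⟨h, h1⟩

lemma length_of_mem_Om : ∀ {n : ℕ} {K : Finset ℕ} {C : Ch}, C ∈ Om ρ E n K → C.length = n
  | 0, _, _, h => by rw [mem_Om_zero.1 h]; rfl
  | n + 1, _, _, h => by
    obtain ⟨P, -, R, h1, rfl⟩ := mem_Om_succ.1 h
    rw [List.length_cons, length_of_mem_Om h1]

lemma sum_Om_succ (n : ℕ) (K : Finset ℕ) (φ : Ch → ℝ) :
    ∑ C ∈ Om ρ E (n + 1) K, φ C = ∑ P ∈ cov ρ E K, ∑ R ∈ Om ρ E n P, φ (P :: R) := by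
  rw [Om, sum_biUnion]
  · exact sum_congr rfl fun P _ => sum_image fun _ _ _ _ h => (List.cons.inj h).2
  · intro P _ P' _ h
    refine disjoint_left.2 fun C h1 h2 => h ?_
    obtain ⟨R, -, rfl⟩ := mem_image.1 h1
    obtain ⟨R', -, e⟩ := mem_image.1 h2
    exact (List.cons.inj e).1.symm

lemma S_zero (K : Finset ℕ) (φ : Ch → ℝ) : S ρ E g 0 K φ = φ [] := by simp [S, Om, wt]

lemma S_succ (n : ℕ) (K : Finset ℕ) (φ : Ch → ℝ) : S ρ E g (n + 1) K φ =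
    ∑ P ∈ cov ρ E K, ((P.card : ℝ) - K.card) / g P.card * S ρ E g n P fun C => φ (P :: C) := by
  simp only [S, sum_Om_succ, wt, mul_sum, mul_assoc]

lemma S_congr {n : ℕ} {K : Finset ℕ} {φ ψ : Ch → ℝ} (h : ∀ C ∈ Om ρ E n K, φ C = ψ C) :
    S ρ E g n K φ = S ρ E g n K ψ := sum_congr rfl fun C hC => by rw [h C hC]

lemma S_add (n : ℕ) (K : Finset ℕ) (φ ψ : Ch → ℝ) :
    S ρ E g n K (fun C => φ C + ψ C) = S ρ E g n K φ + S ρ E g n K ψ := by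
  simp only [S, mul_add, sum_add_distrib]

lemma S_mul (n : ℕ) (K : Finset ℕ) (c : ℝ) (φ : Ch → ℝ) :
    S ρ E g n K (fun C => c * φ C) = c * S ρ E g n K φ := by
  simp only [S, mul_sum, mul_left_comm]

lemma S_sum {ι : Type} (n : ℕ) (K : Finset ℕ) (I : Finset ι) (φ : ι → Ch → ℝ) :
    S ρ E g n K (fun C => ∑ i ∈ I, φ i C) = ∑ i ∈ I, S ρ E g n K (φ i) := by
  simp only [S, mul_sum]
  exact sum_comm

/-- exchanging the first two levels -/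
lemma sum_cov_cov (K : Finset ℕ) (φ : Finset ℕ → Finset ℕ → ℝ) :
    ∑ P ∈ cov ρ E K, ∑ Q ∈ cov ρ E P, φ P Q = ∑ Q ∈ E.powerset, ∑ P ∈ mid ρ E K Q, φ P Q :=
  sum_comm' fun P Q => by
    rw [mem_mid, mem_powerset]
    exact ⟨fun h => ⟨h, (mem_cov.1 h.2).1.sub⟩, fun h => h.1⟩

lemma wt_pos (G : Geo ρ E) (hg : ∀ s, 0 < s → s ≤ E.card → 0 < g s) :
    ∀ {n : ℕ} {K : Finset ℕ} {C : Ch}, C ∈ Om ρ E n K → 0 < wt g K C
  | 0, _, _, h => by rw [mem_Om_zero.1 h]; exact one_pos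
  | n + 1, K, _, h => by
    obtain ⟨P, h0, R, h1, rfl⟩ := mem_Om_succ.1 h
    have h2 := G.cov_lt K P h0
    have h3 : (K.card : ℝ) < P.card := by exact_mod_cast h2
    exact mul_pos (div_pos (by linarith) (hg _ (by omega) (card_le_card (mem_cov.1 h0).1.sub)))
      (wt_pos G hg h1)

lemma S_mono (G : Geo ρ E) (hg : ∀ s, 0 < s → s ≤ E.card → 0 < g s) {n : ℕ} {K : Finset ℕ}
    {φ ψ : Ch → ℝ} (h : ∀ C ∈ Om ρ E n K, φ C ≤ ψ C) : S ρ E g n K φ ≤ S ρ E g n K ψ :=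
  sum_le_sum fun C hC => mul_le_mul_of_nonneg_left (h C hC) (wt_pos G hg hC).le

end Pool.Agent.Lib.FL
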