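import Pool.Agent.Lib.FL.Apx79

/-! From a small mean square error to an approximation scheme. -/

namespace Pool.Agent.Lib.FL.H79

open Finset Pool.Agent.Lib.helper82 Pool.Agent.Lib.MP_b67cc8_lc Pool.Agent.FL.Mix28
open Pool.Agent.Lib.MP_dec383_lc (UN)

theorem fpr_of_ms {f : ℕ → List (ℕ × ℕ) → ℚ} {F : (ℕ × List (ℕ × ℕ)) × List Bool → ℚ}
    {ok : (ℕ × List (ℕ × ℕ)) × List Bool → Prop}
    (h : ∃ (A : (ℕ × List (ℕ × ℕ)) × List Bool → List Bool → ℕ × ℕ)
      (L : (ℕ × List (ℕ × ℕ)) × List Bool → ℕ),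
      (PT fun p : ((ℕ × List (ℕ × ℕ)) × List Bool) × List Bool => A p.1 p.2) ∧ UN L ∧
      ∀ a, ok a → 0 < a.2.length → ∀ l, L a ≤ l → (∀ x, 0 < (A a x).2) ∧
        Ex l (fun x => (((A a x).1 : ℝ) / (A a x).2 - (F a : ℚ)) ^ 2) ≤
          ((F a : ℚ) : ℝ) ^ 2 / (4 * (a.2.length : ℕ) ^ 2))
    (e : ∀ n E q, (∀ z ∈ E, z.1 < n ∧ z.2 < n) → ok ((n, E), q) ∧ F ((n, E), q) = f n E) :
    FPR f := by
  obtain ⟨A, B, h1, h2, h3⟩ := h
  obtain ⟨p, hp⟩ := PT.sz_bd h2
  refine ⟨_, p, (PT.pair (PT.natCastInt (PT.fst h1)) (PT.snd h1)).isPolyTime,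
    fun n E hE k hk l hl => ?_⟩
  have h6 := hp ((n, E), List.replicate k true)
  simp only [PT.sz_listBool, List.length_replicate] at h6
  obtain ⟨e1, e2⟩ := e n E (List.replicate k true) hE
  obtain ⟨h7, h8⟩ := h3 ((n, E), List.replicate k true) e1 (by simpa using hk) l
    (by rw [hl]; exact le_trans (Nat.le_mul_of_pos_left _ (by norm_num)) h6)
  have k0 : (0 : ℝ) < k := by exact_mod_cast hk
  simp only [e2, List.length_replicate] at h8
  have h9 := markov (R := l) (fun _ => sq_nonneg _) (c := (|(f n E : ℝ)| / k) ^ 2)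
    (h8.trans (le_of_eq (by rw [div_pow, sq_abs]; field_simp)))
    (fun x => 0 < (A ((n, E), List.replicate k true) x).2 ∧
      |((A ((n, E), List.replicate k true) x).1 : ℚ) / (A ((n, E), List.replicate k true) x).2 -
        f n E| ≤ |f n E| / k) fun x hx => by
      refine ⟨h7 x, ?_⟩
      rw [← Rat.cast_le (K := ℝ)]
      push_cast
      exact abs_le_of_sq_le_sq hx (by positivity)
  rw [Ex_sum, ← Finset.sum_filter] at h9
  simp only [Int.cast_natCast]
  rw [← Rat.cast_le (K := ℝ)]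
  simpa using h9

end Pool.Agent.Lib.FL.H79
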