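import Pool.Agent.Lib.FL.Orc10
import Pool.Agent.Lib.FL.Top79

/-! The approximation scheme on graphs from the oracle theorem. -/

namespace Pool.Agent.Lib.FL.H79

open Finset Pool.Agent.Lib.helper82 Pool.Agent.Lib.MP_b67cc8_lc
open Pool.Agent.Lib.MP_dec383_lc (UN)

theorem fpr_strips (H : A80.St_ORC) {x y : ℚ} (h0 : 0 ≤ min x y) (h1 : min x y < 1)
    (h2 : 1 ≤ max x y) {r : ℕ → List (ℕ × ℕ) → ℕ}
    (hr : ∀ n A, (∀ e ∈ A, e.1 < n ∧ e.2 < n) → r n A = rk id A) :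
    FPR fun n E => (E.sublists.map fun A =>
      (x - 1) ^ (r n E - r n A) * (y - 1) ^ (A.length - r n A)).sum := by
  have hxy : (1 ≤ x ∧ 0 ≤ y ∧ y < 1) ∨ (0 ≤ x ∧ x < 1 ∧ 1 ≤ y) := by
    rcases le_total x y with h | h
    · rw [min_eq_left h] at h0 h1
      rw [max_eq_right h] at h2
      exact Or.inr ⟨h0, h1, h2⟩
    · rw [min_eq_right h] at h0 h1
      rw [max_eq_left h] at h2
      exact Or.inl ⟨h2, h0, h1⟩
  refine fpr_of_ms (H5.ms_strips (α := (ℕ × List (ℕ × ℕ)) × List Bool) H hxy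
    (H10.fam_graph (PT.snd PT.fst') fun _ => True) (UN.length PT.snd')) fun n E q hE =>
      ⟨trivial, ?_⟩
  exact (H10.tutte_eq E (r n) (fun A hA => hr n A fun e he => hE e (hA he)) x y).symm

end Pool.Agent.Lib.FL.H79
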