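import Pool.Agent.Lib.MP_b67cc8_lc.Prob

/-! Mixing of a reversible chain driven by random bits, from a Poincare inequality. -/

namespace Pool.Agent.FL.Mix28

open Finset Pool.Agent.Lib.MP_b67cc8_lc

variable {σ : Type}

theorem Ex_sq_le (n : ℕ) : ∀ f : List Bool → ℝ, Ex n f ^ 2 ≤ Ex n fun r => f r ^ 2 := by
  induction n with
  | zero => intro f; exact le_rfl
  | succ n ih =>
    intro f
    have a := ih fun r => f (false :: r)
    have b := ih fun r => f (true :: r)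
    simp only [Ex]
    nlinarith [sq_nonneg (Ex n (fun r => f (false :: r)) - Ex n fun r => f (true :: r))]

theorem Ex_nonneg {n : ℕ} {f : List Bool → ℝ} (h : ∀ r, r.length = n → 0 ≤ f r) : 0 ≤ Ex n f := by
  rw [← Ex_const n 0]
  exact Ex_mono h

theorem Ex_finsum {ι : Type} (n : ℕ) (S : Finset ι) (f : ι → List Bool → ℝ) :
    Ex n (fun r => ∑ i ∈ S, f i r) = ∑ i ∈ S, Ex n (f i) := by
  classical
  induction S using Finset.induction_on with
  | empty => simpa using Ex_const n 0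
  | insert a S ha ih => simp only [sum_insert ha, Ex_add, ih]

/-- the lazy version of a step: the first bit decides whether to move -/
def lz (h : σ → List Bool → σ) (s : σ) (x : List Bool) : σ :=
  if x.headD false = true then h s x.tail else s

theorem Kop_lz (k : ℕ) (h : σ → List Bool → σ) (f : σ → ℝ) (s : σ) :
    Kop (k + 1) (lz h) f s = Ex k fun x => (f s + f (h s x)) / 2 := by
  have e : (fun x : List Bool => (f s + f (h s x)) / 2) =
      fun x => 1 / 2 * (f s + f (h s x)) := funext fun x => by ring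
  rw [e, Ex_mul, Ex_add, Kop, Ex]
  simp [lz]
  ring

/-- reversibility, in integrated form -/
def Rev (Ω : Finset σ) (w : σ → ℝ) (k : ℕ) (h : σ → List Bool → σ) : Prop :=
  ∀ F : σ → σ → ℝ, ∑ s ∈ Ω, w s * Ex k (fun x => F s (h s x)) =
    ∑ s ∈ Ω, w s * Ex k fun x => F (h s x) s

/-- twice the Dirichlet form -/
noncomputable def Dir (Ω : Finset σ) (w : σ → ℝ) (k : ℕ) (h : σ → List Bool → σ) (f : σ → ℝ) : ℝ :=
  ∑ s ∈ Ω, w s * Ex k fun x => (f s - f (h s x)) ^ 2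

open Classical in
/-- transition probability -/
noncomputable def Pt (k : ℕ) (h : σ → List Bool → σ) (s s' : σ) : ℝ :=
  Ex k fun x => if h s x = s' then 1 else 0

theorem Pt_nonneg (k : ℕ) (h : σ → List Bool → σ) (s s' : σ) : 0 ≤ Pt k h s s' :=
  Ex_nonneg fun r _ => by split_ifs <;> norm_num

theorem Ex_eq_sum {Ω : Finset σ} {k : ℕ} {h : σ → List Bool → σ} {s : σ}
    (hc : ∀ x : List Bool, x.length = k → h s x ∈ Ω) (G : σ → ℝ) :
    Ex k (fun x => G (h s x)) = ∑ s' ∈ Ω, Pt k h s s' * G s' := by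
  classical
  have e : ∀ s', Pt k h s s' * G s' = Ex k fun x => if h s x = s' then G s' else 0 := fun s' => by
    rw [mul_comm, Pt, ← Ex_mul]
    exact Ex_congr fun x _ => by split_ifs <;> simp
  simp only [e]
  rw [← Ex_finsum]
  exact Ex_congr fun x hx => by simp [hc x hx]

/-- detailed balance gives reversibility -/
theorem rev_of_balance {Ω : Finset σ} {w : σ → ℝ} {k : ℕ} {h : σ → List Bool → σ}
    (hc : ∀ s ∈ Ω, ∀ x : List Bool, x.length = k → h s x ∈ Ω)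
    (hb : ∀ s ∈ Ω, ∀ s' ∈ Ω, s ≠ s' → w s * Pt k h s s' = w s' * Pt k h s' s) : Rev Ω w k h := by
  intro F
  calc ∑ s ∈ Ω, w s * Ex k (fun x => F s (h s x))
      = ∑ s ∈ Ω, ∑ s' ∈ Ω, w s * Pt k h s s' * F s s' := sum_congr rfl fun s hs => by
        rw [Ex_eq_sum (hc s hs) (F s), mul_sum]
        exact sum_congr rfl fun _ _ => by ring
    _ = ∑ s' ∈ Ω, ∑ s ∈ Ω, w s' * Pt k h s' s * F s s' := by
        rw [sum_comm]
        refine sum_congr rfl fun s' hs' => sum_congr rfl fun s hs => ?_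
        by_cases e : s = s'
        · rw [e]
        · rw [hb s hs s' hs' e]
    _ = _ := sum_congr rfl fun s hs => by
        rw [Ex_eq_sum (hc s hs) fun y => F y s, mul_sum]
        exact sum_congr rfl fun _ _ => by ring

theorem Dir_eq {Ω : Finset σ} (w : σ → ℝ) {k : ℕ} {h : σ → List Bool → σ}
    (hc : ∀ s ∈ Ω, ∀ x : List Bool, x.length = k → h s x ∈ Ω) (f : σ → ℝ) :
    Dir Ω w k h f = ∑ s ∈ Ω, ∑ s' ∈ Ω, w s * Pt k h s s' * (f s - f s') ^ 2 :=
  sum_congr rfl fun s hs => by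
    rw [Ex_eq_sum (hc s hs) fun y => (f s - f y) ^ 2, mul_sum]
    exact sum_congr rfl fun _ _ => by ring

section
variable {Ω : Finset σ} {w : σ → ℝ} {k : ℕ} {h : σ → List Bool → σ}

theorem lz_sum (hR : Rev Ω w k h) (f : σ → ℝ) :
    ∑ s ∈ Ω, w s * Kop (k + 1) (lz h) f s = ∑ s ∈ Ω, w s * f s := by
  have h1 := hR fun _ y => f y
  simp only [Ex_const] at h1
  have e : ∀ s, w s * Kop (k + 1) (lz h) f s =
      (w s * f s + w s * Ex k fun x => f (h s x)) / 2 := fun s => by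
    have e : (fun x : List Bool => (f s + f (h s x)) / 2) =
        fun x => 1 / 2 * (f s + f (h s x)) := funext fun x => by ring
    rw [Kop_lz, e, Ex_mul, Ex_add, Ex_const]
    ring
  simp only [e, ← sum_div, sum_add_distrib, h1]
  ring

theorem lz_sq (hw : ∀ s ∈ Ω, 0 ≤ w s) (hR : Rev Ω w k h) (f : σ → ℝ) :
    ∑ s ∈ Ω, w s * Kop (k + 1) (lz h) f s ^ 2 ≤ ∑ s ∈ Ω, w s * f s ^ 2 - Dir Ω w k h f / 4 := by
  have h1 := hR fun _ y => f y ^ 2
  simp only [Ex_const] at h1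
  have h2 : ∀ s ∈ Ω, w s * Kop (k + 1) (lz h) f s ^ 2 ≤
      (w s * f s ^ 2 + w s * Ex k fun x => f (h s x) ^ 2) / 2 -
        (w s * Ex k fun x => (f s - f (h s x)) ^ 2) / 4 := fun s hs => by
    have a := Ex_sq_le k fun x => (f s + f (h s x)) / 2
    have e : (fun x : List Bool => ((f s + f (h s x)) / 2) ^ 2) =
        fun x => 1 / 2 * (f s ^ 2 + f (h s x) ^ 2) + -1 / 4 * (f s - f (h s x)) ^ 2 :=
      funext fun x => by ring
    rw [e, Ex_add, Ex_mul, Ex_mul, Ex_add, Ex_const] at a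
    rw [Kop_lz]
    nlinarith [mul_le_mul_of_nonneg_left a (hw s hs)]
  refine (sum_le_sum h2).trans (le_of_eq ?_)
  simp only [sum_sub_distrib, ← sum_div, sum_add_distrib, h1, Dir]
  ring

theorem Kop_sub (k : ℕ) (h : σ → List Bool → σ) (f : σ → ℝ) (c : ℝ) :
    Kop k h (fun s => f s - c) = fun s => Kop k h f s - c := by
  funext s
  simp only [Kop, sub_eq_add_neg, Ex_add, Ex_const]

/-- mixing in the weighted `L²` norm -/
theorem mix_sq (hw : ∀ s ∈ Ω, 0 ≤ w s) (hR : Rev Ω w k h) {γ : ℝ} (γ4 : γ ≤ 4)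
    (hP : ∀ f : σ → ℝ, ∑ s ∈ Ω, w s * f s = 0 → γ * ∑ s ∈ Ω, w s * f s ^ 2 ≤ Dir Ω w k h f)
    (f : σ → ℝ) (c : ℝ) (hc : ∑ s ∈ Ω, w s * (f s - c) = 0) (t : ℕ) :
    ∑ s ∈ Ω, w s * ((Kop (k + 1) (lz h))^[t] f s - c) = 0 ∧
      ∑ s ∈ Ω, w s * ((Kop (k + 1) (lz h))^[t] f s - c) ^ 2 ≤
        (1 - γ / 4) ^ t * ∑ s ∈ Ω, w s * (f s - c) ^ 2 := by
  induction t with
  | zero => exact ⟨hc, by simp⟩
  | succ t ih =>
    have e := Kop_sub (k + 1) (lz h) ((Kop (k + 1) (lz h))^[t] f) c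
    have a1 := lz_sum hR fun s => (Kop (k + 1) (lz h))^[t] f s - c
    have a2 := lz_sq hw hR fun s => (Kop (k + 1) (lz h))^[t] f s - c
    have a3 := hP _ ih.1
    rw [e] at a1 a2
    simp only [Function.iterate_succ_apply']
    refine ⟨a1.trans ih.1, a2.trans ?_⟩
    rw [pow_succ', mul_assoc]
    have := mul_le_mul_of_nonneg_left ih.2 (show 0 ≤ 1 - γ / 4 by linarith)
    linarith

/-- mixing from any start state, for `0 ≤ f ≤ 1` -/
theorem mix (hw : ∀ s ∈ Ω, 0 < w s) (hR : Rev Ω w k h) {γ : ℝ} (γ4 : γ ≤ 4)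
    (hP : ∀ f : σ → ℝ, ∑ s ∈ Ω, w s * f s = 0 → γ * ∑ s ∈ Ω, w s * f s ^ 2 ≤ Dir Ω w k h f)
    {f : σ → ℝ} (h0 : ∀ s ∈ Ω, 0 ≤ f s) (h1 : ∀ s ∈ Ω, f s ≤ 1) (t : ℕ) {n : ℕ}
    (hn : (k + 1) * t ≤ n) {s₀ : σ} (hs : s₀ ∈ Ω) :
    w s₀ * (Ex n (fun r => f (rit (k + 1) (lz h) t s₀ r)) -
      (∑ s ∈ Ω, w s * f s) / ∑ s ∈ Ω, w s) ^ 2 ≤ (1 - γ / 4) ^ t * ∑ s ∈ Ω, w s := by
  have hZ : 0 < ∑ s ∈ Ω, w s := sum_pos hw ⟨s₀, hs⟩
  set c := (∑ s ∈ Ω, w s * f s) / ∑ s ∈ Ω, w s with hcd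
  have c0 : 0 ≤ c := div_nonneg (sum_nonneg fun s hs => mul_nonneg (hw s hs).le (h0 s hs)) hZ.le
  have c1 : c ≤ 1 := by
    rw [hcd, div_le_one hZ]
    exact sum_le_sum fun s hs => mul_le_of_le_one_right (hw s hs).le (h1 s hs)
  have hc : ∑ s ∈ Ω, w s * (f s - c) = 0 := by
    simp only [mul_sub, sum_sub_distrib, ← sum_mul]
    rw [hcd]
    field_simp
    ring
  have key := (mix_sq (fun s hs => (hw s hs).le) hR γ4 hP f c hc t).2
  rw [Ex_rit _ _ _ _ _ _ hn]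
  refine (single_le_sum (f := fun s => w s * ((Kop (k + 1) (lz h))^[t] f s - c) ^ 2)
    (fun s hs => mul_nonneg (hw s hs).le (sq_nonneg _)) hs).trans (key.trans ?_)
  refine mul_le_mul_of_nonneg_left (sum_le_sum fun s hs => ?_) (pow_nonneg (by linarith) _)
  refine mul_le_of_le_one_right (hw s hs).le ?_
  nlinarith [h0 s hs, h1 s hs]

/-- the walk stays in the state space -/
theorem rit_mem (hc : ∀ s ∈ Ω, ∀ x : List Bool, h s x ∈ Ω) (j t : ℕ) : ∀ {s : σ}, s ∈ Ω →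
    ∀ r, rit j (lz h) t s r ∈ Ω := by
  induction t with
  | zero => intro s hs r; exact hs
  | succ t ih =>
    intro s hs r
    simp only [rit, Function.iterate_succ_apply, rst]
    refine ih ?_ _
    unfold lz
    split_ifs
    exacts [hc s hs _, hs]

/-- numerical form: after `t = N * j` steps with `4 ≤ γ N` the error is `2^(-j)` -/
theorem pow_le_half {γ : ℝ} (γ4 : γ ≤ 4) {N : ℕ} (hN : 4 ≤ γ * N) (j : ℕ) :
    (1 - γ / 4) ^ (N * j) ≤ (1 / 2) ^ j := by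
  rw [pow_mul]
  refine pow_le_pow_left₀ (pow_nonneg (by linarith) _) ?_ j
  have h1 : (1 - γ / 4) ^ N ≤ Real.exp (-(γ / 4)) ^ N :=
    pow_le_pow_left₀ (by linarith) (by linarith [Real.add_one_le_exp (-(γ / 4))]) N
  rw [← Real.exp_nat_mul] at h1
  refine h1.trans ((Real.exp_le_exp.mpr (show (N : ℝ) * -(γ / 4) ≤ -1 by nlinarith)).trans ?_)
  rw [Real.exp_neg, one_div]
  exact inv_anti₀ two_pos (by linarith [Real.add_one_le_exp (1 : ℝ)])

end

end Pool.Agent.FL.Mix28
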