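import Pool.Agent.Lib.FL.Strip5
import Pool.Agent.Lib.MP_b67cc8_lc.Tutte

/-! The cycle matroid of an edge list, indexed by positions, with its rank oracle. -/

namespace Pool.Agent.Lib.FL.H10
open Finset Pool.Agent.Lib.helper82 Pool.Agent.Lib.MP_b67cc8_lc
open Pool.Agent.Lib.MP_dec383_lc (UN)

/-- the edges at the positions in `A` -/
def sel (E : EL) (A : Finset ℕ) : EL :=
  ((List.range E.length).filter fun i => decide (i ∈ A)).map fun i => E.getD i (0, 0)

/-- the rank of the set of edges at the positions in `A` -/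
def gr (E : EL) (A : Finset ℕ) : ℕ := rk id (sel E A)

lemma mem_sel {E : EL} {A : Finset ℕ} {e : ℕ × ℕ} :
    e ∈ sel E A ↔ ∃ i, i < E.length ∧ i ∈ A ∧ E.getD i (0, 0) = e := by
  simp [sel, and_assoc]

lemma sel_mono (E : EL) {A B : Finset ℕ} (h : A ⊆ B) : sel E A ⊆ sel E B := fun _ he => by
  obtain ⟨i, h1, h2, h3⟩ := mem_sel.1 he
  exact mem_sel.2 ⟨i, h1, h h2, h3⟩

lemma rk_concat (e : ℕ × ℕ) (L : EL) : ∀ f,
    rk f (L ++ [e]) = rk f L + if lab f L e.1 = lab f L e.2 then 0 else 1 := by
  induction L with
  | nil => intro f; simp only [List.nil_append, rk, lab, zero_add, add_zero] <;> rfl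
  | cons d L ih => intro f; simp only [List.cons_append, rk, lab, ih, add_assoc] <;> rfl

lemma gr_insert (E : EL) (A : Finset ℕ) (i : ℕ) : gr E (insert i A) = gr E A +
    if i < E.length then (if lab id (sel E A) (E.getD i (0, 0)).1 =
      lab id (sel E A) (E.getD i (0, 0)).2 then 0 else 1) else 0 := by
  by_cases hi : i < E.length
  · rw [if_pos hi, gr, gr, ← rk_concat]
    refine le_antisymm (rk_mono _ fun e he => ?_) (rk_mono _ fun e he => ?_)
    · obtain ⟨j, h1, h2, h3⟩ := mem_sel.1 he
      rcases mem_insert.1 h2 with rfl | h2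
      · simp [← h3]
      · exact List.mem_append_left _ (mem_sel.2 ⟨j, h1, h2, h3⟩)
    · rcases List.mem_append.1 he with h | h
      · exact sel_mono E (subset_insert _ _) h
      · exact mem_sel.2 ⟨i, hi, mem_insert_self _ _, (List.mem_singleton.1 h).symm⟩
  · rw [if_neg hi, add_zero]
    refine le_antisymm (rk_mono _ fun e he => ?_) (rk_mono _ (sel_mono E (subset_insert _ _)))
    obtain ⟨j, h1, h2, h3⟩ := mem_sel.1 he
    rcases mem_insert.1 h2 with rfl | h2
    · exact absurd h1 hi
    · exact mem_sel.2 ⟨j, h1, h2, h3⟩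

theorem gr_isRk (E : EL) : H5.IsRk (gr E) where
  emp := by simp [gr, sel, rk]
  mono A B h := rk_mono _ (sel_mono E h)
  ins A e := by rw [gr_insert]; split_ifs <;> omega
  dim A B e h := by
    have h3 := (lab_univ (L := sel E A) (f := id) (φ := lab id (sel E B))).2
      ⟨(lab_self id _).1, fun d hd => (lab_self id _).2 d (sel_mono E h hd)⟩
      (E.getD e (0, 0)).1 (E.getD e (0, 0)).2
    rw [gr_insert, gr_insert]
    split_ifs with h1 h2 h4 h4
    · omega
    · omega
    · exact absurd (h3 h4) h2
    · omega
    · omega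

lemma sel_length {E : EL} {A : Finset ℕ} (h : A ⊆ range E.length) : (sel E A).length = A.card := by
  rw [sel, List.length_map, H5.len_filter]
  congr 1
  ext i
  simp only [mem_filter]
  exact ⟨fun h => h.2, fun h' => ⟨h h', h'⟩⟩

lemma sel_concat (E : EL) (a : ℕ × ℕ) (A : Finset ℕ) :
    sel (E ++ [a]) A = sel E A ++ if E.length ∈ A then [a] else [] := by
  rw [sel, List.length_append, List.length_singleton, List.range_succ, List.filter_append,
    List.map_append, sel]
  congr 1
  · refine List.map_congr_left fun i hi => ?_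
    rw [List.getD_append _ _ _ _ (List.mem_range.1 (List.mem_filter.1 hi).1)]
  · by_cases h : E.length ∈ A <;> simp [h]

lemma sel_congr (E : EL) {A B : Finset ℕ} (h : ∀ i < E.length, i ∈ A ↔ i ∈ B) :
    sel E A = sel E B := by
  unfold sel
  congr 1
  exact List.filter_congr fun i hi => by simp [h i (List.mem_range.1 hi)]

lemma sel_range (E : EL) : sel E (range E.length) = E := by
  induction E using List.reverseRecOn with
  | nil => rfl
  | append_singleton E a ih =>
    rw [sel_concat, if_pos (by simp), sel_congr E (B := range E.length) (by simp; omega), ih]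

lemma sum_sublists (E : EL) : ∀ φ : EL → ℚ,
    (E.sublists.map φ).sum = ∑ A ∈ (range E.length).powerset, φ (sel E A) := by
  induction E using List.reverseRecOn with
  | nil => intro φ; simp [sel]
  | append_singleton E a ih =>
    intro φ
    rw [List.sublists_concat, List.map_append, List.sum_append, List.map_map, ih, ih,
      List.length_append, List.length_singleton, range_add_one,
      sum_powerset_insert notMem_range_self]
    congr 1
    · refine sum_congr rfl fun A hA => ?_
      rw [sel_concat, if_neg fun h => notMem_range_self (mem_powerset.1 hA h), List.append_nil]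
    · refine sum_congr rfl fun A _ => ?_
      rw [sel_concat, if_pos (mem_insert_self _ _),
        sel_congr E (A := insert E.length A) (B := A) fun i hi => by simp [hi.ne]]
      rfl

lemma sel_subset (E : EL) (A : Finset ℕ) : sel E A ⊆ E := by
  conv_rhs => rw [← sel_range E]
  intro e he
  obtain ⟨i, h1, -, h3⟩ := mem_sel.1 he
  exact mem_sel.2 ⟨i, h1, mem_range.2 h1, h3⟩

/-- the rank through the number of components -/
lemma rank_eq {n : ℕ} {A : EL} (hA : ∀ e ∈ A, e.1 < n ∧ e.2 < n) :
    n - Nat.card (SimpleGraph.fromRel fun u v : Fin n => (u.val, v.val) ∈ A).ConnectedComponent =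
      rk id A := by
  have := comps_eq hA
  omega

/-- the subset expansion over sublists is the Tutte sum of `gr E` -/
theorem tutte_eq (E : EL) (r : EL → ℕ) (hr : ∀ A, A ⊆ E → r A = rk id A) (x y : ℚ) :
    (E.sublists.map fun A => (x - 1) ^ (r E - r A) * (y - 1) ^ (A.length - r A)).sum =
      A80.tut E.length (gr E) x y := by
  rw [sum_sublists, A80.tut]
  refine sum_congr rfl fun A hA => ?_
  rw [hr E fun _ h => h, hr _ (sel_subset E A), sel_length (mem_powerset.1 hA), gr, gr, sel_range]

/-! ### Polynomial time -/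

/-- the label after a list of substitutions -/
def ev (M : EL) (w : ℕ) : ℕ := M.foldl (fun z p => if z = p.2 then p.1 else z) w

/-- the labelled edges at the time they are read -/
def mg (f : ℕ → ℕ) : EL → EL
  | [] => []
  | e :: L => (f e.1, f e.2) :: mg (mrg f e.1 e.2) L

lemma fold_mg (L : EL) : ∀ M : EL,
    L.foldl (fun M e => M ++ [(ev M e.1, ev M e.2)]) M = M ++ mg (ev M) L := by
  induction L with
  | nil => intro M; simp [mg]
  | cons e L ih =>
    intro M
    have : ev (M ++ [(ev M e.1, ev M e.2)]) = mrg (ev M) e.1 e.2 := by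
      funext w
      simp only [ev, List.foldl_append, List.foldl_cons, List.foldl_nil, mrg] <;> rfl
    rw [List.foldl_cons, ih, this, mg, List.append_assoc, List.singleton_append]

lemma rk_mg (L : EL) : ∀ f, rk f L = ((mg f L).filter fun p => !decide (p.1 = p.2)).length := by
  induction L with
  | nil => intro f; rfl
  | cons e L ih =>
    intro f
    rw [rk, mg, ih, List.filter_cons]
    by_cases h : f e.1 = f e.2 <;> simp [h, add_comm]

lemma sz_mg (D : ℕ) (L : EL) : ∀ f, (∀ e ∈ L, sz (f e.1) ≤ D ∧ sz (f e.2) ≤ D) →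
    sz (mg f L) ≤ L.length * (6 * D + 3) := by
  induction L with
  | nil => intro f _; simp [mg, sz_nil]
  | cons e L ih =>
    intro f h
    obtain ⟨⟨a, b⟩, h3⟩ := List.forall_mem_cons.1 h
    have := ih (mrg f e.1 e.2) fun d hd => by
      have := h3 d hd
      unfold mrg
      constructor <;> split_ifs <;> omega
    rw [mg, sz_cons, sz_prod, List.length_cons]
    nlinarith

variable {α : Type} [Enc α]

theorem ev_pt {M : α → EL} {w : α → ℕ} (hM : PT M) (hw : PT w) : PT fun a => ev (M a) (w a) :=
  PT.foldl_add (h := fun _ (z : ℕ) (p : ℕ × ℕ) => if z = p.2 then p.1 else z) hM hw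
    (PT.iteEq (PT.fst PT.snd') (PT.snd (PT.snd PT.snd')) (PT.fst (PT.snd PT.snd'))
      (PT.fst PT.snd')) (fun a => sz (M a)) hM.sz_bd fun a s b hb => by
      have := sz_le_of_mem hb
      rw [← Prod.mk.eta (p := b), sz_prod] at this
      split_ifs <;> omega

theorem rk_pt {D : α → EL} (hD : PT D) : PT fun a => rk id (D a) := by
  have h1 : PT fun a => (D a).foldl (fun M e => M ++ [(ev M e.1, ev M e.2)]) [] :=
    PT.foldl (h := fun _ (M : EL) (e : ℕ × ℕ) => M ++ [(ev M e.1, ev M e.2)]) hD (PT.const [])
      (PT.append (PT.fst PT.snd') (PT.cons (PT.pair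
        (ev_pt (PT.fst PT.snd') (PT.fst (PT.snd PT.snd')))
        (ev_pt (PT.fst PT.snd') (PT.snd (PT.snd PT.snd')))) (PT.const [])))
      (fun a => sz (D a) * (6 * sz (D a) + 3))
      (hD.sz_bd.mul (((Bd.const 6).mul hD.sz_bd).add (Bd.const 3))) fun a k => by
        rw [fold_mg, List.nil_append]
        refine (sz_mg (sz (D a)) _ _ fun e he => ?_).trans (Nat.mul_le_mul_right _
          ((List.length_take_le' _ _).trans (length_le_sz _)))
        have := sz_le_of_mem (List.mem_of_mem_take he)
        rw [← Prod.mk.eta (p := e), sz_prod] at this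
        simp only [ev, List.foldl_nil]
        omega
  have h2 := PT.length (PT.filter (P := fun _ (p : ℕ × ℕ) => !decide (p.1 = p.2)) h1
    (PT.not (PT.eq (PT.fst PT.snd') (PT.snd PT.snd'))))
  refine h2.congr fun a => ?_
  rw [fold_mg, List.nil_append, rk_mg]
  rfl

/-- the cycle matroids form a family with a polynomial time rank oracle -/
theorem fam_graph {D : α → EL} (hD : PT D) (ok : α → Prop) :
    H5.Fam (fun a => (D a).length) (fun a => gr (D a)) ok := by
  have hm : UN fun a => (D a).length := UN.length hD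
  refine ⟨hm, fun a L => rk id (((List.range (D a).length).filter fun i => decide (i ∈ L)).map
    fun i => (D a).getD i (0, 0)), rk_pt (PT.map (F := fun (p : α × List ℕ) (i : ℕ) =>
      (D p.1).getD i (0, 0)) (PT.filter (P := fun (p : α × List ℕ) (e : ℕ) => decide (e ∈ p.2))
        (hm.comp PT.fst').range (PT.mem PT.snd' (PT.snd PT.fst')))
      (MP_dec383_lc.ptGetD (PT.comp hD (PT.fst PT.fst')) PT.snd' _)),
    fun a _ => ⟨(gr_isRk _).to64, fun L _ => ?_⟩⟩
  simp only [gr, sel, List.mem_toFinset]

end Pool.Agent.Lib.FL.H10
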