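import Pool.Agent.Lib.FL.Mix28

/-! A product estimator with one sample per stage, and simulated annealing. -/

namespace Pool.Agent.FL.Mix28

open Finset Pool.Agent.Lib.MP_b67cc8_lc

/-- one stage: multiply numerator and denominator -/
def pst (u v : ℕ → List Bool → ℕ) (s : ℕ × ℕ × ℕ) (x : List Bool) : ℕ × ℕ × ℕ :=
  (s.1 + 1, s.2.1 * u s.1 x, s.2.2 * v s.1 x)

theorem pst_mom (K : ℕ) (u v : ℕ → List Bool → ℕ) (e t : ℕ) : ∀ j a b : ℕ,
    (Kop K (pst u v))^[t] (fun s => ((s.2.1 : ℝ) / s.2.2) ^ e) (j, a, b) =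
      ((a : ℝ) / b) ^ e * ∏ i ∈ range t, Ex K fun x => ((u (j + i) x : ℝ) / v (j + i) x) ^ e := by
  induction t with
  | zero => intro j a b; simp
  | succ t ih =>
    intro j a b
    rw [Function.iterate_succ_apply', Kop, prod_range_succ', mul_comm (∏ i ∈ range t, _),
      ← mul_assoc, mul_right_comm, ← Ex_mul]
    refine Ex_congr fun x _ => ?_
    simp only [pst, ih, add_zero]
    have e1 : ∀ i, j + 1 + i = j + (i + 1) := fun i => by omega
    simp only [e1]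
    push_cast
    rw [mul_div_mul_comm, mul_pow]
    ring

theorem prod_est {K N k R : ℕ} (hR : K * N ≤ R) (k0 : 0 < k) (u v : ℕ → List Bool → ℕ)
    (ν : ℕ → ℝ) {η δ : ℝ} (δ0 : 0 ≤ δ) (hν : ∀ j, j < N → 0 < ν j)
    (h1 : ∀ j, j < N → |Ex K (fun x => (u j x : ℝ) / v j x) - ν j| ≤ δ * ν j)
    (h2 : ∀ j, j < N → ∀ x : List Bool, x.length = K → |(u j x : ℝ) / v j x - ν j| ≤ η * ν j)
    (hs : 8 * (k : ℝ) ^ 2 * N * (η ^ 2 + 3 * δ) ≤ 1)
    (P : ℕ × ℕ × ℕ → Prop) [DecidablePred P] (hP : ∀ s, 0 < s.2.2 →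
      |(s.2.1 : ℝ) / s.2.2 - ∏ j ∈ range N, ν j| ≤ (∏ j ∈ range N, ν j) / k → P s) :
    (3 : ℝ) / 4 ≤ Ex R fun r => if P (rit K (pst u v) N (0, 1, 1) r) then 1 else 0 := by
  have m1 := pst_mom K u v 1 N 0 1 1
  have m2 := pst_mom K u v 2 N 0 1 1
  rw [← Ex_rit _ _ _ _ R _ hR] at m1 m2
  simp only [pow_one, Nat.cast_one, div_one, one_mul, zero_add, one_pow] at m1 m2
  set T := ∏ j ∈ range N, ν j with hT
  have T0 : 0 < T := prod_pos fun j hj => hν j (mem_range.1 hj)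
  have k1 : (1 : ℝ) ≤ k := by exact_mod_cast k0
  have N0 : (0 : ℝ) ≤ N := Nat.cast_nonneg N
  have hk2 : (1 : ℝ) ≤ (k : ℝ) ^ 2 := one_le_pow₀ k1
  have q0 : 0 ≤ (N : ℝ) * (η ^ 2 + 3 * δ) := by positivity
  have q1 : (N : ℝ) * (η ^ 2 + 3 * δ) ≤ 1 / 8 := by nlinarith
  have a1 : (1 - N * δ) * T ≤ ∏ i ∈ range N, Ex K fun x => (u i x : ℝ) / v i x := by
    rcases Nat.eq_zero_or_pos N with rfl | hN
    · simp [hT]
    have N1 : (1 : ℝ) ≤ N := by exact_mod_cast hN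
    have δ1 : δ ≤ 1 := by nlinarith [sq_nonneg η]
    calc (1 - N * δ) * T ≤ (1 - δ) ^ N * T := by
          refine mul_le_mul_of_nonneg_right ?_ T0.le
          have := one_add_mul_le_pow (show (-2 : ℝ) ≤ -δ by linarith) N
          simpa [sub_eq_add_neg] using this
      _ = ∏ i ∈ range N, ((1 - δ) * ν i) := by rw [prod_mul_distrib, prod_const, card_range]
      _ ≤ _ := prod_le_prod (fun i hi => mul_nonneg (by linarith) (hν i (mem_range.1 hi)).le)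
          fun i hi => by linarith [(abs_le.1 (h1 i (mem_range.1 hi))).1]
  have a2 : (∏ i ∈ range N, Ex K fun x => ((u i x : ℝ) / v i x) ^ 2) ≤
      (1 + 2 * (N * (η ^ 2 + 2 * δ))) * T ^ 2 := by
    calc _ ≤ ∏ i ∈ range N, ((1 + (η ^ 2 + 2 * δ)) * ν i ^ 2) := by
          refine prod_le_prod (fun i _ => Ex_nonneg fun _ _ => sq_nonneg _) fun i hi => ?_
          have hi' := mem_range.1 hi
          have b1 : (Ex K fun x => ((u i x : ℝ) / v i x) ^ 2) ≤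
              Ex K fun x => (η * ν i) ^ 2 - ν i ^ 2 + 2 * ν i * ((u i x : ℝ) / v i x) :=
            Ex_mono fun x hx => by
              have := sq_le_sq' (abs_le.1 (h2 i hi' x hx)).1 (abs_le.1 (h2 i hi' x hx)).2
              nlinarith
          rw [Ex_add, Ex_const, Ex_mul] at b1
          nlinarith [mul_le_mul_of_nonneg_left (abs_le.1 (h1 i hi')).2 (hν i hi').le]
      _ = (1 + (η ^ 2 + 2 * δ)) ^ N * T ^ 2 := by
          rw [prod_mul_distrib, prod_const, card_range, prod_pow]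
      _ ≤ _ := by
          refine mul_le_mul_of_nonneg_right ?_ (sq_nonneg _)
          have b1 : (1 + (η ^ 2 + 2 * δ)) ^ N ≤ Real.exp (N * (η ^ 2 + 2 * δ)) := by
            rw [Real.exp_nat_mul]
            refine pow_le_pow_left₀ (by positivity) ?_ N
            linarith [Real.add_one_le_exp (η ^ 2 + 2 * δ)]
          have b0 : 0 ≤ (N : ℝ) * (η ^ 2 + 2 * δ) := by positivity
          have b2 := (abs_le.1 (Real.abs_exp_sub_one_le (x := N * (η ^ 2 + 2 * δ)) (by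
            rw [abs_of_nonneg b0]; nlinarith))).2
          rw [abs_of_nonneg b0] at b2
          linarith
  rw [← m1] at a1
  rw [← m2] at a2
  generalize rit K (pst u v) N (0, 1, 1) = S at *
  refine le_trans ?_ (Ex_mono (f := fun r => (1 - k ^ 2) + (2 * k ^ 2 / T * ((S r).2.1 / (S r).2.2)
    + -(k ^ 2 / T ^ 2) * ((S r).2.1 / (S r).2.2) ^ 2)) fun r _ => ?_)
  · rw [Ex_add, Ex_add, Ex_const, Ex_mul, Ex_mul]
    generalize (Ex R fun r => ((S r).2.1 : ℝ) / (S r).2.2) = A at *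
    generalize (Ex R fun r => (((S r).2.1 : ℝ) / (S r).2.2) ^ 2) = B at *
    have c1 : 2 * (k : ℝ) ^ 2 * (1 - N * δ) ≤ 2 * k ^ 2 / T * A := by
      rw [div_mul_eq_mul_div, le_div_iff₀ T0]
      nlinarith
    have c2 : (k : ℝ) ^ 2 / T ^ 2 * B ≤ k ^ 2 * (1 + 2 * (N * (η ^ 2 + 2 * δ))) := by
      rw [div_mul_eq_mul_div, div_le_iff₀ (by positivity)]
      nlinarith
    nlinarith
  · generalize S r = s
    set y : ℝ := s.2.1 / s.2.2 / T with hy
    have e : (1 - k ^ 2 : ℝ) + (2 * k ^ 2 / T * (s.2.1 / s.2.2) +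
        -(k ^ 2 / T ^ 2) * (s.2.1 / s.2.2) ^ 2) = 1 - (k * (y - 1)) ^ 2 := by
      rw [hy]
      generalize (s.2.1 : ℝ) / s.2.2 = z
      field_simp
      ring
    rw [e]
    split_ifs with h
    · linarith [sq_nonneg (k * (y - 1))]
    · by_contra c
      have c0 := (sq_lt_one_iff_abs_lt_one _).1 (show (k * (y - 1)) ^ 2 < 1 by linarith)
      have c1 := abs_lt.1 c0
      have y0 : 0 < y := by nlinarith
      refine h (hP s (Nat.pos_of_ne_zero fun e => by simp [hy, e] at y0) ?_)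
      have e3 : (s.2.1 : ℝ) / s.2.2 - T = T / k * (k * (y - 1)) := by
        rw [hy]; field_simp
      rw [e3, abs_mul, abs_of_pos (by positivity)]
      exact mul_le_of_le_one_right (by positivity) c0.le

variable {σ : Type}

/-- simulated annealing: one sample per stage estimates the ratio of the partition functions -/
theorem anneal {Ω : Finset σ} (w : ℕ → σ → ℝ) (h : ℕ → σ → List Bool → σ) (U V : ℕ → σ → ℕ)
    {b t N k R : ℕ} (hR : (b + 1) * t * N ≤ R) (k0 : 0 < k) {s₀ : σ} (hs₀ : s₀ ∈ Ω)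
    {γ η δ : ℝ} (γ4 : γ ≤ 4) (η2 : η ≤ 1 / 2) (δ0 : 0 ≤ δ)
    (hw : ∀ j, j ≤ N → ∀ s ∈ Ω, 0 < w j s)
    (hc : ∀ j, j < N → ∀ s ∈ Ω, ∀ x, h j s x ∈ Ω)
    (hrev : ∀ j, j < N → Rev Ω (w j) b (h j))
    (hgap : ∀ j, j < N → ∀ f : σ → ℝ, ∑ s ∈ Ω, w j s * f s = 0 →
      γ * ∑ s ∈ Ω, w j s * f s ^ 2 ≤ Dir Ω (w j) b (h j) f)
    (hUV : ∀ j, j < N → ∀ s ∈ Ω, w (j + 1) s = w j s * ((U j s : ℝ) / V j s))
    (hη : ∀ j, j < N → ∀ s ∈ Ω, |(U j s : ℝ) / V j s - 1| ≤ η)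
    (hδ : ∀ j, j < N → (1 - γ / 4) ^ t * ∑ s ∈ Ω, w j s ≤ δ ^ 2 * w j s₀)
    (hs : 32 * (k : ℝ) ^ 2 * N * (4 * η ^ 2 + 3 * δ) ≤ 1)
    (P : ℕ × ℕ × ℕ → Prop) [DecidablePred P] (hP : ∀ s, 0 < s.2.2 →
      |(s.2.1 : ℝ) / s.2.2 - (∑ s ∈ Ω, w N s) / ∑ s ∈ Ω, w 0 s| ≤
        (∑ s ∈ Ω, w N s) / (∑ s ∈ Ω, w 0 s) / k → P s) :
    (3 : ℝ) / 4 ≤ Ex R fun r => if P (rit ((b + 1) * t)
      (pst (fun j x => U j (rit (b + 1) (lz (h j)) t s₀ x))
        fun j x => V j (rit (b + 1) (lz (h j)) t s₀ x)) N (0, 1, 1) r) then 1 else 0 := by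
  have hZ : ∀ j, j ≤ N → 0 < ∑ s ∈ Ω, w j s := fun j hj => sum_pos (hw j hj) ⟨s₀, hs₀⟩
  have tel : ∀ n, n ≤ N → ∏ j ∈ range n, ((∑ s ∈ Ω, w (j + 1) s) / ∑ s ∈ Ω, w j s) =
      (∑ s ∈ Ω, w n s) / ∑ s ∈ Ω, w 0 s := by
    intro n hn
    induction n with
    | zero => simp [div_self (hZ 0 hn).ne']
    | succ n ih =>
      rw [prod_range_succ, ih (by omega)]
      have := (hZ n (by omega)).ne'
      field_simp
  have hν : ∀ j, j < N → |(∑ s ∈ Ω, w (j + 1) s) / (∑ s ∈ Ω, w j s) - 1| ≤ η := by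
    intro j hj
    have Z0 := hZ j hj.le
    rw [abs_le, le_sub_iff_add_le, sub_le_iff_le_add, le_div_iff₀ Z0, div_le_iff₀ Z0, mul_sum,
      mul_sum]
    constructor <;> refine sum_le_sum fun s hs => ?_
    · rw [hUV j hj s hs]
      nlinarith [(abs_le.1 (hη j hj s hs)).1, hw j hj.le s hs]
    · rw [hUV j hj s hs]
      nlinarith [(abs_le.1 (hη j hj s hs)).2, hw j hj.le s hs]
  refine prod_est hR k0 _ _ (fun j => (∑ s ∈ Ω, w (j + 1) s) / ∑ s ∈ Ω, w j s) (η := 4 * η)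
    (δ := 4 * δ) (by positivity) (fun j hj => div_pos (hZ _ hj) (hZ _ hj.le)) (fun j hj => ?_)
    (fun j hj x _ => ?_) (by nlinarith) P (by rw [tel N le_rfl]; exact hP)
  · have a := mix (hw j hj.le) (hrev j hj) γ4 (hgap j hj)
      (f := fun s => 1 / 2 * ((U j s : ℝ) / V j s)) (fun s _ => by positivity)
      (fun s hs => by linarith [(abs_le.1 (hη j hj s hs)).2]) t le_rfl hs₀
    have e : ∑ s ∈ Ω, w j s * (1 / 2 * ((U j s : ℝ) / V j s)) = 1 / 2 * ∑ s ∈ Ω, w (j + 1) s := by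
      rw [mul_sum]
      exact sum_congr rfl fun s hs => by rw [hUV j hj s hs]; ring
    rw [Ex_mul, e, mul_div_assoc, ← mul_sub] at a
    have a2 := le_of_mul_le_mul_left ((a.trans (hδ j hj)).trans_eq (mul_comm _ _))
      (hw j hj.le s₀ hs₀)
    have a3 := abs_le_of_sq_le_sq' a2 δ0
    have a4 := (abs_le.1 (hν j hj)).1
    rw [abs_le]
    constructor <;> nlinarith [a3.1, a3.2]
  · have a1 := abs_le.1 (hη j hj _ (rit_mem (hc j hj) (b + 1) t hs₀ x))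
    have a2 := abs_le.1 (hν j hj)
    have η0 : 0 ≤ η := (abs_nonneg _).trans (hν j hj)
    rw [abs_le]
    constructor <;> nlinarith [a1.1, a1.2, a2.1, a2.2]

end Pool.Agent.FL.Mix28
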