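import Mathlib

set_option autoImplicit false

open Finset

namespace Pool.Agent.Lib.FL.H89

/-- the pointwise identity behind the rank three inequality -/
theorem flag_id {a N n u al be : ℝ} (ha : 0 < a) (hN : a < N) (hn : N < n) :
    2 * ((u - al) * (al / N)) + 2 * ((u - be) * (be / (n - a))) +
        (a / N * al ^ 2 + (n - N) / (n - a) * be ^ 2 - 2 * (al * be)) / n ≤
      ((n - N) * (u - al) ^ 2 / N + a * (u - be) ^ 2 / (n - a) + 2 * ((u - al) * (u - be))) /
        (N - a) := by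
  have h1 : 0 < N - a := by linarith
  have h2 : 0 < n - a := by linarith
  have h3 : 0 < N := by linarith
  have h4 : 0 < n := by linarith
  have key : ((n - N) * (u - al) ^ 2 / N + a * (u - be) ^ 2 / (n - a) + 2 * ((u - al) * (u - be))) /
        (N - a) - (2 * ((u - al) * (al / N)) + 2 * ((u - be) * (be / (n - a))) +
        (a / N * al ^ 2 + (n - N) / (n - a) * be ^ 2 - 2 * (al * be)) / n) =
      n * (n + (N - a)) / ((N - a) * N * (n - a)) * (u - ((n - a) * al + N * be) / n) ^ 2 := by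
    field_simp
    ring
  have : 0 ≤ n * (n + (N - a)) / ((N - a) * N * (n - a)) *
      (u - ((n - a) * al + N * be) / n) ^ 2 := by positivity
  linarith

/-- the rank three inequality: weighted points and lines, two points on exactly one line -/
theorem rank3 {α β : Type} (S : Finset α) (T : Finset β) (I : α → β → Prop)
    [∀ p q, Decidable (I p q)] (a : α → ℝ) (N : β → ℝ) (n : ℝ)
    (hpos : ∀ p ∈ S, ∀ q ∈ T, I p q → 0 < a p ∧ a p < N q ∧ N q < n)
    (hS : ∀ p ∈ S, a p < n)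
    (hT : ∀ q ∈ T, 0 < N q)
    (h1 : ∀ q ∈ T, ∑ p ∈ S with I p q, a p = N q)
    (h2 : ∀ p ∈ S, ∑ q ∈ T with I p q, (N q - a p) = n - a p)
    (h3 : ∀ p ∈ S, ∀ p' ∈ S, p ≠ p' → (T.filter fun q => I p q ∧ I p' q).card = 1)
    (u : α → β → ℝ) (al : β → ℝ) (be : α → ℝ)
    (hx : ∀ q ∈ T, ∑ p ∈ S with I p q, (u p q - al q) = 0)
    (hy : ∀ p ∈ S, ∑ q ∈ T with I p q, (u p q - be p) = 0) :
    0 ≤ ∑ p ∈ S, ∑ q ∈ T with I p q,
      ((n - N q) * (u p q - al q) ^ 2 / N q + a p * (u p q - be p) ^ 2 / (n - a p) +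
        2 * ((u p q - al q) * (u p q - be p))) / (N q - a p) := by
  classical
  rcases S.eq_empty_or_nonempty with rfl | hne
  · simp
  have hc : (0 : ℝ) < S.card := by exact_mod_cast hne.card_pos
  set t : ℝ := (∑ p ∈ S, be p) / S.card with ht
  set A : β → ℝ := fun q => al q - t with hA
  set B : α → ℝ := fun p => be p - t with hB
  have hB0 : ∑ p ∈ S, B p = 0 := by
    simp only [hB, sum_sub_distrib, sum_const, nsmul_eq_mul, ht]
    field_simp
    ring
  have swap : ∀ f : α → β → ℝ, ∑ p ∈ S, ∑ q ∈ T with I p q, f p q =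
      ∑ q ∈ T, ∑ p ∈ S with I p q, f p q := fun f => by
    simp only [sum_filter]
    exact sum_comm
  have hn : 0 ≤ n := by
    obtain ⟨p, hp⟩ := hne
    by_contra hneg
    have h5 := h2 p hp
    have h6 : T.filter (I p) = ∅ := by
      refine filter_eq_empty_iff.2 fun q hq hI => ?_
      obtain ⟨e1, e2, e3⟩ := hpos p hp q hq hI
      exact hneg (by linarith)
    rw [h6, sum_empty] at h5
    linarith [hS p hp]
  have hle : ∑ p ∈ S, ∑ q ∈ T with I p q,
      (2 * ((u p q - al q) * (A q / N q)) + 2 * ((u p q - be p) * (B p / (n - a p))) +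
      (a p / N q * A q ^ 2 + (n - N q) / (n - a p) * B p ^ 2 - 2 * (A q * B p)) / n) ≤
      ∑ p ∈ S, ∑ q ∈ T with I p q,
      ((n - N q) * (u p q - al q) ^ 2 / N q + a p * (u p q - be p) ^ 2 / (n - a p) +
        2 * ((u p q - al q) * (u p q - be p))) / (N q - a p) := by
    refine sum_le_sum fun p hp => sum_le_sum fun q hq => ?_
    obtain ⟨hq, hI⟩ := mem_filter.1 hq
    obtain ⟨e1, e2, e3⟩ := hpos p hp q hq hI
    have := flag_id (u := u p q - t) (al := A q) (be := B p) e1 e2 e3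
    simpa only [hA, hB, sub_sub_sub_cancel_right] using this
  refine le_trans ?_ hle
  have e1 : ∑ p ∈ S, ∑ q ∈ T with I p q, 2 * ((u p q - al q) * (A q / N q)) = 0 := by
    rw [swap]
    refine sum_eq_zero fun q hq => ?_
    rw [← mul_sum, ← sum_mul, hx q hq, zero_mul, mul_zero]
  have e2 : ∑ p ∈ S, ∑ q ∈ T with I p q, 2 * ((u p q - be p) * (B p / (n - a p))) = 0 := by
    refine sum_eq_zero fun p hp => ?_
    rw [← mul_sum, ← sum_mul, hy p hp, zero_mul, mul_zero]
  have e3 : ∑ p ∈ S, ∑ q ∈ T with I p q, a p / N q * A q ^ 2 = ∑ q ∈ T, A q ^ 2 := by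
    rw [swap]
    refine sum_congr rfl fun q hq => ?_
    rw [← sum_mul, ← sum_div, h1 q hq, div_self (hT q hq).ne', one_mul]
  have e4 : ∑ p ∈ S, ∑ q ∈ T with I p q, (n - N q) / (n - a p) * B p ^ 2 =
      ∑ p ∈ S, (((T.filter (I p)).card : ℝ) - 1) * B p ^ 2 := by
    refine sum_congr rfl fun p hp => ?_
    have h0 : n - a p ≠ 0 := (sub_pos.2 (hS p hp)).ne'
    have h5 : ∑ q ∈ T with I p q, (n - N q) =
        ((T.filter (I p)).card : ℝ) * (n - a p) - (n - a p) := by
      rw [← h2 p hp]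
      nth_rewrite 1 [h2 p hp]
      rw [← nsmul_eq_mul, ← sum_const, ← sum_sub_distrib]
      exact sum_congr rfl fun q _ => by ring
    rw [← sum_mul, ← sum_div, h5]
    field_simp
  have e5 : ∑ p ∈ S, ∑ q ∈ T with I p q, 2 * (A q * B p) =
      ∑ q ∈ T, 2 * (A q * ∑ p ∈ S with I p q, B p) := by
    rw [swap]
    exact sum_congr rfl fun q _ => by rw [← mul_sum, ← mul_sum]
  have e6 : ∑ q ∈ T, (∑ p ∈ S with I p q, B p) ^ 2 =
      ∑ p ∈ S, (((T.filter (I p)).card : ℝ) - 1) * B p ^ 2 := by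
    have f1 : ∀ q, (∑ p ∈ S with I p q, B p) ^ 2 =
        ∑ p ∈ S, ∑ p' ∈ S, if I p q ∧ I p' q then B p * B p' else 0 := fun q => by
      rw [sq, sum_filter, sum_mul_sum]
      refine sum_congr rfl fun p _ => sum_congr rfl fun p' _ => ?_
      by_cases h : I p q <;> by_cases h' : I p' q <;> simp [h, h']
    simp only [f1]
    rw [sum_comm]
    have f2 : ∀ p ∈ S, ∑ q ∈ T, ∑ p' ∈ S, (if I p q ∧ I p' q then B p * B p' else 0) =
        (((T.filter (I p)).card : ℝ) - 1) * B p ^ 2 + B p * ∑ p' ∈ S, B p' := fun p hp => by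
      rw [sum_comm]
      have f3 : ∀ p' ∈ S, ∑ q ∈ T, (if I p q ∧ I p' q then B p * B p' else 0) =
          (if p' = p then (((T.filter (I p)).card : ℝ) - 1) * B p ^ 2 else 0) + B p * B p' :=
        fun p' hp' => by
          rw [← sum_filter, sum_const, nsmul_eq_mul]
          by_cases h : p' = p
          · subst h
            simp only [and_self, if_true]
            ring
          · rw [h3 p hp p' hp' (Ne.symm h), if_neg h]
            simp
      rw [sum_congr rfl f3, sum_add_distrib, sum_ite_eq' S p, if_pos hp, mul_sum]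
    rw [sum_congr rfl f2, hB0]
    simp
  simp only [sum_add_distrib, ← sum_div, sum_sub_distrib]
  rw [e1, e2, e3, e4, e5, ← e6, ← sum_add_distrib, ← sum_sub_distrib, zero_add, zero_add]
  refine div_nonneg (sum_nonneg fun q _ => ?_) hn
  nlinarith [sq_nonneg (A q - ∑ p ∈ S with I p q, B p)]

/-- row and column fluctuations on a product are positively correlated -/
theorem prod2 {α β : Type} (S : Finset α) (T : Finset β) (u : α → β → ℝ) (al : β → ℝ) (be : α → ℝ)
    (hx : ∀ q ∈ T, ∑ p ∈ S, (u p q - al q) = 0) (hy : ∀ p ∈ S, ∑ q ∈ T, (u p q - be p) = 0) :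
    0 ≤ ∑ p ∈ S, ∑ q ∈ T, (u p q - al q) * (u p q - be p) := by
  rcases S.eq_empty_or_nonempty with rfl | hne
  · simp
  have hc : (0 : ℝ) < S.card := by exact_mod_cast hne.card_pos
  set t : ℝ := (∑ p ∈ S, be p) / S.card with ht
  have hB0 : ∑ p ∈ S, (be p - t) = 0 := by
    simp only [sum_sub_distrib, sum_const, nsmul_eq_mul, ht]
    field_simp
    ring
  have e1 : ∑ p ∈ S, ∑ q ∈ T, (u p q - al q) * (al q - t) = 0 := by
    rw [sum_comm]
    exact sum_eq_zero fun q hq => by rw [← sum_mul, hx q hq, zero_mul]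
  have e2 : ∑ p ∈ S, ∑ q ∈ T, (u p q - be p) * (be p - t) = 0 :=
    sum_eq_zero fun p hp => by rw [← sum_mul, hy p hp, zero_mul]
  have e3 : ∑ p ∈ S, ∑ q ∈ T, (al q - t) * (be p - t) = 0 := by
    rw [sum_comm]
    exact sum_eq_zero fun q _ => by rw [← mul_sum, hB0, mul_zero]
  have e4 : ∑ p ∈ S, ∑ q ∈ T, (u p q - al q) * (u p q - be p) =
      ∑ p ∈ S, ∑ q ∈ T, (u p q - al q - be p + t) ^ 2 +
        ∑ p ∈ S, ∑ q ∈ T, (u p q - al q) * (al q - t) +
        ∑ p ∈ S, ∑ q ∈ T, (u p q - be p) * (be p - t) -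
        ∑ p ∈ S, ∑ q ∈ T, (al q - t) * (be p - t) := by
    simp only [← sum_add_distrib, ← sum_sub_distrib]
    exact sum_congr rfl fun p _ => sum_congr rfl fun q _ => by ring
  rw [e4, e1, e2, e3, add_zero, add_zero, sub_zero]
  exact sum_nonneg fun p _ => sum_nonneg fun q _ => sq_nonneg _

/-- a discrete Bochner inequality gives a Poincare inequality -/
theorem poincare_of_bochner {Ω : Type} (S : Finset Ω) (w : Ω → ℝ) (hw : ∀ x ∈ S, 0 < w x)
    (L : (Ω → ℝ) →ₗ[ℝ] (Ω → ℝ)) (ρ : ℝ) (hρ : 0 ≤ ρ)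
    (hsym : ∀ u v, ∑ x ∈ S, w x * (u x * L v x) = ∑ x ∈ S, w x * (v x * L u x))
    (hone : ∀ x ∈ S, L (fun _ => 1) x = 0)
    (hpsd : ∀ u, 0 ≤ ∑ x ∈ S, w x * (u x * L u x))
    (hker : ∀ u, (∀ x ∈ S, L u x = 0) → ∀ x ∈ S, ∀ y ∈ S, u x = u y)
    (hboch : ∀ u, ρ * ∑ x ∈ S, w x * (u x * L u x) ≤ ∑ x ∈ S, w x * L u x ^ 2) (u : Ω → ℝ) :
    ρ * ∑ x ∈ S, w x * (u x - (∑ y ∈ S, w y * u y) / ∑ y ∈ S, w y) ^ 2 ≤
      ∑ x ∈ S, w x * (u x * L u x) := by
  classical
  rcases S.eq_empty_or_nonempty with rfl | hne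
  · simp
  have hZ : 0 < ∑ y ∈ S, w y := sum_pos hw hne
  have hmean : ∀ v, ∑ x ∈ S, w x * L v x = 0 := fun v => by
    have := hsym (fun _ => 1) v
    simp only [one_mul] at this
    rw [this]
    exact sum_eq_zero fun x hx => by rw [hone x hx, mul_zero, mul_zero]
  let ex : (S → ℝ) →ₗ[ℝ] (Ω → ℝ) :=
    { toFun := fun v x => if h : x ∈ S then v ⟨x, h⟩ else 0
      map_add' := fun v v' => by
        funext x
        by_cases h : x ∈ S <;> simp [h]
      map_smul' := fun c v => by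
        funext x
        by_cases h : x ∈ S <;> simp [h] }
  have hex : ∀ (v : S → ℝ) (x : S), ex v x = v x := fun v x => by
    show (if h : x.1 ∈ S then v ⟨x, h⟩ else 0) = v x
    rw [dif_pos x.2]
  let T : (S → ℝ) →ₗ[ℝ] (S → ℝ) :=
    { toFun := fun v x => L (ex v) x + ∑ y ∈ S, w y * ex v y
      map_add' := fun v v' => by
        funext x
        simp only [map_add, Pi.add_apply, mul_add, sum_add_distrib]
        ring
      map_smul' := fun c v => by
        funext x
        simp only [map_smul, Pi.smul_apply, smul_eq_mul, RingHom.id_apply, mul_add, mul_sum]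
        congr 1
        exact sum_congr rfl fun y _ => by ring }
  have hT : ∀ (v : S → ℝ) (x : Ω) (hx : x ∈ S),
      T v ⟨x, hx⟩ = L (ex v) x + ∑ y ∈ S, w y * ex v y := fun v x hx => rfl
  have hTm : ∀ (v : S → ℝ) (f : Ω → ℝ), (∀ x (hx : x ∈ S), T v ⟨x, hx⟩ = f x) →
      ∑ x ∈ S, w x * f x = 0 → ∑ y ∈ S, w y * ex v y = 0 := fun v f hf h0 => by
    have e : ∑ x ∈ S, w x * f x =
        ∑ x ∈ S, w x * L (ex v) x + (∑ x ∈ S, w x) * ∑ y ∈ S, w y * ex v y := by
      rw [sum_mul, ← sum_add_distrib]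
      exact sum_congr rfl fun x hx => by rw [← hf x hx, hT, mul_add]
    rw [h0, hmean, zero_add] at e
    exact (mul_eq_zero.1 e.symm).resolve_left hZ.ne'
  have hinj : Function.Injective T := by
    rw [← LinearMap.ker_eq_bot, LinearMap.ker_eq_bot']
    intro v hv
    have h0 := hTm v 0 (fun x hx => by rw [hv]; rfl) (by simp)
    have h1 : ∀ x ∈ S, L (ex v) x = 0 := fun x hx => by
      have := hT v x hx
      rw [hv, h0, add_zero] at this
      exact this.symm
    funext x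
    have h2 : ∑ y ∈ S, w y * ex v y = (∑ y ∈ S, w y) * ex v x := by
      rw [sum_mul]
      exact sum_congr rfl fun y hy => by rw [hker _ h1 y hy x x.2]
    rw [h0, hex] at h2
    exact (mul_eq_zero.1 h2.symm).resolve_left hZ.ne'
  set m : ℝ := (∑ y ∈ S, w y * u y) / ∑ y ∈ S, w y with hm
  obtain ⟨v, hv⟩ := LinearMap.injective_iff_surjective.1 hinj fun x => u x - m
  have hu0 : ∑ x ∈ S, w x * (u x - m) = 0 := by
    simp only [mul_sub, sum_sub_distrib, ← sum_mul, hm]
    field_simp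
    ring
  have h0 := hTm v (fun x => u x - m) (fun x hx => by rw [hv]) hu0
  have h1 : ∀ x ∈ S, L (ex v) x = u x - m := fun x hx => by
    have := hT v x hx
    rw [hv, h0, add_zero] at this
    exact this.symm
  set z := ex v with hz
  set Q := ∑ x ∈ S, w x * (u x - m) ^ 2 with hQ
  have a1 : ∑ x ∈ S, w x * (u x * L z x) = Q := by
    have e : ∑ x ∈ S, w x * (u x * L z x) = Q + m * ∑ x ∈ S, w x * (u x - m) := by
      rw [hQ, mul_sum, ← sum_add_distrib]
      exact sum_congr rfl fun x hx => by rw [h1 x hx]; ring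
    rw [e, hu0, mul_zero, add_zero]
  have a2 : ρ * ∑ x ∈ S, w x * (z x * L z x) ≤ Q :=
    (hboch z).trans_eq (sum_congr rfl fun x hx => by rw [h1 x hx])
  have a3 := hpsd (u - ρ • z)
  have a4 : ∑ x ∈ S, w x * ((u - ρ • z) x * L (u - ρ • z) x) =
      ∑ x ∈ S, w x * (u x * L u x) - ρ * ∑ x ∈ S, w x * (u x * L z x) -
        ρ * ∑ x ∈ S, w x * (z x * L u x) + ρ * (ρ * ∑ x ∈ S, w x * (z x * L z x)) := by
    simp only [map_sub, map_smul, Pi.sub_apply, Pi.smul_apply, smul_eq_mul, mul_sum,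
      ← sum_sub_distrib, ← sum_add_distrib]
    exact sum_congr rfl fun x _ => by ring
  rw [a4, ← hsym u z, a1] at a3
  nlinarith [mul_le_mul_of_nonneg_left a2 hρ]

end Pool.Agent.Lib.FL.H89
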