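import Pool.Agent.Lib.FL.A80
import Pool.Agent.Lib.FL.Rk5

/-! From the oracle theorem at `(1, 0)` to the strip `1 ≤ x`, `0 ≤ y < 1` and its dual. -/

namespace Pool.Agent.Lib.FL.H5
open Finset Pool.Agent.Lib.helper82 Pool.Agent.Lib.MP_b67cc8_lc
open Pool.Agent.Lib.MP_dec383_lc (UN)

theorem IsRk.to64 {ι : Type} [DecidableEq ι] {ρ : Finset ι → ℕ} (h : IsRk ρ) : H64.IsRk ρ := by
  refine ⟨h.emp, h.mono, h.ins, fun A B => ?_⟩
  have key : ∀ C : Finset ι, ρ (A ∪ C) + ρ (A ∩ B) ≤ ρ A + ρ (A ∩ B ∪ C) := fun C => by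
    induction C using Finset.induction_on with
    | empty => simp
    | insert e C _ ih =>
      have := h.dim (A ∩ B ∪ C) (A ∪ C) e (union_subset_union_left inter_subset_left)
      rw [union_insert, union_insert]
      omega
  have := key B
  rwa [union_eq_right.2 inter_subset_right] at this

theorem of64 {ι : Type} [DecidableEq ι] {ρ : Finset ι → ℕ} (h : H64.IsRk ρ) : IsRk ρ := by
  refine ⟨h.empty, h.mono, h.ins, fun A B e hAB => ?_⟩
  have h1 := h.sub (insert e A) B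
  have h2 := h.mono A (insert e A ∩ B) (subset_inter (subset_insert _ _) hAB)
  rw [insert_union, union_eq_right.2 hAB] at h1
  omega

/-! ### The gadget -/

/-- the class map: position `s` lies over the element `s / g`, on the path `c (s % g)` -/
def cm (g : ℕ) (c : ℕ → ℕ) (s : ℕ) : ℕ × ℕ := (s / g, c (s % g))

/-- every element is replaced by `J` parallel paths of lengths `a + 1, ..., a + J` -/
def gad (a J g : ℕ) (c : ℕ → ℕ) (m : ℕ) (ρ : Finset ℕ → ℕ) : Finset ℕ → ℕ :=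
  ser (range m ×ˢ range J) (cm g c) (fun p => a + 1 + p.2) (par Prod.fst ρ)

lemma exists_cls (k : ℕ → ℕ) (J : ℕ) : ∃ (g : ℕ) (c : ℕ → ℕ), (∀ u < g, c u < J) ∧
    ∀ i < J, ((range g).filter fun u => c u = i).card = k i := by
  induction J with
  | zero => exact ⟨0, id, by simp, by simp⟩
  | succ J ih =>
    obtain ⟨g, c, h1, h2⟩ := ih
    refine ⟨g + k J, fun u => if u < g then c u else J, fun u _ => ?_, fun i hi => ?_⟩
    · beta_reduce
      split_ifs with h
      · exact (h1 u h).trans (Nat.lt_succ_self J)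
      · omega
    · rcases Nat.lt_succ_iff_lt_or_eq.1 hi with hi | rfl
      · rw [← h2 i hi]
        congr 1
        ext u
        simp only [mem_filter, mem_range]
        split_ifs with h
        · exact ⟨fun h3 => ⟨h, h3.2⟩, fun h3 => ⟨by omega, h3.2⟩⟩
        · omega
      · have : ((range (g + k i)).filter fun u => (if u < g then c u else i) = i) =
            Ico g (g + k i) := by
          ext u
          simp only [mem_filter, mem_range, mem_Ico]
          split_ifs with h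
          · have := h1 u h; omega
          · omega
        rw [this]; simp

lemma card_fib_cm {g : ℕ} (hg : 0 < g) (c : ℕ → ℕ) (A : Finset ℕ) (e i : ℕ) :
    (fib (cm g c) A (e, i)).card = ((range g).filter fun u => c u = i ∧ e * g + u ∈ A).card := by
  symm
  refine card_bij (fun u _ => e * g + u) (fun u hu => ?_) (fun u _ v _ h => by omega) fun s hs => ?_
  · simp only [mem_filter, mem_range] at hu
    simp only [fib, cm, mem_filter, Prod.mk.injEq]
    refine ⟨hu.2.2, ?_, ?_⟩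
    · rw [mul_comm, Nat.mul_add_div hg, Nat.div_eq_of_lt hu.1, add_zero]
    · rw [mul_comm, Nat.mul_add_mod, Nat.mod_eq_of_lt hu.1, hu.2.1]
  · simp only [fib, cm, mem_filter, Prod.mk.injEq] at hs
    have h1 : e * g + s % g = s := by rw [← hs.2.1]; exact Nat.div_add_mod' s g
    exact ⟨s % g, by simp [Nat.mod_lt _ hg, hs.2.2, h1, hs.1], h1⟩

lemma prod_tel (a J : ℕ) :
    ∏ i ∈ range J, (1 + -1 / ((a + 1 + i : ℕ) : ℚ)) = a / (a + J : ℕ) ∨ J = 0 := by
  induction J with
  | zero => simp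
  | succ J ih =>
    left
    rw [prod_range_succ]
    rcases ih with ih | rfl
    · rw [ih]
      rcases Nat.eq_zero_or_pos (a + J) with h | h
      · obtain ⟨rfl, rfl⟩ : a = 0 ∧ J = 0 := by omega
        simp
      · have : ((a + J : ℕ) : ℚ) ≠ 0 := by exact_mod_cast h.ne'
        push_cast at this ⊢
        field_simp
        ring
    · simp only [range_zero, prod_empty]
      push_cast
      field_simp
      ring

section
variable {a J g : ℕ} {c : ℕ → ℕ} {ρ : Finset ℕ → ℕ}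

lemma gad_rk (h : IsRk ρ) (m : ℕ) : IsRk (gad a J g c m ρ) :=
  (h.par _).ser _ _ fun _ _ => by omega

theorem gad_mu (h : IsRk ρ) (hJ : 0 < J) (h1 : ∀ u < g, c u < J)
    (h2 : ∀ i < J, ((range g).filter fun u => c u = i).card = a + 1 + i) (m : ℕ) :
    tut (range (m * g)) (gad a J g c m ρ) 1 0 = ((∏ i ∈ range J, (a + 1 + i) : ℕ) : ℚ) ^ m *
      ((J : ℚ) / (a + J : ℕ)) ^ ρ (range m) * tut (range m) ρ 1 (a / (a + J : ℕ)) := by
  have hg : 0 < g := by
    rcases Nat.eq_zero_or_pos g with rfl | hg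
    · have := h2 0 hJ; simp at this
    · exact hg
  have hi : (range m ×ˢ range J).image Prod.fst = range m :=
    product_image_fst (nonempty_range_iff.2 hJ.ne')
  obtain ⟨e1, e2⟩ := Zs_ser (h.par Prod.fst) (cm g c) (fun p => a + 1 + p.2) (range m ×ˢ range J)
    (range (m * g)) (fun s hs => by
      simp only [cm, mem_product, mem_range] at hs ⊢
      exact ⟨(Nat.div_lt_iff_lt_mul hg).2 hs, h1 _ (Nat.mod_lt _ hg)⟩) (fun _ _ => by omega)
    (fun p hp => by
      obtain ⟨e, i⟩ := p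
      simp only [mem_product, mem_range] at hp
      rw [card_fib_cm hg, ← h2 i hp.2]
      congr 1
      refine filter_congr fun u hu => and_iff_left ?_
      rw [mem_range] at hu ⊢
      nlinarith [hp.1])
  have e3 : Zs (range m) ρ (fun e => ∏ x ∈ fib Prod.fst (range m ×ˢ range J) e,
      (1 + -1 / ((a + 1 + x.2 : ℕ) : ℚ)) - 1) = Zs (range m) ρ fun _ => (a : ℚ) / (a + J : ℕ) - 1 := by
    refine sum_congr rfl fun A hA => ?_
    congr 1
    refine prod_congr rfl fun e he => ?_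
    have : fib Prod.fst (range m ×ˢ range J) e = {e} ×ˢ range J := by
      ext ⟨u, v⟩
      simp only [fib, mem_filter, mem_product, mem_singleton]
      exact ⟨fun h => ⟨h.2, h.1.2⟩, fun h => ⟨⟨h.1 ▸ mem_powerset.1 hA he, h.2⟩, h.1⟩⟩
    beta_reduce
    rw [this, prod_product, prod_singleton, (prod_tel a J).resolve_right hJ.ne']
  have e4 : ((a + J : ℕ) : ℚ) ≠ 0 := by exact_mod_cast (by omega : a + J ≠ 0)
  have e5 : (a : ℚ) / (a + J : ℕ) - 1 = -1 * ((J : ℚ) / (a + J : ℕ)) := by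
    field_simp; push_cast; ring
  rw [← mu_eq (gad_rk h m), mu, gad, e1, e2, Zs_par, hi, e3, Zs_const h, add_sub_cancel, e5,
    prod_mul_distrib, prod_pow_eq_pow_sum, par, hi, prod_product]
  simp only [prod_const, card_range, Nat.cast_prod, pow_add, mul_pow]
  have e6 : ∀ n : ℕ, (-1 : ℚ) ^ n * (-1) ^ n = 1 := fun n => by rw [← mul_pow]; simp
  linear_combination ((∏ i ∈ range J, ((a + 1 + i : ℕ) : ℚ)) ^ m * ((J : ℚ) / (a + J : ℕ)) ^ ρ (range m) *
    tut (range m) ρ 1 (a / (a + J : ℕ))) * ((-1 : ℚ) ^ ρ (range m) * (-1) ^ ρ (range m) *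
      e6 (∑ p ∈ range m ×ˢ range J, (a + 1 + p.2 - 1)) + e6 (ρ (range m)))

end

/-! ### Families of matroids with an oracle -/

variable {α : Type} [Enc α]

/-- a family of matroids on `range (m a)` with a polynomial time rank oracle -/
def Fam (m : α → ℕ) (ρ : α → Finset ℕ → ℕ) (ok : α → Prop) : Prop :=
  UN m ∧ ∃ O : α → List ℕ → ℕ, (PT fun p : α × List ℕ => O p.1 p.2) ∧
    ∀ a, ok a → H64.IsRk (ρ a) ∧ A80.Orc (m a) (ρ a) (O a)

/-- `f` has an estimator with relative mean square error `1 / (4 k ^ 2)` -/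
def MS (k : α → ℕ) (ok : α → Prop) (f : α → ℚ) : Prop :=
  ∃ (A : α → List Bool → ℕ × ℕ) (L : α → ℕ), (PT fun p : α × List Bool => A p.1 p.2) ∧ UN L ∧
    ∀ a, ok a → 0 < k a → ∀ l, L a ≤ l → (∀ x, 0 < (A a x).2) ∧
      Ex l (fun x => (((A a x).1 : ℝ) / (A a x).2 - (f a : ℚ)) ^ 2) ≤
        ((f a : ℚ) : ℝ) ^ 2 / (4 * k a ^ 2)

variable {m k : α → ℕ} {ρ : α → Finset ℕ → ℕ} {ok : α → Prop}

lemma Fam.un (h : Fam m ρ ok) : UN m ∧ ∃ O : α → List ℕ → ℕ, (UN fun p : α × List ℕ => O p.1 p.2) ∧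
    ∀ a, ok a → IsRk (ρ a) ∧ A80.Orc (m a) (ρ a) (O a) := by
  obtain ⟨hm, O, hO, h⟩ := h
  refine ⟨hm, fun a L => min (m a) (O a L), (hm.comp PT.fst').min hO, fun a ha =>
    ⟨of64 (h a ha).1, fun L hL => ?_⟩⟩
  have h1 := (of64 (h a ha).1).le_card L.toFinset
  have h2 : L.toFinset.card ≤ (range (m a)).card :=
    card_le_card fun e he => mem_range.2 (hL e (List.mem_toFinset.1 he))
  rw [card_range] at h2
  beta_reduce
  rw [(h a ha).2 L hL]
  omega

lemma Fam.rk (h : Fam m ρ ok) : ∃ r : α → ℕ, UN r ∧ ∀ a, ok a → r a = ρ a (range (m a)) := by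
  obtain ⟨hm, O, hO, h⟩ := h.un
  refine ⟨fun a => O a (List.range (m a)), hO.comp (PT.pair PT.id hm.range), fun a ha => ?_⟩
  beta_reduce
  rw [(h a ha).2 _ fun e he => List.mem_range.1 he, List.toFinset_range]

lemma Fam.comp {β : Type} [Enc β] (h : Fam m ρ ok) {F : β → α} (hF : PT F) :
    Fam (fun b => m (F b)) (fun b => ρ (F b)) fun b => ok (F b) := by
  obtain ⟨hm, O, hO, h⟩ := h
  exact ⟨hm.comp hF, fun b => O (F b), PT.comp hO (PT.pair (PT.comp hF PT.fst') PT.snd'),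
    fun b hb => h _ hb⟩

lemma Fam.trunc (h : Fam m ρ ok) {j : α → ℕ} (hj : PT j) :
    Fam m (fun a => trunc (j a) (ρ a)) ok := by
  obtain ⟨hm, O, hO, h⟩ := h.un
  refine ⟨hm, fun a L => min (O a L) (j a), (hO.min (PT.comp hj PT.fst')).pt, fun a ha =>
    ⟨((h a ha).1.trunc _).to64, fun L hL => ?_⟩⟩
  beta_reduce
  rw [(h a ha).2 L hL, H5.trunc]

lemma len_filter (n : ℕ) (P : ℕ → Prop) [DecidablePred P] :
    ((List.range n).filter fun e => decide (P e)).length = ((range n).filter P).card := rfl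

lemma toF_filter (n : ℕ) (P : ℕ → Prop) [DecidablePred P] :
    ((List.range n).filter fun e => decide (P e)).toFinset = (range n).filter P := by
  ext e; simp

lemma Fam.dual (h : Fam m ρ ok) : Fam m (fun a => dual (range (m a)) (ρ a)) ok := by
  obtain ⟨r, hr, hr'⟩ := h.rk
  obtain ⟨hm, O, hO, h⟩ := h.un
  have hm' : PT fun p : α × List ℕ => List.range (m p.1) := (hm.comp PT.fst').range
  have hP : PT fun q : (α × List ℕ) × ℕ => decide (q.2 ∈ q.1.2) := PT.mem PT.snd' (PT.snd PT.fst')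
  have hN : PT fun q : (α × List ℕ) × ℕ => decide (q.2 ∉ q.1.2) :=
    (PT.not hP).congr fun _ => by simp
  have h1 : PT fun p : α × List ℕ => (List.range (m p.1)).filter fun e => decide (e ∈ p.2) :=
    PT.filter (P := fun (p : α × List ℕ) (e : ℕ) => decide (e ∈ p.2)) hm' hP
  have h2 : PT fun p : α × List ℕ => (List.range (m p.1)).filter fun e => decide (e ∉ p.2) :=
    PT.filter (P := fun (p : α × List ℕ) (e : ℕ) => decide (e ∉ p.2)) hm' hN
  have h3 : UN fun p : α × List ℕ => O p.1 ((List.range (m p.1)).filter fun e => decide (e ∉ p.2)) :=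
    hO.comp (PT.pair PT.fst' h2)
  have h4 : PT fun p : α × List ℕ => r p.1 := PT.comp hr.pt PT.fst'
  refine ⟨hm, fun a L => ((List.range (m a)).filter fun e => decide (e ∈ L)).length +
    O a ((List.range (m a)).filter fun e => decide (e ∉ L)) - r a,
    (((UN.length h1).add h3).sub h4).pt, fun a ha => ⟨((h a ha).1.dual _).to64, fun L hL => ?_⟩⟩
  have e1 : (range (m a)).filter (fun e => e ∈ L) = L.toFinset := by
    ext e
    simpa using hL e
  have e2 : (range (m a)).filter (fun e => e ∉ L) = range (m a) \ L.toFinset := by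
    ext e
    simp
  beta_reduce
  rw [(h a ha).2 _ fun e he => List.mem_range.1 (List.mem_filter.1 he).1, hr' a ha, len_filter,
    toF_filter, e1, e2, H5.dual]

lemma sum_rng (n : ℕ) (F : ℕ → ℕ) : ((List.range n).map F).sum = ∑ i ∈ range n, F i := rfl

lemma prod_rng (n : ℕ) (F : ℕ → ℕ) : ((List.range n).map F).prod = ∏ i ∈ range n, F i := rfl

lemma Fam.gad (h : Fam m ρ ok) (a J : ℕ) {g : ℕ} (hg : 0 < g) (c : ℕ → ℕ) :
    Fam (fun z => m z * g) (fun z => gad a J g c (m z) (ρ z)) ok := by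
  obtain ⟨hm, O, hO, h⟩ := h.un
  have hm' : PT fun p : α × List ℕ => List.range (m p.1) := (hm.comp PT.fst').range
  have hc : UN fun q : ((α × List ℕ) × ℕ) × ℕ => (((List.range g).map fun u => (u, c u)).filter
      fun w => decide (w.2 = q.2 ∧ q.1.2 * g + w.1 ∈ q.1.1.2)).length :=
    UN.length (PT.filter (P := fun (q : ((α × List ℕ) × ℕ) × ℕ) (w : ℕ × ℕ) =>
      decide (w.2 = q.2 ∧ q.1.2 * g + w.1 ∈ q.1.1.2)) (PT.const _)
      ((PT.and (PT.eq (PT.snd PT.snd') (PT.snd PT.fst')) (PT.mem (PT.add (PT.mul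
        (PT.snd (PT.fst PT.fst')) (PT.const g)) (PT.fst PT.snd'))
        (PT.snd (PT.fst (PT.fst PT.fst'))))).congr fun _ => by simp))
  have hc' : UN fun q : ((α × List ℕ) × ℕ) × ℕ =>
      (fib (cm g c) q.1.1.2.toFinset (q.1.2, q.2)).card := hc.congr fun q => by
    rw [card_fib_cm hg, List.filter_map, List.length_map, ← len_filter]
    congr 2
    ext u
    simp
  refine ⟨hm.mul (UN.const g), fun z L => ((List.range (m z)).map fun e => ((List.range J).map
      fun i => min (fib (cm g c) L.toFinset (e, i)).card (a + i)).sum).sum +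
      O z ((List.range (m z)).filter fun e => (List.range J).any fun i =>
        decide (a + 1 + i ≤ (fib (cm g c) L.toFinset (e, i)).card)), ?_,
    fun z hz => ⟨(gad_rk (h z hz).1 _).to64, fun L _ => ?_⟩⟩
  · refine ((UN.sum (f := fun (p : α × List ℕ) (e : ℕ) => ((List.range J).map
      fun i => min (fib (cm g c) p.2.toFinset (e, i)).card (a + i)).sum) hm'
      (UN.sum (f := fun (q : (α × List ℕ) × ℕ) (i : ℕ) =>
        min (fib (cm g c) q.1.2.toFinset (q.2, i)).card (a + i)) (PT.const _)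
        (hc'.min (PT.add (PT.const a) PT.snd')))).add (hO.comp (PT.pair PT.fst'
      (PT.filter (P := fun (p : α × List ℕ) (e : ℕ) => (List.range J).any fun i =>
        decide (a + 1 + i ≤ (fib (cm g c) p.2.toFinset (e, i)).card)) hm'
        (PT.any (P := fun (q : (α × List ℕ) × ℕ) (i : ℕ) =>
          decide (a + 1 + i ≤ (fib (cm g c) q.1.2.toFinset (q.2, i)).card)) (PT.const _)
          (PT.le (PT.add (PT.const _) PT.snd') hc'.pt)))))).pt
  · beta_reduce
    rw [(h z hz).2 _ fun e he => List.mem_range.1 (List.mem_filter.1 he).1, H5.gad, ser, par,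
      sum_product]
    simp only [sum_rng]
    congr 1
    · exact sum_congr rfl fun e _ => sum_congr rfl fun i _ => by congr 1; omega
    · congr 1
      ext e
      simp [and_assoc]

/-! ### Estimators -/

lemma ptProd {l : α → List ℕ} (hl : PT l) : PT fun a => (l a).prod :=
  (PT.foldl_add (h := fun _ (s b : ℕ) => s * b) hl (PT.const 1)
    (PT.mul (PT.fst PT.snd') (PT.snd PT.snd')) (fun a => sz (l a)) hl.sz_bd fun a s b hb => by
      have := PT.sz_mul_le s b
      have := sz_le_of_mem hb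
      omega).congr fun a => List.prod_eq_foldl.symm

lemma ptSum {l : α → List ℕ} (hl : PT l) : PT fun a => (l a).sum :=
  (PT.foldl_add (h := fun _ (s b : ℕ) => s + b) hl (PT.const 0)
    (PT.add (PT.fst PT.snd') (PT.snd PT.snd')) (fun a => sz (l a) + 1) (hl.sz_bd.add (Bd.const 1))
    fun a s b hb => by
      have := PT.sz_add_le s b
      have := sz_le_of_mem hb
      omega).congr fun a => List.sum_eq_foldl.symm

lemma ptPow (b : ℕ) {e : α → ℕ} (he : UN e) : PT fun a => b ^ e a :=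
  (PT.powU (PT.const b) he).congr fun _ => by simp

lemma MS.smul {f f' : α → ℚ} (h : MS k ok f) {p q : α → ℕ} (hp : PT p) (hq : PT q)
    (h0 : ∀ a, ok a → 0 < q a) (h1 : ∀ a, ok a → f' a = p a / q a * f a) : MS k ok f' := by
  obtain ⟨A, L, hA, hL, h⟩ := h
  refine ⟨fun a x => (p a * (A a x).1, q a * (A a x).2), L, PT.pair
    (PT.mul (PT.comp hp PT.fst') (PT.fst hA)) (PT.mul (PT.comp hq PT.fst') (PT.snd hA)), hL,
    fun a ha hk l hl => ⟨fun x => Nat.mul_pos (h0 a ha) ((h a ha hk l hl).1 x), ?_⟩⟩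
  have h2 := mul_le_mul_of_nonneg_left (h a ha hk l hl).2 (sq_nonneg ((p a : ℝ) / q a))
  rw [← Ex_mul] at h2
  refine le_trans (le_of_eq (Ex_congr fun x _ => ?_)) (h2.trans (le_of_eq ?_))
  · rw [h1 a ha]; push_cast; ring
  · rw [h1 a ha]; push_cast; ring

lemma Ex_sq_add (l : ℕ) (U V : List Bool → ℝ) {a b : ℝ} (ha : 0 ≤ a) (hb : 0 ≤ b)
    (hU : Ex l (fun x => U x ^ 2) ≤ a ^ 2) (hV : Ex l (fun x => V x ^ 2) ≤ b ^ 2) :
    Ex l (fun x => (U x + V x) ^ 2) ≤ (a + b) ^ 2 := by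
  have h1 : Ex l (fun x => U x * V x) ^ 2 ≤ Ex l (fun x => U x ^ 2) * Ex l fun x => V x ^ 2 := by
    simp only [Ex_sum, div_pow, div_mul_div_comm, ← sq ((2 : ℝ) ^ l)]
    gcongr
    exact sum_mul_sq_le_sq_mul_sq _ _ _
  have h2 : 0 ≤ Ex l fun x => V x ^ 2 := (Ex_const l 0).ge.trans (Ex_mono fun _ _ => sq_nonneg _)
  have h3 : Ex l (fun x => U x * V x) ≤ a * b :=
    le_trans (le_abs_self _) (abs_le_of_sq_le_sq' (h1.trans (by
      rw [mul_pow]; exact mul_le_mul hU hV h2 (sq_nonneg _))) (mul_nonneg ha hb) |> fun h =>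
        abs_le.2 h)
  have h4 : Ex l (fun x => (U x + V x) ^ 2) = Ex l (fun x => U x ^ 2) +
      (2 * Ex l (fun x => U x * V x) + Ex l fun x => V x ^ 2) := by
    rw [← Ex_mul, ← Ex_add, ← Ex_add]
    exact Ex_congr fun x _ => by ring
  nlinarith

lemma Ex_sq_sum (l : ℕ) (U : ℕ → List Bool → ℝ) (b : ℕ → ℝ) (n : ℕ) (hb : ∀ j < n, 0 ≤ b j)
    (hU : ∀ j < n, Ex l (fun x => U j x ^ 2) ≤ b j ^ 2) :
    Ex l (fun x => (∑ j ∈ range n, U j x) ^ 2) ≤ (∑ j ∈ range n, b j) ^ 2 := by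
  induction n with
  | zero => simp [Ex_const]
  | succ n ih =>
    simp only [sum_range_succ]
    exact Ex_sq_add l _ _ (sum_nonneg fun j hj => hb j (by rw [mem_range] at hj; omega))
      (hb n (by omega)) (ih (fun j hj => hb j (by omega)) fun j hj => hU j (by omega))
      (hU n (by omega))

lemma MS.sum {f : α × ℕ → ℚ} {ok' : α × ℕ → Prop} (h : MS (fun p => k p.1) ok' f) {n : α → ℕ}
    (hn : UN n) (h0 : ∀ a, ok a → ∀ j < n a, ok' (a, j) ∧ 0 ≤ f (a, j)) {f' : α → ℚ}
    (h1 : ∀ a, ok a → f' a = ∑ j ∈ range (n a), f (a, j)) : MS k ok f' := by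
  obtain ⟨A, L, hA, hL, h⟩ := h
  have hn' : PT fun p : α × List Bool => List.range (n p.1) := (hn.comp PT.fst').range
  have hA' : PT fun q : (α × List Bool) × ℕ => A (q.1.1, q.2) q.1.2 :=
    PT.comp hA (PT.pair (PT.pair (PT.fst PT.fst') PT.snd') (PT.snd PT.fst'))
  have hn2 : PT fun q : (α × List Bool) × ℕ => List.range (n q.1.1) := (hn.comp (PT.fst PT.fst')).range
  have hA2 : PT fun q : ((α × List Bool) × ℕ) × ℕ => A (q.1.1.1, q.2) q.1.1.2 :=
    PT.comp hA (PT.pair (PT.pair (PT.fst (PT.fst PT.fst')) PT.snd') (PT.snd (PT.fst PT.fst')))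
  refine ⟨fun a x => (((List.range (n a)).map fun j => (A (a, j) x).1 * ((List.range (n a)).map
      fun i => if i = j then 1 else (A (a, i) x).2).prod).sum,
      ((List.range (n a)).map fun i => (A (a, i) x).2).prod),
    fun a => ((List.range (n a)).map fun j => L (a, j)).sum, PT.pair ?_ ?_,
    UN.sum (f := fun a j => L (a, j)) hn.range hL, fun a ha hk l hl => ?_⟩
  · refine ptSum (PT.map (F := fun (p : α × List Bool) (j : ℕ) => (A (p.1, j) p.2).1 *
      ((List.range (n p.1)).map fun i => if i = j then 1 else (A (p.1, i) p.2).2).prod) hn'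
      (PT.mul (PT.fst hA') (ptProd (PT.map (F := fun (q : (α × List Bool) × ℕ) (i : ℕ) =>
        if i = q.2 then 1 else (A (q.1.1, i) q.1.2).2) hn2
        (PT.iteEq PT.snd' (PT.snd PT.fst') (PT.const 1) (PT.snd hA2))))))
  · exact ptProd (PT.map (F := fun (p : α × List Bool) (i : ℕ) => (A (p.1, i) p.2).2) hn'
      (PT.snd hA'))
  · simp only [sum_rng, prod_rng] at hl ⊢
    have h2 := fun j (hj : j < n a) => h (a, j) (h0 a ha j hj).1 hk l
      ((single_le_sum (f := fun j => L (a, j)) (fun _ _ => Nat.zero_le _) (mem_range.2 hj)).trans hl)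
    refine ⟨fun x => prod_pos fun i hi => (h2 i (mem_range.1 hi)).1 x, ?_⟩
    have hk' : (0 : ℝ) < k a := by exact_mod_cast hk
    have h3 := Ex_sq_sum l (fun j x => ((A (a, j) x).1 : ℝ) / (A (a, j) x).2 - (f (a, j) : ℚ))
      (fun j => ((f (a, j) : ℚ) : ℝ) / (2 * k a)) (n a)
      (fun j hj => div_nonneg (by exact_mod_cast (h0 a ha j hj).2) (by positivity))
      fun j hj => (h2 j hj).2.trans (le_of_eq (by ring))
    refine le_trans (le_of_eq (Ex_congr fun x _ => ?_)) (h3.trans (le_of_eq ?_))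
    · rw [h1 a ha, sum_sub_distrib]
      push_cast
      rw [sum_div]
      congr 2
      refine sum_congr rfl fun j hj => ?_
      have h4 : ((A (a, j) x).2 : ℝ) ≠ 0 := by exact_mod_cast ((h2 j (mem_range.1 hj)).1 x).ne'
      have h5 : ∏ i ∈ range (n a), ((A (a, i) x).2 : ℝ) ≠ 0 :=
        prod_ne_zero_iff.2 fun i hi => by exact_mod_cast ((h2 i (mem_range.1 hi)).1 x).ne'
      rw [div_eq_div_iff h5 h4, ← mul_prod_erase _ _ hj, ← mul_prod_erase _ _ hj, if_pos rfl,
        prod_congr rfl fun i hi => if_neg (ne_of_mem_erase hi)]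
      ring
    · rw [h1 a ha, ← sum_div]
      push_cast
      ring

/-! ### The strips -/

lemma exists_frac {y : ℚ} (h0 : 0 ≤ y) : ∃ p q : ℕ, 0 < q ∧ y = p / q :=
  ⟨y.num.natAbs, y.den, y.den_pos, by
    rw [Nat.cast_natAbs, abs_of_nonneg (Rat.num_nonneg.2 h0), Rat.num_div_den]⟩

theorem ms_y (H : A80.St_ORC) {y : ℚ} (h0 : 0 ≤ y) (h1 : y < 1) (h : Fam m ρ ok) (hk : UN k) :
    MS k ok fun z => tut (range (m z)) (ρ z) 1 y := by
  obtain ⟨a, b, hb, rfl⟩ := exists_frac h0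
  have hab : a < b := by
    rw [div_lt_one (by exact_mod_cast hb)] at h1
    exact_mod_cast h1
  obtain ⟨J, rfl⟩ : ∃ J, b = a + J := ⟨b - a, by omega⟩
  have hJ : 0 < J := by omega
  obtain ⟨g, c, c1, c2⟩ := exists_cls (fun i => a + 1 + i) J
  have hg : 0 < g := by
    rcases Nat.eq_zero_or_pos g with rfl | hg
    · have := c2 0 hJ; simp at this
    · exact hg
  obtain ⟨r, hr, hr'⟩ := h.rk
  obtain ⟨hm, O, hO, h2⟩ := h.gad a J hg c
  obtain ⟨A, L, hA, hL, h3⟩ := H α _ k O hm hk hO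
  have h4 : MS k ok fun z => tut (range (m z * g)) (gad a J g c (m z) (ρ z)) 1 0 :=
    ⟨A, L, hA, hL, fun z hz => h3 z _ (h2 z hz).1 (h2 z hz).2⟩
  have hP : 0 < ∏ i ∈ range J, (a + 1 + i) := prod_pos fun _ _ => by omega
  refine h4.smul (p := fun z => (a + J) ^ r z)
    (q := fun z => (∏ i ∈ range J, (a + 1 + i)) ^ m z * J ^ r z) (ptPow _ hr)
    (PT.mul (ptPow _ h.1) (ptPow _ hr)) (fun z _ => by positivity) fun z hz => ?_
  obtain ⟨-, _, -, h5⟩ := h.un
  rw [gad_mu (h5 z hz).1 hJ c1 c2, hr' z hz, div_pow]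
  have e1 : ((∏ i ∈ range J, (a + 1 + i) : ℕ) : ℚ) ≠ 0 := by exact_mod_cast hP.ne'
  have e2 : ((a + J : ℕ) : ℚ) ≠ 0 := by exact_mod_cast hb.ne'
  have e3 : (J : ℚ) ≠ 0 := by exact_mod_cast hJ.ne'
  rw [Nat.cast_mul, Nat.cast_pow, Nat.cast_pow, Nat.cast_pow]
  field_simp

lemma tut_comb {ι : Type} [DecidableEq ι] {σ : Finset ι → ℕ} (h : IsRk σ) (E : Finset ι) (x y : ℚ) :
    tut E σ x y = ∑ j ∈ range (σ E + 1), (x - 1) ^ (σ E - j) *
      (1 + if j = 0 then 0 else (1 - y) * (x - 1)) * tut E (trunc j σ) 1 y := by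
  have e1 : ∀ j ∈ range (σ E + 1), tut E (trunc j σ) 1 y = tau E σ y j := fun j hj => by
    rw [tau, if_pos (by rw [mem_range] at hj; omega)]
  rw [tut_trunc h]
  refine Eq.trans ?_ (sum_congr rfl fun j hj => by rw [e1 j hj]).symm
  simp only [mul_add, add_mul, sum_add_distrib, mul_one]
  congr 1
  rw [sum_range_succ, sum_range_succ', tau, if_neg (by omega)]
  simp only [if_true, mul_zero, zero_mul, add_zero, Nat.succ_ne_zero, if_false]
  refine sum_congr rfl fun j hj => ?_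
  rw [mem_range] at hj
  rw [show σ E - j = σ E - (j + 1) + 1 by omega]
  ring

theorem ms_xy (H : A80.St_ORC) {x y : ℚ} (hx : 1 ≤ x) (h0 : 0 ≤ y) (h1 : y < 1) (h : Fam m ρ ok)
    (hk : UN k) : MS k ok fun z => tut (range (m z)) (ρ z) x y := by
  obtain ⟨r, hr, hr'⟩ := h.rk
  have h2 := ms_y H h0 h1 ((h.comp (PT.fst' (β := ℕ))).trunc PT.snd') (hk.comp PT.fst')
  obtain ⟨p, q, hq, e1⟩ := exists_frac (sub_nonneg.2 hx)
  obtain ⟨s, t, ht, e2⟩ := exists_frac (sub_nonneg.2 h1.le)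
  have hr2 : UN fun w : α × ℕ => r w.1 - w.2 := (hr.comp PT.fst').sub PT.snd'
  have h3 := h2.smul (f' := fun w : α × ℕ => (x - 1) ^ (r w.1 - w.2) *
      (1 + if w.2 = 0 then 0 else (1 - y) * (x - 1)) * tut (range (m w.1)) (trunc w.2 (ρ w.1)) 1 y)
    (p := fun w => p ^ (r w.1 - w.2) * (t * q + if w.2 = 0 then 0 else s * p))
    (q := fun w => q ^ (r w.1 - w.2) * (t * q))
    (PT.mul (ptPow _ hr2) (PT.add (PT.const _)
      (PT.iteEq PT.snd' (PT.const 0) (PT.const 0) (PT.const _))))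
    (PT.mul (ptPow _ hr2) (PT.const _)) (fun _ _ => by positivity) fun w _ => by
      have e3 : (q : ℚ) ≠ 0 := by exact_mod_cast hq.ne'
      have e4 : (t : ℚ) ≠ 0 := by exact_mod_cast ht.ne'
      rw [e1, e2, div_pow]
      congr 1
      split_ifs <;> push_cast <;> field_simp <;> ring
  obtain ⟨-, _, -, h5⟩ := h.un
  refine h3.sum (hr.add (UN.const 1)) (fun z hz j _ => ⟨hz, ?_⟩) fun z hz => ?_
  · refine mul_nonneg (mul_nonneg (pow_nonneg (by linarith) _) ?_)
      (tut_one_nonneg ((h5 z hz).1.trunc _) _ h0 h1)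
    split_ifs
    · simp
    · have := mul_nonneg (sub_nonneg.2 h1.le) (sub_nonneg.2 hx)
      linarith
  · rw [tut_comb (h5 z hz).1, ← hr' z hz]

/-- both strips -/
theorem ms_strips (H : A80.St_ORC) {x y : ℚ} (hxy : (1 ≤ x ∧ 0 ≤ y ∧ y < 1) ∨ (0 ≤ x ∧ x < 1 ∧ 1 ≤ y))
    (h : Fam m ρ ok) (hk : UN k) : MS k ok fun z => A80.tut (m z) (ρ z) x y := by
  rcases hxy with ⟨h1, h2, h3⟩ | ⟨h1, h2, h3⟩
  · exact ms_xy H h1 h2 h3 h hk
  · obtain ⟨-, _, -, h5⟩ := h.un
    refine (ms_xy H h3 h1 h2 h.dual hk).smul (PT.const 1) (PT.const 1) (fun _ _ => one_pos)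
      fun z hz => ?_
    rw [tut_dual (h5 z hz).1]
    simp [A80.tut, tut]

end Pool.Agent.Lib.FL.H5
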